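import Pool.Agent.Zk75.NormT
import Pool.Agent.H792R2.CE.Core

/-!
# Basins through the chordal distance
-/

set_option autoImplicit false

open Filter Topology Metric Set Polynomial
open scoped OnePoint

namespace Pool.Agent.Zk29.Mu

open Pool.Agent.H792R2.CE Pool.Agent.H792R2.CE.C2x
open Pool.Agent.Helper114.Herman

section
variable {F G : OnePoint ℂ → OnePoint ℂ} {h : OnePoint ℂ ≃ₜ OnePoint ℂ} {L : ℝ}

lemma basin_one (hL1 : 1 ≤ L)
    (hL : ∀ x y, chord (h x) (h y) ≤ L * chord x y ∧ chord x y ≤ L * chord (h x) (h y))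
    (hc : ∀ x, G (h x) = h (F x)) (x : OnePoint ℂ) (hx : Basin F x) : Basin G (h x) := by
  obtain ⟨n, a, hs, ht⟩ := hx
  obtain ⟨m, hm, hs'⟩ := NT.sink_conj' h hL1 hL hc hs
  refine ⟨n * m, h a, hs', ?_⟩
  have h1 : Function.Semiconj h F G := fun x => (hc x).symm
  have h2 : Tendsto (fun k : ℕ => m * k) atTop atTop :=
    tendsto_id.const_mul_atTop' hm
  have h3 := (h.continuous.tendsto a).comp (ht.comp h2)
  refine h3.congr fun k => ?_
  change h (F^[n * (m * k)] x) = G^[n * m * k] (h x)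
  rw [mul_assoc]
  exact (h1.iterate_right _) x

theorem basin_conj (hL1 : 1 ≤ L)
    (hL : ∀ x y, chord (h x) (h y) ≤ L * chord x y ∧ chord x y ≤ L * chord (h x) (h y))
    (hc : ∀ x, G (h x) = h (F x)) (x : OnePoint ℂ) : Basin F x ↔ Basin G (h x) := by
  constructor
  · exact basin_one hL1 hL hc x
  · intro hx
    have h1 := basin_one (F := G) (G := F) (h := h.symm) (L := L) hL1 (fun x y => by
      obtain ⟨h2, h3⟩ := hL (h.symm x) (h.symm y)
      rw [h.apply_symm_apply, h.apply_symm_apply] at h2 h3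
      exact ⟨h3, h2⟩) (fun x => by
        have h2 := hc (h.symm x)
        rw [h.apply_symm_apply] at h2
        rw [h2, h.symm_apply_apply]) (h x) hx
    rwa [h.symm_apply_apply] at h1

end

variable {d : ℕ} {P Q : ℂ[X]}

theorem sink_of_der {n : ℕ} (hn : 0 < n) {z : ℂ}
    (hfin : ∀ i : ℕ, (sph d P Q)^[i] (z : OnePoint ℂ) ≠ ∞)
    (hper : (sph d P Q)^[n] (z : OnePoint ℂ) = (z : OnePoint ℂ))
    (hder : ‖deriv ((rf P Q)^[n]) z‖ < 1) : Sink (sph d P Q) n (z : OnePoint ℂ) := by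
  have horb := orbit hfin
  have hGz : (rf P Q)^[n] z = z := by
    have h1 := (horb n).1
    rw [hper, OnePoint.coe_eq_coe] at h1
    exact h1.symm
  have hQi : ∀ n, ∀ i < n, Q.eval ((rf P Q)^[i] z) ≠ 0 := fun _ i _ => (horb i).2
  have hd : HasDerivAt ((rf P Q)^[n]) (deriv ((rf P Q)^[n]) z) z :=
    (iter_diff n (hQi n)).hasDerivAt
  obtain ⟨lam, hlam1, hlam2⟩ := exists_between hder
  have hlam0 : 0 ≤ lam := (norm_nonneg _).trans hlam1.le
  obtain ⟨q, hq1, hq2⟩ := exists_between hlam2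
  -- contraction
  have ev1 : ∀ᶠ w in 𝓝 z, ‖(rf P Q)^[n] w - z‖ ≤ lam * ‖w - z‖ := by
    have h1 := (hasDerivAt_iff_isLittleO.1 hd).bound
      (show 0 < lam - ‖deriv ((rf P Q)^[n]) z‖ by linarith)
    filter_upwards [h1] with w hw
    rw [hGz] at hw
    have h2 : ‖(rf P Q)^[n] w - z‖ ≤ ‖(rf P Q)^[n] w - z - (w - z) • deriv ((rf P Q)^[n]) z‖ +
        ‖(w - z) • deriv ((rf P Q)^[n]) z‖ := by
      refine le_trans (le_of_eq ?_) (norm_add_le _ _)
      congr 1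
      ring
    rw [norm_smul] at h2
    calc ‖(rf P Q)^[n] w - z‖ ≤ (lam - ‖deriv ((rf P Q)^[n]) z‖) * ‖w - z‖ +
          ‖w - z‖ * ‖deriv ((rf P Q)^[n]) z‖ := h2.trans (add_le_add hw le_rfl)
      _ = lam * ‖w - z‖ := by ring
  have ev2 : ∀ᶠ w in 𝓝 z, ∀ i < n, Q.eval ((rf P Q)^[i] w) ≠ 0 := by
    have h1 : ∀ i ∈ Finset.range n, ∀ᶠ w in 𝓝 z, Q.eval ((rf P Q)^[i] w) ≠ 0 := by
      intro i _
      have h2 : ContinuousAt (fun w => Q.eval ((rf P Q)^[i] w)) z :=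
        ContinuousAt.comp (g := fun y => Q.eval y) Q.continuous.continuousAt
          (iter_diff i (hQi i)).continuousAt
      exact h2.eventually_ne (horb i).2
    have h3 := (Filter.eventually_all_finset (Finset.range n)).2 h1
    filter_upwards [h3] with w hw i hi
    exact hw i (Finset.mem_range.2 hi)
  have ev3 : ∀ᶠ w in 𝓝 z, lam * (√(‖w‖ ^ 2 + 1) / √(‖(rf P Q)^[n] w‖ ^ 2 + 1)) < q := by
    have h1 : ContinuousAt (fun w => lam *
        (√(‖w‖ ^ 2 + 1) / √(‖(rf P Q)^[n] w‖ ^ 2 + 1))) z := by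
      have h2 : ContinuousAt ((rf P Q)^[n]) z := hd.continuousAt
      refine continuousAt_const.mul (ContinuousAt.div ?_ ?_ ?_)
      · exact ((continuous_norm.continuousAt.pow 2).add continuousAt_const).sqrt
      · exact ((h2.norm.pow 2).add continuousAt_const).sqrt
      · exact (Real.sqrt_pos.2 (by positivity)).ne'
    apply h1.eventually_lt_const
    change lam * (√(‖z‖ ^ 2 + 1) / √(‖(rf P Q)^[n] z‖ ^ 2 + 1)) < q
    rw [hGz, div_self (Real.sqrt_pos.2 (by positivity)).ne', mul_one]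
    exact hq1
  refine ⟨hn, hper, q, hq2, ?_⟩
  rw [OnePoint.nhds_coe_eq, Filter.eventually_map]
  filter_upwards [ev1, ev2, ev3] with w h1 h2 h3
  rw [iter_coe n h2, chord_coe, chord_coe]
  have e1 : 0 < √(‖(rf P Q)^[n] w‖ ^ 2 + 1) := Real.sqrt_pos.2 (by positivity)
  have e2 : 0 < √(‖w‖ ^ 2 + 1) := Real.sqrt_pos.2 (by positivity)
  have e3 : 0 < √(‖z‖ ^ 2 + 1) := Real.sqrt_pos.2 (by positivity)
  rw [div_le_iff₀ (mul_pos e1 e3)]
  calc ‖(rf P Q)^[n] w - z‖ ≤ lam * ‖w - z‖ := h1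
    _ = (lam * (√(‖w‖ ^ 2 + 1) / √(‖(rf P Q)^[n] w‖ ^ 2 + 1))) *
        (‖w - z‖ / (√(‖w‖ ^ 2 + 1) * √(‖z‖ ^ 2 + 1))) *
        (√(‖(rf P Q)^[n] w‖ ^ 2 + 1) * √(‖z‖ ^ 2 + 1)) := by
        field_simp
    _ ≤ q * (‖w - z‖ / (√(‖w‖ ^ 2 + 1) * √(‖z‖ ^ 2 + 1))) *
        (√(‖(rf P Q)^[n] w‖ ^ 2 + 1) * √(‖z‖ ^ 2 + 1)) := by
        gcongr

theorem sink_finite (hinf : Att d P Q ∞) {n : ℕ} {a : OnePoint ℂ}
    (hs : Sink (sph d P Q) n a) (i : ℕ) : (sph d P Q)^[i] a ≠ ∞ := by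
  intro h0
  obtain ⟨n', hn', z, -, -, -, ht⟩ := hinf
  have h1 : (sph d P Q)^[n] ∞ = ∞ := by
    rw [← h0, ← Function.iterate_add_apply, add_comm, Function.iterate_add_apply, hs.2.1]
  have h2 : Tendsto (fun k : ℕ => n * k) atTop atTop := tendsto_id.const_mul_atTop' hs.1
  have h3 := ht.comp h2
  have h4 : ∀ k : ℕ, (sph d P Q)^[n' * (n * k)] ∞ = ∞ := by
    intro k
    rw [show n' * (n * k) = n * (n' * k) by ring, Function.iterate_mul]
    exact Function.iterate_fixed h1 _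
  have h5 : (fun k : ℕ => (sph d P Q)^[n' * k] ∞) ∘ (fun k : ℕ => n * k) = fun _ => ∞ := by
    funext k
    exact h4 k
  rw [h5] at h3
  exact OnePoint.coe_ne_infty z (tendsto_nhds_unique h3 tendsto_const_nhds)

theorem basin_iff_att (hcont : Continuous (sph d P Q)) (hinf : Att d P Q ∞) (x : OnePoint ℂ) :
    Basin (sph d P Q) x ↔ Att d P Q x := by
  constructor
  · rintro ⟨n, a, hs, ht⟩
    have hfin := sink_finite hinf hs
    have ha := hfin 0
    rw [Function.iterate_zero_apply] at ha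
    induction a using OnePoint.rec with
    | infty => exact absurd rfl ha
    | coe z => exact ⟨n, hs.1, z, hfin, hs.2.1, NT.der_of_sink' hcont hfin hs, ht⟩
  · rintro ⟨n, hn, z, hfin, hper, hder, ht⟩
    exact ⟨n, z, sink_of_der hn hfin hper hder, ht⟩

end Pool.Agent.Zk29.Mu
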