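import Pool.Agent.Zk29.Mu.G3

/-!
# Locally uniform bounds
-/

set_option autoImplicit false

open Filter Topology Metric Set Polynomial
open scoped OnePoint

namespace Pool.Agent.Zk29.Mu

open Pool.Agent.H792R2.CE Pool.Agent.H792R2.CE.C2x Pool.Agent.Zk29.Rat
open Pool.Agent.Helper114.Herman

variable {d : ℕ} {P Q : ℂ[X]}

/-- The free critical points of nearby maps are close to those of the map. -/
theorem nice_near (hd : 2 ≤ d) (h : Nice d P Q) {ε : ℝ} (hε : 0 < ε) :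
    ∀ᶠ b : Cf d in 𝓝 0, Nice d (P + pl b.1) (Q + pl b.2) ∧
      ∃ g : ℂ → ℂ, (∀ z ∈ Fr d (P + pl b.1) (Q + pl b.2), g z ∈ Fr d P Q ∧ ‖z - g z‖ < ε) ∧
        Set.InjOn g (Fr d (P + pl b.1) (Q + pl b.2)) := by
  classical
  have hd0 : 0 < d := by omega
  obtain ⟨U, U₁, O⟩ := exists_many hd h
  have hFf : (Fr d P Q).Finite := Fr_fin (h.N0 hd0)
  have hUc : IsCompact (closure U) := O.trap.bdd.isCompact_closure
  -- uniqueness near the free critical points
  have hloc : ∀ c ∈ Fr d P Q, ∃ ρ : ℝ, 0 < ρ ∧ ∀ b : Cf d, ‖b‖ < ρ → ∀ z ∈ ball c ρ,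
      ‖(derivative (wr (P + pl b.1) (Q + pl b.2))).eval z - (derivative (wr P Q)).eval c‖ <
        ‖(derivative (wr P Q)).eval c‖ / 2 := by
    intro c hc
    have hL : 0 < ‖(derivative (wr P Q)).eval c‖ := norm_pos_iff.2 (h.sim c hc)
    have h1 : Continuous (fun p : Cf d × ℂ =>
        ‖(derivative (wr (P + pl p.1.1) (Q + pl p.1.2))).eval p.2 -
          (derivative (wr P Q)).eval c‖) := ((W'_cont P Q).sub continuous_const).norm
    have h2 : ∀ᶠ p : Cf d × ℂ in 𝓝 (0, c),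
        ‖(derivative (wr (P + pl p.1.1) (Q + pl p.1.2))).eval p.2 -
          (derivative (wr P Q)).eval c‖ < ‖(derivative (wr P Q)).eval c‖ / 2 := by
      apply h1.continuousAt.eventually_lt_const
      simp only [Prod.fst_zero, Prod.snd_zero, pl_zero, add_zero, sub_self, norm_zero]
      linarith
    obtain ⟨ρ, hρ, h3⟩ := Metric.eventually_nhds_iff.1 h2
    refine ⟨ρ, hρ, fun b hb z hz => h3 (y := (b, z)) ?_⟩
    rw [Prod.dist_eq, max_lt_iff]
    exact ⟨by rwa [dist_zero_right], hz⟩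
  choose! ρ hρ hloc' using hloc
  have huniq : ∀ c ∈ Fr d P Q, ∀ b : Cf d, ‖b‖ < ρ c → ∀ z ∈ ball c (ρ c), ∀ z' ∈ ball c (ρ c),
      (wr (P + pl b.1) (Q + pl b.2)).eval z = 0 → (wr (P + pl b.1) (Q + pl b.2)).eval z' = 0 →
      z = z' := by
    intro c hc b hb z hz z' hz' h1 h2
    obtain ⟨L, hLe⟩ : ∃ L, L = (derivative (wr P Q)).eval c := ⟨_, rfl⟩
    have hL : 0 < ‖L‖ := by rw [hLe]; exact norm_pos_iff.2 (h.sim c hc)
    obtain ⟨Gp, hG⟩ : ∃ Gp, Gp = wr (P + pl b.1) (Q + pl b.2) := ⟨_, rfl⟩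
    rw [← hG] at h1 h2
    have h3 := (convex_ball c (ρ c)).norm_image_sub_le_of_norm_hasDerivWithin_le
      (f := fun w => Gp.eval w - L * w) (f' := fun w => (derivative Gp).eval w - L)
      (C := ‖L‖ / 2) (fun w hw => by
        have h4 := (Gp.hasDerivAt w).sub ((hasDerivAt_id w).const_mul L)
        rw [mul_one] at h4
        exact h4.hasDerivWithinAt) (fun w hw => by
        have h4 := hloc' c hc b hb w hw
        rw [← hG, ← hLe] at h4
        exact h4.le) hz hz'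
    have h5 : Gp.eval z' - L * z' - (Gp.eval z - L * z) = - (L * (z' - z)) := by
      rw [h1, h2]
      ring
    change ‖Gp.eval z' - L * z' - (Gp.eval z - L * z)‖ ≤ _ at h3
    rw [h5, norm_neg, norm_mul] at h3
    by_contra hne
    have h6 : 0 < ‖z' - z‖ := norm_pos_iff.2 (sub_ne_zero.2 (Ne.symm hne))
    have h7 : 0 < ‖L‖ * ‖z' - z‖ := mul_pos hL h6
    have h8 : ‖L‖ / 2 * ‖z' - z‖ = ‖L‖ * ‖z' - z‖ / 2 := by ring
    rw [h8] at h3
    linarith
  -- the critical points in the closure of `U`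
  have e1 : ∀ᶠ b : Cf d in 𝓝 0, ∀ z ∈ closure U,
      (wr (P + pl b.1) (Q + pl b.2)).eval z = 0 →
        ∃ c ∈ Fr d P Q, z ∈ ball c (min (ρ c) ε) := by
    refine hUc.eventually_forall_of_forall_eventually fun z hz => ?_
    by_cases h0 : (wr P Q).eval z = 0
    · have hzc := O.w z hz h0
      have h1 : ∀ᶠ p : Cf d × ℂ in 𝓝 (0, z), p.2 ∈ ball z (min (ρ z) ε) :=
        continuous_snd.continuousAt.eventually_mem
          (isOpen_ball.mem_nhds (mem_ball_self (lt_min (hρ z hzc) hε)))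
      filter_upwards [h1] with p hp _ using ⟨z, hzc, hp⟩
    · have h1 : ∀ᶠ p : Cf d × ℂ in 𝓝 (0, z),
          (wr (P + pl p.1.1) (Q + pl p.1.2)).eval p.2 ≠ 0 := by
        apply (W_cont P Q).continuousAt.eventually_ne
        simp only [Prod.fst_zero, Prod.snd_zero, pl_zero, add_zero]
        exact h0
      filter_upwards [h1] with p hp h2 using absurd h2 hp
  have e2 : ∀ᶠ b : Cf d in 𝓝 0, ∀ c ∈ Fr d P Q, ‖b‖ < ρ c := by
    rw [eventually_all_finite hFf]
    intro c hc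
    have h1 : Continuous (fun b : Cf d => ‖b‖) := continuous_norm
    have h2 : ‖(0 : Cf d)‖ < ρ c := by rw [norm_zero]; exact hρ c hc
    exact (h1.tendsto 0).eventually (Iio_mem_nhds h2)
  have e3 : ∀ᶠ b : Cf d in 𝓝 0, ∀ x ∈ ((fun y : ℂ => (y : OnePoint ℂ)) '' U₁)ᶜ,
      Att d (P + pl b.1) (Q + pl b.2) x := by
    have h1 : IsCompact (((fun y : ℂ => (y : OnePoint ℂ)) '' U₁)ᶜ) :=
      ((OnePoint.isOpenEmbedding_coe (X := ℂ)).isOpenMap _ O.o).isClosed_compl.isCompact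
    refine h1.eventually_forall_of_forall_eventually fun x hx =>
      stable (fun n x => joint hd0 h.cop h.Pd h.Qd n x) ?_
    induction x using OnePoint.rec with
    | infty => exact h.inf
    | coe z =>
      by_contra h2
      exact hx ⟨z, O.n z h2, rfl⟩
  filter_upwards [e1, e2, e3, coprime_ev hd0 h.cop h.Pd h.Qd] with b h1 h2 h3 h4
  have hin : ∀ z : ℂ, ¬ Att d (P + pl b.1) (Q + pl b.2) (z : OnePoint ℂ) → z ∈ closure U := by
    intro z hz
    by_contra hzU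
    apply hz
    apply h3
    rintro ⟨y, hy, hyz⟩
    have h5 : y = z := by simpa using hyz
    rw [h5] at hy
    exact hzU (subset_closure (O.s (subset_closure hy)))
  have hnear : ∀ z ∈ Fr d (P + pl b.1) (Q + pl b.2),
      ∃ c ∈ Fr d P Q, z ∈ ball c (min (ρ c) ε) := fun z hz => h1 z (hin z hz.2) hz.1
  have hsub : ∀ c, ball c (min (ρ c) ε) ⊆ ball c (ρ c) := fun c =>
    ball_subset_ball (min_le_left _ _)
  refine ⟨⟨h4.1, h4.2.1, h4.2.2, ?_, fun z hz => ?_⟩, ?_⟩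
  · apply h3
    rintro ⟨y, hy, hyz⟩
    exact OnePoint.coe_ne_infty y hyz
  · obtain ⟨c, hc, hzc⟩ := hnear z hz
    have h5 := hloc' c hc b (h2 c hc) z (hsub c hzc)
    intro h6
    rw [h6, zero_sub, norm_neg] at h5
    have h7 := norm_nonneg ((derivative (wr P Q)).eval c)
    linarith
  · choose! g hg1 hg2 using hnear
    refine ⟨g, fun z hz => ⟨hg1 z hz, ?_⟩, ?_⟩
    · have h5 := hg2 z hz
      rw [mem_ball, dist_eq_norm] at h5
      exact h5.trans_le (min_le_right _ _)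
    · intro z hz z' hz' hzz
      have h5 := hg2 z hz
      have h6 := hg2 z' hz'
      rw [← hzz] at h6
      exact huniq (g z) (hg1 z hz) b (h2 _ (hg1 z hz)) z (hsub _ h5) z' (hsub _ h6) hz.1 hz'.1

/-- The open set, with the number of free critical points. -/
theorem dense_open' (hd : 2 ≤ d) (h : Nrm d P Q) {ε : ℝ} (hε : 0 < ε) :
    ∃ (b₀ : Cf d) (n₀ : ℕ), ‖b₀‖ < ε ∧ ∀ᶠ b : Cf d in 𝓝 b₀,
      Nice d (P + pl b.1) (Q + pl b.2) ∧ (Fr d (P + pl b.1) (Q + pl b.2)).ncard = n₀ ∧ ‖b‖ < ε ∧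
      Slow d (P + pl b.1) (Q + pl b.2) := by
  classical
  have hd0 : 0 < d := by omega
  have hex : ∃ n : ℕ, ∃ b : Cf d, ‖b‖ < ε ∧ Nice d (P + pl b.1) (Q + pl b.2) ∧
      (Fr d (P + pl b.1) (Q + pl b.2)).ncard = n := by
    obtain ⟨b, hb1, hb2⟩ := exists_nice hd h hε
    exact ⟨_, b, hb1, hb2, rfl⟩
  obtain ⟨b₀, hb₀, hnice, hcard⟩ := Nat.find_spec hex
  obtain ⟨n₀, hn₀⟩ : ∃ n₀, n₀ = Nat.find hex := ⟨_, rfl⟩
  rw [← hn₀] at hcard
  have hmin : ∀ b : Cf d, ‖b‖ < ε → Nice d (P + pl b.1) (Q + pl b.2) →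
      n₀ ≤ (Fr d (P + pl b.1) (Q + pl b.2)).ncard := by
    intro b h1 h2
    rw [hn₀]
    exact Nat.find_min' hex ⟨b, h1, h2, rfl⟩
  refine ⟨b₀, n₀, hb₀, ?_⟩
  have h1 := nice_usc hd hnice
  have h2 : Tendsto (fun b : Cf d => b - b₀) (𝓝 b₀) (𝓝 0) := by
    have h3 : Continuous (fun b : Cf d => b - b₀) := continuous_id.sub continuous_const
    have h4 := h3.tendsto b₀
    simpa using h4
  have h5 : ∀ᶠ b : Cf d in 𝓝 b₀, ‖b‖ < ε :=
    (continuous_norm.tendsto b₀).eventually (Iio_mem_nhds hb₀)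
  filter_upwards [h2.eventually h1, h5] with b h6 h7
  have e1 : P + pl b₀.1 + pl (b - b₀).1 = P + pl b.1 := by
    rw [add_assoc, ← pl_add, ← Prod.fst_add, add_sub_cancel]
  have e2 : Q + pl b₀.2 + pl (b - b₀).2 = Q + pl b.2 := by
    rw [add_assoc, ← pl_add, ← Prod.snd_add, add_sub_cancel]
  rw [e1, e2, hcard] at h6
  obtain ⟨hnb, hcb⟩ := h6
  have hnf : ¬ Fewer d (P + pl b.1) (Q + pl b.2) := by
    intro hfew
    obtain ⟨P', Q', hn', hclose, hlt⟩ := hfew (ε - ‖b‖) (by linarith)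
    obtain ⟨b', hb'⟩ : ∃ b' : Cf d, b' = b +
      (fun i : Fin (d + 1) => P'.coeff i - (P + pl b.1).coeff i,
        fun i : Fin (d + 1) => Q'.coeff i - (Q + pl b.2).coeff i) := ⟨_, rfl⟩
    have hb'n : ‖b'‖ < ε := by
      rw [hb']
      refine lt_of_le_of_lt (norm_add_le _ _) ?_
      have h8 : ‖((fun i : Fin (d + 1) => P'.coeff i - (P + pl b.1).coeff i,
          fun i : Fin (d + 1) => Q'.coeff i - (Q + pl b.2).coeff i) : Cf d)‖ < ε - ‖b‖ := by
        rw [Prod.norm_def, max_lt_iff]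
        constructor
        · rw [pi_norm_lt_iff (by linarith)]
          exact fun j => (hclose j).1
        · rw [pi_norm_lt_iff (by linarith)]
          exact fun j => (hclose j).2
      linarith
    have e3 : P + pl b'.1 = P' := by
      rw [hb', Prod.fst_add, pl_add, ← add_assoc]
      ext k
      rw [coeff_add, pl_coeff]
      split_ifs with h8
      · simp
      · rw [add_zero, coeff_eq_zero_of_natDegree_lt (p := P') (by have := hn'.Pd; omega),
          coeff_eq_zero_of_natDegree_lt (by have := deg_add h.Pd b.1; omega)]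
    have e4 : Q + pl b'.2 = Q' := by
      rw [hb', Prod.snd_add, pl_add, ← add_assoc]
      ext k
      rw [coeff_add, pl_coeff]
      split_ifs with h8
      · simp
      · rw [add_zero, coeff_eq_zero_of_natDegree_lt (p := Q') (by have := hn'.Qd; omega),
          coeff_eq_zero_of_natDegree_lt (by have := deg_add h.Qd.le b.2; omega)]
    have h9 := hmin b' hb'n (by rw [e3, e4]; exact hn')
    rw [e3, e4] at h9
    omega
  refine ⟨hnb, le_antisymm hcb (hmin b h7 hnb), h7, fun c hc => ⟨hnb.sim c hc, ?_⟩⟩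
  obtain ⟨U, U₁, O⟩ := exists_many hd hnb
  exact growth O hnf hc

/-- The derivative of the iterate at the image of `z`, for nearby maps. -/
noncomputable def Ph (d : ℕ) (P Q : ℂ[X]) (n : ℕ) (p : Cf d × ℂ) : ℝ :=
  ∏ j ∈ Finset.range n, ‖(wr (P + pl p.1.1) (Q + pl p.1.2)).eval (gn d P Q (j + 1) p) /
    (Q + pl p.1.2).eval (gn d P Q (j + 1) p) ^ 2‖

lemma Ph_cont {z : ℂ} (h : ∀ i : ℕ, Q.eval ((rf P Q)^[i] z) ≠ 0) (n : ℕ) :
    ContinuousAt (Ph d P Q n) (0, z) := by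
  unfold Ph
  apply tendsto_finsetProd
  intro j _
  have h1 : ContinuousAt (gn d P Q (j + 1)) ((0 : Cf d), z) := (gn_contDiffAt h _).continuousAt
  have h2 : ContinuousAt (fun p : Cf d × ℂ => ((p.1, gn d P Q (j + 1) p) : Cf d × ℂ))
      ((0 : Cf d), z) := continuousAt_fst.prodMk h1
  have h3 : ContinuousAt (fun p : Cf d × ℂ =>
      (wr (P + pl p.1.1) (Q + pl p.1.2)).eval (gn d P Q (j + 1) p)) ((0 : Cf d), z) :=
    ContinuousAt.comp (g := fun p : Cf d × ℂ => (wr (P + pl p.1.1) (Q + pl p.1.2)).eval p.2)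
      (W_cont P Q).continuousAt h2
  have h4 : ContinuousAt (fun p : Cf d × ℂ => (Q + pl p.1.2).eval (gn d P Q (j + 1) p))
      ((0 : Cf d), z) :=
    ContinuousAt.comp (g := fun p : Cf d × ℂ => (Q + pl p.1.2).eval p.2)
      ((ev0 Q).comp snd_c).continuousAt h2
  have h5 : (Q + pl (((0 : Cf d), z) : Cf d × ℂ).1.2).eval (gn d P Q (j + 1) (0, z)) ^ 2 ≠ 0 := by
    rw [gn_zero_left]
    simp only [Prod.snd_zero, pl_zero, add_zero]
    exact pow_ne_zero 2 (h _)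
  exact (h3.div (h4.pow 2) h5).norm

lemma Ph_eq {b : Cf d} {z : ℂ}
    (h : ∀ i : ℕ, (Q + pl b.2).eval ((rf (P + pl b.1) (Q + pl b.2))^[i] z) ≠ 0) (n : ℕ) :
    Ph d P Q n (b, z) = ‖deriv ((rf (P + pl b.1) (Q + pl b.2))^[n])
      (rf (P + pl b.1) (Q + pl b.2) z)‖ := by
  induction n with
  | zero =>
    unfold Ph
    rw [Finset.prod_range_zero, Function.iterate_zero, deriv_id, norm_one]
  | succ n ih =>
    unfold Ph at ih ⊢
    rw [Finset.prod_range_succ, ih, rf_iter_deriv_succ n fun i _ => by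
      have := h (i + 1)
      rwa [Function.iterate_succ_apply] at this, norm_mul, mul_comm]
    rfl

lemma natt_q (h : Nrm d P Q) {z : ℂ} (hz : ¬ Att d P Q (z : OnePoint ℂ)) (i : ℕ) :
    Q.eval ((rf P Q)^[i] z) ≠ 0 :=
  (natt_iter (B1_continuous h.cop h.Pd h.Qd) h.inf hz i).2

/-- The derivatives at the free critical values grow at most like `exp (K (log n) ^ 2)`. -/
def SlowK (K : ℝ) (d : ℕ) (P Q : ℂ[X]) : Prop :=
  ∀ c ∈ Fr d P Q, (derivative (wr P Q)).eval c ≠ 0 ∧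
    ∀ N : ℕ, 2 ≤ N → ‖deriv ((rf P Q)^[N]) (rf P Q c)‖ ≤ Real.exp (K * Real.log N ^ 2)

/-- **The interior of the set of maps with slow free critical points is dense; locally uniform
version.** -/
theorem dense_unif (hd : 2 ≤ d) (h : Nrm d P Q) {ε : ℝ} (hε : 0 < ε) :
    ∃ (b₁ : Cf d) (K : ℝ), ‖b₁‖ < ε ∧ ∀ᶠ b : Cf d in 𝓝 b₁, Nrm d (P + pl b.1) (Q + pl b.2) ∧
      SlowK K d (P + pl b.1) (Q + pl b.2) := by
  classical
  have hd0 : 0 < d := by omega
  obtain ⟨b₀, n₀, hb₀, hev⟩ := dense_open' hd h hε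
  obtain ⟨r, hr, hball⟩ := Metric.eventually_nhds_iff_ball.1 hev
  obtain ⟨F, hF⟩ : ∃ F : ℕ → Set (Cf d), F = fun K : ℕ => {b | b ∈ ball b₀ r →
    ∀ c ∈ Fr d (P + pl b.1) (Q + pl b.2), ∀ n : ℕ, 2 ≤ n →
      ‖deriv ((rf (P + pl b.1) (Q + pl b.2))^[n]) (rf (P + pl b.1) (Q + pl b.2) c)‖ ≤
        Real.exp ((K : ℝ) * Real.log n ^ 2)} := ⟨_, rfl⟩
  have hFc : ∀ K, IsClosed (F K) := by
    intro K
    rw [← isOpen_compl_iff, isOpen_iff_mem_nhds]
    intro b hb
    rw [hF, mem_compl_iff, mem_ofPred_eq] at hb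
    push Not at hb
    obtain ⟨hbB, c, hc, n, hn, hgt⟩ := hb
    obtain ⟨hnb, hcb, -, -⟩ := hball b hbB
    have hq : ∀ i : ℕ, (Q + pl b.2).eval ((rf (P + pl b.1) (Q + pl b.2))^[i] c) ≠ 0 :=
      natt_q hnb.nrm hc.2
    have hcont := Ph_cont (d := d) hq n
    have h0 : Real.exp (K * Real.log n ^ 2) < Ph d (P + pl b.1) (Q + pl b.2) n (0, c) := by
      rw [Ph_eq (b := (0 : Cf d)) (z := c) (by
        simp only [Prod.fst_zero, Prod.snd_zero, pl_zero, add_zero]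
        exact hq)]
      simp only [Prod.fst_zero, Prod.snd_zero, pl_zero, add_zero]
      exact hgt
    have h1 : ∀ᶠ p : Cf d × ℂ in 𝓝 (0, c), Real.exp (K * Real.log n ^ 2) <
        Ph d (P + pl b.1) (Q + pl b.2) n p := hcont.eventually_const_lt h0
    obtain ⟨ρ, hρ, h2⟩ := Metric.eventually_nhds_iff.1 h1
    have h3 := nice_near hd hnb hρ
    have h4 : Tendsto (fun b' : Cf d => b' - b) (𝓝 b) (𝓝 0) := by
      have h5 : Continuous (fun b' : Cf d => b' - b) := continuous_id.sub continuous_const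
      have h6 := h5.tendsto b
      simpa using h6
    have h5 : ∀ᶠ e : Cf d in 𝓝 0, ‖e‖ < ρ := by
      have h6 : ‖(0 : Cf d)‖ < ρ := by rw [norm_zero]; exact hρ
      exact (continuous_norm.tendsto (0 : Cf d)).eventually (Iio_mem_nhds h6)
    filter_upwards [h4.eventually h3, h4.eventually h5, isOpen_ball.mem_nhds hbB] with b' h6 h7 h8
    have e1 : P + pl b.1 + pl (b' - b).1 = P + pl b'.1 := by
      rw [add_assoc, ← pl_add, ← Prod.fst_add, add_sub_cancel]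
    have e2 : Q + pl b.2 + pl (b' - b).2 = Q + pl b'.2 := by
      rw [add_assoc, ← pl_add, ← Prod.snd_add, add_sub_cancel]
    rw [e1, e2] at h6
    obtain ⟨hnb', g, hg1, hg2⟩ := h6
    obtain ⟨-, hcb', -, -⟩ := hball b' h8
    have hfin : (Fr d (P + pl b.1) (Q + pl b.2)).Finite := Fr_fin (hnb.N0 hd0)
    have himg : g '' Fr d (P + pl b'.1) (Q + pl b'.2) = Fr d (P + pl b.1) (Q + pl b.2) := by
      apply Set.eq_of_subset_of_ncard_le
      · rintro _ ⟨z, hz, rfl⟩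
        exact (hg1 z hz).1
      · rw [Set.ncard_image_of_injOn hg2, hcb, hcb']
      · exact hfin
    rw [← himg] at hc
    obtain ⟨z, hz, hzc⟩ := hc
    have h9 : ‖z - c‖ < ρ := by
      rw [← hzc]
      exact (hg1 z hz).2
    have h10 := h2 (y := (b' - b, z)) (by
      rw [Prod.dist_eq, max_lt_iff]
      refine ⟨by rwa [dist_zero_right], by rwa [dist_eq_norm]⟩)
    rw [Ph_eq (by
      rw [e1, e2]
      exact natt_q hnb'.nrm hz.2), e1, e2] at h10
    rw [hF, mem_compl_iff, mem_ofPred_eq]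
    intro h11
    have h12 := h11 h8 z hz n hn
    linarith
  have hFu : ⋃ K, F K = univ := by
    rw [eq_univ_iff_forall]
    intro b
    rw [mem_iUnion]
    by_cases hbB : b ∈ ball b₀ r
    swap
    · exact ⟨0, by rw [hF, mem_ofPred_eq]; exact fun h => absurd h hbB⟩
    obtain ⟨hnb, -, -, hslow⟩ := hball b hbB
    have hslow' : ∀ c ∈ Fr d (P + pl b.1) (Q + pl b.2), ∃ K : ℝ, ∀ N : ℕ, 2 ≤ N →
        ‖deriv ((rf (P + pl b.1) (Q + pl b.2))^[N]) (rf (P + pl b.1) (Q + pl b.2) c)‖ ≤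
          Real.exp (K * Real.log N ^ 2) := fun c hc => (hslow c hc).2
    choose! Kc h2 using hslow'
    have hfin : (Fr d (P + pl b.1) (Q + pl b.2)).Finite := Fr_fin (hnb.N0 hd0)
    obtain ⟨M, hM⟩ : ∃ M : ℝ, ∀ c ∈ Fr d (P + pl b.1) (Q + pl b.2), Kc c ≤ M := by
      obtain ⟨M, hM⟩ := (hfin.image Kc).bddAbove
      exact ⟨M, fun c hc => hM ⟨c, hc, rfl⟩⟩
    obtain ⟨K, hK⟩ := exists_nat_ge M
    refine ⟨K, ?_⟩
    rw [hF, mem_ofPred_eq]
    intro _ c hc n hn
    refine (h2 c hc n hn).trans (Real.exp_le_exp.2 ?_)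
    have := (hM c hc).trans hK
    gcongr
  have hdense := dense_iUnion_interior_of_closed hFc hFu
  obtain ⟨b₁, hb₁, hb₁'⟩ := hdense.inter_open_nonempty (ball b₀ r) isOpen_ball
    ⟨b₀, mem_ball_self hr⟩
  rw [mem_iUnion] at hb₁'
  obtain ⟨K, hK⟩ := hb₁'
  refine ⟨b₁, K, (hball b₁ hb₁).2.2.1, ?_⟩
  filter_upwards [isOpen_interior.mem_nhds hK, isOpen_ball.mem_nhds hb₁] with b h1 h2
  obtain ⟨hnb, -, -, -⟩ := hball b h2
  have h3 := interior_subset h1
  rw [hF, mem_ofPred_eq] at h3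
  exact ⟨hnb.nrm, fun c hc => ⟨hnb.sim c hc, h3 h2 c hc⟩⟩

/-- The points which are not attracted are bounded, for all nearby maps. -/
theorem natt_bdd (hd : 0 < d) (h : Nrm d P Q) : ∃ R : ℝ, ∀ᶠ b : Cf d in 𝓝 0, ∀ z : ℂ,
    ¬ Att d (P + pl b.1) (Q + pl b.2) (z : OnePoint ℂ) → ‖z‖ ≤ R := by
  have h1 := stable (fun n x => joint hd h.cop h.Pd h.Qd n x) h.inf
  rw [nhds_prod_eq] at h1
  obtain ⟨pa, hpa, pb, hpb, h2⟩ := Filter.eventually_prod_iff.1 h1
  rw [OnePoint.nhds_infty_eq, Filter.eventually_sup] at hpb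
  have h3 : ∀ᶠ z : ℂ in Bornology.cobounded ℂ, pb (z : OnePoint ℂ) := by
    have h4 := hpb.1
    rw [Filter.eventually_map] at h4
    rwa [Filter.coclosedCompact_eq_cocompact, ← Metric.cobounded_eq_cocompact] at h4
  rw [← comap_norm_atTop, Filter.eventually_comap] at h3
  obtain ⟨R, hR⟩ := Filter.eventually_atTop.1 h3
  refine ⟨R, ?_⟩
  filter_upwards [hpa] with b hb z hz
  by_contra hcon
  push Not at hcon
  exact hz (h2 hb (hR ‖z‖ hcon.le z rfl))

end Pool.Agent.Zk29.Mu
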