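import Pool.Agent.Zk29.Mu.R1
import Pool.Agent.Zk29.Mu.G4

/-!
# Density of the maps with slow growth and slow recurrence, locally uniform version
-/

set_option autoImplicit false

open Filter Topology Metric Set Polynomial
open scoped OnePoint

namespace Pool.Agent.Zk29.Mu

open Pool.Agent.H792R2.CE Pool.Agent.H792R2.CE.C2x Pool.Agent.Zk29.Rat
open Pool.Agent.Helper114.Herman

variable {d : ℕ} {P Q : ℂ[X]}

/-- The free critical points are simple, with slow growth of the derivatives at their values and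
with slow recurrence. -/
def TameK (K : ℝ) (d : ℕ) (P Q : ℂ[X]) : Prop :=
  ∀ c ∈ Fr d P Q, (derivative (wr P Q)).eval c ≠ 0 ∧ ∀ N : ℕ, 2 ≤ N →
    ‖deriv ((rf P Q)^[N]) (rf P Q c)‖ ≤ Real.exp (K * Real.log N ^ 2) ∧
    Real.exp (-(K * Real.log N ^ 2)) ≤ ‖(rf P Q)^[N] (rf P Q c) - c‖

/-- The open set, with the number of free critical points. -/
theorem dense_open2 (hd : 2 ≤ d) (h : Nrm d P Q) {ε : ℝ} (hε : 0 < ε) :
    ∃ (b₀ : Cf d) (n₀ : ℕ), ‖b₀‖ < ε ∧ ∀ᶠ b : Cf d in 𝓝 b₀,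
      Nice d (P + pl b.1) (Q + pl b.2) ∧ (Fr d (P + pl b.1) (Q + pl b.2)).ncard = n₀ ∧ ‖b‖ < ε ∧
      ∃ K : ℝ, TameK K d (P + pl b.1) (Q + pl b.2) := by
  classical
  have hd0 : 0 < d := by omega
  have hex : ∃ n : ℕ, ∃ b : Cf d, ‖b‖ < ε ∧ Nice d (P + pl b.1) (Q + pl b.2) ∧
      (Fr d (P + pl b.1) (Q + pl b.2)).ncard = n := by
    obtain ⟨b, hb1, hb2⟩ := exists_nice hd h hε
    exact ⟨_, b, hb1, hb2, rfl⟩
  obtain ⟨b₀, hb₀, hnice, hcard⟩ := Nat.find_spec hex
  obtain ⟨n₀, hn₀⟩ : ∃ n₀, n₀ = Nat.find hex := ⟨_, rfl⟩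
  rw [← hn₀] at hcard
  have hmin : ∀ b : Cf d, ‖b‖ < ε → Nice d (P + pl b.1) (Q + pl b.2) →
      n₀ ≤ (Fr d (P + pl b.1) (Q + pl b.2)).ncard := by
    intro b h1 h2
    rw [hn₀]
    exact Nat.find_min' hex ⟨b, h1, h2, rfl⟩
  refine ⟨b₀, n₀, hb₀, ?_⟩
  have h1 := nice_usc hd hnice
  have h2 : Tendsto (fun b : Cf d => b - b₀) (𝓝 b₀) (𝓝 0) := by
    have h3 : Continuous (fun b : Cf d => b - b₀) := continuous_id.sub continuous_const
    have h4 := h3.tendsto b₀
    simpa using h4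
  have h5 : ∀ᶠ b : Cf d in 𝓝 b₀, ‖b‖ < ε :=
    (continuous_norm.tendsto b₀).eventually (Iio_mem_nhds hb₀)
  filter_upwards [h2.eventually h1, h5] with b h6 h7
  have e1 : P + pl b₀.1 + pl (b - b₀).1 = P + pl b.1 := by
    rw [add_assoc, ← pl_add, ← Prod.fst_add, add_sub_cancel]
  have e2 : Q + pl b₀.2 + pl (b - b₀).2 = Q + pl b.2 := by
    rw [add_assoc, ← pl_add, ← Prod.snd_add, add_sub_cancel]
  rw [e1, e2, hcard] at h6
  obtain ⟨hnb, hcb⟩ := h6
  have hnf : ¬ Fewer d (P + pl b.1) (Q + pl b.2) := by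
    intro hfew
    obtain ⟨P', Q', hn', hclose, hlt⟩ := hfew (ε - ‖b‖) (by linarith)
    obtain ⟨b', hb'⟩ : ∃ b' : Cf d, b' = b +
      (fun i : Fin (d + 1) => P'.coeff i - (P + pl b.1).coeff i,
        fun i : Fin (d + 1) => Q'.coeff i - (Q + pl b.2).coeff i) := ⟨_, rfl⟩
    have hb'n : ‖b'‖ < ε := by
      rw [hb']
      refine lt_of_le_of_lt (norm_add_le _ _) ?_
      have h8 : ‖((fun i : Fin (d + 1) => P'.coeff i - (P + pl b.1).coeff i,
          fun i : Fin (d + 1) => Q'.coeff i - (Q + pl b.2).coeff i) : Cf d)‖ < ε - ‖b‖ := by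
        rw [Prod.norm_def, max_lt_iff]
        constructor
        · rw [pi_norm_lt_iff (by linarith)]
          exact fun j => (hclose j).1
        · rw [pi_norm_lt_iff (by linarith)]
          exact fun j => (hclose j).2
      linarith
    have e3 : P + pl b'.1 = P' := by
      rw [hb', Prod.fst_add, pl_add, ← add_assoc]
      ext k
      rw [coeff_add, pl_coeff]
      split_ifs with h8
      · simp
      · rw [add_zero, coeff_eq_zero_of_natDegree_lt (p := P') (by have := hn'.Pd; omega),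
          coeff_eq_zero_of_natDegree_lt (by have := deg_add h.Pd b.1; omega)]
    have e4 : Q + pl b'.2 = Q' := by
      rw [hb', Prod.snd_add, pl_add, ← add_assoc]
      ext k
      rw [coeff_add, pl_coeff]
      split_ifs with h8
      · simp
      · rw [add_zero, coeff_eq_zero_of_natDegree_lt (p := Q') (by have := hn'.Qd; omega),
          coeff_eq_zero_of_natDegree_lt (by have := deg_add h.Qd.le b.2; omega)]
    have h9 := hmin b' hb'n (by rw [e3, e4]; exact hn')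
    rw [e3, e4] at h9
    omega
  obtain ⟨U, U₁, O⟩ := exists_many hd hnb
  obtain ⟨K, hK⟩ := growth_recur O hnf
  exact ⟨hnb, le_antisymm hcb (hmin b h7 hnb), h7, K, fun c hc => ⟨hnb.sim c hc, hK c hc⟩⟩

/-- **The interior of the set of maps with slow free critical points is dense; locally uniform
version.** -/
theorem dense_unif2 (hd : 2 ≤ d) (h : Nrm d P Q) {ε : ℝ} (hε : 0 < ε) :
    ∃ (b₁ : Cf d) (K : ℝ), ‖b₁‖ < ε ∧ ∀ᶠ b : Cf d in 𝓝 b₁, Nrm d (P + pl b.1) (Q + pl b.2) ∧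
      TameK K d (P + pl b.1) (Q + pl b.2) := by
  classical
  have hd0 : 0 < d := by omega
  obtain ⟨b₀, n₀, hb₀, hev⟩ := dense_open2 hd h hε
  obtain ⟨r, hr, hball⟩ := Metric.eventually_nhds_iff_ball.1 hev
  obtain ⟨F, hF⟩ : ∃ F : ℕ → Set (Cf d), F = fun K : ℕ => {b | b ∈ ball b₀ r →
    ∀ c ∈ Fr d (P + pl b.1) (Q + pl b.2), ∀ n : ℕ, 2 ≤ n →
      ‖deriv ((rf (P + pl b.1) (Q + pl b.2))^[n]) (rf (P + pl b.1) (Q + pl b.2) c)‖ ≤
        Real.exp ((K : ℝ) * Real.log n ^ 2) ∧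
      Real.exp (-((K : ℝ) * Real.log n ^ 2)) ≤
        ‖(rf (P + pl b.1) (Q + pl b.2))^[n] (rf (P + pl b.1) (Q + pl b.2) c) - c‖} := ⟨_, rfl⟩
  have hFc : ∀ K, IsClosed (F K) := by
    intro K
    rw [← isOpen_compl_iff, isOpen_iff_mem_nhds]
    intro b hb
    rw [hF, mem_compl_iff, mem_ofPred_eq] at hb
    push Not at hb
    obtain ⟨hbB, c, hc, n, hn, hgt⟩ := hb
    obtain ⟨hnb, hcb, -, -⟩ := hball b hbB
    have hq : ∀ i : ℕ, (Q + pl b.2).eval ((rf (P + pl b.1) (Q + pl b.2))^[i] c) ≠ 0 :=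
      natt_q hnb.nrm hc.2
    have hcont := Ph_cont (d := d) hq n
    have hcont2 : ContinuousAt (fun p : Cf d × ℂ =>
        ‖gn d (P + pl b.1) (Q + pl b.2) (n + 1) p - p.2‖) ((0 : Cf d), c) :=
      ((gn_contDiffAt hq (n + 1)).continuousAt.sub continuousAt_snd).norm
    have h1 : ∀ᶠ p : Cf d × ℂ in 𝓝 (0, c), Real.exp (K * Real.log n ^ 2) <
        Ph d (P + pl b.1) (Q + pl b.2) n p ∨
        ‖gn d (P + pl b.1) (Q + pl b.2) (n + 1) p - p.2‖ <
          Real.exp (-((K : ℝ) * Real.log n ^ 2)) := by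
      by_cases h00 : ‖deriv ((rf (P + pl b.1) (Q + pl b.2))^[n])
          (rf (P + pl b.1) (Q + pl b.2) c)‖ ≤ Real.exp ((K : ℝ) * Real.log n ^ 2)
      · have h01 := hgt h00
        have h02 : ‖gn d (P + pl b.1) (Q + pl b.2) (n + 1) ((0 : Cf d), c) -
            (((0 : Cf d), c) : Cf d × ℂ).2‖ < Real.exp (-((K : ℝ) * Real.log n ^ 2)) := by
          rw [gn_zero_left, Function.iterate_succ_apply]
          exact h01
        filter_upwards [hcont2.eventually_lt_const h02] with p hp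
        exact Or.inr hp
      · push Not at h00
        have h0 : Real.exp (K * Real.log n ^ 2) < Ph d (P + pl b.1) (Q + pl b.2) n (0, c) := by
          rw [Ph_eq (b := (0 : Cf d)) (z := c) (by
            simp only [Prod.fst_zero, Prod.snd_zero, pl_zero, add_zero]
            exact hq)]
          simp only [Prod.fst_zero, Prod.snd_zero, pl_zero, add_zero]
          exact h00
        filter_upwards [hcont.eventually_const_lt h0] with p hp
        exact Or.inl hp
    obtain ⟨ρ, hρ, h2⟩ := Metric.eventually_nhds_iff.1 h1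
    have h3 := nice_near hd hnb hρ
    have h4 : Tendsto (fun b' : Cf d => b' - b) (𝓝 b) (𝓝 0) := by
      have h5 : Continuous (fun b' : Cf d => b' - b) := continuous_id.sub continuous_const
      have h6 := h5.tendsto b
      simpa using h6
    have h5 : ∀ᶠ e : Cf d in 𝓝 0, ‖e‖ < ρ := by
      have h6 : ‖(0 : Cf d)‖ < ρ := by rw [norm_zero]; exact hρ
      exact (continuous_norm.tendsto (0 : Cf d)).eventually (Iio_mem_nhds h6)
    filter_upwards [h4.eventually h3, h4.eventually h5, isOpen_ball.mem_nhds hbB] with b' h6 h7 h8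
    have e1 : P + pl b.1 + pl (b' - b).1 = P + pl b'.1 := by
      rw [add_assoc, ← pl_add, ← Prod.fst_add, add_sub_cancel]
    have e2 : Q + pl b.2 + pl (b' - b).2 = Q + pl b'.2 := by
      rw [add_assoc, ← pl_add, ← Prod.snd_add, add_sub_cancel]
    rw [e1, e2] at h6
    obtain ⟨hnb', g, hg1, hg2⟩ := h6
    obtain ⟨-, hcb', -, -⟩ := hball b' h8
    have hfin : (Fr d (P + pl b.1) (Q + pl b.2)).Finite := Fr_fin (hnb.N0 hd0)
    have himg : g '' Fr d (P + pl b'.1) (Q + pl b'.2) = Fr d (P + pl b.1) (Q + pl b.2) := by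
      apply Set.eq_of_subset_of_ncard_le
      · rintro _ ⟨z, hz, rfl⟩
        exact (hg1 z hz).1
      · rw [Set.ncard_image_of_injOn hg2, hcb, hcb']
      · exact hfin
    rw [← himg] at hc
    obtain ⟨z, hz, hzc⟩ := hc
    have h9 : ‖z - c‖ < ρ := by
      rw [← hzc]
      exact (hg1 z hz).2
    have h10 := h2 (y := (b' - b, z)) (by
      rw [Prod.dist_eq, max_lt_iff]
      refine ⟨by rwa [dist_zero_right], by rwa [dist_eq_norm]⟩)
    rw [Ph_eq (by
      rw [e1, e2]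
      exact natt_q hnb'.nrm hz.2)] at h10
    unfold gn at h10
    rw [e1, e2, Function.iterate_succ_apply] at h10
    rw [hF, mem_compl_iff, mem_ofPred_eq]
    intro h11
    have h12 := h11 h8 z hz n hn
    rcases h10 with h10 | h10
    · linarith [h12.1]
    · linarith [h12.2]
  have hFu : ⋃ K, F K = univ := by
    rw [eq_univ_iff_forall]
    intro b
    rw [mem_iUnion]
    by_cases hbB : b ∈ ball b₀ r
    swap
    · exact ⟨0, by rw [hF, mem_ofPred_eq]; exact fun h => absurd h hbB⟩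
    obtain ⟨hnb, -, -, K', hK'⟩ := hball b hbB
    obtain ⟨K, hK⟩ := exists_nat_ge K'
    refine ⟨K, ?_⟩
    rw [hF, mem_ofPred_eq]
    intro _ c hc n hn
    obtain ⟨h3, h4⟩ := (hK' c hc).2 n hn
    refine ⟨h3.trans (Real.exp_le_exp.2 (by gcongr)), le_trans (Real.exp_le_exp.2 ?_) h4⟩
    rw [neg_le_neg_iff]
    gcongr
  have hdense := dense_iUnion_interior_of_closed hFc hFu
  obtain ⟨b₁, hb₁, hb₁'⟩ := hdense.inter_open_nonempty (ball b₀ r) isOpen_ball
    ⟨b₀, mem_ball_self hr⟩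
  rw [mem_iUnion] at hb₁'
  obtain ⟨K, hK⟩ := hb₁'
  refine ⟨b₁, K, (hball b₁ hb₁).2.2.1, ?_⟩
  filter_upwards [isOpen_interior.mem_nhds hK, isOpen_ball.mem_nhds hb₁] with b h1 h2
  obtain ⟨hnb, -, -, -⟩ := hball b h2
  have h3 := interior_subset h1
  rw [hF, mem_ofPred_eq] at h3
  exact ⟨hnb.nrm, fun c hc => ⟨hnb.sim c hc, h3 h2 c hc⟩⟩

end Pool.Agent.Zk29.Mu
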