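import Pool.Agent.Zk29.Mu.A0
import Pool.Agent.Zk29.Mu.R2

/-!
# From normalised maps to all rational maps with attracting cycles
-/

set_option autoImplicit false

open Filter Topology Metric Set Polynomial
open scoped OnePoint

namespace Pool.Agent.Zk29.Mu

open Pool.Agent.H792R2.CE Pool.Agent.H792R2.CE.C2x
open Pool.Agent.Helper114.Herman

/-- The map has an attracting cycle. -/
def HasSink (f : OnePoint ℂ → OnePoint ℂ) : Prop := ∃ n a, Sink f n a

/-- The free critical points. -/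
def FrG (d : ℕ) (P Q : ℂ[X]) : Set (OnePoint ℂ) :=
  {c | 1 ≤ mult d P Q c ∧ ¬ Basin (sph d P Q) c}

/-- Slow growth and slow recurrence at the value of `c`. -/
def TameC (K : ℝ) (f : OnePoint ℂ → OnePoint ℂ) (c : OnePoint ℂ) : Prop :=
  ∀ n : ℕ, 2 ≤ n →
    (∀ᶠ y in 𝓝 (f c), chord (f^[n] y) (f^[n] (f c)) ≤
      Real.exp (K * Real.log n ^ 2) * chord y (f c)) ∧
    Real.exp (-(K * Real.log n ^ 2)) ≤ chord (f^[n] (f c)) c

/-- The conjugating Möbius map `w ↦ b + 1 / w`. -/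
def Mob (b : ℂ) (h : OnePoint ℂ ≃ₜ OnePoint ℂ) : Prop :=
  ∀ u v : ℂ, ¬ (u = 0 ∧ v = 0) → h (pr u v) = pr (b * u + v) u

variable {d : ℕ} {P Q : ℂ[X]} {b : ℂ} {h : OnePoint ℂ ≃ₜ OnePoint ℂ} {L : ℝ}

lemma nrm_rd (hN : Nrm d P Q) : RD d P Q :=
  ⟨hN.cop, by rw [hN.Qd]; exact max_eq_right hN.Pd⟩

/-- The data of a normalisation. -/
structure Cj (d : ℕ) (P Q : ℂ[X]) (b : ℂ) (h : OnePoint ℂ ≃ₜ OnePoint ℂ) (L : ℝ) : Prop where
  hd : 0 < d
  rd : RD d P Q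
  nrm : Nrm d (tP d b P Q) (tQ d b P Q)
  mob : Mob b h
  L1 : 1 ≤ L
  lip : ∀ x y, chord (h x) (h y) ≤ L * chord x y ∧ chord x y ≤ L * chord (h x) (h y)

lemma Cj.conj (J : Cj d P Q b h L) (x : OnePoint ℂ) :
    sph d P Q (h x) = h (sph d (tP d b P Q) (tQ d b P Q) x) :=
  conj_t J.hd J.rd J.mob x

lemma Cj.conj_iter (J : Cj d P Q b h L) (n : ℕ) (x : OnePoint ℂ) :
    (sph d P Q)^[n] (h x) = h ((sph d (tP d b P Q) (tQ d b P Q))^[n] x) := by
  have h1 : Function.Semiconj h (sph d (tP d b P Q) (tQ d b P Q)) (sph d P Q) :=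
    fun x => (J.conj x).symm
  exact ((h1.iterate_right n) x).symm

lemma Cj.cf (J : Cj d P Q b h L) : Continuous (sph d P Q) := sph_cont J.hd J.rd

lemma Cj.cg (J : Cj d P Q b h L) : Continuous (sph d (tP d b P Q) (tQ d b P Q)) :=
  sph_cont J.hd (nrm_rd J.nrm)

lemma Cj.basin (J : Cj d P Q b h L) (x : OnePoint ℂ) :
    Basin (sph d P Q) (h x) ↔ Att d (tP d b P Q) (tQ d b P Q) x := by
  rw [← basin_iff_att J.cg J.nrm.inf x]
  exact (basin_conj J.L1 J.lip J.conj x).symm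

lemma Cj.W0 (J : Cj d P Q b h L) : wr (tP d b P Q) (tQ d b P Q) ≠ 0 :=
  wr_ne_zero J.hd J.nrm.cop J.nrm.Qd

lemma Cj.W (J : Cj d P Q b h L) : wr P Q ≠ 0 := by
  intro h0
  have h1 := wr_t (b := b) J.hd (rd_deg J.rd).1 (rd_deg J.rd).2
  rw [h0] at h1
  have h2 : tr (2 * d) b (0 : ℂ[X]) = 0 := by
    unfold tr
    simp
  rw [h2] at h1
  rcases mul_eq_zero.1 h1 with h3 | h3
  · exact absurd h3 (pow_ne_zero 2 X_ne_zero)
  · exact J.W0 h3

lemma Cj.mult (J : Cj d P Q b h L) (w : ℂ) :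
    mult d P Q (h (w : OnePoint ℂ)) = (wr (tP d b P Q) (tQ d b P Q)).rootMultiplicity w := by
  rw [mult_t J.hd (rd_deg J.rd).1 (rd_deg J.rd).2 J.W w]
  have h1 : h (w : OnePoint ℂ) = pr (b * w + 1) w := by
    rw [← pr_one w]
    exact J.mob w 1 (fun h => one_ne_zero h.2)
  rw [h1]
  split_ifs with hw
  · rw [hw, pr_zero]
    rfl
  · rw [pr_ne hw]
    have h2 : (b * w + 1) / w = b + w⁻¹ := by field_simp
    rw [h2]
    rfl

lemma Cj.frg (J : Cj d P Q b h L) :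
    FrG d P Q = (fun w : ℂ => h (w : OnePoint ℂ)) '' Fr d (tP d b P Q) (tQ d b P Q) := by
  ext c
  obtain ⟨x, rfl⟩ := h.surjective c
  constructor
  · rintro ⟨h1, h2⟩
    rw [J.basin] at h2
    induction x using OnePoint.rec with
    | infty => exact absurd J.nrm.inf h2
    | coe w =>
      refine ⟨w, ⟨?_, h2⟩, rfl⟩
      rw [J.mult w] at h1
      exact (rootMultiplicity_pos J.W0).1 h1
  · rintro ⟨w, ⟨h1, h2⟩, h3⟩
    have h4 : (w : OnePoint ℂ) = x := h.injective h3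
    rw [← h4]
    refine ⟨?_, ?_⟩
    · rw [J.mult w]
      exact (rootMultiplicity_pos J.W0).2 h1
    · rw [J.basin]
      exact h2

lemma coe_inj (h : OnePoint ℂ ≃ₜ OnePoint ℂ) :
    Function.Injective (fun w : ℂ => h (w : OnePoint ℂ)) := fun _ _ hw =>
  OnePoint.coe_injective (h.injective hw)

lemma Cj.card (J : Cj d P Q b h L) :
    (FrG d P Q).ncard = (Fr d (tP d b P Q) (tQ d b P Q)).ncard := by
  rw [J.frg, Set.ncard_image_of_injective _ (coe_inj h)]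

lemma Cj.fin (J : Cj d P Q b h L) : (FrG d P Q).Finite := by
  rw [J.frg]
  exact (Fr_fin J.W0).image _

lemma Cj.has (J : Cj d P Q b h L) : HasSink (sph d P Q) := by
  obtain ⟨n, hn, z, hfin, hper, hder, -⟩ := J.nrm.inf
  obtain ⟨m, -, hm⟩ := NT.sink_conj' h J.L1 J.lip J.conj (sink_of_der hn hfin hper hder)
  exact ⟨_, _, hm⟩

/-- Simple free critical points. -/
lemma Cj.nice (J : Cj d P Q b h L) :
    (∀ c ∈ FrG d P Q, Mu.mult d P Q c = 1) ↔ Nice d (tP d b P Q) (tQ d b P Q) := by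
  constructor
  · intro h1
    refine ⟨J.nrm.cop, J.nrm.Pd, J.nrm.Qd, J.nrm.inf, fun w hw h2 => ?_⟩
    have h3 := h1 (h (w : OnePoint ℂ)) (by rw [J.frg]; exact ⟨w, hw, rfl⟩)
    rw [J.mult w] at h3
    have h4 := (one_lt_rootMultiplicity_iff_isRoot J.W0).2 ⟨hw.1, h2⟩
    omega
  · intro h1 c hc
    rw [J.frg] at hc
    obtain ⟨w, hw, rfl⟩ := hc
    simp only
    rw [J.mult w]
    exact h1.mul J.hd hw

/-- The constant of the conjugate map. -/
noncomputable def tk (L R K : ℝ) : ℝ :=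
  |K| + Real.log (2 * L ^ 2 * (1 + (R + 1) ^ 2)) / Real.log 2 ^ 2

lemma tk_le {L R K : ℝ} (hL : 1 ≤ L) {n : ℕ} (hn : 2 ≤ n) :
    2 * L ^ 2 * (1 + (R + 1) ^ 2) * Real.exp (K * Real.log n ^ 2) ≤
      Real.exp (tk L R K * Real.log n ^ 2) := by
  have hC : 1 ≤ 2 * L ^ 2 * (1 + (R + 1) ^ 2) := by
    have h1 : 1 ≤ L ^ 2 := one_le_pow₀ hL
    have h2 : (0 : ℝ) ≤ (R + 1) ^ 2 := sq_nonneg _
    nlinarith
  have hl2 : 0 < Real.log 2 := Real.log_pos (by norm_num)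
  have hn2 : (2 : ℝ) ≤ n := by exact_mod_cast hn
  have hln : Real.log 2 ≤ Real.log n := Real.log_le_log (by norm_num) hn2
  have h4 := Real.log_nonneg hC
  have h3 : Real.log (2 * L ^ 2 * (1 + (R + 1) ^ 2)) ≤
      Real.log (2 * L ^ 2 * (1 + (R + 1) ^ 2)) / Real.log 2 ^ 2 * Real.log n ^ 2 := by
    rw [div_mul_eq_mul_div, le_div_iff₀ (by positivity)]
    gcongr
  calc 2 * L ^ 2 * (1 + (R + 1) ^ 2) * Real.exp (K * Real.log n ^ 2)
      = Real.exp (Real.log (2 * L ^ 2 * (1 + (R + 1) ^ 2)) + K * Real.log n ^ 2) := by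
        rw [Real.exp_add, Real.exp_log (by linarith)]
    _ ≤ _ := by
        apply Real.exp_le_exp.2
        unfold tk
        have h5 := le_abs_self K
        have h6 : K * Real.log n ^ 2 ≤ |K| * Real.log n ^ 2 := by gcongr
        linarith

lemma ev_coe {v : ℂ} (n : ℕ) (hq : ∀ i : ℕ, Q.eval ((rf P Q)^[i] v) ≠ 0) :
    ∀ᶠ y : ℂ in 𝓝 v, (sph d P Q)^[n] (y : OnePoint ℂ) = (((rf P Q)^[n] y : ℂ) : OnePoint ℂ) := by
  have ev2 : ∀ᶠ w in 𝓝 v, ∀ i < n, Q.eval ((rf P Q)^[i] w) ≠ 0 := by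
    have h1 : ∀ i ∈ Finset.range n, ∀ᶠ w in 𝓝 v, Q.eval ((rf P Q)^[i] w) ≠ 0 := by
      intro i _
      have h2 : ContinuousAt (fun w => Q.eval ((rf P Q)^[i] w)) v :=
        ContinuousAt.comp (g := fun y => Q.eval y) Q.continuous.continuousAt
          (iter_diff i fun j _ => hq j).continuousAt
      exact h2.eventually_ne (hq i)
    have h3 := (Filter.eventually_all_finset (Finset.range n)).2 h1
    filter_upwards [h3] with w hw i hi
    exact hw i (Finset.mem_range.2 hi)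
  filter_upwards [ev2] with y hy
  exact iter_coe n hy

/-- Planar bounds give the chordal bounds of the conjugate map. -/
theorem Cj.tame (J : Cj d P Q b h L) {R K : ℝ} (hR0 : 0 ≤ R)
    (hR : ∀ z : ℂ, ¬ Att d (tP d b P Q) (tQ d b P Q) (z : OnePoint ℂ) → ‖z‖ ≤ R) {c : ℂ}
    (hc : c ∈ Fr d (tP d b P Q) (tQ d b P Q))
    (hK : ∀ N : ℕ, 2 ≤ N →
      ‖deriv ((rf (tP d b P Q) (tQ d b P Q))^[N]) (rf (tP d b P Q) (tQ d b P Q) c)‖ ≤
        Real.exp (K * Real.log N ^ 2) ∧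
      Real.exp (-(K * Real.log N ^ 2)) ≤
        ‖(rf (tP d b P Q) (tQ d b P Q))^[N] (rf (tP d b P Q) (tQ d b P Q) c) - c‖) :
    TameC (tk L R K) (sph d P Q) (h (c : OnePoint ℂ)) := by
  have hit := J.conj_iter
  have hlip := J.lip
  have hL1 := J.L1
  have hco := J.conj
  have hN := J.nrm
  obtain ⟨S, hS⟩ : ∃ S, S = tP d b P Q := ⟨_, rfl⟩
  obtain ⟨T, hT⟩ : ∃ T, T = tQ d b P Q := ⟨_, rfl⟩
  rw [← hS, ← hT] at hR hc hK hit hco hN
  have hq : ∀ i : ℕ, T.eval ((rf S T)^[i] c) ≠ 0 := natt_q hN hc.2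
  have hqv : ∀ i : ℕ, T.eval ((rf S T)^[i] (rf S T c)) ≠ 0 := by
    intro i
    have := hq (i + 1)
    rwa [Function.iterate_succ_apply] at this
  have hna : ∀ i : ℕ, ‖(rf S T)^[i] c‖ ≤ R := fun i =>
    hR _ (natt_iter (B1_continuous hN.cop hN.Pd hN.Qd) hN.inf hc.2 i).1
  have hcv : sph d S T (c : OnePoint ℂ) = ((rf S T c : ℂ) : OnePoint ℂ) :=
    sph_coe_of_ne (hq 0)
  have hv : ‖rf S T c‖ ≤ R := hna 1
  intro n hn
  obtain ⟨hg, hr⟩ := hK n hn
  have hE : 0 < Real.exp (K * Real.log n ^ 2) := Real.exp_pos _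
  have hfc : sph d P Q (h (c : OnePoint ℂ)) = h ((rf S T c : ℂ) : OnePoint ℂ) := by
    rw [hco, hcv]
  have hchn : ∀ x y, 0 ≤ chord x y := chord_nonneg
  constructor
  · have h1 := chord_deriv (F := (sph d S T)^[n]) (g := (rf S T)^[n]) (v := rf S T c) (R := R)
      (B := 2 * Real.exp (K * Real.log n ^ 2)) hv (ev_coe n hqv)
      (iter_diff n fun j _ => hqv j) (by linarith)
    have h2 := chord_conj (F := (sph d S T)^[n]) (G := (sph d P Q)^[n]) (h := h) (L := L)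
      (M := 2 * Real.exp (K * Real.log n ^ 2) * (1 + (R + 1) ^ 2)) (by linarith) (by positivity)
      hlip (hit n) h1
    rw [hfc]
    filter_upwards [h2] with y hy
    refine hy.trans (mul_le_mul_of_nonneg_right ?_ (hchn _ _))
    refine le_trans (le_of_eq ?_) (tk_le (L := L) (R := R) (K := K) hL1 hn)
    ring
  · rw [hfc, hit n, iter_coe n fun j _ => hqv j]
    have h1 := (hlip (((rf S T)^[n] (rf S T c) : ℂ) : OnePoint ℂ) (c : OnePoint ℂ)).2
    have hb1 : ‖(rf S T)^[n] (rf S T c)‖ ≤ R := by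
      have := hna (n + 1)
      rwa [Function.iterate_succ_apply] at this
    have h2 := dist_le_chord hb1 (hna 0)
    rw [Function.iterate_zero_apply] at h2
    have h3 : Real.exp (-(K * Real.log n ^ 2)) ≤ (1 + R ^ 2) * (L *
        chord (h (((rf S T)^[n] (rf S T c) : ℂ) : OnePoint ℂ)) (h (c : OnePoint ℂ))) :=
      hr.trans (h2.trans (by gcongr))
    obtain ⟨x, hx⟩ : ∃ x, x = chord (h (((rf S T)^[n] (rf S T c) : ℂ) : OnePoint ℂ))
      (h (c : OnePoint ℂ)) := ⟨_, rfl⟩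
    rw [← hx] at h3 ⊢
    have hx0 : 0 ≤ x := by rw [hx]; exact hchn _ _
    have h4 := tk_le (L := L) (R := R) (K := K) hL1 hn
    rw [Real.exp_neg, inv_le_iff_one_le_mul₀ hE] at h3
    rw [Real.exp_neg, inv_le_iff_one_le_mul₀ (Real.exp_pos _)]
    refine h3.trans ?_
    have h5 : (1 + R ^ 2) * L ≤ 2 * L ^ 2 * (1 + (R + 1) ^ 2) := by
      have h6 : L ≤ L ^ 2 := by nlinarith
      have h7 : 1 + R ^ 2 ≤ 1 + (R + 1) ^ 2 := by nlinarith
      have h8 : 0 ≤ L ^ 2 * (1 + (R + 1) ^ 2) := by positivity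
      calc (1 + R ^ 2) * L ≤ (1 + (R + 1) ^ 2) * L ^ 2 := by gcongr
        _ ≤ _ := by linarith
    calc (1 + R ^ 2) * (L * x) * Real.exp (K * Real.log n ^ 2)
        = x * (((1 + R ^ 2) * L) * Real.exp (K * Real.log n ^ 2)) := by ring
      _ ≤ x * ((2 * L ^ 2 * (1 + (R + 1) ^ 2)) * Real.exp (K * Real.log n ^ 2)) := by gcongr
      _ ≤ x * Real.exp (tk L R K * Real.log n ^ 2) := by gcongr

/-- Every rational map with an attracting cycle can be normalised. -/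
theorem exists_cj (hd : 0 < d) (h0 : RD d P Q) (hs : HasSink (sph d P Q)) :
    ∃ (b : ℂ) (h : OnePoint ℂ ≃ₜ OnePoint ℂ) (L : ℝ), Cj d P Q b h L := by
  obtain ⟨n, a, ha⟩ := hs
  obtain ⟨b, h1, h2, h3, h4⟩ := exists_b hd h0 ha
  obtain ⟨h, hh⟩ := mob_exists b
  obtain ⟨L, hL, hlip⟩ := mob_lip b
  exact ⟨b, h, L, hd, h0, ⟨h1, h2, h3, h4⟩, hh, hL, hlip h hh⟩

/-- The same normalisation for another map. -/
theorem Cj.other (J : Cj d P Q b h L) {P' Q' : ℂ[X]} (hP : P'.natDegree ≤ d)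
    (hQ : Q'.natDegree ≤ d) (hN : Nrm d (tP d b P' Q') (tQ d b P' Q')) : Cj d P' Q' b h L :=
  ⟨J.hd, (rd_t J.hd hP hQ).1 (nrm_rd hN), hN, J.mob, J.L1, J.lip⟩

/-- The same normalisation for a map given by its conjugate. -/
theorem Cj.back (J : Cj d P Q b h L) {S T : ℂ[X]} (hN : Nrm d S T) :
    Cj d (iP d b S T) (iQ d b S T) b h L := by
  refine J.other iP_deg iQ_deg ?_
  rw [tP_i hN.Pd, tQ_i hN.Pd hN.Qd.le]
  exact hN

/-- The coefficients of the inverse conjugation. -/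
lemma back_close (d : ℕ) (b : ℂ) : ∃ L : ℝ, 0 < L ∧ ∀ (S T S' T' : ℂ[X]) (δ : ℝ), 0 < δ →
    (∀ k, ‖S'.coeff k - S.coeff k‖ < δ ∧ ‖T'.coeff k - T.coeff k‖ < δ) →
      ∀ i, ‖(iP d b S' T').coeff i - (iP d b S T).coeff i‖ < L * δ ∧
        ‖(iQ d b S' T').coeff i - (iQ d b S T).coeff i‖ < L * δ := by
  obtain ⟨L, hL, h1⟩ := ti_close d b
  refine ⟨L * (1 + ‖b‖), by positivity, fun S T S' T' δ hδ h i => ?_⟩
  constructor
  · have h2 : ∀ k, ‖(T' + C b * S').coeff k - (T + C b * S).coeff k‖ < (1 + ‖b‖) * δ := by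
      intro k
      rw [coeff_add, coeff_add, coeff_C_mul, coeff_C_mul]
      have h3 : T'.coeff k + b * S'.coeff k - (T.coeff k + b * S.coeff k) =
          (T'.coeff k - T.coeff k) + b * (S'.coeff k - S.coeff k) := by ring
      rw [h3]
      refine lt_of_le_of_lt (norm_add_le _ _) ?_
      rw [norm_mul]
      have h4 := (h k).1
      have h5 := (h k).2
      have h6 : ‖b‖ * ‖S'.coeff k - S.coeff k‖ ≤ ‖b‖ * δ := by gcongr
      linarith
    have h3 := h1 _ _ _ (by positivity) h2 i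
    unfold iP
    calc _ < L * ((1 + ‖b‖) * δ) := h3
      _ = _ := by ring
  · have h3 := h1 S S' δ hδ (fun k => (h k).1) i
    unfold iQ
    refine h3.trans_le ?_
    have : 0 ≤ ‖b‖ := norm_nonneg b
    have h4 : L * δ ≤ L * (1 + ‖b‖) * δ := by
      have : L ≤ L * (1 + ‖b‖) := le_mul_of_one_le_right hL.le (by linarith)
      gcongr
    exact h4

/-- The coefficients of the conjugation. -/
lemma forth_close (d : ℕ) (b : ℂ) : ∃ L : ℝ, 0 < L ∧ ∀ (P Q P' Q' : ℂ[X]) (δ : ℝ), 0 < δ →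
    (∀ k, ‖P'.coeff k - P.coeff k‖ < δ ∧ ‖Q'.coeff k - Q.coeff k‖ < δ) →
      ∀ i, ‖(tP d b P' Q').coeff i - (tP d b P Q).coeff i‖ < L * δ ∧
        ‖(tQ d b P' Q').coeff i - (tQ d b P Q).coeff i‖ < L * δ := by
  obtain ⟨L, hL, h1⟩ := tr_close d b
  refine ⟨L * (1 + ‖b‖), by positivity, fun P Q P' Q' δ hδ h i => ?_⟩
  have h2 := h1 P P' δ hδ (fun k => (h k).1) i
  have h3 := h1 Q Q' δ hδ (fun k => (h k).2) i
  have hb : 0 ≤ ‖b‖ := norm_nonneg b
  constructor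
  · unfold tP
    refine h3.trans_le ?_
    have h4 : L ≤ L * (1 + ‖b‖) := le_mul_of_one_le_right hL.le (by linarith)
    gcongr
  · unfold tQ
    rw [coeff_sub, coeff_sub, coeff_C_mul, coeff_C_mul]
    have h4 : (tr d b P').coeff i - b * (tr d b Q').coeff i -
        ((tr d b P).coeff i - b * (tr d b Q).coeff i) =
        ((tr d b P').coeff i - (tr d b P).coeff i) -
          b * ((tr d b Q').coeff i - (tr d b Q).coeff i) := by ring
    rw [h4]
    refine lt_of_le_of_lt (norm_sub_le _ _) ?_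
    rw [norm_mul]
    have h5 : ‖b‖ * ‖(tr d b Q').coeff i - (tr d b Q).coeff i‖ ≤ ‖b‖ * (L * δ) := by gcongr
    calc _ < L * δ + ‖b‖ * (L * δ) := by linarith
      _ = _ := by ring

end Pool.Agent.Zk29.Mu
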