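import Pool.Agent.Zk29.Mu.A1

/-!
# The theorem for all rational maps with attracting cycles
-/

set_option autoImplicit false

open Filter Topology Metric Set Polynomial
open scoped OnePoint

namespace Pool.Agent.Zk29.Mu

open Pool.Agent.H792R2.CE Pool.Agent.H792R2.CE.C2x
open Pool.Agent.Helper114.Herman

variable {d : ℕ} {P Q : ℂ[X]} {b : ℂ} {h : OnePoint ℂ ≃ₜ OnePoint ℂ} {L : ℝ}

/-- Closeness of the coefficients. -/
def Cl (ε : ℝ) (P Q P' Q' : ℂ[X]) : Prop :=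
  ∀ i : ℕ, ‖P'.coeff i - P.coeff i‖ < ε ∧ ‖Q'.coeff i - Q.coeff i‖ < ε

/-- All the critical points are attracted by sinks. -/
def Hyp (P Q : ℂ[X]) : Prop :=
  ∃ f : OnePoint ℂ → OnePoint ℂ, Continuous f ∧
    (∀ z : ℂ, Q.eval z ≠ 0 →
      f (OnePoint.some z) = OnePoint.some (P.eval z / Q.eval z)) ∧
    ∀ c : OnePoint ℂ, (¬ ∃ U ∈ nhds c, Set.InjOn f U) →
      ∃ z : OnePoint ℂ, ∃ n : ℕ, 0 < n ∧ f^[n] z = z ∧
        (∃ U ∈ nhds z, ∀ w ∈ U,
          Filter.Tendsto (fun k : ℕ => f^[n * k] w) Filter.atTop (nhds z)) ∧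
        Filter.Tendsto (fun k : ℕ => f^[n * k] c) Filter.atTop (nhds z)

/-- No free critical points: the formula of the frozen statement. -/
theorem Cj.hyp (J : Cj d P Q b h L) (he : FrG d P Q = ∅) : Hyp P Q := by
  refine ⟨sph d P Q, J.cf, fun z hz => sph_coe_of_ne hz, fun c hc => ?_⟩
  obtain ⟨x, rfl⟩ := h.surjective c
  have hatt : Att d (tP d b P Q) (tQ d b P Q) x := by
    by_contra hx
    induction x using OnePoint.rec with
    | infty => exact hx J.nrm.inf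
    | coe w =>
      have hQ := natt_q J.nrm hx 0
      rw [Function.iterate_zero_apply] at hQ
      have hw : (wr (tP d b P Q) (tQ d b P Q)).eval w = 0 := by
        by_contra h0
        obtain ⟨U, hU, hinj⟩ := C4_inj (d := d) hQ h0
        apply hc
        refine ⟨h '' U, ?_, ?_⟩
        · exact h.isOpenMap.image_mem_nhds hU
        · rintro _ ⟨u, hu, rfl⟩ _ ⟨v, hv, rfl⟩ huv
          rw [J.conj, J.conj] at huv
          rw [hinj hu hv (h.injective huv)]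
      have : h (w : OnePoint ℂ) ∈ FrG d P Q := by
        rw [J.frg]
        exact ⟨w, ⟨hw, hx⟩, rfl⟩
      rw [he] at this
      exact this
  obtain ⟨z, n, hn, hper, ⟨U, hU, hUt⟩, ht⟩ := C3_sinks J.cg hatt
  have hlim : ∀ x : OnePoint ℂ, Tendsto (fun k : ℕ =>
      (sph d (tP d b P Q) (tQ d b P Q))^[n * k] x) atTop (𝓝 z) →
      Tendsto (fun k : ℕ => (sph d P Q)^[n * k] (h x)) atTop (𝓝 (h z)) := by
    intro x hx
    have h1 := (h.continuous.tendsto z).comp hx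
    refine h1.congr fun k => ?_
    exact (J.conj_iter (n * k) x).symm
  refine ⟨h z, n, hn, ?_, ⟨h '' U, h.isOpenMap.image_mem_nhds hU, ?_⟩, hlim x ht⟩
  · rw [J.conj_iter, hper]
  · rintro _ ⟨u, hu, rfl⟩
    exact hlim u (hUt u hu)

/-- The first part. -/
theorem part1 (hd : 2 ≤ d) (h0 : RD d P Q) (hs : HasSink (sph d P Q))
    (hsim : ∀ c ∈ FrG d P Q, mult d P Q c = 1)
    (hc : ∃ c ∈ FrG d P Q, ∀ K : ℝ, ¬ TameC K (sph d P Q) c) {ε : ℝ} (hε : 0 < ε) :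
    ∃ P' Q' : ℂ[X], RD d P' Q' ∧ Cl ε P Q P' Q' ∧ HasSink (sph d P' Q') ∧
      (∀ c ∈ FrG d P' Q', mult d P' Q' c = 1) ∧ (FrG d P' Q').Finite ∧
      (FrG d P' Q').ncard < (FrG d P Q).ncard ∧ (FrG d P' Q' = ∅ → Hyp P' Q') := by
  obtain ⟨b, h, L, J⟩ := exists_cj (by omega) h0 hs
  have hnice := J.nice.1 hsim
  have hfew : Fewer d (tP d b P Q) (tQ d b P Q) := by
    by_contra hna
    obtain ⟨U, U₁, O⟩ := exists_many hd hnice
    obtain ⟨K, hK⟩ := growth_recur O hna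
    obtain ⟨R, hR⟩ := natt_bdd J.hd J.nrm
    have hR' : ∀ z : ℂ, ¬ Att d (tP d b P Q) (tQ d b P Q) (z : OnePoint ℂ) → ‖z‖ ≤ R := by
      intro z hz
      have h1 := hR.self_of_nhds z
      simp only [Prod.fst_zero, Prod.snd_zero, pl_zero, add_zero] at h1
      exact h1 hz
    obtain ⟨c, hcF, hct⟩ := hc
    rw [J.frg] at hcF
    obtain ⟨w, hw, rfl⟩ := hcF
    exact hct _ (J.tame (R := max 0 R) (le_max_left _ _)
      (fun z hz => (hR' z hz).trans (le_max_right _ _)) hw (hK w hw))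
  obtain ⟨L', hL', hback⟩ := back_close d b
  obtain ⟨S, T, hn, hcl, hlt⟩ := hfew (ε / L') (by positivity)
  have J' := J.back hn.nrm
  have hS : tP d b (iP d b S T) (iQ d b S T) = S := tP_i hn.Pd
  have hT : tQ d b (iP d b S T) (iQ d b S T) = T := tQ_i hn.Pd hn.Qd.le
  refine ⟨iP d b S T, iQ d b S T, J'.rd, ?_, J'.has, ?_, J'.fin, ?_, J'.hyp⟩
  · intro i
    have h1 := hback _ _ _ _ (ε / L') (by positivity) hcl i
    rw [iP_t (rd_deg h0).1, iQ_t (rd_deg h0).2] at h1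
    have e : L' * (ε / L') = ε := by field_simp
    rwa [e] at h1
  · rw [J'.nice, hS, hT]
    exact hn
  · rw [J'.card, J.card, hS, hT]
    exact hlt

/-- The second part, near a map with an attracting cycle. -/
theorem part2' (hd : 2 ≤ d) (h0 : RD d P Q) (hs : HasSink (sph d P Q)) {ε : ℝ} (hε : 0 < ε) :
    ∃ P₁ Q₁ : ℂ[X], RD d P₁ Q₁ ∧ Cl ε P Q P₁ Q₁ ∧ (∃ η K : ℝ, 0 < η ∧
      ∀ P' Q' : ℂ[X], P'.natDegree ≤ d → Q'.natDegree ≤ d → Cl η P₁ Q₁ P' Q' →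
        RD d P' Q' ∧ ∀ c ∈ FrG d P' Q', mult d P' Q' c = 1 ∧ TameC K (sph d P' Q') c) ∧
      HasSink (sph d P₁ Q₁) ∧ (FrG d P₁ Q₁).Finite ∧ (FrG d P₁ Q₁ = ∅ → Hyp P₁ Q₁) ∧
      ((∀ c ∈ FrG d P Q, mult d P Q c = 1) → (FrG d P₁ Q₁).ncard ≤ (FrG d P Q).ncard) := by
  obtain ⟨b, h, L, J⟩ := exists_cj (by omega) h0 hs
  obtain ⟨L₁, hL₁, hback⟩ := back_close d b
  obtain ⟨L₂, hL₂, hforth⟩ := forth_close d b
  obtain ⟨ρ₀, hρ₀, husc⟩ : ∃ ρ₀ : ℝ, 0 < ρ₀ ∧ ((∀ c ∈ FrG d P Q, mult d P Q c = 1) →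
      ∀ e : Cf d, ‖e‖ < ρ₀ → (Fr d (tP d b P Q + pl e.1) (tQ d b P Q + pl e.2)).ncard ≤
        (Fr d (tP d b P Q) (tQ d b P Q)).ncard) := by
    by_cases hsim : ∀ c ∈ FrG d P Q, mult d P Q c = 1
    · obtain ⟨ρ₀, hρ₀, h1⟩ := Metric.eventually_nhds_iff.1 (nice_usc hd (J.nice.1 hsim))
      exact ⟨ρ₀, hρ₀, fun _ e he => (h1 (by rwa [dist_zero_right])).2⟩
    · exact ⟨1, one_pos, fun h => absurd h hsim⟩
  obtain ⟨b₁, K, hb₁', hev⟩ := dense_unif2 hd J.nrm (ε := min (ε / L₁) ρ₀) (by positivity)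
  have hb₁ : ‖b₁‖ < ε / L₁ := hb₁'.trans_le (min_le_left _ _)
  have hb₁'' : ‖b₁‖ < ρ₀ := hb₁'.trans_le (min_le_right _ _)
  obtain ⟨S, hS⟩ : ∃ S, S = tP d b P Q + pl b₁.1 := ⟨_, rfl⟩
  obtain ⟨T, hT⟩ : ∃ T, T = tQ d b P Q + pl b₁.2 := ⟨_, rfl⟩
  have hnrm : Nrm d S T := by
    rw [hS, hT]
    exact hev.self_of_nhds.1
  obtain ⟨R, hR⟩ := natt_bdd J.hd hnrm
  have hsub : Tendsto (fun b' : Cf d => b' + b₁) (𝓝 0) (𝓝 b₁) := by
    have h3 : Continuous (fun b' : Cf d => b' + b₁) := continuous_id.add continuous_const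
    have h4 := h3.tendsto 0
    simpa using h4
  obtain ⟨ρ, hρ, hball⟩ := Metric.eventually_nhds_iff.1 (hR.and (hsub.eventually hev))
  have J₁ := J.back hnrm
  have hS₁ : tP d b (iP d b S T) (iQ d b S T) = S := tP_i hnrm.Pd
  have hT₁ : tQ d b (iP d b S T) (iQ d b S T) = T := tQ_i hnrm.Pd hnrm.Qd.le
  refine ⟨iP d b S T, iQ d b S T, J₁.rd, ?_, ⟨ρ / L₂, tk L (max 0 R) K, by positivity, ?_⟩,
    J₁.has, J₁.fin, J₁.hyp, fun hsim => ?_⟩
  · intro i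
    have hle : ∀ {A : ℂ[X]} {a : Fin (d + 1) → ℂ}, (∀ j, ‖a j‖ < ε / L₁) → ∀ i,
        ‖(A + pl a).coeff i - A.coeff i‖ < ε / L₁ := by
      intro A a ha i
      rw [coeff_add, add_sub_cancel_left, pl_coeff]
      split_ifs with h1
      · exact ha _
      · rw [norm_zero]
        positivity
    have hb1 : ∀ j, ‖b₁.1 j‖ < ε / L₁ := fun j =>
      (norm_le_pi_norm b₁.1 j).trans_lt ((norm_fst_le b₁).trans_lt hb₁)
    have hb2 : ∀ j, ‖b₁.2 j‖ < ε / L₁ := fun j =>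
      (norm_le_pi_norm b₁.2 j).trans_lt ((norm_snd_le b₁).trans_lt hb₁)
    have h1 := hback (tP d b P Q) (tQ d b P Q) S T (ε / L₁) (by positivity) (fun k => by
      rw [hS, hT]
      exact ⟨hle hb1 k, hle hb2 k⟩) i
    rw [iP_t (rd_deg h0).1, iQ_t (rd_deg h0).2] at h1
    have e : L₁ * (ε / L₁) = ε := by field_simp
    rwa [e] at h1
  · intro P' Q' hP' hQ' hcl
    have h1 : ∀ i, ‖(tP d b P' Q').coeff i - S.coeff i‖ < ρ ∧
        ‖(tQ d b P' Q').coeff i - T.coeff i‖ < ρ := by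
      intro i
      have h2 := hforth (iP d b S T) (iQ d b S T) P' Q' (ρ / L₂) (by positivity) hcl i
      rw [hS₁, hT₁] at h2
      have e : L₂ * (ρ / L₂) = ρ := by field_simp
      rwa [e] at h2
    obtain ⟨a, ha⟩ : ∃ a : Cf d, a =
      (fun i : Fin (d + 1) => (tP d b P' Q').coeff i - S.coeff i,
        fun i : Fin (d + 1) => (tQ d b P' Q').coeff i - T.coeff i) := ⟨_, rfl⟩
    have han : dist a 0 < ρ := by
      rw [dist_zero_right, ha, Prod.norm_def, max_lt_iff]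
      constructor
      · rw [pi_norm_lt_iff hρ]
        exact fun j => (h1 j).1
      · rw [pi_norm_lt_iff hρ]
        exact fun j => (h1 j).2
    have e3 : S + pl a.1 = tP d b P' Q' := by
      rw [ha]
      ext k
      rw [coeff_add, pl_coeff]
      split_ifs with h8
      · simp
      · rw [add_zero, coeff_eq_zero_of_natDegree_lt (p := tP d b P' Q')
          (by have : (tP d b P' Q').natDegree ≤ d := tP_deg
              omega),
          coeff_eq_zero_of_natDegree_lt (by have := hnrm.Pd; omega)]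
    have e4 : T + pl a.2 = tQ d b P' Q' := by
      rw [ha]
      ext k
      rw [coeff_add, pl_coeff]
      split_ifs with h8
      · simp
      · rw [add_zero, coeff_eq_zero_of_natDegree_lt (p := tQ d b P' Q')
          (by have : (tQ d b P' Q').natDegree ≤ d := tQ_deg
              omega),
          coeff_eq_zero_of_natDegree_lt (by have := hnrm.Qd; omega)]
    obtain ⟨h5, h6, h7⟩ := hball han
    have e5 : tP d b P Q + pl (a + b₁).1 = tP d b P' Q' := by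
      rw [← e3, hS, Prod.fst_add, pl_add]
      ring
    have e6 : tQ d b P Q + pl (a + b₁).2 = tQ d b P' Q' := by
      rw [← e4, hT, Prod.snd_add, pl_add]
      ring
    rw [e5, e6] at h6 h7
    rw [e3, e4] at h5
    have J' := J.other hP' hQ' h6
    refine ⟨J'.rd, fun c hc => ?_⟩
    rw [J'.frg] at hc
    obtain ⟨w, hw, rfl⟩ := hc
    obtain ⟨h8, h9⟩ := h7 w hw
    constructor
    · simp only
      rw [J'.mult w]
      have h10 : 0 < (wr (tP d b P' Q') (tQ d b P' Q')).rootMultiplicity w :=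
        (rootMultiplicity_pos J'.W0).2 hw.1
      have h11 : ¬ 1 < (wr (tP d b P' Q') (tQ d b P' Q')).rootMultiplicity w := by
        intro h3
        exact h8 ((one_lt_rootMultiplicity_iff_isRoot J'.W0).1 h3).2
      omega
    · exact J'.tame (R := max 0 R) (le_max_left _ _)
        (fun z hz => (h5 z hz).trans (le_max_right _ _)) hw h9
  · rw [J₁.card, J.card, hS₁, hT₁, hS, hT]
    exact husc hsim b₁ hb₁''

lemma Cl.trans {ε₁ ε₂ : ℝ} {P₀ Q₀ P₁ Q₁ : ℂ[X]} (h1 : Cl ε₁ P Q P₀ Q₀) (h2 : Cl ε₂ P₀ Q₀ P₁ Q₁) :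
    Cl (ε₁ + ε₂) P Q P₁ Q₁ := by
  intro i
  constructor
  · have h7 := norm_add_le (P₁.coeff i - P₀.coeff i) (P₀.coeff i - P.coeff i)
    rw [sub_add_sub_cancel] at h7
    have := (h1 i).1
    have := (h2 i).1
    linarith
  · have h7 := norm_add_le (Q₁.coeff i - Q₀.coeff i) (Q₀.coeff i - Q.coeff i)
    rw [sub_add_sub_cancel] at h7
    have := (h1 i).2
    have := (h2 i).2
    linarith

/-- **The theorem.** -/
theorem main (hd : 2 ≤ d) (h0 : RD d P Q) {ε : ℝ} (hε : 0 < ε) :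
    ∃ P₁ Q₁ : ℂ[X], RD d P₁ Q₁ ∧ Cl ε P Q P₁ Q₁ ∧
      (∃ η K : ℝ, 0 < η ∧
        ∀ P' Q' : ℂ[X], P'.natDegree ≤ d → Q'.natDegree ≤ d → Cl η P₁ Q₁ P' Q' →
          RD d P' Q' ∧ (HasSink (sph d P' Q') →
            ∀ c ∈ FrG d P' Q', mult d P' Q' c = 1 ∧ TameC K (sph d P' Q') c)) ∧
      (HasSink (sph d P Q) → (∀ c ∈ FrG d P Q, mult d P Q c = 1) →
        (∃ c ∈ FrG d P Q, ∀ K : ℝ, ¬ TameC K (sph d P Q) c) →
        HasSink (sph d P₁ Q₁) ∧ (FrG d P₁ Q₁).Finite ∧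
          (FrG d P₁ Q₁).ncard < (FrG d P Q).ncard ∧ (FrG d P₁ Q₁ = ∅ → Hyp P₁ Q₁)) := by
  by_cases hall : HasSink (sph d P Q) ∧ (∀ c ∈ FrG d P Q, mult d P Q c = 1) ∧
      (∃ c ∈ FrG d P Q, ∀ K : ℝ, ¬ TameC K (sph d P Q) c)
  · obtain ⟨hs, hsim, hbad⟩ := hall
    obtain ⟨P₀, Q₀, h1, h2, h3, h4, -, h5, -⟩ := part1 hd h0 hs hsim hbad (ε := ε / 2)
      (by positivity)
    obtain ⟨P₁, Q₁, g1, g2, ⟨η, K, hη, g3⟩, g4, g5, g6, g7⟩ := part2' hd h1 h3 (ε := ε / 2)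
      (by positivity)
    refine ⟨P₁, Q₁, g1, ?_, ⟨η, K, hη, fun P' Q' hP' hQ' hcl =>
      ⟨(g3 P' Q' hP' hQ' hcl).1, fun _ => (g3 P' Q' hP' hQ' hcl).2⟩⟩,
      fun _ _ _ => ⟨g4, g5, (g7 h4).trans_lt h5, g6⟩⟩
    have := h2.trans g2
    rwa [add_halves] at this
  by_cases H : ∃ P₀ Q₀ : ℂ[X], RD d P₀ Q₀ ∧ Cl (ε / 2) P Q P₀ Q₀ ∧ HasSink (sph d P₀ Q₀)
  · obtain ⟨P₀, Q₀, h1, h2, h3⟩ := H
    obtain ⟨P₁, Q₁, h4, h5, ⟨η, K, hη, h6⟩, -⟩ := part2' hd h1 h3 (ε := ε / 2) (by positivity)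
    refine ⟨P₁, Q₁, h4, ?_, ⟨η, K, hη, fun P' Q' hP' hQ' hcl =>
      ⟨(h6 P' Q' hP' hQ' hcl).1, fun _ => (h6 P' Q' hP' hQ' hcl).2⟩⟩,
      fun a1 a2 a3 => absurd ⟨a1, a2, a3⟩ hall⟩
    have := h2.trans h5
    rwa [add_halves] at this
  · obtain ⟨η, hη, hop⟩ := rd_open (by omega : 0 < d) h0
    refine ⟨P, Q, h0, fun i => by simp [hε], ⟨min η (ε / 2), 0, by positivity,
      fun P' Q' hP' hQ' hcl => ?_⟩, fun a1 a2 a3 => absurd ⟨a1, a2, a3⟩ hall⟩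
    have h1 : RD d P' Q' := hop P' Q' hP' hQ' fun i =>
      ⟨(hcl i).1.trans_le (min_le_left _ _), (hcl i).2.trans_le (min_le_left _ _)⟩
    refine ⟨h1, fun hs => absurd ⟨P', Q', h1, fun i => ?_, hs⟩ H⟩
    exact ⟨(hcl i).1.trans_le (min_le_right _ _), (hcl i).2.trans_le (min_le_right _ _)⟩

end Pool.Agent.Zk29.Mu
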