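import Mathlib
import Pool.Agent.Helper114.Sph

/-!
# The chordal distance and attracting periodic points on the sphere
-/

set_option autoImplicit false

open Filter Topology
open scoped OnePoint

namespace Pool.Agent.Zk29.Mu

/-- Homogeneous coordinates of a point of the sphere. -/
noncomputable def hco (x : OnePoint ℂ) : ℂ × ℂ := x.elim (1, 0) (fun z => (z, 1))

/-- The chordal distance. -/
noncomputable def chord (x y : OnePoint ℂ) : ℝ :=
  ‖(hco x).1 * (hco y).2 - (hco y).1 * (hco x).2‖ /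
    (√(‖(hco x).1‖ ^ 2 + ‖(hco x).2‖ ^ 2) * √(‖(hco y).1‖ ^ 2 + ‖(hco y).2‖ ^ 2))

/-- `f^n(a) = a` and `f^n` contracts the chordal distances to `a` near `a`. -/
def Sink (f : OnePoint ℂ → OnePoint ℂ) (n : ℕ) (a : OnePoint ℂ) : Prop :=
  0 < n ∧ f^[n] a = a ∧ ∃ q : ℝ, q < 1 ∧ ∀ᶠ x in 𝓝 a, chord (f^[n] x) a ≤ q * chord x a

/-- The point `x` lies in the basin of an attracting cycle of `f`. -/
def Basin (f : OnePoint ℂ → OnePoint ℂ) (x : OnePoint ℂ) : Prop :=
  ∃ n a, Sink f n a ∧ Tendsto (fun k : ℕ => f^[n * k] x) atTop (𝓝 a)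

end Pool.Agent.Zk29.Mu
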