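import Pool.Agent.Zk29.Hy.B4

/-!
# Families of rational maps with several free critical points
-/

set_option autoImplicit false
open Set Filter Topology Metric Polynomial
open scoped OnePoint

namespace Pool.Agent.Zk29.Mu

open Pool.Agent.H792R2.CE Pool.Agent.H792R2.CE.C2x Pool.Agent.Zk29.Rat Pool.Agent.Zk29.Hy
open Pool.Agent.Helper114.Herman

/-- The free critical points of `P / Q` in the plane. -/
def Fr (d : ℕ) (P Q : ℂ[X]) : Set ℂ := {z | (wr P Q).eval z = 0 ∧ ¬ Att d P Q (z : OnePoint ℂ)}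

/-- `P / Q` is a normalised rational map of degree `d` with simple free critical points. -/
structure Nice (d : ℕ) (P Q : ℂ[X]) : Prop where
  cop : IsCoprime P Q
  Pd : P.natDegree ≤ d
  Qd : Q.natDegree = d
  inf : Att d P Q ∞
  sim : ∀ z ∈ Fr d P Q, (derivative (wr P Q)).eval z ≠ 0

/-- `P / Q` is a limit of maps with fewer free critical points. -/
def Fewer (d : ℕ) (P Q : ℂ[X]) : Prop :=
  ∀ ε : ℝ, 0 < ε → ∃ P' Q' : ℂ[X], Nice d P' Q' ∧
    (∀ i, ‖P'.coeff i - P.coeff i‖ < ε ∧ ‖Q'.coeff i - Q.coeff i‖ < ε) ∧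
    (Fr d P' Q').ncard < (Fr d P Q).ncard

lemma Fr_fin {d : ℕ} {P Q : ℂ[X]} (hN : wr P Q ≠ 0) : (Fr d P Q).Finite := by
  refine Set.Finite.subset ((wr P Q).roots.toFinset.finite_toSet) fun z hz => ?_
  simp [hN, hz.1]

lemma Nice.N0 {d : ℕ} {P Q : ℂ[X]} (h : Nice d P Q) (hd : 0 < d) : wr P Q ≠ 0 :=
  wr_ne_zero hd h.cop h.Qd

lemma Nice.mul {d : ℕ} {P Q : ℂ[X]} (h : Nice d P Q) (hd : 0 < d) {c : ℂ} (hc : c ∈ Fr d P Q) :
    (wr P Q).rootMultiplicity c = 1 := by
  have h1 : 0 < (wr P Q).rootMultiplicity c := (rootMultiplicity_pos (h.N0 hd)).2 hc.1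
  have h2 : ¬ 1 < (wr P Q).rootMultiplicity c := by
    intro h3
    exact h.sim c hc ((one_lt_rootMultiplicity_iff_isRoot (h.N0 hd)).1 h3).2
  omega

/-- The standing assumptions. -/
structure Many (d : ℕ) (P Q : ℂ[X]) (U U₁ : Set ℂ) : Prop where
  d2 : 2 ≤ d
  nice : Nice d P Q
  trap : Trap P Q U
  bd : ∀ z ∈ closure U, z ∉ U → rf P Q z ∉ closure U
  q : ∀ z ∈ closure U, Q.eval z ≠ 0
  w : ∀ z ∈ closure U, (wr P Q).eval z = 0 → z ∈ Fr d P Q
  o : IsOpen U₁
  s : closure U₁ ⊆ U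
  n : ∀ z : ℂ, ¬ Att d P Q (z : OnePoint ℂ) → z ∈ U₁

/-- The family in the direction `(H, G)`. -/
structure Fam (d : ℕ) (P Q : ℂ[X]) (U U₁ : Set ℂ) (H G : ℂ[X]) (r : ℝ) (τ : ℂ → ℂ → ℂ) :
    Prop where
  hr : 0 < r
  deg : ∀ t ∈ ball (0 : ℂ) r, IsCoprime (P + C t * H) (Q + C t * G) ∧
    (P + C t * H).natDegree ≤ d ∧ (Q + C t * G).natDegree = d
  q : ∀ t ∈ ball (0 : ℂ) r, ∀ z ∈ closure U, (Q + C t * G).eval z ≠ 0
  bd : ∀ t ∈ ball (0 : ℂ) r, ∀ z ∈ closure U, z ∉ U → rf (P + C t * H) (Q + C t * G) z ∉ closure U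
  att : ∀ t ∈ ball (0 : ℂ) r, ∀ z : ℂ, z ∉ U₁ → Att d (P + C t * H) (Q + C t * G) (z : OnePoint ℂ)
  inf : ∀ t ∈ ball (0 : ℂ) r, Att d (P + C t * H) (Q + C t * G) ∞
  crit : ∀ t ∈ ball (0 : ℂ) r, ∀ z ∈ closure U, (wr (P + C t * H) (Q + C t * G)).eval z = 0 →
    ∃ c ∈ Fr d P Q, z = τ c t
  τ0 : ∀ c ∈ Fr d P Q, τ c 0 = c
  τd : ∀ c ∈ Fr d P Q, DifferentiableOn ℂ (τ c) (ball 0 r)
  natt : ∀ c ∈ Fr d P Q, ∀ t ∈ ball (0 : ℂ) r,
    ¬ Att d (P + C t * H) (Q + C t * G) (τ c t : OnePoint ℂ)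

theorem exists_many {P Q : ℂ[X]} {d : ℕ} (hd : 2 ≤ d) (hnice : Nice d P Q) :
    ∃ U U₁ : Set ℂ, Many d P Q U U₁ := by
  obtain ⟨hPQ, hPd, hQd, hinf, hsim⟩ := id hnice
  have hd0 : 0 < d := by omega
  have hcont : Continuous (sph d P Q) := B1_continuous hPQ hPd hQd
  have hN : wr P Q ≠ 0 := wr_ne_zero hd0 hPQ hQd
  have hQ0 : Q ≠ 0 := by
    intro h
    rw [h, natDegree_zero] at hQd
    omega
  have hKc : IsCompact {z : ℂ | ¬ Att d P Q (z : OnePoint ℂ)} :=
    natt_compact hd0 hPQ hPd hQd hinf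
  obtain ⟨O, hO⟩ : ∃ O : Set ℂ, O = {z | Q.eval z ≠ 0 ∧ ((wr P Q).eval z = 0 → z ∈ Fr d P Q)} :=
    ⟨_, rfl⟩
  have hOo : IsOpen O := by
    have h1 : Oᶜ = (Q.roots.toFinset : Set ℂ) ∪ (((wr P Q).roots.toFinset : Set ℂ) \ Fr d P Q) := by
      ext z
      rw [hO]
      simp only [mem_compl_iff, mem_ofPred_eq, not_and, not_forall, mem_union, Finset.mem_coe,
        Multiset.mem_toFinset, mem_roots hQ0, mem_roots hN, IsRoot.def, Set.mem_sdiff]
      constructor
      · intro h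
        by_cases h2 : Q.eval z = 0
        · exact Or.inl h2
        · obtain ⟨h3, h4⟩ := h h2
          exact Or.inr ⟨h3, h4⟩
      · rintro (h | ⟨h1, h2⟩) h3
        · exact absurd h h3
        · exact ⟨h1, h2⟩
    rw [← isClosed_compl_iff, h1]
    exact (Finset.finite_toSet _).isClosed.union
      ((Finset.finite_toSet _).subset sdiff_subset).isClosed
  have hKO : {z : ℂ | ¬ Att d P Q (z : OnePoint ℂ)} ⊆ O := by
    intro z hz
    rw [hO]
    exact ⟨(natt_step hcont hinf hz).1, fun h => ⟨h, hz⟩⟩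
  obtain ⟨δ, hδ, hδs⟩ := hKc.exists_cthickening_subset_open hOo hKO
  obtain ⟨U, hT, hUN, hUa, hUk, hUb⟩ := exists_trap hd0 hPQ hPd hQd hinf
    (N := thickening δ {z : ℂ | ¬ Att d P Q (z : OnePoint ℂ)}) isOpen_thickening
    hKc.isBounded.thickening (fun z hz => self_subset_thickening hδ _ hz) (fun z hz => by
      have h1 : z ∈ O := hδs (closure_thickening_subset_cthickening _ _ hz)
      rw [hO] at h1
      exact h1.1)
  obtain ⟨δ₁, hδ₁, hδ₁s⟩ := hKc.exists_cthickening_subset_open hT.opn (fun z hz => hUk z hz)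
  have hclU : closure U ⊆ O := by
    refine (closure_mono hUN).trans ?_
    exact (closure_thickening_subset_cthickening _ _).trans hδs
  refine ⟨U, thickening δ₁ {z : ℂ | ¬ Att d P Q (z : OnePoint ℂ)}, hd, hnice, hT, hUb,
    fun z hz => ?_, fun z hz h => ?_, isOpen_thickening, ?_, fun z hz => ?_⟩
  · have := hclU hz
    rw [hO] at this
    exact this.1
  · have := hclU hz
    rw [hO] at this
    exact this.2 h
  · exact (closure_thickening_subset_cthickening _ _).trans hδ₁s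
  · exact self_subset_thickening hδ₁ _ hz

theorem exists_fam {P Q : ℂ[X]} {d : ℕ} {U U₁ : Set ℂ} (O : Many d P Q U U₁)
    (hna : ¬ Fewer d P Q) {H G : ℂ[X]} (hHd : H.natDegree ≤ d) (hGd : G.natDegree ≤ d)
    (hN₁ : ∀ c ∈ Fr d P Q, (wr H Q + wr P G).eval c ≠ 0) :
    ∃ (r : ℝ) (τ : ℂ → ℂ → ℂ), Fam d P Q U U₁ H G r τ := by
  have hd0 : 0 < d := by have := O.d2; omega
  have hnice := O.nice
  have hN : wr P Q ≠ 0 := hnice.N0 hd0
  have hFf : (Fr d P Q).Finite := Fr_fin hN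
  have hUc : IsCompact (closure U) := O.trap.bdd.isCompact_closure
  have hbr : ∀ c ∈ Fr d P Q, ∃ (τ : ℂ → ℂ) (ρ : ℝ), 0 < ρ ∧ τ 0 = c ∧
      (∀ b, ‖b‖ < ρ → DifferentiableAt ℂ τ b) ∧
      ∀ z b, ‖z - c‖ < ρ → ‖b‖ < ρ → (wr (P + C b * H) (Q + C b * G)).eval z = 0 → z = τ b := by
    intro c hc
    obtain ⟨τ, t', ρ, hρ, -, hτ0, -, hτD, -, hτuniq⟩ := A1_branch (H := H) (G := G) (k := 1) le_rfl
      (hnice.mul hd0 hc) hN (hN₁ c hc)
    simp only [pow_one] at hτuniq
    refine ⟨τ, ρ, hρ, hτ0, hτD, fun z b h1 h2 h3 => ?_⟩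
    obtain ⟨ω, hω, h4⟩ := hτuniq z b h1 h2 h3
    rw [h4, hω, one_mul]
  choose! τ ρ hρ hτ0 hτD hτuniq using hbr
  have hB : ∀ (n : ℕ) (x : OnePoint ℂ), ContinuousAt (fun p : ℂ × OnePoint ℂ =>
      (sph d (P + C p.1 * H) (Q + C p.1 * G))^[n] p.2) (0, x) :=
    fun n x => B2_joint hd0 hnice.cop hnice.Pd hnice.Qd hHd hGd n x
  have hst : ∀ x : OnePoint ℂ, Att d P Q x → ∀ᶠ p : ℂ × OnePoint ℂ in 𝓝 (0, x),
      Att d (P + C p.1 * H) (Q + C p.1 * G) p.2 := by
    intro x hx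
    have := att_stable_pow (H := H) (G := G) (K := 1) le_rfl hB hx
    simpa only [pow_one] using this
  -- the conditions
  have e1 : ∀ᶠ t : ℂ in 𝓝 0, IsCoprime (P + C t * H) (Q + C t * G) ∧
      (P + C t * H).natDegree ≤ d ∧ (Q + C t * G).natDegree = d :=
    B3_coprime hd0 hnice.cop hnice.Pd hnice.Qd hHd hGd
  have hQc : Continuous (fun p : ℂ × ℂ => (Q + C p.1 * G).eval p.2) := by
    simp only [Polynomial.eval_add, Polynomial.eval_mul, Polynomial.eval_C]
    have h1 : Continuous (fun p : ℂ × ℂ => Q.eval p.2) := Q.continuous.comp continuous_snd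
    have h2 : Continuous (fun p : ℂ × ℂ => G.eval p.2) := G.continuous.comp continuous_snd
    fun_prop
  have e2 : ∀ᶠ t : ℂ in 𝓝 0, ∀ z ∈ closure U, (Q + C t * G).eval z ≠ 0 := by
    refine hUc.eventually_forall_of_forall_eventually fun z hz => ?_
    refine hQc.continuousAt.eventually_ne ?_
    change (Q + C (0 : ℂ) * G).eval z ≠ 0
    simpa using O.q z hz
  have hfc : ∀ z ∈ closure U, ContinuousAt (fun p : ℂ × ℂ =>
      rf (P + C p.1 * H) (Q + C p.1 * G) p.2) (0, z) := by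
    intro z hz
    have h1 := fam_contDiffAt (P := P) (Q := Q) (H := H) (G := G) (K := 1) ((0 : ℂ), z) (by
      change (Q + C ((0 : ℂ) ^ 1) * G).eval z ≠ 0
      simpa using O.q z hz)
    have h2 := h1.continuousAt
    simp only [fam, pow_one] at h2
    exact h2
  have e3 : ∀ᶠ t : ℂ in 𝓝 0, ∀ z ∈ closure U ∩ Uᶜ,
      rf (P + C t * H) (Q + C t * G) z ∉ closure U := by
    have h1 : IsCompact (closure U ∩ Uᶜ) := hUc.inter_right O.trap.opn.isClosed_compl
    refine h1.eventually_forall_of_forall_eventually fun z hz => ?_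
    refine (hfc z hz.1).eventually_mem (s := (closure U)ᶜ) ?_
    refine isClosed_closure.isOpen_compl.mem_nhds ?_
    change rf (P + C (0 : ℂ) * H) (Q + C (0 : ℂ) * G) z ∉ closure U
    have h2 := O.bd z hz.1 hz.2
    simpa using h2
  have e4 : ∀ᶠ t : ℂ in 𝓝 0, ∀ x ∈ ((fun y : ℂ => (y : OnePoint ℂ)) '' U₁)ᶜ,
      Att d (P + C t * H) (Q + C t * G) x := by
    have h1 : IsCompact (((fun y : ℂ => (y : OnePoint ℂ)) '' U₁)ᶜ) :=
      ((OnePoint.isOpenEmbedding_coe (X := ℂ)).isOpenMap _ O.o).isClosed_compl.isCompact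
    refine h1.eventually_forall_of_forall_eventually fun x hx => hst x ?_
    induction x using OnePoint.rec with
    | infty => exact hnice.inf
    | coe z =>
      by_contra h
      exact hx ⟨z, O.n z h, rfl⟩
  have hwc : Continuous (fun p : ℂ × ℂ => (wr (P + C p.1 * H) (Q + C p.1 * G)).eval p.2) := by
    simp only [wr_family, Polynomial.eval_add, Polynomial.eval_mul, Polynomial.eval_C]
    have c1 : Continuous (fun p : ℂ × ℂ => (wr P Q).eval p.2) :=
      (wr P Q).continuous.comp continuous_snd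
    have c2 : Continuous (fun p : ℂ × ℂ => (wr H Q).eval p.2) :=
      (wr H Q).continuous.comp continuous_snd
    have c3 : Continuous (fun p : ℂ × ℂ => (wr P G).eval p.2) :=
      (wr P G).continuous.comp continuous_snd
    have c4 : Continuous (fun p : ℂ × ℂ => (wr H G).eval p.2) :=
      (wr H G).continuous.comp continuous_snd
    fun_prop
  have hwc' : Continuous (fun p : ℂ × ℂ =>
      (derivative (wr (P + C p.1 * H) (Q + C p.1 * G))).eval p.2) := by
    simp only [wr_family, derivative_add, derivative_mul, derivative_C, zero_mul, zero_add,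
      Polynomial.eval_add, Polynomial.eval_mul, Polynomial.eval_C]
    have c1 : Continuous (fun p : ℂ × ℂ => (derivative (wr P Q)).eval p.2) :=
      (derivative (wr P Q)).continuous.comp continuous_snd
    have c2 : Continuous (fun p : ℂ × ℂ => (derivative (wr H Q)).eval p.2) :=
      (derivative (wr H Q)).continuous.comp continuous_snd
    have c3 : Continuous (fun p : ℂ × ℂ => (derivative (wr P G)).eval p.2) :=
      (derivative (wr P G)).continuous.comp continuous_snd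
    have c4 : Continuous (fun p : ℂ × ℂ => (derivative (wr H G)).eval p.2) :=
      (derivative (wr H G)).continuous.comp continuous_snd
    fun_prop
  have e5 : ∀ᶠ t : ℂ in 𝓝 0, ∀ z ∈ closure U,
      (wr (P + C t * H) (Q + C t * G)).eval z = 0 → ∃ c ∈ Fr d P Q, z = τ c t := by
    refine hUc.eventually_forall_of_forall_eventually fun z hz => ?_
    by_cases h0 : (wr P Q).eval z = 0
    · have hzc := O.w z hz h0
      have hnear : ∀ᶠ p : ℂ × ℂ in 𝓝 (0, z), ‖p.2 - z‖ < ρ z ∧ ‖p.1‖ < ρ z := by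
        refine Eventually.and ?_ ?_
        · have h1 : Continuous (fun p : ℂ × ℂ => ‖p.2 - z‖) := by fun_prop
          have h2 : ‖(((0 : ℂ), z) : ℂ × ℂ).2 - z‖ < ρ z := by simpa using hρ z hzc
          exact (h1.tendsto ((0 : ℂ), z)).eventually (Iio_mem_nhds h2)
        · have h1 : Continuous (fun p : ℂ × ℂ => ‖p.1‖) := by fun_prop
          have h2 : ‖(((0 : ℂ), z) : ℂ × ℂ).1‖ < ρ z := by simpa using hρ z hzc
          exact (h1.tendsto ((0 : ℂ), z)).eventually (Iio_mem_nhds h2)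
      filter_upwards [hnear] with p hp hw
      exact ⟨z, hzc, hτuniq z hzc p.2 p.1 hp.1 hp.2 hw⟩
    · have h1 : ∀ᶠ p : ℂ × ℂ in 𝓝 (0, z),
          (wr (P + C p.1 * H) (Q + C p.1 * G)).eval p.2 ≠ 0 := by
        refine hwc.continuousAt.eventually_ne ?_
        change (wr (P + C (0 : ℂ) * H) (Q + C (0 : ℂ) * G)).eval z ≠ 0
        simpa using h0
      filter_upwards [h1] with p hp h2 using absurd h2 hp
  have e5' : ∀ᶠ t : ℂ in 𝓝 0, ∀ z ∈ closure U,
      (wr (P + C t * H) (Q + C t * G)).eval z = 0 →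
      (derivative (wr (P + C t * H) (Q + C t * G))).eval z ≠ 0 := by
    refine hUc.eventually_forall_of_forall_eventually fun z hz => ?_
    by_cases h0 : (wr P Q).eval z = 0
    · have h1 : ∀ᶠ p : ℂ × ℂ in 𝓝 (0, z),
          (derivative (wr (P + C p.1 * H) (Q + C p.1 * G))).eval p.2 ≠ 0 := by
        refine hwc'.continuousAt.eventually_ne ?_
        change (derivative (wr (P + C (0 : ℂ) * H) (Q + C (0 : ℂ) * G))).eval z ≠ 0
        simpa using hnice.sim z (O.w z hz h0)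
      filter_upwards [h1] with p hp _ using hp
    · have h1 : ∀ᶠ p : ℂ × ℂ in 𝓝 (0, z),
          (wr (P + C p.1 * H) (Q + C p.1 * G)).eval p.2 ≠ 0 := by
        refine hwc.continuousAt.eventually_ne ?_
        change (wr (P + C (0 : ℂ) * H) (Q + C (0 : ℂ) * G)).eval z ≠ 0
        simpa using h0
      filter_upwards [h1] with p hp h2 using absurd h2 hp
  have e7 : ∀ᶠ t : ℂ in 𝓝 0, ∀ c ∈ Fr d P Q, ‖t‖ < ρ c := by
    rw [eventually_all_finite hFf]
    intro c hc
    have h1 : Continuous (fun t : ℂ => ‖t‖) := continuous_norm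
    have h2 : ‖(0 : ℂ)‖ < ρ c := by rw [norm_zero]; exact hρ c hc
    exact (h1.tendsto 0).eventually (Iio_mem_nhds h2)
  -- the coefficients
  unfold Fewer at hna
  push Not at hna
  obtain ⟨ε, hε, hε'⟩ := hna
  have e6 : ∀ᶠ t : ℂ in 𝓝 0, ∀ i ∈ Finset.range (d + 1),
      ‖t * H.coeff i‖ < ε ∧ ‖t * G.coeff i‖ < ε := by
    rw [Filter.eventually_all_finset]
    intro i _
    have h1 : ∀ R : ℂ[X], ∀ᶠ a : ℂ in 𝓝 0, ‖a * R.coeff i‖ < ε := by
      intro R
      have h2 : Continuous (fun a : ℂ => ‖a * R.coeff i‖) := by fun_prop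
      have h3 : ‖(0 : ℂ) * R.coeff i‖ < ε := by
        rw [zero_mul, norm_zero]
        exact hε
      exact (h2.tendsto 0).eventually (Iio_mem_nhds h3)
    exact (h1 H).and (h1 G)
  obtain ⟨r', hr', hr's⟩ := Metric.mem_nhds_iff.1
    (((e1.and (e2.and e3)).and ((e4.and e5).and e6)).and (e5'.and e7))
  refine ⟨r', τ, hr', ?_, ?_, ?_, ?_, ?_, ?_, hτ0, ?_, ?_⟩
  · intro t ht
    exact (hr's ht).1.1.1
  · intro t ht
    exact (hr's ht).1.1.2.1
  · intro t ht z hz hzU
    exact (hr's ht).1.1.2.2 z ⟨hz, hzU⟩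
  · intro t ht z hz
    apply (hr's ht).1.2.1.1
    rintro ⟨y, hy, hyz⟩
    have h2 : y = z := by simpa using hyz
    rw [h2] at hy
    exact hz hy
  · intro t ht
    apply (hr's ht).1.2.1.1
    rintro ⟨y, hy, hyz⟩
    exact OnePoint.coe_ne_infty y hyz
  · intro t ht
    exact (hr's ht).1.2.1.2
  · intro c hc t ht
    apply DifferentiableAt.differentiableWithinAt
    exact hτD c hc t ((hr's ht).2.2 c hc)
  · intro c hc t ht hatt
    obtain ⟨⟨⟨⟨h1, h2, h3⟩, h4, h5⟩, ⟨h6, h7⟩, h8⟩, h9, h10⟩ := hr's ht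
    have hin : ∀ z : ℂ, ¬ Att d (P + C t * H) (Q + C t * G) (z : OnePoint ℂ) →
        z ∈ closure U := by
      intro z hz
      by_contra hzU
      apply hz
      apply h6
      rintro ⟨y, hy, hyz⟩
      have h2 : y = z := by simpa using hyz
      rw [h2] at hy
      exact hzU (subset_closure (O.s (subset_closure hy)))
    have hnt : Nice d (P + C t * H) (Q + C t * G) := by
      refine ⟨h1, h2, h3, ?_, fun z hz => h9 z (hin z hz.2) hz.1⟩
      apply h6
      rintro ⟨y, hy, hyz⟩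
      exact OnePoint.coe_ne_infty y hyz
    have hcard := hε' (P + C t * H) (Q + C t * G) hnt (by
      intro i
      have e1 : ∀ R S : ℂ[X], (R + C t * S).coeff i - R.coeff i = t * S.coeff i := by
        intro R S
        rw [Polynomial.coeff_add, Polynomial.coeff_C_mul]
        ring
      rw [e1, e1]
      by_cases hi : i ∈ Finset.range (d + 1)
      · exact h8 i hi
      · rw [Finset.mem_range] at hi
        rw [Polynomial.coeff_eq_zero_of_natDegree_lt (show H.natDegree < i by omega),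
          Polynomial.coeff_eq_zero_of_natDegree_lt (show G.natDegree < i by omega), mul_zero,
          norm_zero]
        exact ⟨hε, hε⟩)
    have hsub : Fr d (P + C t * H) (Q + C t * G) ⊆ (fun c' => τ c' t) '' (Fr d P Q \ {c}) := by
      intro z hz
      obtain ⟨c', hc', hzc⟩ := h7 z (hin z hz.2) hz.1
      refine ⟨c', ⟨hc', fun hcc => ?_⟩, hzc.symm⟩
      rw [mem_singleton_iff] at hcc
      rw [hcc] at hzc
      apply hz.2
      rw [hzc]
      exact hatt
    have hfin2 : (Fr d P Q \ {c}).Finite := hFf.subset sdiff_subset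
    have h11 : (Fr d (P + C t * H) (Q + C t * G)).ncard ≤ (Fr d P Q \ {c}).ncard :=
      (Set.ncard_le_ncard hsub (hfin2.image _)).trans (Set.ncard_image_le hfin2)
    have h12 : (Fr d P Q \ {c}).ncard < (Fr d P Q).ncard :=
      Set.ncard_sdiff_singleton_lt_of_mem hc hFf
    omega

end Pool.Agent.Zk29.Mu
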