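import Pool.Agent.Zk29.Mu.F1
import Pool.Agent.Zk29.Hy.B6
import Pool.Agent.Zk29.Hy.B7

/-!
# The motion of the critical orbits
-/

set_option autoImplicit false
open Set Filter Topology Metric Polynomial
open scoped OnePoint

namespace Pool.Agent.Zk29.Mu

open Pool.Agent.H792R2.CE Pool.Agent.H792R2.CE.C2x Pool.Agent.Zk29.Rat
open Pool.Agent.Zk29.Hy (XX nonvan lift_iter)
open Pool.Agent.Helper114.Herman
open Pool.Agent.H792R2.Rt (iter_at orbit_diffAt)

variable {d : ℕ} {P Q : ℂ[X]} {c c' : ℂ} {U U₁ : Set ℂ} {H G : ℂ[X]} {r : ℝ} {τ : ℂ → ℂ → ℂ}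

lemma Fam.orb (F : Fam d P Q U U₁ H G r τ) (hc : c ∈ Fr d P Q) {t : ℂ}
    (ht : t ∈ ball (0 : ℂ) r) (j : ℕ) :
    (rf (P + C t * H) (Q + C t * G))^[j] (τ c t) ∈ U₁ ∧
      (Q + C t * G).eval ((rf (P + C t * H) (Q + C t * G))^[j] (τ c t)) ≠ 0 := by
  obtain ⟨h1, h2, h3⟩ := F.deg t ht
  have h4 := natt_iter (B1_continuous h1 h2 h3) (F.inf t ht) (F.natt c hc t ht) j
  refine ⟨?_, h4.2⟩
  by_contra h
  exact h4.1 (F.att t ht _ h)

lemma Fam.cd (F : Fam d P Q U U₁ H G r τ) {t : ℂ} (ht : t ∈ ball (0 : ℂ) r) {z : ℂ}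
    (hz : z ∈ closure U) :
    ContDiffAt ℂ 1 (fun p : ℂ × ℂ => rf (P + C p.1 * H) (Q + C p.1 * G) p.2) (t, z) := by
  have h1 := fam_contDiffAt (P := P) (Q := Q) (H := H) (G := G) (K := 1) (t, z) (by
    change (Q + C (t ^ 1) * G).eval z ≠ 0
    rw [pow_one]
    exact F.q t ht z hz)
  simp only [fam, pow_one] at h1
  exact h1

lemma Fam.diff (O : Many d P Q U U₁) (F : Fam d P Q U U₁ H G r τ) (hc : c ∈ Fr d P Q) (j : ℕ) :
    DifferentiableOn ℂ (XX P Q H G (τ c) j) (ball 0 r) := by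
  intro t ht
  apply DifferentiableAt.differentiableWithinAt
  have h1 := orbit_diffAt (f := fun t => rf (P + C t * H) (Q + C t * G))
    (W := {p : ℂ × ℂ | p.1 ∈ ball (0 : ℂ) r ∧ p.2 ∈ closure U})
    (fun p hp => F.cd hp.1 hp.2) (ζ := τ c) (a := t)
    ((F.τd c hc).differentiableAt (isOpen_ball.mem_nhds ht)) j
    (fun i _ => ⟨ht, subset_closure (O.s (subset_closure (F.orb hc ht i).1))⟩)
  exact h1

/-- **Nearby preimages move holomorphically and avoid the critical orbit.** -/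
theorem Fam.lift (O : Many d P Q U U₁) (F : Fam d P Q U U₁ H G r τ) {k : ℕ} {z₀ : ℂ}
    (h1 : ∀ l < k, (rf P Q)^[l] z₀ ∈ U) (h2 : (rf P Q)^[k] z₀ ∈ U) (h3 : (rf P Q)^[k] z₀ ∉ U₁) :
    ∃ w : ℂ → ℂ, w 0 = z₀ ∧ DifferentiableOn ℂ w (ball 0 r) ∧ (∀ t ∈ ball (0 : ℂ) r, w t ∈ U) ∧
      ∀ c ∈ Fr d P Q, ∀ t ∈ ball (0 : ℂ) r, ∀ j, XX P Q H G (τ c) j t ≠ w t := by
  have h0 : rf (P + C (0 : ℂ) * H) (Q + C (0 : ℂ) * G) = rf P Q := by simp
  obtain ⟨w, hw0, hwd, hw⟩ := lift_iter (f := fun t => rf (P + C t * H) (Q + C t * G)) F.hr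
    O.trap.opn O.trap.bdd (fun t ht z hz => F.cd ht hz) F.bd h2 (by
      intro t ht z hz i hi h0'
      have hzc := subset_closure hz
      have h4 := rf_hasDerivAt (F.q t ht z hzc) (P := P + C t * H)
      rw [h4.deriv] at h0'
      have h5 : (wr (P + C t * H) (Q + C t * G)).eval z = 0 := by
        rcases div_eq_zero_iff.1 h0' with h | h
        · exact h
        · exact absurd h (pow_ne_zero 2 (F.q t ht z hzc))
      obtain ⟨c', hc', h6⟩ := F.crit t ht z hzc h5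
      rw [h6] at hi
      exact h3 (by rw [← hi]; exact (F.orb hc' ht (i + 1)).1)) k z₀
    (fun l hl => by rw [h0]; exact h1 l hl) (by rw [h0])
  refine ⟨w, hw0, hwd, fun t ht => (hw t ht).1, fun c hc t ht j hj => ?_⟩
  have h4 := (hw t ht).2.2
  rw [← hj] at h4
  unfold XX at h4
  rw [← Function.iterate_add_apply] at h4
  exact h3 (by rw [← h4]; exact (F.orb hc ht (k + j)).1)

/-- Points near `v` which enter `U \ U₁`. -/
theorem Many.enter (O : Many d P Q U U₁) {v : ℂ} (hv : ¬ Att d P Q (v : OnePoint ℂ)) {s : ℝ}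
    (hs : 0 < s) (hl : ∃ y, ‖y - v‖ < s ∧ ∃ N, y ∉ UR P Q U N) :
    ∃ z₀, ‖z₀ - v‖ < s ∧ ∃ k, (∀ l < k, (rf P Q)^[l] z₀ ∈ U) ∧ (rf P Q)^[k] z₀ ∈ U ∧
      (rf P Q)^[k] z₀ ∉ U₁ := by
  classical
  have hcont : Continuous (sph d P Q) := B1_continuous O.nice.cop O.nice.Pd O.nice.Qd
  have hex : ∃ k, ¬ ∀ z ∈ ball v s, ∀ l < k + 1, (rf P Q)^[l] z ∈ U := by
    obtain ⟨y, hy, N, hN⟩ := hl
    refine ⟨N, fun h => hN ?_⟩
    have h1 : ∀ n, (∀ l < n + 1, (rf P Q)^[l] y ∈ U) → y ∈ UR P Q U n := by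
      intro n
      induction n with
      | zero => intro h; exact h 0 (by omega)
      | succ n ih =>
        intro h
        have h2 := ih fun l hl => h l (by omega)
        rw [show n + 1 = 1 + n by ring]
        apply O.trap.UR_iff 1 n h2
        refine ⟨O.q _ (subset_closure (h n (by omega))), ?_⟩
        rw [← Function.iterate_succ_apply' (rf P Q)]
        exact h (n + 1) (by omega)
    exact h1 N (h y (by rw [mem_ball, dist_eq_norm]; exact hy))
  obtain ⟨k, hk⟩ : ∃ k, k = Nat.find hex := ⟨_, rfl⟩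
  have hk1 : ¬ ∀ z ∈ ball v s, ∀ l < k + 1, (rf P Q)^[l] z ∈ U := by
    rw [hk]
    exact Nat.find_spec hex
  have hk2 : ∀ z ∈ ball v s, ∀ l < k, (rf P Q)^[l] z ∈ U := by
    intro z hz l hl
    by_contra h
    have h1 : k - 1 < Nat.find hex := by rw [← hk]; omega
    have h2 := Nat.find_min hex h1
    push Not at h2
    exact h (h2 z hz l (by omega))
  push Not at hk1
  obtain ⟨y, hy, l, hlk, hyU⟩ := hk1
  have hlk' : l = k := by
    by_contra h
    exact hyU (hk2 y hy l (by omega))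
  rw [hlk'] at hyU
  have hgc : ContinuousOn ((rf P Q)^[k]) (ball v s) := by
    intro z hz
    exact (rf_iter_diff k fun j hj => O.q _ (subset_closure (hk2 z hz j hj))).continuousAt.continuousWithinAt
  have hpre : IsPreconnected ((rf P Q)^[k] '' ball v s) :=
    (convex_ball v s).isPreconnected.image _ hgc
  by_contra hcon
  push Not at hcon
  have hin : ∀ z ∈ ball v s, (rf P Q)^[k] z ∈ U → (rf P Q)^[k] z ∈ U₁ := fun z hz h =>
    hcon z (by rwa [mem_ball, dist_eq_norm] at hz) k (hk2 z hz) h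
  have hcov : (rf P Q)^[k] '' ball v s ⊆ U₁ ∪ (closure U₁)ᶜ := by
    rintro _ ⟨z, hz, rfl⟩
    by_cases h : (rf P Q)^[k] z ∈ U
    · exact Or.inl (hin z hz h)
    · exact Or.inr fun h2 => h (O.s h2)
  have hvU : (rf P Q)^[k] v ∈ U₁ := O.n _ (natt_iter hcont O.nice.inf hv k).1
  obtain ⟨x, -, hx1, hx2⟩ := hpre U₁ (closure U₁)ᶜ O.o isClosed_closure.isOpen_compl hcov
    ⟨_, ⟨v, mem_ball_self hs, rfl⟩, hvU⟩ ⟨_, ⟨y, hy, rfl⟩, fun h => hyU (O.s h)⟩
  exact hx2 (subset_closure hx1)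

/-- **The derivatives of the close passages with respect to the parameter.** -/
theorem Fam.two (O : Many d P Q U U₁) (F : Fam d P Q U U₁ H G r τ) (hc : c ∈ Fr d P Q)
    (hc' : c' ∈ Fr d P Q)
    (hleave : ∀ s : ℝ, 0 < s → ∃ y, ‖y - rf P Q c'‖ < s ∧ ∃ N, y ∉ UR P Q U N) {R : ℝ} (hR : 0 < R)
    (hUR : ∀ z ∈ U, ‖z‖ ≤ R) (J : ℕ) :
    ‖deriv (fun t => XX P Q H G (τ c) (J + 1) t - XX P Q H G (τ c') 1 t) 0‖ ≤
      4 / r * (‖XX P Q H G (τ c) (J + 1) 0 - rf P Q c'‖ *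
        Real.log (4 * R / ‖XX P Q H G (τ c) (J + 1) 0 - rf P Q c'‖)) := by
  have hcont : Continuous (sph d P Q) := B1_continuous O.nice.cop O.nice.Pd O.nice.Qd
  obtain ⟨v, hv⟩ : ∃ v, v = rf P Q c' := ⟨_, rfl⟩
  rw [← hv] at hleave ⊢
  have hvn : ¬ Att d P Q (v : OnePoint ℂ) := by
    rw [hv]
    exact (natt_step hcont O.nice.inf hc'.2).2
  obtain ⟨φ, hφ⟩ : ∃ φ : ℝ → ℝ, φ = fun x => x * Real.log (4 * R / x) := ⟨_, rfl⟩
  have hφc : Continuous φ := by
    have h1 : φ = fun x => x * Real.log (4 * R) - x * Real.log x := by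
      rw [hφ]
      ext x
      by_cases h : x = 0
      · rw [h]; simp
      · rw [Real.log_div (by positivity) h]
        ring
    rw [h1]
    exact (continuous_id.mul continuous_const).sub Real.continuous_mul_log
  have hX10 : XX P Q H G (τ c') 1 0 = v := by
    unfold XX
    simp [F.τ0 c' hc', hv]
  have hmem0 : (0 : ℂ) ∈ ball (0 : ℂ) r := mem_ball_self F.hr
  have hXR : ∀ c ∈ Fr d P Q, ∀ j, ∀ t ∈ ball (0 : ℂ) r, ‖XX P Q H G (τ c) j t‖ ≤ R :=
    fun c hc j t ht => hUR _ (O.s (subset_closure (F.orb hc ht j).1))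
  -- the estimate for every nearby preimage
  have key : ∀ s : ℝ, 0 < s → ∃ z₀, ‖z₀ - v‖ < s ∧
      ‖deriv (fun t => XX P Q H G (τ c) (J + 1) t - XX P Q H G (τ c') 1 t) 0‖ ≤
        4 / r * (φ ‖XX P Q H G (τ c) (J + 1) 0 - z₀‖ + φ ‖v - z₀‖) := by
    intro s hs
    obtain ⟨z₀, hz₀, k, h1, h2, h3⟩ := O.enter hvn hs (hleave s hs)
    obtain ⟨w, hw0, hwd, hwU, hwne⟩ := F.lift O h1 h2 h3
    refine ⟨z₀, hz₀, ?_⟩
    have hgen : ∀ c ∈ Fr d P Q, ∀ j, ‖deriv (fun t => XX P Q H G (τ c) j t - w t) 0‖ ≤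
        4 / r * φ ‖XX P Q H G (τ c) j 0 - z₀‖ := by
      intro c hc j
      have h4 := nonvan (g := fun t => XX P Q H G (τ c) j t - w t) (M := 4 * R) F.hr
        ((F.diff O hc j).sub hwd) (fun t ht => sub_ne_zero.2 (hwne c hc t ht j)) (fun t ht => by
          refine (norm_sub_le _ _).trans ?_
          have := hXR c hc j t ht
          have := hUR _ (hwU t ht)
          linarith) (by
          refine lt_of_le_of_lt (norm_sub_le _ _) ?_
          have := hXR c hc j 0 hmem0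
          have := hUR _ (hwU 0 hmem0)
          linarith)
      rw [hw0] at h4
      rw [hφ]
      exact h4
    have hdj : ∀ c ∈ Fr d P Q, ∀ j, DifferentiableAt ℂ (XX P Q H G (τ c) j) 0 := fun c hc j =>
      (F.diff O hc j).differentiableAt (isOpen_ball.mem_nhds hmem0)
    have hdw : DifferentiableAt ℂ w 0 := hwd.differentiableAt (isOpen_ball.mem_nhds hmem0)
    have h5 : deriv (fun t => XX P Q H G (τ c) (J + 1) t - XX P Q H G (τ c') 1 t) 0 =
        deriv (fun t => XX P Q H G (τ c) (J + 1) t - w t) 0 -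
          deriv (fun t => XX P Q H G (τ c') 1 t - w t) 0 := by
      rw [deriv_fun_sub (hdj _ hc _) (hdj _ hc' _), deriv_fun_sub (hdj _ hc _) hdw,
        deriv_fun_sub (hdj _ hc' _) hdw]
      ring
    rw [h5]
    refine (norm_sub_le _ _).trans ?_
    have h6 := hgen c hc (J + 1)
    have h7 := hgen c' hc' 1
    rw [hX10] at h7
    rw [mul_add]
    exact add_le_add h6 h7
  choose! z hz1 hz2 using key
  have hlim : Tendsto (fun n : ℕ => z (1 / ((n : ℝ) + 1))) atTop (𝓝 v) := by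
    rw [tendsto_iff_norm_sub_tendsto_zero]
    refine squeeze_zero (fun n => norm_nonneg _) (fun n => (hz1 _ (by positivity)).le)
      tendsto_one_div_add_atTop_nhds_zero_nat
  have hlim2 : Tendsto (fun n : ℕ => 4 / r * (φ ‖XX P Q H G (τ c) (J + 1) 0 -
      z (1 / ((n : ℝ) + 1))‖ + φ ‖v - z (1 / ((n : ℝ) + 1))‖)) atTop
      (𝓝 (4 / r * (φ ‖XX P Q H G (τ c) (J + 1) 0 - v‖ + φ ‖v - v‖))) := by
    apply Tendsto.const_mul
    apply Tendsto.add
    · exact (hφc.tendsto _).comp ((tendsto_const_nhds.sub hlim).norm)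
    · exact (hφc.tendsto _).comp ((tendsto_const_nhds.sub hlim).norm)
  have hφ0 : φ ‖v - v‖ = 0 := by rw [hφ]; simp
  rw [hφ0, add_zero] at hlim2
  have h8 := ge_of_tendsto' hlim2 (fun n => hz2 (1 / ((n : ℝ) + 1)) (by positivity))
  rw [hφ] at h8
  exact h8

/-- The trivial bound. -/
theorem Fam.one (O : Many d P Q U U₁) (F : Fam d P Q U U₁ H G r τ) (hc : c ∈ Fr d P Q)
    (hc' : c' ∈ Fr d P Q) {R : ℝ} (hUR : ∀ z ∈ U, ‖z‖ ≤ R) (J : ℕ) :
    ‖deriv (fun t => XX P Q H G (τ c) (J + 1) t - XX P Q H G (τ c') 1 t) 0‖ ≤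
      2 * R / (r / 2) := by
  have hr := F.hr
  have hsub : closedBall (0 : ℂ) (r / 2) ⊆ ball 0 r := closedBall_subset_ball (by linarith)
  apply Complex.norm_deriv_le_of_forall_mem_sphere_norm_le (by linarith)
  · apply DifferentiableOn.diffContOnCl
    rw [closure_ball _ (by linarith)]
    exact ((F.diff O hc (J + 1)).sub (F.diff O hc' 1)).mono hsub
  · intro t ht
    have ht' : t ∈ ball (0 : ℂ) r := hsub (sphere_subset_closedBall ht)
    refine (norm_sub_le _ _).trans ?_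
    have h1 := hUR _ (O.s (subset_closure (F.orb hc ht' (J + 1)).1))
    have h2 := hUR _ (O.s (subset_closure (F.orb hc' ht' 1).1))
    unfold XX
    linarith

end Pool.Agent.Zk29.Mu
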