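import Pool.Agent.Zk29.Mu.F2

/-!
# The functionals of the closed critical orbits
-/

set_option autoImplicit false
open Set Filter Topology Metric Polynomial
open scoped OnePoint

namespace Pool.Agent.Zk29.Mu

open Pool.Agent.H792R2.CE Pool.Agent.H792R2.CE.C2x Pool.Agent.Zk29.Rat
open Pool.Agent.Zk29.Hy (XX NN lm lm_nonneg)
open Pool.Agent.Helper114.Herman

variable {d : ℕ} {P Q : ℂ[X]} {c c' : ℂ} {U U₁ : Set ℂ} {H G : ℂ[X]} {r : ℝ} {τ : ℂ → ℂ → ℂ}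

/-- Arbitrarily close to `u` there are points which leave `U`. -/
def Lv (P Q : ℂ[X]) (U : Set ℂ) (u : ℂ) : Prop :=
  ∀ s : ℝ, 0 < s → ∃ y, ‖y - u‖ < s ∧ ∃ N, y ∉ UR P Q U N

/-- The functional of the orbit of the critical point `c` at time `J` and of `c'`. -/
noncomputable def ellM (P Q : ℂ[X]) (c c' : ℂ) (J : ℕ) : ℂ[X] →ₗ[ℂ] ℂ :=
  ell P Q c (fun j => (rf P Q)^[j] (rf P Q c))
      (fun j => (deriv ((rf P Q)^[j]) (rf P Q c))⁻¹) J -
    ((deriv ((rf P Q)^[J]) (rf P Q c))⁻¹ / Q.eval c' ^ 2) • leval c'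

lemma Many.qorb (O : Many d P Q U U₁) (hc : c ∈ Fr d P Q) (j : ℕ) :
    Q.eval ((rf P Q)^[j] c) ≠ 0 :=
  (natt_iter (B1_continuous O.nice.cop O.nice.Pd O.nice.Qd) O.nice.inf hc.2 j).2

lemma Many.norb (O : Many d P Q U U₁) (hc : c ∈ Fr d P Q) (j : ℕ) :
    ¬ Att d P Q (((rf P Q)^[j] c : ℂ) : OnePoint ℂ) :=
  (natt_iter (B1_continuous O.nice.cop O.nice.Pd O.nice.Qd) O.nice.inf hc.2 j).1

lemma Many.qv (O : Many d P Q U U₁) (hc : c ∈ Fr d P Q) (j : ℕ) :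
    Q.eval ((rf P Q)^[j] (rf P Q c)) ≠ 0 := by
  have := O.qorb hc (j + 1)
  rwa [Function.iterate_succ_apply] at this

lemma Many.nv (O : Many d P Q U U₁) (hc : c ∈ Fr d P Q) (j : ℕ) :
    ¬ Att d P Q (((rf P Q)^[j] (rf P Q c) : ℂ) : OnePoint ℂ) := by
  have := O.norb hc (j + 1)
  rwa [Function.iterate_succ_apply] at this

lemma Many.ne_deriv (O : Many d P Q U U₁) (hc : c ∈ Fr d P Q)
    (hne : ∀ j, (wr P Q).eval ((rf P Q)^[j] (rf P Q c)) ≠ 0) (j : ℕ) :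
    deriv ((rf P Q)^[j]) (rf P Q c) ≠ 0 := by
  induction j with
  | zero =>
    rw [Function.iterate_zero]
    rw [deriv_id]
    exact one_ne_zero
  | succ j ih =>
    rw [rf_iter_deriv_succ j fun i _ => O.qv hc i]
    exact mul_ne_zero (div_ne_zero (hne j) (pow_ne_zero 2 (O.qv hc j))) ih

lemma Many.kr (O : Many d P Q U U₁) {z : ℂ} (hz : ¬ Att d P Q (z : OnePoint ℂ)) :
    z ∈ KR P Q U := by
  have h1 : ∀ n, ∀ z : ℂ, ¬ Att d P Q (z : OnePoint ℂ) → z ∈ UR P Q U n := by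
    intro n
    induction n with
    | zero => exact fun z hz => O.s (subset_closure (O.n z hz))
    | succ n ih =>
      intro z hz
      have h2 := natt_iter (B1_continuous O.nice.cop O.nice.Pd O.nice.Qd) O.nice.inf hz
      exact ⟨(h2 0).2, ih _ (h2 1).1⟩
  exact mem_iInter.2 fun n => h1 n z hz

theorem Fam.deriv_eq (O : Many d P Q U U₁) (F : Fam d P Q U U₁ H G r τ) (hc : c ∈ Fr d P Q)
    (hc' : c' ∈ Fr d P Q)
    (hne : ∀ j, (wr P Q).eval ((rf P Q)^[j] (rf P Q c)) ≠ 0) (J : ℕ) :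
    deriv (fun t => XX P Q H G (τ c) (J + 1) t - XX P Q H G (τ c') 1 t) 0 =
      deriv ((rf P Q)^[J]) (rf P Q c) * ellM P Q c c' J (H * Q - P * G) := by
  have hmem0 : (0 : ℂ) ∈ ball (0 : ℂ) r := mem_ball_self F.hr
  have hτd : ∀ c ∈ Fr d P Q, HasDerivAt (τ c) (deriv (τ c) 0) 0 := fun c hc =>
    ((F.τd c hc).differentiableAt (isOpen_ball.mem_nhds hmem0)).hasDerivAt
  have hd := O.ne_deriv hc hne
  have h1 : HasDerivAt (XX P Q H G (τ c) (J + 1)) _ 0 :=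
    E1_orbit (H := H) (G := G) (F.τ0 c hc) (hτd c hc) hc.1 (O.qorb hc) hd J
  have h5 := O.qorb hc' 0
  rw [Function.iterate_zero_apply] at h5
  have h0 : HasDerivAt (XX P Q H G (τ c') 1) _ 0 :=
    E1x.step P Q H G (hτd c' hc') (F.τ0 c' hc') h5
  have h2 : HasDerivAt (fun t => XX P Q H G (τ c) (J + 1) t - XX P Q H G (τ c') 1 t) _ 0 :=
    h1.sub h0
  rw [h2.deriv]
  unfold ellM
  rw [LinearMap.sub_apply, LinearMap.smul_apply, leval_apply, smul_eq_mul,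
    ell_eq hc.1 (fun j _ => O.qorb hc j) (fun j _ => hne j), hc'.1, mul_sub, zero_div, zero_mul,
    add_zero]
  congr 1
  have h4 := hd J
  field_simp

theorem ell_bound1 (O : Many d P Q U U₁) (hna : ¬ Fewer d P Q) {R : ℝ} (hR : 0 < R)
    (hUR : ∀ z ∈ U, ‖z‖ ≤ R) {S : ℂ[X]} (hS : S.natDegree ≤ 2 * d)
    (hN : ∀ c ∈ Fr d P Q, NN Q c S ≠ 0) :
    ∃ C : ℝ, 0 ≤ C ∧ ∀ c ∈ Fr d P Q, ∀ c' ∈ Fr d P Q,
      (∀ j, (wr P Q).eval ((rf P Q)^[j] (rf P Q c)) ≠ 0) → ∀ J,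
      ‖deriv ((rf P Q)^[J]) (rf P Q c)‖ * ‖ellM P Q c c' J S‖ ≤ C ∧
      (Lv P Q U (rf P Q c') → ‖deriv ((rf P Q)^[J]) (rf P Q c)‖ * ‖ellM P Q c c' J S‖ ≤
        C * lm R ‖(rf P Q)^[J] (rf P Q c) - rf P Q c'‖) := by
  have hd0 : 0 < d := by have := O.d2; omega
  obtain ⟨H, G, hHd, hGd, hHG⟩ := D9_bezout O.nice.cop O.nice.Pd O.nice.Qd hd0 hS
  have hN₁ : ∀ c ∈ Fr d P Q, (wr H Q + wr P G).eval c ≠ 0 := by
    intro c hc h0
    apply hN c hc
    have h2 := hc.1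
    unfold NN
    rw [← hHG]
    simp only [wr, Polynomial.eval_sub, Polynomial.eval_add, Polynomial.eval_mul,
      derivative_sub, derivative_mul] at h0 h2 ⊢
    linear_combination (Q.eval c) * h0 - 2 * G.eval c * h2
  obtain ⟨r, τ, F⟩ := exists_fam O hna hHd hGd hN₁
  have hr := F.hr
  have h0 : rf (P + C (0 : ℂ) * H) (Q + C (0 : ℂ) * G) = rf P Q := by simp
  refine ⟨2 * R / (r / 2) + 4 / r, by positivity, fun c hc c' hc' hne J => ?_⟩
  have hvU : rf P Q c' ∈ U := O.s (subset_closure (O.n _ (O.nv hc' 0)))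
  have e := F.deriv_eq O hc hc' hne J
  rw [hHG] at e
  have h1 := F.one O hc hc' hUR J
  have hX : XX P Q H G (τ c) (J + 1) 0 = (rf P Q)^[J] (rf P Q c) := by
    unfold XX
    rw [h0, F.τ0 c hc, Function.iterate_succ_apply]
  have hJU : (rf P Q)^[J] (rf P Q c) ∈ U := O.s (subset_closure (O.n _ (O.nv hc J)))
  have hq : 0 ≤ lm R ‖(rf P Q)^[J] (rf P Q c) - rf P Q c'‖ := by
    apply lm_nonneg hR (norm_nonneg _)
    have h3 := norm_sub_le ((rf P Q)^[J] (rf P Q c)) (rf P Q c')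
    have h4 := hUR _ hJU
    have h5 := hUR _ hvU
    linarith
  refine ⟨?_, fun hleave => ?_⟩
  · rw [e, norm_mul] at h1
    refine h1.trans ?_
    have : 0 < 4 / r := by positivity
    linarith
  · have h2 := F.two O hc hc' hleave hR hUR J
    rw [e, norm_mul, hX] at h2
    refine h2.trans ?_
    change 4 / r * lm R ‖(rf P Q)^[J] (rf P Q c) - rf P Q c'‖ ≤ _
    gcongr
    have : 0 ≤ 2 * R / (r / 2) := by positivity
    linarith

/-- A direction which is transversal at every free critical point. -/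
lemma exists_dir (O : Many d P Q U U₁) :
    ∃ a : ℂ, ∀ c ∈ Fr d P Q, NN Q c (X - C a) ≠ 0 := by
  have hd0 : 0 < d := by have := O.d2; omega
  have hF : (Fr d P Q).Finite := Fr_fin (O.nice.N0 hd0)
  obtain ⟨a, ha⟩ := (hF.image (fun c => c - Q.eval c / (2 * (derivative Q).eval c))).exists_notMem
  refine ⟨a, fun c hc h0 => ?_⟩
  have h1 := O.qorb hc 0
  rw [Function.iterate_zero_apply] at h1
  unfold NN at h0
  simp only [derivative_sub, derivative_X, derivative_C, sub_zero, Polynomial.eval_one, one_mul,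
    Polynomial.eval_sub, Polynomial.eval_X, Polynomial.eval_C] at h0
  by_cases h2 : (derivative Q).eval c = 0
  · rw [h2, mul_zero, sub_zero] at h0
    exact h1 h0
  · apply ha
    refine ⟨c, hc, ?_⟩
    have h3 : Q.eval c = 2 * (c - a) * (derivative Q).eval c := sub_eq_zero.1 h0
    change c - Q.eval c / (2 * (derivative Q).eval c) = a
    rw [h3]
    field_simp
    ring

theorem ell_bound (O : Many d P Q U U₁) (hna : ¬ Fewer d P Q) {R : ℝ} (hR : 0 < R)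
    (hUR : ∀ z ∈ U, ‖z‖ ≤ R) :
    ∃ C : ℝ, 0 ≤ C ∧ ∀ c ∈ Fr d P Q, ∀ c' ∈ Fr d P Q,
      (∀ j, (wr P Q).eval ((rf P Q)^[j] (rf P Q c)) ≠ 0) → ∀ J, ∀ k ≤ 2 * d,
      ‖deriv ((rf P Q)^[J]) (rf P Q c)‖ * ‖ellM P Q c c' J (X ^ k)‖ ≤ C ∧
      (Lv P Q U (rf P Q c') → ‖deriv ((rf P Q)^[J]) (rf P Q c)‖ * ‖ellM P Q c c' J (X ^ k)‖ ≤
        C * lm R ‖(rf P Q)^[J] (rf P Q c) - rf P Q c'‖) := by
  have hd := O.d2
  have hF : (Fr d P Q).Finite := Fr_fin (O.nice.N0 (by omega))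
  obtain ⟨a, ha⟩ := exists_dir O
  have hSd : (X - C a : ℂ[X]).natDegree ≤ 2 * d := by
    rw [natDegree_X_sub_C]
    omega
  have key : ∀ k ≤ 2 * d, ∃ C : ℝ, 0 ≤ C ∧ ∀ c ∈ Fr d P Q, ∀ c' ∈ Fr d P Q,
      (∀ j, (wr P Q).eval ((rf P Q)^[j] (rf P Q c)) ≠ 0) → ∀ J,
      ‖deriv ((rf P Q)^[J]) (rf P Q c)‖ * ‖ellM P Q c c' J (X ^ k)‖ ≤ C ∧
      (Lv P Q U (rf P Q c') → ‖deriv ((rf P Q)^[J]) (rf P Q c)‖ * ‖ellM P Q c c' J (X ^ k)‖ ≤
        C * lm R ‖(rf P Q)^[J] (rf P Q c) - rf P Q c'‖) := by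
    intro k hk
    obtain ⟨θ, hθ⟩ := (hF.image (fun c => - NN Q c (X ^ k) / NN Q c (X - C a))).exists_notMem
    have hadd : ∀ c, NN Q c (X ^ k + C θ * (X - C a)) = NN Q c (X ^ k) + θ * NN Q c (X - C a) := by
      intro c
      unfold NN
      rw [derivative_add, derivative_C_mul, Polynomial.eval_add, Polynomial.eval_add,
        Polynomial.eval_C_mul, Polynomial.eval_C_mul]
      ring
    obtain ⟨C₁, hC₁, h1⟩ := ell_bound1 O hna hR hUR (S := X ^ k + C θ * (X - C a)) (by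
      refine (natDegree_add_le _ _).trans (max_le ?_ ?_)
      · rw [natDegree_X_pow]
        exact hk
      · exact (natDegree_C_mul_le _ _).trans hSd) (fun c hc h0 => by
        rw [hadd c] at h0
        apply hθ
        refine ⟨c, hc, ?_⟩
        have h2 := ha c hc
        change - NN Q c (X ^ k) / NN Q c (X - C a) = θ
        rw [div_eq_iff h2]
        linear_combination -h0)
    obtain ⟨C₂, hC₂, h2⟩ := ell_bound1 O hna hR hUR (S := X - C a) hSd ha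
    refine ⟨C₁ + ‖θ‖ * C₂, by positivity, fun c hc c' hc' hne J => ?_⟩
    have e : ellM P Q c c' J (X ^ k) = ellM P Q c c' J (X ^ k + C θ * (X - C a)) -
        θ * ellM P Q c c' J (X - C a) := by
      rw [map_add, ← smul_eq_C_mul, LinearMap.map_smul, smul_eq_mul, add_sub_cancel_right]
    have h3 : ‖deriv ((rf P Q)^[J]) (rf P Q c)‖ * ‖ellM P Q c c' J (X ^ k)‖ ≤
        ‖deriv ((rf P Q)^[J]) (rf P Q c)‖ * ‖ellM P Q c c' J (X ^ k + C θ * (X - C a))‖ +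
        ‖θ‖ * (‖deriv ((rf P Q)^[J]) (rf P Q c)‖ * ‖ellM P Q c c' J (X - C a)‖) := by
      have h4 : ‖ellM P Q c c' J (X ^ k)‖ ≤ ‖ellM P Q c c' J (X ^ k + C θ * (X - C a))‖ +
          ‖θ‖ * ‖ellM P Q c c' J (X - C a)‖ := by
        rw [e, ← norm_mul]
        exact norm_sub_le _ _
      calc ‖deriv ((rf P Q)^[J]) (rf P Q c)‖ * ‖ellM P Q c c' J (X ^ k)‖ ≤
          ‖deriv ((rf P Q)^[J]) (rf P Q c)‖ * (‖ellM P Q c c' J (X ^ k + C θ * (X - C a))‖ +
          ‖θ‖ * ‖ellM P Q c c' J (X - C a)‖) := by gcongr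
        _ = _ := by ring
    constructor
    · have h4 := (h1 c hc c' hc' hne J).1
      have h5 := (h2 c hc c' hc' hne J).1
      have h6 := mul_le_mul_of_nonneg_left h5 (norm_nonneg θ)
      linarith
    · intro hl
      have h4 := (h1 c hc c' hc' hne J).2 hl
      have h5 := (h2 c hc c' hc' hne J).2 hl
      have h6 := mul_le_mul_of_nonneg_left h5 (norm_nonneg θ)
      have e2 : (C₁ + ‖θ‖ * C₂) * lm R ‖(rf P Q)^[J] (rf P Q c) - rf P Q c'‖ =
        C₁ * lm R ‖(rf P Q)^[J] (rf P Q c) - rf P Q c'‖ +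
          ‖θ‖ * (C₂ * lm R ‖(rf P Q)^[J] (rf P Q c) - rf P Q c'‖) := by ring
      rw [e2]
      linarith
  choose! Cc hC0 hC using key
  have hs : ∀ k ≤ 2 * d, Cc k ≤ ∑ k ∈ Finset.range (2 * d + 1), Cc k := by
    intro k hk
    exact Finset.single_le_sum (f := Cc)
      (fun i hi => hC0 i (by rw [Finset.mem_range] at hi; omega)) (Finset.mem_range.2 (by omega))
  refine ⟨∑ k ∈ Finset.range (2 * d + 1), Cc k, Finset.sum_nonneg fun i hi =>
    hC0 i (by rw [Finset.mem_range] at hi; omega), fun c hc c' hc' hne J k hk => ?_⟩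
  have hvU : rf P Q c' ∈ U := O.s (subset_closure (O.n _ (O.nv hc' 0)))
  have h1 := hC k hk c hc c' hc' hne J
  refine ⟨h1.1.trans (hs k hk), fun hl => (h1.2 hl).trans ?_⟩
  have hJU : (rf P Q)^[J] (rf P Q c) ∈ U := O.s (subset_closure (O.n _ (O.nv hc J)))
  have hq : 0 ≤ lm R ‖(rf P Q)^[J] (rf P Q c) - rf P Q c'‖ := by
    apply lm_nonneg hR (norm_nonneg _)
    have h3 := norm_sub_le ((rf P Q)^[J] (rf P Q c)) (rf P Q c')
    have h4 := hUR _ hJU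
    have h5 := hUR _ hvU
    linarith
  have h6 := hs k hk
  gcongr

end Pool.Agent.Zk29.Mu
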