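import Pool.Agent.Zk29.Mu.M1

/-!
# The quasi-polynomial bound for one of several critical orbits
-/

set_option autoImplicit false
open Set Filter Topology Metric Finset

namespace Pool.Agent.Zk29.Mu

open Pool.Agent.Zk29.Ab (DD DD_zero DD_succ Deep)

/-- The closing inequalities of an orbit. -/
structure Clm (f : ℂ → ℂ) (v : ℂ) (V : Set ℂ) (E : ℕ → ℝ) (Esc : ℂ → ℕ → Prop) (A c : ℝ) :
    Prop where
  one : ∀ (J M : ℕ) (y : ℂ) (δ W : ℝ), 1 ≤ J → 1 ≤ M → Esc y M → 0 < δ → δ ≤ 1 →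
    (∀ i, 1 ≤ i → i < J → δ ≤ ‖f^[i] v - v‖) → 1 ≤ W →
    ∑ i ∈ Finset.range J, (DD E i)⁻¹ ≤ Real.exp W → A * W ^ A * ‖y - v‖ ≤ δ →
    DD E J * δ ≤ A * W ^ A * (M : ℝ) ^ 2
  two : ∀ u ∈ V, ∀ (J M : ℕ) (y : ℂ) (δ W : ℝ), 1 ≤ J → 1 ≤ M → Esc y M → 0 < δ → δ ≤ 1 →
    (∀ i, 1 ≤ i → i < J → δ ≤ ‖f^[i] v - v‖) → 1 ≤ W →
    ∑ i ∈ Finset.range J, (DD E i)⁻¹ ≤ Real.exp W → A * W ^ A * ‖y - v‖ ≤ δ →
    DD E J * δ ≤ A * W ^ A * (M : ℝ) ^ 2 * (‖f^[J] v - u‖ * (c - Real.log ‖f^[J] v - u‖))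

variable {f : ℂ → ℂ} {v : ℂ} {V : Set ℂ} {E θ : ℕ → ℝ} {κ : ℝ} {Esc : ℂ → ℕ → Prop} {A c : ℝ}

/-- If the derivatives are unbounded, then `v` is not periodic. -/
lemma Clm.ne (C : Clm f v V E Esc A c) (S : Sysm f v V E θ κ) (hA : 1 ≤ A) {C₁ : ℝ}
    (hcau : ∀ (N : ℕ) (s : ℝ), 1 ≤ N → 0 < s → C₁ ≤ DD E N * s → ∃ y, ‖y - v‖ ≤ s ∧ Esc y N)
    (hub : ∀ B : ℝ, ∃ N, B < DD E N) (m : ℕ) (hm : 1 ≤ m) : f^[m] v ≠ v := by
  classical
  intro hmv
  have hex : ∃ m, 1 ≤ m ∧ f^[m] v = v := ⟨m, hm, hmv⟩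
  obtain ⟨k, hk⟩ : ∃ k, k = Nat.find hex := ⟨_, rfl⟩
  have hk1 : 1 ≤ k := by rw [hk]; exact (Nat.find_spec hex).1
  have hkv : f^[k] v = v := by rw [hk]; exact (Nat.find_spec hex).2
  have hkm : ∀ i, 1 ≤ i → i < k → f^[i] v ≠ v := by
    intro i h1 h2 h3
    rw [hk] at h2
    exact Nat.find_min hex h2 ⟨h1, h3⟩
  obtain ⟨δ, hδ0, hδ1, hδ⟩ : ∃ δ : ℝ, 0 < δ ∧ δ ≤ 1 ∧ ∀ i, 1 ≤ i → i < k →
      δ ≤ ‖f^[i] v - v‖ := by
    have : ∀ n ≤ k, ∃ δ : ℝ, 0 < δ ∧ δ ≤ 1 ∧ ∀ i, 1 ≤ i → i < n → δ ≤ ‖f^[i] v - v‖ := by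
      intro n
      induction n with
      | zero => intro _; exact ⟨1, one_pos, le_rfl, fun i _ h => absurd h (by omega)⟩
      | succ n ih =>
        intro hn
        obtain ⟨δ, h1, h2, h3⟩ := ih (by omega)
        rcases Nat.eq_zero_or_pos n with h0 | h0
        · exact ⟨1, one_pos, le_rfl, fun i h4 h5 => absurd h5 (by omega)⟩
        · have h4 : 0 < ‖f^[n] v - v‖ := by
            rw [norm_pos_iff, sub_ne_zero]
            exact hkm n h0 (by omega)
          refine ⟨min δ ‖f^[n] v - v‖, lt_min h1 h4, (min_le_left _ _).trans h2, ?_⟩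
          intro i h5 h6
          rcases Nat.lt_succ_iff_lt_or_eq.1 h6 with h7 | h7
          · exact (min_le_left _ _).trans (h3 i h5 h7)
          · rw [h7]
            exact min_le_right _ _
    exact this k le_rfl
  obtain ⟨Sm, hSm⟩ : ∃ Sm, Sm = ∑ i ∈ Finset.range k, (DD E i)⁻¹ := ⟨_, rfl⟩
  have hSm0 : 0 ≤ Sm := by
    rw [hSm]
    exact Finset.sum_nonneg fun i _ => inv_nonneg.2 (S.DD_pos i).le
  have hW1 : (1 : ℝ) ≤ 1 + Sm := by linarith
  have hWA : 0 < (1 + Sm) ^ A := Real.rpow_pos_of_pos (by linarith) A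
  have hA0 : 0 < A := by linarith
  obtain ⟨s, hs⟩ : ∃ s, s = δ / (A * (1 + Sm) ^ A) := ⟨_, rfl⟩
  have hs0 : 0 < s := by rw [hs]; positivity
  obtain ⟨N, hN⟩ := hub (max 1 (C₁ / s))
  have hN1 : 1 ≤ N := by
    by_contra h
    have h0 : N = 0 := by omega
    rw [h0, DD_zero] at hN
    have := le_max_left 1 (C₁ / s)
    linarith
  have hNs : C₁ ≤ DD E N * s := by
    have h1 := (le_max_right 1 (C₁ / s)).trans hN.le
    rwa [div_le_iff₀ hs0] at h1
  obtain ⟨y, hy, hyN⟩ := hcau N s hN1 hs0 hNs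
  have h1 := C.two v S.mem k N y δ (1 + Sm) hk1 hN1 hyN hδ0 hδ1 hδ hW1 (by
    rw [← hSm]
    have := Real.add_one_le_exp (1 + Sm)
    linarith) (by
    rw [hs] at hy
    calc A * (1 + Sm) ^ A * ‖y - v‖ ≤ A * (1 + Sm) ^ A * (δ / (A * (1 + Sm) ^ A)) := by gcongr
      _ = δ := by field_simp)
  rw [hkv, sub_self, norm_zero, zero_mul, mul_zero] at h1
  have h2 := S.DD_pos k
  have h3 : 0 < DD E k * δ := by positivity
  linarith

lemma small_log {c x : ℝ} (hc : 0 ≤ c) (h0 : 0 < x) (h1 : x ≤ 1) :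
    x * (c - Real.log x) ≤ (c + 2) * Real.sqrt x := by
  obtain ⟨s, hs⟩ : ∃ s, s = Real.sqrt x := ⟨_, rfl⟩
  have hs0 : 0 < s := by rw [hs]; exact Real.sqrt_pos.2 h0
  have hx : x = s * s := by rw [hs, Real.mul_self_sqrt h0.le]
  have hs1 : s ≤ 1 := by rw [hs]; exact Real.sqrt_le_one.2 h1
  rw [← hs, hx, Real.log_mul hs0.ne' hs0.ne']
  have h2 : -Real.log s ≤ 1 / s - 1 := by
    have h3 := Real.log_le_sub_one_of_pos (inv_pos.2 hs0)
    rw [Real.log_inv] at h3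
    rw [one_div]
    exact h3
  have h3 : s * s * (-Real.log s) ≤ s := by
    calc s * s * (-Real.log s) ≤ s * s * (1 / s - 1) := by gcongr
      _ = s - s * s := by field_simp
      _ ≤ s := by
          have := mul_self_nonneg s
          linarith
  have h4 : s * s * c ≤ s * c := by
    have : s * s ≤ s := mul_le_of_le_one_left hs0.le hs1
    gcongr
  have e : s * s * (c - (Real.log s + Real.log s)) = s * s * c + 2 * (s * s * (-Real.log s)) := by
    ring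
  rw [e]
  linarith

/-- **The quasi-polynomial bound.** -/
theorem quasi (C : Clm f v V E Esc A c) (S : Sysm f v V E θ κ) (hA : 1 ≤ A)
    (hc0 : 1 ≤ c) {Λ C₁ : ℝ}
    (hΛ : 1 ≤ Λ) (hC₁ : 1 ≤ C₁) (hE : ∀ j, E j ≤ Λ)
    (hcau : ∀ (N : ℕ) (s : ℝ), 1 ≤ N → 0 < s → C₁ ≤ DD E N * s → ∃ y, ‖y - v‖ ≤ s ∧ Esc y N)
    (hno : ∀ m, 1 ≤ m → ¬ Deep f v θ κ m) :
    ∃ K : ℝ, ∀ N : ℕ, 2 ≤ N → DD E N ≤ Real.exp (K * Real.log N ^ 2) := by
  have hκ := S.hκ
  have hl2 : 0 < Real.log 2 := Real.log_pos (by norm_num)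
  have hNlog : ∀ N : ℕ, 2 ≤ N → Real.log 2 ≤ Real.log N := fun N hN =>
    Real.log_le_log (by norm_num) (by exact_mod_cast hN)
  by_cases hub : ∀ B : ℝ, ∃ N, B < DD E N
  swap
  · push Not at hub
    obtain ⟨B, hB⟩ := hub
    have hB1 : 1 ≤ B := by
      have := hB 0
      rwa [DD_zero] at this
    refine ⟨Real.log B / Real.log 2 ^ 2, fun N hN => (hB N).trans ?_⟩
    rw [← Real.log_le_iff_le_exp (by linarith), div_mul_eq_mul_div, le_div_iff₀ (by positivity)]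
    have h1 := Real.log_nonneg hB1
    have h2 := hNlog N hN
    gcongr
  have hne := C.ne S hA hcau hub
  -- the constants
  have hlΛ := Real.log_nonneg hΛ
  obtain ⟨K₁, hK₁⟩ : ∃ K₁, K₁ = 1 + Real.log Λ := ⟨_, rfl⟩
  have hK₁1 : 1 ≤ K₁ := by linarith
  obtain ⟨a, ha⟩ : ∃ a : ℕ, a = ⌈A⌉₊ := ⟨_, rfl⟩
  have haA : A ≤ a := by rw [ha]; exact Nat.le_ceil A
  have hκ2 : 1 ≤ κ ^ 2 := one_le_pow₀ hκ
  obtain ⟨C₂, hC₂⟩ : ∃ C₂, C₂ = C₁ * κ ^ 2 * A * K₁ ^ a := ⟨_, rfl⟩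
  have hC₂1 : 1 ≤ C₂ := by
    rw [hC₂]
    exact one_le_mul_of_one_le_of_one_le (one_le_mul_of_one_le_of_one_le
      (one_le_mul_of_one_le_of_one_le hC₁ hκ2) hA) (one_le_pow₀ hK₁1)
  obtain ⟨c₃, hc₃⟩ : ∃ c₃ : ℝ, c₃ = c + 2 * (Real.log C₂ + (a + 2) + Real.log (c + 2) +
    2 * Real.log Λ) := ⟨_, rfl⟩
  have hlC₂ := Real.log_nonneg hC₂1
  have hlc2 : 0 ≤ Real.log (c + 2) := Real.log_nonneg (by linarith)
  have ha0 : (0 : ℝ) ≤ a := Nat.cast_nonneg a
  have hc₃1 : 1 ≤ c₃ := by rw [hc₃]; linarith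
  obtain ⟨K, hKe⟩ : ∃ K : ℝ, K = 500 + 16 * (C₂ * c₃) := ⟨_, rfl⟩
  have hCc : 0 < C₂ * c₃ := by positivity
  have hK500 : 500 ≤ K := by linarith
  have hK0 : 0 < K := by linarith
  have hK2 : 16 * (C₂ * c₃) ≤ K ^ 2 := by
    have h1 := mul_le_mul_of_nonneg_left (show (1 : ℝ) ≤ K by linarith) hK0.le
    rw [pow_two]
    linarith
  have hlK : 0 ≤ Real.log K := Real.log_nonneg (by linarith)
  obtain ⟨m, hm⟩ : ∃ m : ℕ, m = a + 4 := ⟨_, rfl⟩
  obtain ⟨Kf, hKf⟩ : ∃ Kf : ℝ, Kf = 10 / Real.log 2 * (Real.log K / Real.log 2 + m) +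
      Real.log C₁ / Real.log 2 ^ 2 := ⟨_, rfl⟩
  refine ⟨Kf, ?_⟩
  intro N hN
  have hN2 : (2 : ℝ) ≤ N := by exact_mod_cast hN
  have hN1 : (1 : ℝ) ≤ N := by linarith
  have hlN := hNlog N hN
  have hlN0 : 0 < Real.log N := by linarith
  have hD0 := S.DD_pos N
  -- the final bound
  obtain ⟨X, hX⟩ : ∃ X : ℝ, X = K * (N : ℝ) ^ m := ⟨_, rfl⟩
  have hX0 : 0 < X := by rw [hX]; positivity
  have hlX : Real.log X = Real.log K + m * Real.log N := by
    rw [hX, Real.log_mul hK0.ne' (by positivity), Real.log_pow]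
  have hNm : 1 ≤ (N : ℝ) ^ m := one_le_pow₀ hN1
  have hX500 : 500 ≤ X := by
    rw [hX]
    exact hK500.trans (le_mul_of_one_le_right hK0.le hNm)
  have hfin : ∀ D : ℝ, 0 < D → D ≤ X ^ (4 * (Nat.log 2 N + 1) + 2) →
      D ≤ Real.exp (Kf * Real.log N ^ 2) := by
    intro D hD hDX
    rw [← Real.log_le_iff_le_exp hD]
    have h1 := Real.log_le_log hD hDX
    rw [Real.log_pow] at h1
    refine h1.trans ?_
    have hlog2 : (Nat.log 2 N : ℝ) * Real.log 2 ≤ Real.log N := by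
      have h1 : 2 ^ Nat.log 2 N ≤ N := Nat.pow_log_le_self 2 (by omega)
      have h2 : ((2 : ℝ)) ^ Nat.log 2 N ≤ N := by exact_mod_cast h1
      have h3 := Real.log_le_log (by positivity) h2
      rwa [Real.log_pow] at h3
    have h2 : ((4 * (Nat.log 2 N + 1) + 2 : ℕ) : ℝ) ≤ 10 / Real.log 2 * Real.log N := by
      push_cast
      rw [div_mul_eq_mul_div, le_div_iff₀ hl2]
      have e : (4 * ((Nat.log 2 N : ℝ) + 1) + 2) * Real.log 2 =
          4 * ((Nat.log 2 N : ℝ) * Real.log 2) + 6 * Real.log 2 := by ring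
      rw [e]
      linarith
    have h3 : Real.log X ≤ (Real.log K / Real.log 2 + m) * Real.log N := by
      rw [hlX, add_mul]
      have : Real.log K ≤ Real.log K / Real.log 2 * Real.log N := by
        rw [div_mul_eq_mul_div, le_div_iff₀ hl2]
        gcongr
      linarith
    have h4 : 0 ≤ Real.log X := Real.log_nonneg (by linarith)
    have h5 : 0 ≤ Real.log C₁ / Real.log 2 ^ 2 := by
      have := Real.log_nonneg hC₁
      positivity
    calc ((4 * (Nat.log 2 N + 1) + 2 : ℕ) : ℝ) * Real.log X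
        ≤ (10 / Real.log 2 * Real.log N) * ((Real.log K / Real.log 2 + m) * Real.log N) := by
          gcongr
      _ = 10 / Real.log 2 * (Real.log K / Real.log 2 + m) * Real.log N ^ 2 := by ring
      _ ≤ Kf * Real.log N ^ 2 := by
          rw [hKf]
          gcongr
          linarith
  rcases le_or_gt (DD E N) C₁ with hDC | hDC
  · refine hDC.trans ?_
    rw [← Real.log_le_iff_le_exp (by linarith)]
    have h1 := Real.log_nonneg hC₁
    have h2 : Real.log C₁ ≤ Real.log C₁ / Real.log 2 ^ 2 * Real.log N ^ 2 := by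
      rw [div_mul_eq_mul_div, le_div_iff₀ (by positivity)]
      gcongr
    have h3 : 0 ≤ 10 / Real.log 2 * (Real.log K / Real.log 2 + m) * Real.log N ^ 2 := by
      positivity
    rw [hKf, add_mul]
    linarith
  -- the lower bound of the derivatives
  have hstep : ∀ i k, DD E (i + k) ≤ DD E i * Λ ^ k := by
    intro i k
    induction k with
    | zero => rw [add_zero, pow_zero, mul_one]
    | succ k ih =>
      rw [← add_assoc, DD_succ, pow_succ, ← mul_assoc]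
      have h1 := (S.DD_pos (i + k)).le
      have h2 := (S.E0 (i + k)).le
      have h3 := hE (i + k)
      have h4 := (S.DD_pos i).le
      gcongr
  have hlow : ∀ i ≤ N, 1 ≤ DD E i * Λ ^ N := by
    intro i hi
    have h1 := hstep i (N - i)
    rw [show i + (N - i) = N by omega] at h1
    have h2 : Λ ^ (N - i) ≤ Λ ^ N := pow_le_pow_right₀ hΛ (Nat.sub_le _ _)
    have h3 := (S.DD_pos i).le
    calc 1 ≤ DD E N := by linarith
      _ ≤ DD E i * Λ ^ (N - i) := h1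
      _ ≤ _ := by gcongr
  have hΛN : 0 < Λ ^ N := by positivity
  -- the scale of an escaping point
  obtain ⟨ε, hε⟩ : ∃ ε, ε = C₁ / DD E N := ⟨_, rfl⟩
  have hε0 : 0 < ε := by rw [hε]; positivity
  have hε1 : ε ≤ 1 := by rw [hε, div_le_one hD0]; exact hDC.le
  obtain ⟨y, hy, hyN⟩ := hcau N ε (by omega) hε0 (by rw [hε]; field_simp; exact le_rfl)
  have hεΛ : 1 ≤ ε * Λ ^ N := by
    have h1 := hstep 0 N
    rw [zero_add, DD_zero, one_mul] at h1
    rw [hε, div_mul_eq_mul_div, le_div_iff₀ hD0, one_mul]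
    calc DD E N ≤ 1 * Λ ^ N := by linarith
      _ ≤ C₁ * Λ ^ N := by gcongr
  obtain ⟨W, hW⟩ : ∃ W : ℝ, W = K₁ * (N : ℝ) := ⟨_, rfl⟩
  have hW1 : 1 ≤ W := by
    rw [hW]
    exact one_le_mul_of_one_le_of_one_le hK₁1 hN1
  have hsum : ∀ J : ℕ, J ≤ N → ∑ i ∈ Finset.range J, (DD E i)⁻¹ ≤ Real.exp W := by
    intro J h1
    have h2 : ∀ i ∈ Finset.range J, (DD E i)⁻¹ ≤ Λ ^ N := by
      intro i hi
      rw [Finset.mem_range] at hi
      have h3 := hlow i (by omega)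
      rwa [inv_le_iff_one_le_mul₀ (S.DD_pos i), mul_comm]
    refine (Finset.sum_le_sum h2).trans ?_
    rw [Finset.sum_const, Finset.card_range, nsmul_eq_mul]
    have h3 : (J : ℝ) ≤ Real.exp N := by
      have h4 := Real.add_one_le_exp (N : ℝ)
      have h5 : (J : ℝ) ≤ N := by exact_mod_cast h1
      linarith
    have h4 : Λ ^ N = Real.exp (N * Real.log Λ) := by
      rw [Real.exp_nat_mul, Real.exp_log (by linarith)]
    calc (J : ℝ) * Λ ^ N ≤ Real.exp N * Real.exp (N * Real.log Λ) := by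
          rw [h4]
          gcongr
      _ = _ := by
          rw [← Real.exp_add, hW, hK₁]
          congr 1
          ring
  have hA0 : 0 < A := by linarith
  have hWA1 : 1 ≤ W ^ A := Real.one_le_rpow hW1 hA0.le
  have hAW1 : 1 ≤ A * W ^ A := one_le_mul_of_one_le_of_one_le hA hWA1
  have hWa : W ^ A ≤ K₁ ^ a * (N : ℝ) ^ a := by
    calc W ^ A ≤ W ^ (a : ℝ) := Real.rpow_le_rpow_of_exponent_le hW1 haA
      _ = W ^ a := Real.rpow_natCast _ _
      _ = _ := by rw [hW, mul_pow]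
  obtain ⟨Q₀, hQ₀⟩ : ∃ Q₀ : ℝ, Q₀ = C₁ * κ ^ 2 * A * W ^ A * (N : ℝ) ^ 2 := ⟨_, rfl⟩
  have hN21 : 1 ≤ (N : ℝ) ^ 2 := one_le_pow₀ hN1
  have h4κN : 1 ≤ 4 * κ ^ 2 * (N : ℝ) ^ 2 := by
    have h1 := one_le_mul_of_one_le_of_one_le hκ2 hN21
    have e : 4 * κ ^ 2 * (N : ℝ) ^ 2 = 4 * (κ ^ 2 * (N : ℝ) ^ 2) := by ring
    rw [e]
    linarith
  have hQ₀1 : 1 ≤ Q₀ := by
    rw [hQ₀]
    exact one_le_mul_of_one_le_of_one_le (one_le_mul_of_one_le_of_one_le
      (one_le_mul_of_one_le_of_one_le (one_le_mul_of_one_le_of_one_le hC₁ hκ2) hA) hWA1) hN21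
  have hQ₀0 : 0 < Q₀ := by linarith
  have hQ₀le : Q₀ ≤ C₂ * (N : ℝ) ^ (a + 2) := by
    rw [hQ₀, hC₂]
    calc C₁ * κ ^ 2 * A * W ^ A * (N : ℝ) ^ 2
        ≤ C₁ * κ ^ 2 * A * (K₁ ^ a * (N : ℝ) ^ a) * (N : ℝ) ^ 2 := by gcongr
      _ = _ := by rw [pow_add]; ring
  obtain ⟨η, hη⟩ : ∃ η : ℝ, η = A * W ^ A * ε := ⟨_, rfl⟩
  have hηε : ε ≤ η := by rw [hη]; exact le_mul_of_one_le_left hε0.le hAW1
  have hη0 : 0 < η := hε0.trans_le hηε
  -- the logarithmic factor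
  obtain ⟨q, hq⟩ : ∃ q : ℝ, q = Q₀ * (c + 2) * Λ ^ N / η := ⟨_, rfl⟩
  have hq0 : 0 < q := by rw [hq]; positivity
  obtain ⟨L, hL⟩ : ∃ L : ℝ, L = c + 2 * Real.log q := ⟨_, rfl⟩
  have hlogN : Real.log N ≤ N := by
    have := Real.log_le_sub_one_of_pos (show (0 : ℝ) < N by linarith)
    linarith
  have hlq : Real.log q ≤ (Real.log C₂ + (a + 2) + Real.log (c + 2) + 2 * Real.log Λ) * N := by
    have h1 : Real.log q = Real.log Q₀ + Real.log (c + 2) + N * Real.log Λ - Real.log η := by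
      rw [hq, Real.log_div (by positivity) hη0.ne', Real.log_mul (by positivity) (by positivity),
        Real.log_mul (by positivity) (by positivity), Real.log_pow]
    have h2 : Real.log Q₀ ≤ Real.log C₂ + (a + 2) * Real.log N := by
      have h3 := Real.log_le_log hQ₀0 hQ₀le
      rw [Real.log_mul (by positivity) (by positivity), Real.log_pow] at h3
      push_cast at h3
      exact h3
    have h4 : -Real.log η ≤ N * Real.log Λ := by
      have h5 := Real.log_le_log hε0 hηε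
      have h6 := Real.log_nonneg hεΛ
      rw [Real.log_mul hε0.ne' hΛN.ne', Real.log_pow] at h6
      linarith
    rw [h1]
    have h7 : ((a : ℝ) + 2) * Real.log N ≤ (a + 2) * N := by gcongr
    have h8 : Real.log C₂ ≤ Real.log C₂ * N := le_mul_of_one_le_right hlC₂ hN1
    have h9 : Real.log (c + 2) ≤ Real.log (c + 2) * N := le_mul_of_one_le_right hlc2 hN1
    have e : (Real.log C₂ + ((a : ℝ) + 2) + Real.log (c + 2) + 2 * Real.log Λ) * N =
        Real.log C₂ * N + (a + 2) * N + Real.log (c + 2) * N + 2 * (N * Real.log Λ) := by ring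
    rw [e]
    linarith
  rcases le_or_gt η 1 with hη1 | hη1
  swap
  · -- the polynomial case
    apply hfin _ hD0
    have h1 : DD E N ≤ 4 * Q₀ := by
      rw [hη, hε, mul_div_assoc', lt_div_iff₀ hD0, one_mul] at hη1
      refine hη1.le.trans ?_
      rw [hQ₀]
      have h2 : A * W ^ A * C₁ ≤ (A * W ^ A * C₁) * (4 * κ ^ 2 * (N : ℝ) ^ 2) :=
        le_mul_of_one_le_right (by positivity) h4κN
      refine h2.trans (le_of_eq ?_)
      ring
    have h2 : 4 * Q₀ ≤ X ^ 2 := by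
      calc 4 * Q₀ ≤ 4 * (C₂ * (N : ℝ) ^ (a + 2)) := by gcongr
        _ ≤ 16 * (C₂ * c₃) * (N : ℝ) ^ (2 * m) := by
            have h3 : (N : ℝ) ^ (a + 2) ≤ (N : ℝ) ^ (2 * m) := pow_le_pow_right₀ hN1 (by omega)
            have h4 : C₂ ≤ C₂ * c₃ := le_mul_of_one_le_right (by linarith) hc₃1
            calc 4 * (C₂ * (N : ℝ) ^ (a + 2)) ≤ 4 * (C₂ * c₃ * (N : ℝ) ^ (2 * m)) := by gcongr
              _ ≤ 16 * (C₂ * c₃ * (N : ℝ) ^ (2 * m)) := by
                  have : 0 < C₂ * c₃ * (N : ℝ) ^ (2 * m) := by positivity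
                  linarith
              _ = _ := by ring
        _ ≤ K ^ 2 * (N : ℝ) ^ (2 * m) := by gcongr
        _ = X ^ 2 := by rw [hX, mul_pow, ← pow_mul, mul_comm m 2]
    calc DD E N ≤ X ^ 2 := h1.trans h2
      _ ≤ _ := pow_le_pow_right₀ (by linarith) (by omega)
  have hq1 : 1 ≤ q := by
    rw [hq, le_div_iff₀ hη0, one_mul]
    have h1 : 1 ≤ Λ ^ N := one_le_pow₀ hΛ
    have h2 : 1 ≤ Q₀ * (c + 2) * Λ ^ N :=
      one_le_mul_of_one_le_of_one_le (one_le_mul_of_one_le_of_one_le hQ₀1 (by linarith)) h1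
    linarith
  have hlq0 := Real.log_nonneg hq1
  have hL1 : 1 ≤ L := by rw [hL]; linarith
  have hLN : L ≤ c₃ * N := by
    rw [hL, hc₃]
    have h1 : c ≤ c * N := le_mul_of_one_le_right (by linarith) hN1
    have e : (c + 2 * (Real.log C₂ + ((a : ℝ) + 2) + Real.log (c + 2) + 2 * Real.log Λ)) * N =
        c * N + 2 * ((Real.log C₂ + ((a : ℝ) + 2) + Real.log (c + 2) + 2 * Real.log Λ) * N) := by
      ring
    rw [e]
    linarith
  obtain ⟨Q, hQ⟩ : ∃ Q : ℝ, Q = Q₀ * L := ⟨_, rfl⟩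
  have hQ₀Q : Q₀ ≤ Q := by rw [hQ]; exact le_mul_of_one_le_right hQ₀0.le hL1
  have hQ1 : 1 ≤ Q := hQ₀1.trans hQ₀Q
  have hQX : 16 * N * Q ≤ X ^ 2 := by
    calc 16 * N * Q ≤ 16 * N * ((C₂ * (N : ℝ) ^ (a + 2)) * (c₃ * N)) := by
          rw [hQ]
          gcongr
      _ = 16 * (C₂ * c₃) * (N : ℝ) ^ (a + 4) := by ring
      _ ≤ K ^ 2 * (N : ℝ) ^ (2 * m) := by
          gcongr
          omega
      _ = X ^ 2 := by rw [hX, mul_pow, ← pow_mul, mul_comm m 2]
  have hηW : ∀ δ : ℝ, η ≤ δ → A * W ^ A * ‖y - v‖ ≤ δ := by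
    intro δ h1
    refine le_trans ?_ h1
    rw [hη]
    gcongr
  have hQ' : ∀ t : ℝ, 0 ≤ t → κ ^ 2 * (A * W ^ A * (N : ℝ) ^ 2 * t) ≤ Q₀ * t := by
    intro t ht
    rw [hQ₀]
    have h1 : κ ^ 2 * (A * W ^ A * (N : ℝ) ^ 2 * t) * 1 ≤
        κ ^ 2 * (A * W ^ A * (N : ℝ) ^ 2 * t) * C₁ := by gcongr
    calc κ ^ 2 * (A * W ^ A * (N : ℝ) ^ 2 * t) ≤ κ ^ 2 * (A * W ^ A * (N : ℝ) ^ 2 * t) * C₁ := by
          linarith
      _ = _ := by ring
  have s : Sum f v V E κ N Q η X := by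
    refine ⟨by omega, hQ1, hη0, hη1, hX500, hQX, ?_, ?_⟩
    · intro j δ h1 h2 h3 h4 h5
      have h6 := C.one j N y δ W h1 (by omega) hyN (hη0.trans_le h3) h4 h5 hW1
        (hsum j h2) (hηW δ h3)
      have h7 := hQ' 1 zero_le_one
      rw [mul_one, mul_one] at h7
      refine le_trans ?_ (h7.trans hQ₀Q)
      gcongr
    · intro u hu j δ h1 h2 h3 h4 h5
      have h6 := C.two u hu j N y δ W h1 (by omega) hyN (hη0.trans_le h3) h4 h5 hW1
        (hsum j h2) (hηW δ h3)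
      obtain ⟨x, hx⟩ : ∃ x, x = ‖f^[j] v - u‖ := ⟨_, rfl⟩
      rw [← hx] at h6 ⊢
      have hx0 : 0 ≤ x := by rw [hx]; exact norm_nonneg _
      have hDj := S.DD_pos j
      have hδ0 : 0 < δ := hη0.trans_le h3
      have hleft : η ≤ κ ^ 2 * (DD E j * δ) * Λ ^ N := by
        have h7 := hlow j h2
        calc η ≤ 1 * (1 * δ) := by linarith
          _ ≤ κ ^ 2 * ((DD E j * Λ ^ N) * δ) := by gcongr
          _ = _ := by ring
      have hpos : 0 < DD E j * δ := by positivity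
      have hg0 : 0 < x * (c - Real.log x) := by
        by_contra hcon
        push Not at hcon
        have h8 : A * W ^ A * (N : ℝ) ^ 2 * (x * (c - Real.log x)) ≤ 0 :=
          mul_nonpos_of_nonneg_of_nonpos (by positivity) hcon
        linarith
      have hxpos : 0 < x := by
        rcases hx0.eq_or_lt with h | h
        · rw [← h, zero_mul] at hg0
          exact absurd hg0 (lt_irrefl 0)
        · exact h
      have h9 : κ ^ 2 * (DD E j * δ) ≤ Q₀ * (x * (c - Real.log x)) := by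
        refine le_trans ?_ (hQ' _ hg0.le)
        gcongr
      -- the point is not too close
      have hxq : 1 / q ^ 2 ≤ x := by
        by_contra hcon
        push Not at hcon
        have hq2 : 1 ≤ q ^ 2 := one_le_pow₀ hq1
        have hx1 : x ≤ 1 := hcon.le.trans (by rw [div_le_one (by positivity)]; exact hq2)
        have h10 := small_log (by linarith : (0 : ℝ) ≤ c) hxpos hx1
        have h11 : Real.sqrt x < 1 / q := by
          rw [Real.sqrt_lt' (by positivity), div_pow, one_pow]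
          exact hcon
        have h12 : Q₀ * (x * (c - Real.log x)) < Q₀ * ((c + 2) * (1 / q)) := by
          have h13 : (c + 2) * Real.sqrt x < (c + 2) * (1 / q) :=
            mul_lt_mul_of_pos_left h11 (by linarith)
          exact mul_lt_mul_of_pos_left (h10.trans_lt h13) hQ₀0
        have h14 : Q₀ * ((c + 2) * (1 / q)) * Λ ^ N = η := by
          rw [hq]
          have : c + 2 ≠ 0 := by linarith
          field_simp
        have h15 : κ ^ 2 * (DD E j * δ) * Λ ^ N < η := by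
          rw [← h14]
          exact mul_lt_mul_of_pos_right (h9.trans_lt h12) hΛN
        linarith
      have h16 : c - Real.log x ≤ L := by
        have h17 := Real.log_le_log (by positivity) hxq
        rw [Real.log_div one_ne_zero (by positivity), Real.log_one, Real.log_pow] at h17
        push_cast at h17
        rw [hL]
        linarith
      calc κ ^ 2 * (DD E j * δ) ≤ Q₀ * (x * (c - Real.log x)) := h9
        _ ≤ Q₀ * (x * L) := by gcongr
        _ = Q * x := by rw [hQ]; ring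
  apply hfin _ hD0
  have h4Q : 4 * Q ≤ X ^ 2 := by
    refine le_trans ?_ hQX
    have h1 : Q ≤ N * Q := le_mul_of_one_le_left (by linarith) hN1
    have e : 16 * (N : ℝ) * Q = 16 * (N * Q) := by ring
    rw [e]
    linarith
  have h1 := s.deriv_lt S (fun m h1 _ => hno m h1) (fun m h1 _ => hne m h1)
    (Nat.lt_pow_succ_log_self (by norm_num) N) (by
      have h2 : η * DD E N = A * W ^ A * C₁ := by
        rw [hη, hε]
        field_simp
      rw [h2]
      have h3 : A * W ^ A * C₁ ≤ (A * W ^ A * C₁) * (4 * κ ^ 2 * (N : ℝ) ^ 2) :=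
        le_mul_of_one_le_right (by positivity) h4κN
      refine h3.trans ?_
      have h4 : (A * W ^ A * C₁) * (4 * κ ^ 2 * (N : ℝ) ^ 2) = 4 * Q₀ := by rw [hQ₀]; ring
      rw [h4]
      linarith)
  refine h1.trans ?_
  have h5 : X ^ (4 * (Nat.log 2 N + 1) + 2) = X ^ 2 * (X ^ 4) ^ (Nat.log 2 N).succ := by
    rw [← pow_mul, ← pow_add, Nat.succ_eq_add_one, add_comm]
  rw [h5]
  exact mul_le_mul_of_nonneg_right h4Q (by positivity)

end Pool.Agent.Zk29.Mu
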