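import Pool.Agent.Zk29.Mu.F4
import Pool.Agent.Zk29.Hy.B9

/-!
# The free critical orbits as systems
-/

set_option autoImplicit false
open Set Filter Topology Metric Polynomial MeasureTheory
open scoped OnePoint ENNReal

namespace Pool.Agent.Zk29.Mu

open Pool.Agent.H792R2.CE Pool.Agent.H792R2.CE.C2x Pool.Agent.Zk29.Rat
open Pool.Agent.Zk29.Hy (XX NN lm lm_nonneg EE Zq Zq_fin poly_low rf_continuousAt One.cauchy)
open Pool.Agent.Helper114.Herman Pool.Agent.Zk29.Ab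

variable {d : ℕ} {P Q : ℂ[X]} {c c' : ℂ} {U U₁ : Set ℂ}

lemma Many.Q0 (O : Many d P Q U U₁) : Q ≠ 0 := by
  intro h
  have h1 := O.nice.Qd
  have h2 := O.d2
  rw [h, natDegree_zero] at h1
  omega

lemma Many.Zpos (O : Many d P Q U U₁) (hc : c ∈ Fr d P Q) {z : ℂ} (hz : z ∉ Zq P Q) :
    0 < infDist z (Zq P Q) :=
  ((Zq_fin (O.nice.N0 (by have := O.d2; omega)) O.Q0).isClosed.notMem_iff_infDist_pos
    ⟨c, Or.inl hc.1⟩).1 hz

/-- The distortion near a point which is neither critical nor a pole. -/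
lemma lin_mu (O : Many d P Q U U₁) (hc : c ∈ Fr d P Q) {z w : ℂ} (hz : z ∉ Zq P Q) {κ : ℝ}
    (hκ : 2 ^ ((wr P Q).natDegree + 4 * Q.natDegree) ≤ κ) (hκ2 : 2 ≤ κ)
    (hw : κ * ‖w - z‖ ≤ infDist z (Zq P Q)) :
    ‖rf P Q w - rf P Q z‖ ≤ ‖(wr P Q).eval z / Q.eval z ^ 2‖ * ‖w - z‖ *
      (1 + κ * ‖w - z‖ / infDist z (Zq P Q)) := by
  have hd0 : 0 < d := by have := O.d2; omega
  have hθ := O.Zpos hc hz
  obtain ⟨θ, hθe⟩ : ∃ θ, θ = infDist z (Zq P Q) := ⟨_, rfl⟩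
  rw [← hθe] at hθ hw ⊢
  have hQz : Q.eval z ≠ 0 := fun h => hz (Or.inr h)
  have hroot1 : ∀ c ∈ (wr P Q).roots, θ ≤ ‖z - c‖ := by
    intro c' hc'
    have h1 : c' ∈ Zq P Q := Or.inl ((mem_roots (O.nice.N0 hd0)).1 hc')
    rw [hθe, ← dist_eq_norm]
    exact infDist_le_dist_of_mem h1
  have hroot2 : ∀ c ∈ Q.roots, θ ≤ ‖z - c‖ := by
    intro c' hc'
    have h1 : c' ∈ Zq P Q := Or.inr ((mem_roots O.Q0).1 hc')
    rw [hθe, ← dist_eq_norm]
    exact infDist_le_dist_of_mem h1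
  obtain ⟨s, hs⟩ : ∃ s, s = ‖w - z‖ / θ := ⟨_, rfl⟩
  have hs0 : 0 ≤ s := by rw [hs]; positivity
  have hκs : κ * s ≤ 1 := by
    rw [hs, mul_div_assoc', div_le_one hθ]
    exact hw
  have hs2 : s ≤ 1 / 2 := by nlinarith
  have hwz : ‖w - z‖ = s * θ := by rw [hs]; field_simp
  have hder : ∀ u ∈ segment ℝ z w, DifferentiableAt ℂ (rf P Q) u ∧ ‖deriv (rf P Q) u‖ ≤
      ‖(wr P Q).eval z / Q.eval z ^ 2‖ * (1 + κ * ‖w - z‖ / θ) := by
    intro u hu
    have h1 : ‖u - z‖ ≤ ‖w - z‖ := by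
      have h2 : u ∈ closedBall z ‖w - z‖ := by
        apply (convex_closedBall z ‖w - z‖).segment_subset _ _ hu
        · exact mem_closedBall_self (norm_nonneg _)
        · rw [mem_closedBall, dist_eq_norm]
      rwa [mem_closedBall, dist_eq_norm] at h2
    have hus : ‖u - z‖ / θ ≤ s := by rw [hs]; gcongr
    have hu2 : ‖u - z‖ ≤ θ / 2 := by
      rw [hwz] at h1
      nlinarith
    have e1 := Nl.poly_growth (wr P Q) hθ hroot1 u
    have e2 := poly_low Q hθ hroot2 hu2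
    have e1' : ‖(wr P Q).eval u‖ ≤ ‖(wr P Q).eval z‖ * (1 + s) ^ (wr P Q).natDegree :=
      e1.trans (by gcongr)
    have e2' : ‖Q.eval z‖ ≤ ‖Q.eval u‖ * (1 + s) ^ (2 * Q.natDegree) := e2.trans (by gcongr)
    have hQz0 : 0 < ‖Q.eval z‖ := norm_pos_iff.2 hQz
    have hQu : Q.eval u ≠ 0 := by
      intro h0
      rw [h0, norm_zero, zero_mul] at e2'
      linarith
    have hQu0 : 0 < ‖Q.eval u‖ := norm_pos_iff.2 hQu
    refine ⟨(rf_hasDerivAt hQu).differentiableAt, ?_⟩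
    rw [(rf_hasDerivAt hQu).deriv, norm_div, norm_div, norm_pow, norm_pow]
    have h5 : (1 + s) ^ ((wr P Q).natDegree + 4 * Q.natDegree) ≤ 1 + κ * ‖w - z‖ / θ := by
      calc (1 + s) ^ ((wr P Q).natDegree + 4 * Q.natDegree)
          ≤ 1 + (2 ^ ((wr P Q).natDegree + 4 * Q.natDegree) - 1) * s :=
            Nl.pow_one_add_le hs0 (by linarith) _
        _ ≤ 1 + κ * s := by
            gcongr
            linarith
        _ = _ := by rw [hs]; ring
    have h6 : ‖Q.eval z‖ ^ 2 ≤ ‖Q.eval u‖ ^ 2 * (1 + s) ^ (4 * Q.natDegree) := by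
      calc ‖Q.eval z‖ ^ 2 ≤ (‖Q.eval u‖ * (1 + s) ^ (2 * Q.natDegree)) ^ 2 := by gcongr
        _ = _ := by rw [mul_pow, ← pow_mul]; congr 2; ring
    refine le_trans ?_ (mul_le_mul_of_nonneg_left h5 (by positivity))
    rw [div_le_iff₀ (by positivity), pow_add]
    calc ‖(wr P Q).eval u‖ ≤ ‖(wr P Q).eval z‖ * (1 + s) ^ (wr P Q).natDegree := e1'
      _ = ‖(wr P Q).eval z‖ / ‖Q.eval z‖ ^ 2 * (1 + s) ^ (wr P Q).natDegree *
          ‖Q.eval z‖ ^ 2 := by field_simp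
      _ ≤ ‖(wr P Q).eval z‖ / ‖Q.eval z‖ ^ 2 * (1 + s) ^ (wr P Q).natDegree *
          (‖Q.eval u‖ ^ 2 * (1 + s) ^ (4 * Q.natDegree)) := by gcongr
      _ = _ := by ring
  have h1 := (convex_segment z w).norm_image_sub_le_of_norm_deriv_le
    (f := rf P Q) (fun u hu => (hder u hu).1) (fun u hu => (hder u hu).2)
    (left_mem_segment ℝ z w) (right_mem_segment ℝ z w)
  calc ‖rf P Q w - rf P Q z‖ ≤ _ := h1
    _ = _ := by ring

/-- Near the free critical point. -/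
lemma Many.near (O : Many d P Q U U₁) (hc : c ∈ Fr d P Q) : ∃ g h : ℂ[X], wr P Q = (X - C c) * g ∧ g.eval c ≠ 0 ∧
    P - C (rf P Q c) * Q = (X - C c) ^ 2 * h := by
  have hd0 : 0 < d := by have := O.d2; omega
  have hQc : Q.eval c ≠ 0 := O.qorb hc 0
  obtain ⟨g, hg1, hg2⟩ := exists_eq_pow_rootMultiplicity_mul_and_not_dvd _ (O.nice.N0 hd0) c
  rw [O.nice.mul hd0 hc, pow_one] at hg1
  have hPc : P.eval c = rf P Q c * Q.eval c := by
    unfold rf
    field_simp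
  obtain ⟨h₁, hh₁⟩ : (X - C c) ∣ P - C (rf P Q c) * Q := by
    rw [dvd_iff_isRoot, IsRoot.def]
    simp [hPc]
  have h0 : h₁.eval c = 0 := by
    have h2 := congrArg (fun p => (derivative p).eval c) hh₁
    simp only [derivative_sub, derivative_mul, derivative_C, zero_mul, zero_add,
      Polynomial.eval_sub, Polynomial.eval_mul, Polynomial.eval_add, Polynomial.eval_C,
      derivative_X, Polynomial.eval_X, sub_self, sub_zero, one_mul,
      add_zero] at h2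
    have h3 := hc.1
    simp only [wr, Polynomial.eval_sub, Polynomial.eval_mul] at h3
    rw [← h2]
    have h4 : Q.eval c * ((derivative P).eval c - rf P Q c * (derivative Q).eval c) = 0 := by
      rw [hPc] at h3
      linear_combination h3
    rcases mul_eq_zero.1 h4 with h | h
    · exact absurd h hQc
    · exact h
  obtain ⟨h, hh⟩ := dvd_iff_isRoot.2 h0
  refine ⟨g, h, hg1, fun h0 => hg2 (dvd_iff_isRoot.2 h0), ?_⟩
  rw [hh₁, hh]
  ring

lemma Many.hdist (O : Many d P Q U U₁) (hc : c ∈ Fr d P Q) : ∀ᶠ z in 𝓝 c, ‖z - c‖ ≤ infDist z (Zq P Q) := by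
  have hd0 : 0 < d := by have := O.d2; omega
  have hfin : ((Zq P Q) \ {c}).Finite := (Zq_fin (O.nice.N0 hd0) O.Q0).subset sdiff_subset
  have h1 : ∀ᶠ z in 𝓝 c, ∀ c' ∈ (Zq P Q) \ {c}, ‖z - c‖ ≤ ‖z - c'‖ := by
    rw [eventually_all_finite hfin]
    intro c' hc'
    have h2 : 0 < ‖c - c'‖ := by
      rw [norm_pos_iff, sub_ne_zero]
      exact fun h => hc'.2 h.symm
    have h3 : ContinuousAt (fun z : ℂ => ‖z - c'‖ - ‖z - c‖) c := by fun_prop
    have h4 : ∀ᶠ z in 𝓝 c, 0 < ‖z - c'‖ - ‖z - c‖ := by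
      apply h3.eventually_const_lt
      change 0 < ‖c - c'‖ - ‖c - c‖
      rw [sub_self, norm_zero, sub_zero]
      exact h2
    filter_upwards [h4] with z hz
    linarith
  filter_upwards [h1] with z hz
  rw [le_infDist ⟨c, (Or.inl hc.1 : c ∈ Zq P Q)⟩]
  intro y hy
  rw [dist_eq_norm]
  by_cases hyz : y = c
  · rw [hyz]
  · exact hz y ⟨hy, hyz⟩

/-- The boundary points of the set of points which never leave `U`. -/
def BB (P Q : ℂ[X]) (U : Set ℂ) : Set ℂ := {z | z ∈ KR P Q U ∧ Lv P Q U z}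

lemma Many.BB_cpt (O : Many d P Q U U₁) : IsCompact (BB P Q U) := by
  have h1 : BB P Q U = KR P Q U ∩ {z | Lv P Q U z} := rfl
  rw [h1]
  refine O.trap.kcpt.inter_right ?_
  rw [← isOpen_compl_iff, Metric.isOpen_iff]
  intro z hz
  rw [mem_compl_iff, mem_ofPred_eq] at hz
  unfold Lv at hz
  push Not at hz
  obtain ⟨s, hs, h⟩ := hz
  refine ⟨s / 2, by positivity, fun w hw => ?_⟩
  rw [mem_ball, dist_eq_norm] at hw
  rw [mem_compl_iff, mem_ofPred_eq]
  intro hlv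
  obtain ⟨y, hy, N, hN⟩ := hlv (s / 2) (by positivity)
  apply hN
  apply h y _ N
  have := norm_add_le (y - w) (w - z)
  rw [sub_add_sub_cancel] at this
  linarith

lemma Many.BB_step (O : Many d P Q U U₁) {z : ℂ} (hz : z ∈ BB P Q U)
    (hfz : rf P Q z ∈ KR P Q U) : rf P Q z ∈ BB P Q U := by
  refine ⟨hfz, ?_⟩
  intro s hs
  by_contra hcon
  push Not at hcon
  have hzU : z ∈ U := KR_sub 0 hz.1
  have hQz : Q.eval z ≠ 0 := O.q z (subset_closure hzU)
  have h1 : ∀ᶠ w in 𝓝 z, ‖rf P Q w - rf P Q z‖ < s := by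
    have h2 : ContinuousAt (fun w => ‖rf P Q w - rf P Q z‖) z :=
      ((rf_contAt hQz).sub continuousAt_const).norm
    apply h2.eventually_lt_const
    change ‖rf P Q z - rf P Q z‖ < s
    rw [sub_self, norm_zero]
    exact hs
  have h3 : ∀ᶠ w in 𝓝 z, w ∈ U := O.trap.opn.mem_nhds hzU
  have h4 : ∀ᶠ w in 𝓝 z, Q.eval w ≠ 0 := Q.continuous.continuousAt.eventually_ne hQz
  obtain ⟨ε, hε, h5⟩ := Metric.eventually_nhds_iff.1 (h1.and (h3.and h4))
  obtain ⟨y, hy, N, hN⟩ := hz.2 ε hε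
  obtain ⟨h6, h7, h8⟩ := h5 (by rw [dist_eq_norm]; exact hy)
  rcases N with _ | N
  · exact hN h7
  · exact hN ⟨h8, hcon _ h6 N⟩

/-- **Values near the critical values.** -/
theorem Many.val (O : Many d P Q U U₁) (hc : c ∈ Fr d P Q) (hv : Lv P Q U (rf P Q c)) :
    ∃ κ : ℝ, 1 ≤ κ ∧ ∀ z ∈ BB P Q U, ∃ u ∈ VV d P Q U,
    ‖rf P Q z - u‖ ≤ κ * (‖(wr P Q).eval z / Q.eval z ^ 2‖ * infDist z (Zq P Q)) := by
  have hKU : ∀ z ∈ BB P Q U, z ∈ closure U := fun z hz => subset_closure (KR_sub 0 hz.1)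
  have hcont : Continuous (sph d P Q) := B1_continuous O.nice.cop O.nice.Pd O.nice.Qd
  obtain ⟨κ, hκ⟩ : ∃ κ : ℝ, ∀ z ∈ BB P Q U, ∃ u ∈ VV d P Q U,
      ‖rf P Q z - u‖ ≤ κ * (‖(wr P Q).eval z / Q.eval z ^ 2‖ * infDist z (Zq P Q)) := by
    refine O.BB_cpt.induction_on (p := fun s => ∃ κ : ℝ, ∀ z ∈ s, ∃ u ∈ VV d P Q U,
      ‖rf P Q z - u‖ ≤ κ * (‖(wr P Q).eval z / Q.eval z ^ 2‖ * infDist z (Zq P Q)))
      ?_ ?_ ?_ ?_
    · exact ⟨0, fun z hz => absurd hz (Set.notMem_empty z)⟩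
    · rintro s t hst ⟨C, hC⟩
      exact ⟨C, fun z hz => hC z (hst hz)⟩
    · rintro s t ⟨C, hC⟩ ⟨C', hC'⟩
      refine ⟨max C C', fun z hz => ?_⟩
      have h0 : 0 ≤ ‖(wr P Q).eval z / Q.eval z ^ 2‖ * infDist z (Zq P Q) :=
        mul_nonneg (norm_nonneg _) infDist_nonneg
      rcases hz with hz | hz
      · obtain ⟨u, hu, h1⟩ := hC z hz
        exact ⟨u, hu, h1.trans (by gcongr; exact le_max_left _ _)⟩
      · obtain ⟨u, hu, h1⟩ := hC' z hz
        exact ⟨u, hu, h1.trans (by gcongr; exact le_max_right _ _)⟩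
    · intro z₀ hz₀
      have hQz₀ : Q.eval z₀ ≠ 0 := O.q _ (hKU _ hz₀)
      have hQev : ∀ᶠ z in 𝓝 z₀, Q.eval z ≠ 0 := Q.continuous.continuousAt.eventually_ne hQz₀
      by_cases h0 : (wr P Q).eval z₀ = 0
      · have hzF : z₀ ∈ Fr d P Q := O.w _ (hKU _ hz₀) h0
        have hfz : rf P Q z₀ ∈ BB P Q U := O.BB_step hz₀ (O.kr (O.nv hzF 0))
        obtain ⟨g, h, hg, hg0, hh⟩ := O.near hzF
        have hcont : ContinuousAt (fun z => ‖h.eval z * Q.eval z / g.eval z‖) z₀ := by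
          refine ContinuousAt.norm (ContinuousAt.div ?_ ?_ hg0)
          · exact (h.continuous.mul Q.continuous).continuousAt
          · exact g.continuous.continuousAt
        obtain ⟨C, hC⟩ : ∃ C, C = ‖h.eval z₀ * Q.eval z₀ / g.eval z₀‖ + 1 := ⟨_, rfl⟩
        have hn1 := norm_nonneg (h.eval z₀ * Q.eval z₀ / g.eval z₀)
        have hev : ∀ᶠ z in 𝓝 z₀, ‖h.eval z * Q.eval z / g.eval z‖ < C :=
          hcont.eventually_lt_const (by rw [hC]; linarith)
        have hg1 : ∀ᶠ z in 𝓝 z₀, g.eval z ≠ 0 := g.continuous.continuousAt.eventually_ne hg0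
        have hC0 : 0 ≤ C := by rw [hC]; positivity
        refine ⟨{z | ((‖z - z₀‖ ≤ infDist z (Zq P Q) ∧ ‖h.eval z * Q.eval z / g.eval z‖ < C) ∧
          g.eval z ≠ 0) ∧ Q.eval z ≠ 0},
          mem_nhdsWithin_of_mem_nhds ((((O.hdist hzF).and hev).and hg1).and hQev), C, ?_⟩
        rintro z ⟨⟨⟨h1, h2⟩, h4⟩, h5⟩
        refine ⟨rf P Q z₀, ⟨z₀, hzF, rfl, hfz.2⟩, ?_⟩
        have e1 : (wr P Q).eval z = (z - z₀) * g.eval z := by
          have := congrArg (fun p => p.eval z) hg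
          simpa using this
        have e2 : P.eval z - rf P Q z₀ * Q.eval z = (z - z₀) ^ 2 * h.eval z := by
          have := congrArg (fun p => p.eval z) hh
          simpa using this
        have e3 : rf P Q z - rf P Q z₀ = (z - z₀) ^ 2 * h.eval z / Q.eval z := by
          rw [← e2]
          unfold rf
          field_simp
        have hQ0 : 0 < ‖Q.eval z‖ := norm_pos_iff.2 h5
        have hg0' : 0 < ‖g.eval z‖ := norm_pos_iff.2 h4
        have hI : 0 ≤ infDist z (Zq P Q) := infDist_nonneg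
        have e4 : ‖(wr P Q).eval z / Q.eval z ^ 2‖ =
            ‖z - z₀‖ * (‖g.eval z‖ / ‖Q.eval z‖ ^ 2) := by
          rw [e1, norm_div, norm_mul, norm_pow]
          ring
        rw [e3, e4, norm_div, norm_mul, norm_pow]
        rw [norm_div, norm_mul, div_lt_iff₀ hg0'] at h2
        calc ‖z - z₀‖ ^ 2 * ‖h.eval z‖ / ‖Q.eval z‖
            = ‖z - z₀‖ * ‖z - z₀‖ * (‖h.eval z‖ * ‖Q.eval z‖) / ‖Q.eval z‖ ^ 2 := by
              field_simp
          _ ≤ ‖z - z₀‖ * infDist z (Zq P Q) * (C * ‖g.eval z‖) / ‖Q.eval z‖ ^ 2 := by gcongr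
          _ = _ := by ring
      · have hzZ : z₀ ∉ Zq P Q := by
          rintro (h | h)
          · exact h0 h
          · exact hQz₀ h
        have h1 := O.Zpos hc hzZ
        have h1' : ‖(wr P Q).eval z₀ / Q.eval z₀ ^ 2‖ ≠ 0 :=
          norm_ne_zero_iff.2 (div_ne_zero h0 (pow_ne_zero 2 hQz₀))
        have h2 : ‖(wr P Q).eval z₀ / Q.eval z₀ ^ 2‖ * infDist z₀ (Zq P Q) ≠ 0 :=
          mul_ne_zero h1' h1.ne'
        have hcE : ContinuousAt (fun z => ‖(wr P Q).eval z / Q.eval z ^ 2‖) z₀ :=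
          rf_continuousAt hQz₀
        have hcI : ContinuousAt (fun z => infDist z (Zq P Q)) z₀ :=
          (continuous_infDist_pt _).continuousAt
        have hc1 : ContinuousAt (fun z => ‖(wr P Q).eval z / Q.eval z ^ 2‖ *
            infDist z (Zq P Q)) z₀ := hcE.mul hcI
        have hc2 : ContinuousAt (fun z => ‖rf P Q z - rf P Q c‖ /
            (‖(wr P Q).eval z / Q.eval z ^ 2‖ * infDist z (Zq P Q))) z₀ := by
          refine ContinuousAt.div ?_ hc1 h2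
          exact ((rf_contAt hQz₀).sub continuousAt_const).norm
        obtain ⟨C, hC⟩ : ∃ C, C = ‖rf P Q z₀ - rf P Q c‖ /
            (‖(wr P Q).eval z₀ / Q.eval z₀ ^ 2‖ * infDist z₀ (Zq P Q)) + 1 := ⟨_, rfl⟩
        have h3 : ∀ᶠ z in 𝓝 z₀, ‖rf P Q z - rf P Q c‖ /
            (‖(wr P Q).eval z / Q.eval z ^ 2‖ * infDist z (Zq P Q)) < C :=
          hc2.eventually_lt_const (by rw [hC]; linarith)
        have h4 : ∀ᶠ z in 𝓝 z₀, ‖(wr P Q).eval z / Q.eval z ^ 2‖ *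
            infDist z (Zq P Q) ≠ 0 := hc1.eventually_ne h2
        refine ⟨_, mem_nhdsWithin_of_mem_nhds (h3.and h4), C, ?_⟩
        rintro z ⟨h5, h6⟩
        refine ⟨rf P Q c, ⟨c, hc, rfl, hv⟩, ?_⟩
        have h7 : 0 < ‖(wr P Q).eval z / Q.eval z ^ 2‖ * infDist z (Zq P Q) :=
          lt_of_le_of_ne (mul_nonneg (norm_nonneg _) infDist_nonneg) (Ne.symm h6)
        rw [div_lt_iff₀ h7] at h5
        exact h5.le
  refine ⟨1 + |κ|, by have := abs_nonneg κ; linarith, fun z hz => ?_⟩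
  obtain ⟨u, hu, h1⟩ := hκ z hz
  have h2 : κ ≤ 1 + |κ| := by have := le_abs_self κ; linarith
  have h3 : 0 ≤ infDist z (Zq P Q) := infDist_nonneg
  exact ⟨u, hu, h1.trans (by gcongr)⟩

/-- A deep return gives an attracting cycle. -/
theorem no_deep (O : Many d P Q U U₁) (hc : c ∈ Fr d P Q)
    (hZ : ∀ j, (rf P Q)^[j] (rf P Q c) ∉ Zq P Q) {κ : ℝ} (hκ : 2 ≤ κ) {m : ℕ} (hm : 1 ≤ m) :
    ¬ Deep (rf P Q) (rf P Q c) (fun j => infDist ((rf P Q)^[j] (rf P Q c)) (Zq P Q)) κ m := by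
  have hqv := O.qv hc
  have hnv : ¬ Att d P Q ((rf P Q c : ℂ) : OnePoint ℂ) := O.nv hc 0
  obtain ⟨v, hve⟩ : ∃ v, v = rf P Q c := ⟨_, rfl⟩
  rw [← hve] at hZ hqv hnv ⊢
  rintro ⟨ρ, hρ, hv, hx⟩
  obtain ⟨g, hg⟩ : ∃ g, g = (rf P Q)^[m] := ⟨_, rfl⟩
  -- the poles are avoided
  have hpole : ∀ x, ‖x - v‖ ≤ 2 * ρ → ∀ j < m, Q.eval ((rf P Q)^[j] x) ≠ 0 := by
    intro x hx' j hj h0
    have h1 := (hx x hx').1 j hj
    have h2 : infDist ((rf P Q)^[j] v) (Zq P Q) ≤ ‖(rf P Q)^[j] x - (rf P Q)^[j] v‖ := by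
      rw [← dist_eq_norm, dist_comm]
      exact infDist_le_dist_of_mem (Or.inr h0)
    have h3 : 0 < infDist ((rf P Q)^[j] v) (Zq P Q) := O.Zpos hc (hZ j)
    nlinarith
  have hdiff : ∀ x, ‖x - v‖ ≤ 2 * ρ → DifferentiableAt ℂ g x := fun x hx' => by
    rw [hg]
    exact rf_iter_diff m (hpole x hx')
  have hx2 : ∀ x, ‖x - v‖ ≤ 2 * ρ → ‖g x - g v‖ ≤ ρ / 4 := fun x hx' => by
    rw [hg]
    exact (hx x hx').2
  have hgv : ‖g v - v‖ ≤ ρ := by rw [hg]; exact hv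
  have hder : ∀ x, ‖x - v‖ ≤ 3 / 2 * ρ → ‖deriv g x‖ ≤ 1 / 2 := by
    intro x hx'
    have h1 : ∀ y ∈ closedBall x (ρ / 2), ‖y - v‖ ≤ 2 * ρ := by
      intro y hy
      rw [mem_closedBall, dist_eq_norm] at hy
      have := norm_add_le (y - x) (x - v)
      rw [sub_add_sub_cancel] at this
      linarith
    have h2 : ‖deriv (fun y => g y - g v) x‖ ≤ (ρ / 4) / (ρ / 2) := by
      apply Complex.norm_deriv_le_of_forall_mem_sphere_norm_le (by positivity)
      · apply DifferentiableOn.diffContOnCl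
        rw [closure_ball _ (by positivity)]
        intro y hy
        exact ((hdiff y (h1 y hy)).sub_const _).differentiableWithinAt
      · intro y hy
        exact hx2 y (h1 y (sphere_subset_closedBall hy))
    rw [deriv_sub_const] at h2
    refine h2.trans (le_of_eq ?_)
    field_simp
    norm_num
  have hlip : ∀ x y, ‖x - v‖ ≤ 3 / 2 * ρ → ‖y - v‖ ≤ 3 / 2 * ρ →
      ‖g y - g x‖ ≤ 1 / 2 * ‖y - x‖ := by
    intro x y hx' hy'
    refine (convex_closedBall v (3 / 2 * ρ)).norm_image_sub_le_of_norm_deriv_le (f := g)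
      (fun u hu => ?_) (fun u hu => ?_) ?_ ?_
    · rw [mem_closedBall, dist_eq_norm] at hu
      exact hdiff u (by linarith)
    · rw [mem_closedBall, dist_eq_norm] at hu
      exact hder u hu
    · rwa [mem_closedBall, dist_eq_norm]
    · rwa [mem_closedBall, dist_eq_norm]
  have hself : ∀ x, ‖x - v‖ ≤ 3 / 2 * ρ → ‖g x - v‖ ≤ 3 / 2 * ρ := by
    intro x hx'
    have h1 := hx2 x (by linarith)
    have h2 := norm_add_le (g x - g v) (g v - v)
    rw [sub_add_sub_cancel] at h2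
    linarith
  have hs1 : ∀ k, ‖g^[k] v - v‖ ≤ 3 / 2 * ρ := by
    intro k
    induction k with
    | zero =>
      rw [Function.iterate_zero_apply, sub_self, norm_zero]
      positivity
    | succ k ih =>
      rw [Function.iterate_succ_apply']
      exact hself _ ih
  have hs2 : ∀ k, ‖g^[k + 1] v - g^[k] v‖ ≤ ρ * (1 / 2) ^ k := by
    intro k
    induction k with
    | zero =>
      rw [pow_zero, mul_one, zero_add, Function.iterate_one, Function.iterate_zero_apply]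
      exact hgv
    | succ k ih =>
      have h1 := hlip _ _ (hs1 k) (hs1 (k + 1))
      rw [← Function.iterate_succ_apply' g, ← Function.iterate_succ_apply' g] at h1
      refine h1.trans ?_
      rw [pow_succ]
      linarith
  have hcau : CauchySeq (fun k => g^[k] v) :=
    cauchySeq_of_le_geometric (1 / 2) ρ (by norm_num) fun k => by
      rw [dist_eq_norm, norm_sub_rev]
      exact hs2 k
  obtain ⟨p, hp⟩ := cauchySeq_tendsto_of_complete hcau
  have hpv : ‖p - v‖ ≤ 3 / 2 * ρ := le_of_tendsto (hp.sub_const v).norm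
    (Eventually.of_forall fun k => hs1 k)
  have hgp : g p = p := by
    have h1 : Tendsto (fun k => g^[k + 1] v) atTop (𝓝 (g p)) := by
      simp_rw [Function.iterate_succ_apply']
      exact (hdiff p (by linarith)).continuousAt.tendsto.comp hp
    exact tendsto_nhds_unique h1 (hp.comp (tendsto_add_atTop_nat 1))
  have hgp' : (rf P Q)^[m] p = p := by rw [← hg]; exact hgp
  have hQp : ∀ i, Q.eval ((rf P Q)^[i] p) ≠ 0 := by
    intro i
    have h1 : (rf P Q)^[i % m] p = (rf P Q)^[i] p :=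
      Function.IsPeriodicPt.iterate_mod_apply hgp' i
    rw [← h1]
    exact hpole p (by linarith) _ (Nat.mod_lt _ (by omega))
  apply hnv
  refine ⟨m, by omega, p, fun i => ?_, ?_, ?_, ?_⟩
  · rw [iter_coe i fun j _ => hQp j]
    exact OnePoint.coe_ne_infty _
  · rw [iter_coe m fun j _ => hQp j, hgp']
  · rw [← hg]
    have := hder p hpv
    linarith
  · have h2 := ((OnePoint.continuous_coe (X := ℂ)).tendsto p).comp hp
    refine h2.congr fun k => ?_
    rw [iter_coe _ fun j _ => hqv j, Function.iterate_mul, ← hg]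
    rfl

/-- The system. -/
theorem sys_mu (O : Many d P Q U U₁) (hc : c ∈ Fr d P Q) (hv : Lv P Q U (rf P Q c))
    (hne : ∀ j, (wr P Q).eval ((rf P Q)^[j] (rf P Q c)) ≠ 0) : ∃ κ : ℝ, 2 ≤ κ ∧
    Sysm (rf P Q) (rf P Q c) (VV d P Q U) (EE P Q c)
      (fun j => infDist ((rf P Q)^[j] (rf P Q c)) (Zq P Q)) κ := by
  obtain ⟨κ₀, hκ₀, hval⟩ := O.val hc hv
  have hvZ : ∀ j, (rf P Q)^[j] (rf P Q c) ∉ Zq P Q := by
    intro j
    rintro (h | h)
    · exact hne j h
    · exact O.qv hc j h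
  have hB : ∀ j, (rf P Q)^[j] (rf P Q c) ∈ BB P Q U := by
    intro j
    induction j with
    | zero => exact ⟨O.kr (O.nv hc 0), hv⟩
    | succ j ih =>
      have h1 := O.kr (O.nv hc (j + 1))
      rw [Function.iterate_succ_apply'] at h1 ⊢
      exact O.BB_step ih h1
  have h2 : (1 : ℝ) ≤ 2 ^ ((wr P Q).natDegree + 4 * Q.natDegree) := one_le_pow₀ (by norm_num)
  refine ⟨2 ^ ((wr P Q).natDegree + 4 * Q.natDegree) + κ₀, by linarith, ⟨by linarith,
    fun j => ?_, fun j => O.Zpos hc (hvZ j), ⟨c, hc, rfl, hv⟩, fun j => ?_, fun j w hw => ?_⟩⟩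
  · unfold EE
    exact norm_pos_iff.2 (div_ne_zero (hne j) (pow_ne_zero 2 (O.qv hc j)))
  · obtain ⟨u, hu, h3⟩ := hval _ (hB j)
    refine ⟨u, hu, ?_⟩
    rw [Function.iterate_succ_apply']
    refine h3.trans ?_
    have h5 : 0 ≤ ‖(wr P Q).eval ((rf P Q)^[j] (rf P Q c)) /
        Q.eval ((rf P Q)^[j] (rf P Q c)) ^ 2‖ *
          infDist ((rf P Q)^[j] (rf P Q c)) (Zq P Q) :=
      mul_nonneg (norm_nonneg _) infDist_nonneg
    exact mul_le_mul_of_nonneg_right (by linarith) h5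
  · rw [Function.iterate_succ_apply']
    exact lin_mu O hc (hvZ j) (by linarith) (by linarith) hw

/-- **The bound for the derivatives.** -/
theorem growth (O : Many d P Q U U₁) (hna : ¬ Fewer d P Q) (hc : c ∈ Fr d P Q) :
    ∃ K : ℝ, ∀ N : ℕ, 2 ≤ N → ‖deriv ((rf P Q)^[N]) (rf P Q c)‖ ≤
      Real.exp (K * Real.log N ^ 2) := by
  obtain ⟨R, hR1, hUR⟩ : ∃ R : ℝ, 1 ≤ R ∧ U ⊆ ball 0 R := by
    obtain ⟨R, hR⟩ := O.trap.bdd.exists_norm_le
    refine ⟨|R| + 1, by have := abs_nonneg R; linarith, fun z hz => ?_⟩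
    rw [mem_ball_zero_iff]
    have := hR z hz
    have := le_abs_self R
    linarith
  have hUR' : ∀ z ∈ U, ‖z‖ ≤ R := fun z hz => (mem_ball_zero_iff.1 (hUR hz)).le
  have hR0 : 0 < R := by linarith
  by_cases hub : ∃ B : ℝ, ∀ N, ‖deriv ((rf P Q)^[N]) (rf P Q c)‖ ≤ B
  · obtain ⟨B, hB⟩ := hub
    exact Nl.bdd_quasi (B := max B 1) (le_max_right _ _) fun N => (hB N).trans (le_max_left _ _)
  have hne : ∀ j, (wr P Q).eval ((rf P Q)^[j] (rf P Q c)) ≠ 0 := by
    intro j hj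
    apply hub
    have hz : ∀ k, deriv ((rf P Q)^[j + 1 + k]) (rf P Q c) = 0 := by
      intro k
      induction k with
      | zero =>
        rw [add_zero, rf_iter_deriv_succ j fun i _ => O.qv hc i, hj, zero_div, zero_mul]
      | succ k ih =>
        rw [← add_assoc, rf_iter_deriv_succ _ fun i _ => O.qv hc i, ih, mul_zero]
    refine ⟨∑ i ∈ Finset.range (j + 1), ‖deriv ((rf P Q)^[i]) (rf P Q c)‖, fun N => ?_⟩
    rcases lt_or_ge N (j + 1) with h | h
    · exact Finset.single_le_sum (f := fun i => ‖deriv ((rf P Q)^[i]) (rf P Q c)‖)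
        (fun i _ => norm_nonneg _) (Finset.mem_range.2 h)
    · obtain ⟨k, rfl⟩ := Nat.exists_eq_add_of_le h
      rw [hz k, norm_zero]
      exact Finset.sum_nonneg fun i _ => norm_nonneg _
  push Not at hub
  have hleave : Lv P Q U (rf P Q c) := by
    intro s hs
    obtain ⟨N, hN⟩ := hub ((R + 1) / (s / 2))
    rw [div_lt_iff₀ (by positivity)] at hN
    obtain ⟨y, hy, hyN⟩ := One.cauchy (P := P) (Q := Q) hUR' (by positivity : 0 < s / 2) hN.le
    exact ⟨y, by linarith, N, hyN⟩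
  have hvZ : ∀ j, (rf P Q)^[j] (rf P Q c) ∉ Zq P Q := by
    intro j
    rintro (h | h)
    · exact hne j h
    · exact O.qv hc j h
  obtain ⟨κ, hκ2, S⟩ := sys_mu O hc hleave hne
  obtain ⟨A, hA1, C⟩ := cl_mu O hna hc hne hR0 hUR
  have hlog4 : 0 ≤ Real.log (4 * R) := Real.log_nonneg (by linarith)
  have hK : ∀ j, (rf P Q)^[j] (rf P Q c) ∈ KR P Q U := fun j => O.kr (O.nv hc j)
  have hKU : KR P Q U ⊆ closure U := fun z hz => subset_closure (KR_sub 0 hz)
  obtain ⟨Λ, hΛ⟩ := O.trap.kcpt.exists_bound_of_continuousOn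
    (f := fun z => ‖(wr P Q).eval z / Q.eval z ^ 2‖) (fun z hz =>
      (rf_continuousAt (O.q z (hKU hz))).continuousWithinAt)
  obtain ⟨K, hKK⟩ := quasi C S hA1 (by linarith) (Λ := max 1 Λ) (C₁ := R + 1)
    (le_max_left _ _) (by linarith)
    (fun j => by
      have h1 := hΛ _ (hK j)
      rw [norm_norm] at h1
      exact h1.trans (le_max_right _ _))
    (fun N s _ hs h => by
      rw [O.DD_eq hc] at h
      exact One.cauchy hUR' hs h)
    (fun m hm => no_deep O hc hvZ hκ2 hm)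
  refine ⟨K, fun N hN => ?_⟩
  have := hKK N hN
  rwa [O.DD_eq hc] at this

end Pool.Agent.Zk29.Mu
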