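import Pool.Agent.Zk29.Mu.F1

/-!
# Stability of the attraction in the space of all coefficients
-/

set_option autoImplicit false

open Filter Topology Metric Set Polynomial MeasureTheory
open scoped OnePoint NNReal

namespace Pool.Agent.Zk29.Mu

open Pool.Agent.H792R2.CE Pool.Agent.H792R2.CE.C1x
open Pool.Agent.Helper114.Herman

/-- Pairs of coefficient vectors. -/
abbrev Cf (d : ℕ) : Type := (Fin (d + 1) → ℂ) × (Fin (d + 1) → ℂ)

/-- The polynomial with given coefficients. -/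
noncomputable def pl {d : ℕ} (a : Fin (d + 1) → ℂ) : ℂ[X] := ∑ i : Fin (d + 1), C (a i) * X ^ (i : ℕ)

lemma pl_coeff {d : ℕ} (a : Fin (d + 1) → ℂ) (k : ℕ) :
    (pl a).coeff k = if h : k < d + 1 then a ⟨k, h⟩ else 0 := by
  unfold pl
  rw [finsetSum_coeff]
  simp only [coeff_C_mul, coeff_X_pow]
  split_ifs with h
  · rw [Finset.sum_eq_single (⟨k, h⟩ : Fin (d + 1))]
    · simp
    · intro i _ hi
      have : k ≠ (i : ℕ) := fun h2 => hi (Fin.ext h2.symm)
      simp [this]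
    · intro h2
      exact absurd (Finset.mem_univ _) h2
  · apply Finset.sum_eq_zero
    intro i _
    have : k ≠ (i : ℕ) := by have := i.2; omega
    simp [this]

lemma pl_eval {d : ℕ} (a : Fin (d + 1) → ℂ) (z : ℂ) :
    (pl a).eval z = ∑ i : Fin (d + 1), a i * z ^ (i : ℕ) := by
  unfold pl
  rw [eval_finsetSum]
  simp

lemma pl_der_eval {d : ℕ} (a : Fin (d + 1) → ℂ) (z : ℂ) :
    (derivative (pl a)).eval z = ∑ i : Fin (d + 1), a i * (((i : ℕ) : ℂ) * z ^ ((i : ℕ) - 1)) := by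
  unfold pl
  rw [derivative_sum, eval_finsetSum]
  simp [derivative_X_pow]

lemma pl_der2_eval {d : ℕ} (a : Fin (d + 1) → ℂ) (z : ℂ) :
    (derivative (derivative (pl a))).eval z = ∑ i : Fin (d + 1),
      a i * (((i : ℕ) : ℂ) * ((((i : ℕ) - 1 : ℕ) : ℂ) * z ^ ((i : ℕ) - 1 - 1))) := by
  unfold pl
  rw [derivative_sum, derivative_sum, eval_finsetSum]
  simp [derivative_X_pow]

lemma pl_deg {d : ℕ} (a : Fin (d + 1) → ℂ) : (pl a).natDegree ≤ d := by
  rw [natDegree_le_iff_coeff_eq_zero]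
  intro k hk
  rw [pl_coeff, dif_neg (by omega)]

lemma pl_zero {d : ℕ} : pl (0 : Fin (d + 1) → ℂ) = 0 := by
  unfold pl
  simp

lemma pl_coeff_cont {d : ℕ} (k : ℕ) : Continuous fun a : Fin (d + 1) → ℂ => (pl a).coeff k := by
  simp only [pl_coeff]
  split_ifs with h
  · exact continuous_apply _
  · exact continuous_const

lemma pl_contDiff {d : ℕ} : ContDiff ℂ 1 (fun p : (Fin (d + 1) → ℂ) × ℂ => (pl p.1).eval p.2) := by
  simp only [pl_eval]
  apply ContDiff.sum
  intro i _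
  exact ((contDiff_apply ℂ ℂ i).comp contDiff_fst).mul (contDiff_snd.pow _)

lemma pl_der_cont {d : ℕ} :
    Continuous (fun p : (Fin (d + 1) → ℂ) × ℂ => (derivative (pl p.1)).eval p.2) := by
  simp only [pl_der_eval]
  apply continuous_finsetSum
  intro i _
  exact ((continuous_apply i).comp continuous_fst).mul (continuous_const.mul (continuous_snd.pow _))

lemma pl_der2_cont {d : ℕ} :
    Continuous (fun p : (Fin (d + 1) → ℂ) × ℂ => (derivative (derivative (pl p.1))).eval p.2) := by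
  simp only [pl_der2_eval]
  apply continuous_finsetSum
  intro i _
  exact ((continuous_apply i).comp continuous_fst).mul
    (continuous_const.mul (continuous_const.mul (continuous_snd.pow _)))

lemma hom_add (P H : ℂ[X]) (d : ℕ) (u v : ℂ) :
    hom (P + H) d u v = hom P d u v + hom H d u v := by
  simp only [hom, coeff_add, ← Finset.sum_add_distrib]
  refine Finset.sum_congr rfl fun k _ => ?_
  ring

lemma hom_pl_cont {d : ℕ} : Continuous (fun p : (Fin (d + 1) → ℂ) × (ℂ × ℂ) =>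
    hom (pl p.1) d p.2.1 p.2.2) := by
  unfold hom
  apply continuous_finsetSum
  intro k _
  have h1 : Continuous (fun p : (Fin (d + 1) → ℂ) × (ℂ × ℂ) => (pl p.1).coeff k) :=
    (pl_coeff_cont k).comp continuous_fst
  have h2 : Continuous (fun p : (Fin (d + 1) → ℂ) × (ℂ × ℂ) => p.2.1 ^ k) :=
    (continuous_fst.comp continuous_snd).pow k
  have h3 : Continuous (fun p : (Fin (d + 1) → ℂ) × (ℂ × ℂ) => p.2.2 ^ (d - k)) :=
    (continuous_snd.comp continuous_snd).pow _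
  exact (h1.mul h2).mul h3

lemma deg_add {d : ℕ} {P : ℂ[X]} (hP : P.natDegree ≤ d) (a : Fin (d + 1) → ℂ) :
    (P + pl a).natDegree ≤ d :=
  (natDegree_add_le _ _).trans (max_le hP (pl_deg a))

/-- The rational map with perturbed coefficients. -/
noncomputable def sp' (d : ℕ) (P Q : ℂ[X]) (b : Cf d) : OnePoint ℂ → OnePoint ℂ :=
  sph d (P + pl b.1) (Q + pl b.2)

theorem chart {d : ℕ} {P Q : ℂ[X]} (hd : 0 < d) (hc : IsCoprime P Q)
    (hPd : P.natDegree ≤ d) (hQd : Q.natDegree = d) {a b : ℂ → ℂ} (ha : Continuous a)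
    (hb : Continuous b) (hab : ∀ w, a w ≠ 0 ∨ b w ≠ 0) (w : ℂ) :
    ContinuousAt (fun p : Cf d × ℂ =>
      sph d (P + pl p.1.1) (Q + pl p.1.2) (pr (a p.2) (b p.2))) (0, w) := by
  have h1 : (fun p : Cf d × ℂ => sph d (P + pl p.1.1) (Q + pl p.1.2) (pr (a p.2) (b p.2))) =
      (fun q : ℂ × ℂ => pr q.1 q.2) ∘ fun p : Cf d × ℂ =>
        (hom P d (a p.2) (b p.2) + hom (pl p.1.1) d (a p.2) (b p.2),
          hom Q d (a p.2) (b p.2) + hom (pl p.1.2) d (a p.2) (b p.2)) := by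
    funext p
    rw [B2x.sph_pr (deg_add hPd _) (deg_add hQd.le _) (hab _), hom_add, hom_add]
    simp only [Function.comp_apply]
  rw [h1]
  have hmax : d = max P.natDegree Q.natDegree := by rw [hQd, max_eq_right hPd]
  have hnb := hom_not_both hc hmax (hab w) hd
  have hcc : ∀ R : ℂ[X], Continuous fun p : Cf d × ℂ => hom R d (a p.2) (b p.2) := fun R =>
    (continuous_hom R d).comp ((ha.comp continuous_snd).prodMk (hb.comp continuous_snd))
  have hc1 : Continuous fun p : Cf d × ℂ => hom (pl p.1.1) d (a p.2) (b p.2) :=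
    Continuous.comp (g := fun p : (Fin (d + 1) → ℂ) × (ℂ × ℂ) => hom (pl p.1) d p.2.1 p.2.2)
      (f := fun p : Cf d × ℂ => (p.1.1, (a p.2, b p.2))) hom_pl_cont
      ((continuous_fst.comp continuous_fst).prodMk
      ((ha.comp continuous_snd).prodMk (hb.comp continuous_snd)))
  have hc2 : Continuous fun p : Cf d × ℂ => hom (pl p.1.2) d (a p.2) (b p.2) :=
    Continuous.comp (g := fun p : (Fin (d + 1) → ℂ) × (ℂ × ℂ) => hom (pl p.1) d p.2.1 p.2.2)
      (f := fun p : Cf d × ℂ => (p.1.2, (a p.2, b p.2))) hom_pl_cont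
      ((continuous_snd.comp continuous_fst).prodMk
      ((ha.comp continuous_snd).prodMk (hb.comp continuous_snd)))
  refine ContinuousAt.comp ?_ ((((hcc P).add hc1).prodMk ((hcc Q).add hc2)).continuousAt)
  have h2 := continuousAt_pr hnb
  have e0 : ∀ u v : ℂ, hom (pl (0 : Fin (d + 1) → ℂ)) d u v = 0 := by
    intro u v
    rw [pl_zero]
    simp [hom]
  simp only [Prod.fst_zero, Prod.snd_zero, e0, add_zero]
  exact h2

theorem step {d : ℕ} {P Q : ℂ[X]} (hd : 0 < d) (hc : IsCoprime P Q)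
    (hPd : P.natDegree ≤ d) (hQd : Q.natDegree = d) (x : OnePoint ℂ) :
    ContinuousAt (fun p : Cf d × OnePoint ℂ => sph d (P + pl p.1.1) (Q + pl p.1.2) p.2)
      (0, x) := by
  have main : ∀ (e : ℂ → OnePoint ℂ) (a b : ℂ → ℂ), IsOpenEmbedding e → Continuous a →
      Continuous b → (∀ w, a w ≠ 0 ∨ b w ≠ 0) → (∀ w, e w = pr (a w) (b w)) → ∀ w : ℂ,
      ContinuousAt (fun p : Cf d × OnePoint ℂ =>
        sph d (P + pl p.1.1) (Q + pl p.1.2) p.2) (0, e w) := by
    intro e a b he ha hb hab hee w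
    have h1 : IsOpenEmbedding (Prod.map (id : Cf d → Cf d) e) := IsOpenEmbedding.id.prodMap he
    have h2 := h1.continuousAt_iff (g := fun p : Cf d × OnePoint ℂ =>
        sph d (P + pl p.1.1) (Q + pl p.1.2) p.2) (x := ((0 : Cf d), w))
    refine h2.1 ?_
    have h3 := chart hd hc hPd hQd ha hb hab w
    refine h3.congr (Eventually.of_forall fun p => ?_)
    simp [hee]
  induction x using OnePoint.rec with
  | infty =>
    have he : IsOpenEmbedding (fun w : ℂ => sinv (w : OnePoint ℂ)) :=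
      sinvHomeo.isOpenEmbedding.comp OnePoint.isOpenEmbedding_coe
    have := main _ (fun _ => 1) (fun w => w) he continuous_const continuous_id
      (fun w => Or.inl one_ne_zero) (fun w => by rw [← pr_one w, sinv_pr (Or.inr one_ne_zero)]) 0
    simpa [sinv_zero] using this
  | coe z =>
    exact main _ (fun w => w) (fun _ => 1) OnePoint.isOpenEmbedding_coe continuous_id
      continuous_const (fun w => Or.inr one_ne_zero) (fun w => (pr_one w).symm) z

/-- Joint continuity of the iterates. -/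
theorem joint {d : ℕ} {P Q : ℂ[X]} (hd : 0 < d) (hc : IsCoprime P Q)
    (hPd : P.natDegree ≤ d) (hQd : Q.natDegree = d) (n : ℕ) (x : OnePoint ℂ) :
    ContinuousAt (fun p : Cf d × OnePoint ℂ =>
      (sph d (P + pl p.1.1) (Q + pl p.1.2))^[n] p.2) (0, x) := by
  induction n with
  | zero => exact continuousAt_snd
  | succ n ih =>
    have h1 : (fun p : Cf d × OnePoint ℂ => (sph d (P + pl p.1.1) (Q + pl p.1.2))^[n + 1] p.2) =
        (fun p : Cf d × OnePoint ℂ => sph d (P + pl p.1.1) (Q + pl p.1.2) p.2) ∘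
          fun p : Cf d × OnePoint ℂ => (p.1, (sph d (P + pl p.1.1) (Q + pl p.1.2))^[n] p.2) := by
      funext p
      simp [Function.iterate_succ_apply']
    rw [h1]
    exact ContinuousAt.comp (step hd hc hPd hQd _) (continuousAt_fst.prodMk ih)

/-- Small perturbations are reduced fractions of the same degree. -/
theorem coprime_ev {d : ℕ} {P Q : ℂ[X]} (hd : 0 < d) (hc : IsCoprime P Q)
    (hPd : P.natDegree ≤ d) (hQd : Q.natDegree = d) :
    ∀ᶠ b : Cf d in 𝓝 0, IsCoprime (P + pl b.1) (Q + pl b.2) ∧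
      (P + pl b.1).natDegree ≤ d ∧ (Q + pl b.2).natDegree = d := by
  have hmax : d = max P.natDegree Q.natDegree := by rw [hQd, max_eq_right hPd]
  have hQ0 : Q ≠ 0 := by
    intro h
    rw [h, natDegree_zero] at hQd
    omega
  have hq : Q.coeff d ≠ 0 := by
    rw [← hQd]
    exact leadingCoeff_ne_zero.mpr hQ0
  have e1 : ∀ᶠ b : Cf d in 𝓝 0, (Q + pl b.2).coeff d ≠ 0 := by
    have h1 : ContinuousAt (fun b : Cf d => (Q + pl b.2).coeff d) 0 := by
      simp only [coeff_add]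
      exact (continuous_const.add ((pl_coeff_cont d).comp continuous_snd)).continuousAt
    apply h1.eventually_ne
    simp only [Prod.snd_zero, pl_zero, add_zero]
    exact hq
  -- the unit sphere
  have e2 : ∀ᶠ b : Cf d in 𝓝 0, ∀ p ∈ sphere (0 : ℂ × ℂ) 1,
      hom (P + pl b.1) d p.1 p.2 ≠ 0 ∨ hom (Q + pl b.2) d p.1 p.2 ≠ 0 := by
    refine (isCompact_sphere (0 : ℂ × ℂ) 1).eventually_forall_of_forall_eventually
      fun p hp => ?_
    have hp0 : p.1 ≠ 0 ∨ p.2 ≠ 0 := by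
      by_contra h
      push Not at h
      have h2 : p = 0 := Prod.ext h.1 h.2
      rw [h2] at hp
      simp at hp
    have hcc : ∀ R : ℂ[X], Continuous fun q : Cf d × (ℂ × ℂ) => hom R d q.2.1 q.2.2 := fun R =>
      (continuous_hom R d).comp continuous_snd
    have hc1 : Continuous fun q : Cf d × (ℂ × ℂ) => hom (P + pl q.1.1) d q.2.1 q.2.2 := by
      simp only [hom_add]
      exact (hcc P).add (Continuous.comp
        (g := fun p : (Fin (d + 1) → ℂ) × (ℂ × ℂ) => hom (pl p.1) d p.2.1 p.2.2)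
        (f := fun q : Cf d × (ℂ × ℂ) => (q.1.1, q.2)) hom_pl_cont
        ((continuous_fst.comp continuous_fst).prodMk continuous_snd))
    have hc2 : Continuous fun q : Cf d × (ℂ × ℂ) => hom (Q + pl q.1.2) d q.2.1 q.2.2 := by
      simp only [hom_add]
      exact (hcc Q).add (Continuous.comp
        (g := fun p : (Fin (d + 1) → ℂ) × (ℂ × ℂ) => hom (pl p.1) d p.2.1 p.2.2)
        (f := fun q : Cf d × (ℂ × ℂ) => (q.1.2, q.2)) hom_pl_cont
        ((continuous_snd.comp continuous_fst).prodMk continuous_snd))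
    rcases hom_not_both hc hmax hp0 hd with h | h
    · have h1 : ∀ᶠ q : Cf d × (ℂ × ℂ) in 𝓝 (0, p), hom (P + pl q.1.1) d q.2.1 q.2.2 ≠ 0 := by
        apply hc1.continuousAt.eventually_ne
        simp only [Prod.fst_zero, pl_zero, add_zero]
        exact h
      exact h1.mono fun q hq => Or.inl hq
    · have h1 : ∀ᶠ q : Cf d × (ℂ × ℂ) in 𝓝 (0, p), hom (Q + pl q.1.2) d q.2.1 q.2.2 ≠ 0 := by
        apply hc2.continuousAt.eventually_ne
        simp only [Prod.snd_zero, pl_zero, add_zero]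
        exact h
      exact h1.mono fun q hq => Or.inr hq
  filter_upwards [e1, e2] with b h1 h2
  have hdeg : (Q + pl b.2).natDegree = d :=
    natDegree_eq_of_le_of_coeff_ne_zero (deg_add hQd.le _) h1
  refine ⟨?_, deg_add hPd _, hdeg⟩
  rw [Polynomial.isCoprime_iff_aeval_ne_zero_of_isAlgClosed ℂ ℂ]
  intro a
  by_contra hcon
  push Not at hcon
  simp only [coe_aeval_eq_eval] at hcon
  obtain ⟨t, ht⟩ : ∃ t : ℝ, t = ‖((a, 1) : ℂ × ℂ)‖ := ⟨_, rfl⟩
  have ht0 : 0 < t := by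
    rw [ht]
    apply norm_pos_iff.2
    intro h
    have := congrArg Prod.snd h
    simp at this
  have htc : (t : ℂ) ≠ 0 := by exact_mod_cast ht0.ne'
  have h3 := h2 (a / t, 1 / t) (by
    rw [mem_sphere_zero_iff_norm]
    have e : ((a / t, 1 / t) : ℂ × ℂ) = (t : ℂ)⁻¹ • ((a, 1) : ℂ × ℂ) := by
      rw [Prod.smul_mk, smul_eq_mul, smul_eq_mul]
      congr 1
      · rw [div_eq_inv_mul]
      · rw [div_eq_inv_mul]
    rw [e, norm_smul, ← ht, norm_inv, Complex.norm_real, Real.norm_eq_abs, abs_of_pos ht0]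
    exact inv_mul_cancel₀ ht0.ne')
  have hv : (1 / (t : ℂ)) ≠ 0 := by simpa using htc
  have hdiv : a / t / (1 / t) = a := by field_simp
  rw [hom_ne (deg_add hPd _) hv, hom_ne (deg_add hQd.le _) hv, hdiv, hcon.1, hcon.2] at h3
  simp at h3

/-- Iterates of the plane family. -/
noncomputable def gn (d : ℕ) (P Q : ℂ[X]) (n : ℕ) (p : Cf d × ℂ) : ℂ :=
  (rf (P + pl p.1.1) (Q + pl p.1.2))^[n] p.2

theorem gn_zero_left (d : ℕ) (P Q : ℂ[X]) (n : ℕ) (z : ℂ) :
    gn d P Q n (0, z) = (rf P Q)^[n] z := by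
  unfold gn
  simp only [Prod.fst_zero, Prod.snd_zero, pl_zero, add_zero]

theorem rf_cda {d : ℕ} {P Q : ℂ[X]} {p : Cf d × ℂ} (h : (Q + pl p.1.2).eval p.2 ≠ 0) :
    ContDiffAt ℂ 1 (fun q : Cf d × ℂ => rf (P + pl q.1.1) (Q + pl q.1.2) q.2) p := by
  unfold rf
  simp only [eval_add] at h ⊢
  have hp : ∀ R : ℂ[X], ContDiffAt ℂ 1 (fun q : Cf d × ℂ => R.eval q.2) p := by
    intro R
    have h1 : ContDiff ℂ 1 (fun z : ℂ => R.eval z) := R.differentiable.contDiff
    exact (h1.comp contDiff_snd).contDiffAt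
  have h1 : ContDiffAt ℂ 1 (fun q : Cf d × ℂ => (pl q.1.1).eval q.2) p :=
    (pl_contDiff.comp ((contDiff_fst.comp contDiff_fst).prodMk contDiff_snd)).contDiffAt
  have h2 : ContDiffAt ℂ 1 (fun q : Cf d × ℂ => (pl q.1.2).eval q.2) p :=
    (pl_contDiff.comp ((contDiff_snd.comp contDiff_fst).prodMk contDiff_snd)).contDiffAt
  exact ((hp P).add h1).div ((hp Q).add h2) h

theorem gn_contDiffAt {d : ℕ} {P Q : ℂ[X]} {z : ℂ}
    (h : ∀ i : ℕ, Q.eval ((rf P Q)^[i] z) ≠ 0) (n : ℕ) :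
    ContDiffAt ℂ 1 (gn d P Q n) (0, z) := by
  induction n with
  | zero => exact contDiffAt_snd
  | succ n ih =>
    have h0 : gn d P Q n (0, z) = (rf P Q)^[n] z := gn_zero_left d P Q n z
    have h1 : ContDiffAt ℂ 1
        (fun q : Cf d × ℂ => rf (P + pl q.1.1) (Q + pl q.1.2) q.2)
        ((0 : Cf d), gn d P Q n (0, z)) := by
      apply rf_cda
      rw [h0]
      simp only [Prod.snd_zero, pl_zero, add_zero]
      exact h n
    have h2 : ContDiffAt ℂ 1 (fun p : Cf d × ℂ => (p.1, gn d P Q n p)) ((0 : Cf d), z) :=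
      contDiffAt_fst.prodMk ih
    have h3 := ContDiffAt.comp ((0 : Cf d), z)
      (g := fun q : Cf d × ℂ => rf (P + pl q.1.1) (Q + pl q.1.2) q.2)
      (f := fun p : Cf d × ℂ => (p.1, gn d P Q n p)) h1 h2
    have h4 : (gn d P Q (n + 1)) =
        (fun q : Cf d × ℂ => rf (P + pl q.1.1) (Q + pl q.1.2) q.2) ∘
          (fun p : Cf d × ℂ => (p.1, gn d P Q n p)) := by
      funext p
      simp only [Function.comp_apply, gn, Function.iterate_succ_apply']
    rw [h4]
    exact h3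

theorem den_ne {d : ℕ} {P Q : ℂ[X]} {z : ℂ}
    (h : ∀ i : ℕ, Q.eval ((rf P Q)^[i] z) ≠ 0) (n : ℕ) :
    ∀ᶠ p : Cf d × ℂ in 𝓝 ((0 : Cf d), z), (Q + pl p.1.2).eval (gn d P Q n p) ≠ 0 := by
  have hc : ContinuousAt (fun p : Cf d × ℂ => (Q + pl p.1.2).eval (gn d P Q n p))
      ((0 : Cf d), z) := by
    have h1 : ContinuousAt (gn d P Q n) ((0 : Cf d), z) := (gn_contDiffAt h n).continuousAt
    have h2 : ContinuousAt (fun p : Cf d × ℂ => Q.eval (gn d P Q n p))
        ((0 : Cf d), z) := Q.continuous.continuousAt.comp h1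
    have h3 : ContinuousAt (fun p : Cf d × ℂ => (pl p.1.2).eval (gn d P Q n p))
        ((0 : Cf d), z) := by
      have h4 : Continuous (fun p : (Fin (d + 1) → ℂ) × ℂ => (pl p.1).eval p.2) :=
        pl_contDiff.continuous
      exact ContinuousAt.comp (g := fun p : (Fin (d + 1) → ℂ) × ℂ => (pl p.1).eval p.2)
        h4.continuousAt
        (((continuous_snd.comp continuous_fst).continuousAt (x := ((0 : Cf d), z))).prodMk h1)
    simp only [eval_add]
    exact h2.add h3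
  apply hc.eventually_ne
  rw [gn_zero_left]
  simp only [Prod.snd_zero, pl_zero, add_zero]
  exact h n

/-- Attracted points stay attracted under perturbation of all coefficients and of the point. -/
theorem stable {d : ℕ} {P Q : ℂ[X]}
    (hB : ∀ (n : ℕ) (x : OnePoint ℂ), ContinuousAt (fun p : Cf d × OnePoint ℂ =>
      (sph d (P + pl p.1.1) (Q + pl p.1.2))^[n] p.2) (0, x))
    {x : OnePoint ℂ} (hx : Att d P Q x) :
    ∀ᶠ p : Cf d × OnePoint ℂ in 𝓝 (0, x), Att d (P + pl p.1.1) (Q + pl p.1.2) p.2 := by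
  obtain ⟨n, hn, z₀, hfin, hper, hmult, ht⟩ := hx
  have hQ : ∀ i : ℕ, Q.eval ((rf P Q)^[i] z₀) ≠ 0 := fun i => (finite_orbit hfin i).2
  have hfix : (rf P Q)^[n] z₀ = z₀ := by
    have h1 := (finite_orbit hfin n).1
    rw [hper] at h1
    exact (OnePoint.coe_injective h1).symm
  set g : Cf d × ℂ → ℂ := gn d P Q n with hg
  have hg0 : ContDiffAt ℂ 1 g ((0 : Cf d), z₀) := gn_contDiffAt hQ n
  have hgd : ∀ p : Cf d × ℂ, ContDiffAt ℂ 1 g p →
      HasDerivAt ((rf (P + pl p.1.1) (Q + pl p.1.2))^[n]) (fderiv ℂ g p (0, 1)) p.2 := by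
    intro p hp
    have h1 : HasFDerivAt g (fderiv ℂ g p) (p.1, p.2) :=
      (hp.differentiableAt (by norm_num)).hasFDerivAt
    have h2 : HasDerivAt (fun w : ℂ => ((p.1, w) : Cf d × ℂ)) ((0, 1) : Cf d × ℂ) p.2 :=
      (hasDerivAt_const p.2 p.1).prodMk (hasDerivAt_id p.2)
    exact h1.comp_hasDerivAt p.2 h2
  obtain ⟨lam, hlam1, hlam2⟩ := exists_between hmult
  have hlam0 : 0 ≤ lam := (norm_nonneg _).trans hlam1.le
  have hDc : ContinuousAt (fun p : Cf d × ℂ => ‖fderiv ℂ g p (0, 1)‖) ((0 : Cf d), z₀) := by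
    have h1 : ContDiffAt ℂ 0 (fderiv ℂ g) ((0 : Cf d), z₀) := hg0.fderiv_right (by norm_num)
    exact (h1.continuousAt.clm_apply continuousAt_const).norm
  have hD0 : ‖fderiv ℂ g ((0 : Cf d), z₀) (0, 1)‖ < lam := by
    have h1 := (hgd _ hg0).deriv
    simp only [Prod.fst_zero, Prod.snd_zero, pl_zero, add_zero] at h1
    rw [← h1]
    exact hlam1
  have hev : ∀ᶠ p : Cf d × ℂ in 𝓝 ((0 : Cf d), z₀), ‖fderiv ℂ g p (0, 1)‖ < lam ∧
      ContDiffAt ℂ 1 g p ∧
      (∀ i ∈ Finset.range n, (Q + pl p.1.2).eval (gn d P Q i p) ≠ 0) := by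
    have h1 : ∀ᶠ p : Cf d × ℂ in 𝓝 ((0 : Cf d), z₀), ‖fderiv ℂ g p (0, 1)‖ < lam :=
      hDc.tendsto.eventually (Iio_mem_nhds hD0)
    have h2 : ∀ᶠ p : Cf d × ℂ in 𝓝 ((0 : Cf d), z₀), ContDiffAt ℂ 1 g p :=
      hg0.eventually (by norm_num)
    have h3 : ∀ᶠ p : Cf d × ℂ in 𝓝 ((0 : Cf d), z₀),
        ∀ i ∈ Finset.range n, (Q + pl p.1.2).eval (gn d P Q i p) ≠ 0 :=
      (Finset.eventually_all _).2 fun i _ => den_ne hQ i
    filter_upwards [h1, h2, h3] with p a b c
    exact ⟨a, b, c⟩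
  obtain ⟨η₀, hη₀, hball⟩ := Metric.mem_nhds_iff.1 hev
  set η := η₀ / 2 with hη
  have hηpos : 0 < η := by rw [hη]; linarith
  have hin : ∀ (a : Cf d) (z : ℂ), ‖a‖ < η₀ → z ∈ closedBall z₀ η → ((a, z) : Cf d × ℂ) ∈ ball ((0 : Cf d), z₀) η₀ := by
    intro a z ha hz
    rw [mem_ball, Prod.dist_eq, max_lt_iff]
    refine ⟨by simpa using ha, ?_⟩
    rw [mem_closedBall] at hz
    exact lt_of_le_of_lt hz (by rw [hη]; linarith)
  have hgd' : ∀ (a : Cf d) (z : ℂ), ‖a‖ < η₀ → z ∈ closedBall z₀ η →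
      HasDerivAt ((rf (P + pl a.1) (Q + pl a.2))^[n]) (fderiv ℂ g (a, z) (0, 1)) z :=
    fun a z ha hz => hgd (a, z) (hball (hin a z ha hz)).2.1
  have hDη : ∀ (a : Cf d) (z : ℂ), ‖a‖ < η₀ → z ∈ closedBall z₀ η →
      ‖deriv ((rf (P + pl a.1) (Q + pl a.2))^[n]) z‖ ≤ lam := by
    intro a z ha hz
    rw [(hgd' a z ha hz).deriv]
    exact (hball (hin a z ha hz)).1.le
  -- displacement of the centre
  have hdisp : ∀ᶠ a : Cf d in 𝓝 0,
      ‖(rf (P + pl a.1) (Q + pl a.2))^[n] z₀ - z₀‖ < (1 - lam) * η := by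
    have hc : ContinuousAt (fun a : Cf d => g (a, z₀)) 0 := by
      have h1 : ContinuousAt g ((0 : Cf d), z₀) := hg0.continuousAt
      have h2 : ContinuousAt (fun a : Cf d => ((a, z₀) : Cf d × ℂ)) 0 := by fun_prop
      exact ContinuousAt.comp (f := fun a : Cf d => ((a, z₀) : Cf d × ℂ)) h1 h2
    have hc2 : ContinuousAt (fun a : Cf d => ‖g (a, z₀) - z₀‖) 0 := (hc.sub continuousAt_const).norm
    have h0 : ‖g ((0 : Cf d), z₀) - z₀‖ < (1 - lam) * η := by
      rw [hg, gn_zero_left, hfix, sub_self, norm_zero]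
      exact mul_pos (by linarith) hηpos
    exact hc2.tendsto.eventually (Iio_mem_nhds h0)
  obtain ⟨δ₁, hδ₁, hδ₁'⟩ := Metric.mem_nhds_iff.1 hdisp
  have hmap : ∀ a : Cf d, ‖a‖ < min η₀ δ₁ →
      MapsTo ((rf (P + pl a.1) (Q + pl a.2))^[n]) (closedBall z₀ η) (closedBall z₀ η) ∧
      LipschitzOnWith ⟨lam, hlam0⟩ ((rf (P + pl a.1) (Q + pl a.2))^[n])
        (closedBall z₀ η) := by
    intro a ha
    have ha1 : ‖a‖ < η₀ := lt_of_lt_of_le ha (min_le_left _ _)
    have ha2 : ‖a‖ < δ₁ := lt_of_lt_of_le ha (min_le_right _ _)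
    have hL : LipschitzOnWith ⟨lam, hlam0⟩ ((rf (P + pl a.1) (Q + pl a.2))^[n])
        (closedBall z₀ η) := by
      apply (convex_closedBall z₀ η).lipschitzOnWith_of_nnnorm_deriv_le
        (fun z hz => (hgd' a z ha1 hz).differentiableAt)
      intro z hz
      have := hDη a z ha1 hz
      exact_mod_cast this
    refine ⟨?_, hL⟩
    intro z hz
    have h1 := hL.dist_le_mul z hz z₀ (mem_closedBall_self hηpos.le)
    have h2 : dist ((rf (P + pl a.1) (Q + pl a.2))^[n] z₀) z₀ < (1 - lam) * η := by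
      rw [dist_eq_norm]
      have : a ∈ ball (0 : Cf d) δ₁ := by simpa using ha2
      exact hδ₁' this
    rw [mem_closedBall] at hz ⊢
    have h3 : dist ((rf (P + pl a.1) (Q + pl a.2))^[n] z) z₀ ≤
        dist ((rf (P + pl a.1) (Q + pl a.2))^[n] z)
          ((rf (P + pl a.1) (Q + pl a.2))^[n] z₀) +
        dist ((rf (P + pl a.1) (Q + pl a.2))^[n] z₀) z₀ := dist_triangle _ _ _
    have h4 : ((⟨lam, hlam0⟩ : NNReal) : ℝ) * dist z z₀ ≤ lam * η := by
      change lam * dist z z₀ ≤ lam * η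
      exact mul_le_mul_of_nonneg_left hz hlam0
    have h5 : (1 - lam) * η + lam * η = η := by ring
    have h6 := h1.trans h4
    linarith
  -- entering time
  have hopen : IsOpen ((fun z : ℂ => (z : OnePoint ℂ)) '' ball z₀ η) :=
    OnePoint.isOpenEmbedding_coe.isOpenMap _ isOpen_ball
  obtain ⟨K, hK⟩ := (ht.eventually (hopen.mem_nhds
    ⟨z₀, mem_ball_self hηpos, rfl⟩)).exists
  have h1 : ∀ᶠ p : Cf d × OnePoint ℂ in 𝓝 ((0 : Cf d), x),
      (sph d (P + pl p.1.1) (Q + pl p.1.2))^[n * K] p.2 ∈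
        (fun z : ℂ => (z : OnePoint ℂ)) '' ball z₀ η := by
    apply (hB (n * K) x).tendsto.eventually
    apply hopen.mem_nhds
    simp only [Prod.fst_zero, Prod.snd_zero, pl_zero, add_zero]
    exact hK
  have h2 : ∀ᶠ p : Cf d × OnePoint ℂ in 𝓝 ((0 : Cf d), x), ‖p.1‖ < min η₀ δ₁ := by
    have hc : Continuous (fun p : Cf d × OnePoint ℂ => ‖p.1‖) := by fun_prop
    have h0 : ‖(((0 : Cf d), x) : Cf d × OnePoint ℂ).1‖ < min η₀ δ₁ := by
      simpa using ⟨hη₀, hδ₁⟩
    exact (hc.tendsto ((0 : Cf d), x)).eventually (Iio_mem_nhds h0)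
  filter_upwards [h1, h2] with p hp1 hp2
  obtain ⟨w, hw, hwe⟩ := hp1
  have hwe' : (sph d (P + pl p.1.1) (Q + pl p.1.2))^[n * K] p.2 = (w : OnePoint ℂ) := hwe.symm
  obtain ⟨hmaps, hL⟩ := hmap p.1 hp2
  have hp3 : ‖p.1‖ < η₀ := lt_of_lt_of_le hp2 (min_le_left _ _)
  set f : ℂ → ℂ := rf (P + pl p.1.1) (Q + pl p.1.2) with hf
  set F : OnePoint ℂ → OnePoint ℂ := sph d (P + pl p.1.1) (Q + pl p.1.2) with hF
  have horb : ∀ z ∈ closedBall z₀ η, ∀ i ≤ n, F^[i] (z : OnePoint ℂ) =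
      ((f^[i] z : ℂ) : OnePoint ℂ) := by
    intro z hz i hi
    apply orbit_of_ne (n := n) _ i hi
    intro j hj
    exact (hball (hin p.1 z hp3 hz)).2.2 j (Finset.mem_range.2 hj)
  have horb2 : ∀ k : ℕ, ∀ z ∈ closedBall z₀ η, F^[n * k] (z : OnePoint ℂ) =
      (((f^[n])^[k] z : ℂ) : OnePoint ℂ) ∧ (f^[n])^[k] z ∈ closedBall z₀ η := by
    intro k
    induction k with
    | zero => intro z hz; exact ⟨rfl, hz⟩
    | succ k ih =>
      intro z hz
      have h3 : F^[n * (k + 1)] (z : OnePoint ℂ) = F^[n * k] (F^[n] (z : OnePoint ℂ)) := by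
        rw [Nat.mul_succ, Function.iterate_add_apply]
      rw [h3, horb z hz n le_rfl, Function.iterate_succ_apply]
      exact ih _ (hmaps hz)
  have hcontr : ContractingWith ⟨lam, hlam0⟩ (hmaps.restrict (f^[n]) _ _) := by
    refine ⟨?_, hL.mapsToRestrict hmaps⟩
    exact_mod_cast hlam2
  obtain ⟨y, hys, hyf, hyt, -⟩ := hcontr.exists_fixedPoint' (isClosed_closedBall.isComplete)
    hmaps (ball_subset_closedBall hw) (edist_ne_top _ _)
  have hyk : ∀ k : ℕ, (f^[n])^[k] y = y := fun k => hyf.iterate k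
  refine ⟨n, hn, y, ?_, ?_, lt_of_le_of_lt (hDη p.1 y hp3 hys) hlam2, ?_⟩
  · intro i
    have h3 : F^[i] (y : OnePoint ℂ) = F^[i % n] (F^[n * (i / n)] (y : OnePoint ℂ)) := by
      rw [← Function.iterate_add_apply, Nat.mod_add_div]
    rw [h3, (horb2 (i / n) y hys).1, hyk, horb y hys (i % n) (Nat.mod_lt _ hn).le]
    exact OnePoint.coe_ne_infty _
  · rw [horb y hys n le_rfl]
    have : f^[n] y = y := hyf
    rw [this]
  · rw [← tendsto_add_atTop_iff_nat K]
    have h3 : (fun k : ℕ => F^[n * (k + K)] p.2) =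
        fun k : ℕ => (((f^[n])^[k] w : ℂ) : OnePoint ℂ) := by
      ext1 k
      rw [Nat.mul_add, Function.iterate_add_apply, hwe', (horb2 k w (ball_subset_closedBall hw)).1]
    rw [h3]
    exact (OnePoint.continuous_coe.tendsto y).comp hyt

end Pool.Agent.Zk29.Mu
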