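import Pool.Agent.Zk29.Mu.G1

/-!
# Semicontinuity of the number of free critical points
-/

set_option autoImplicit false

open Filter Topology Metric Set Polynomial
open scoped OnePoint

namespace Pool.Agent.Zk29.Mu

open Pool.Agent.H792R2.CE Pool.Agent.H792R2.CE.C2x Pool.Agent.Zk29.Rat
open Pool.Agent.Helper114.Herman

variable {d : ℕ} {P Q : ℂ[X]}

/-- A normalised rational map: infinity is attracted by a cycle in the plane. -/
structure Nrm (d : ℕ) (P Q : ℂ[X]) : Prop where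
  cop : IsCoprime P Q
  Pd : P.natDegree ≤ d
  Qd : Q.natDegree = d
  inf : Att d P Q ∞

lemma Nice.nrm (h : Nice d P Q) : Nrm d P Q := ⟨h.cop, h.Pd, h.Qd, h.inf⟩

theorem nrm_open (hd : 0 < d) (h : Nrm d P Q) :
    ∀ᶠ b : Cf d in 𝓝 0, Nrm d (P + pl b.1) (Q + pl b.2) := by
  have h1 := stable (fun n x => joint hd h.cop h.Pd h.Qd n x) h.inf
  have h2 : Tendsto (fun b : Cf d => (b, (∞ : OnePoint ℂ))) (𝓝 0) (𝓝 ((0 : Cf d), ∞)) :=
    (Continuous.prodMk continuous_id continuous_const).tendsto 0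
  filter_upwards [coprime_ev hd h.cop h.Pd h.Qd, h2.eventually h1] with b h3 h4
  exact ⟨h3.1, h3.2.1, h3.2.2, h4⟩

/-- Evaluation is jointly continuous. -/
lemma ev0 (P : ℂ[X]) : Continuous (fun p : (Fin (d + 1) → ℂ) × ℂ => (P + pl p.1).eval p.2) := by
  simp only [eval_add]
  exact (P.continuous.comp continuous_snd).add pl_contDiff.continuous

lemma ev1 (P : ℂ[X]) :
    Continuous (fun p : (Fin (d + 1) → ℂ) × ℂ => (derivative (P + pl p.1)).eval p.2) := by
  simp only [derivative_add, eval_add]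
  exact ((derivative P).continuous.comp continuous_snd).add pl_der_cont

lemma ev2 (P : ℂ[X]) : Continuous
    (fun p : (Fin (d + 1) → ℂ) × ℂ => (derivative (derivative (P + pl p.1))).eval p.2) := by
  simp only [derivative_add, eval_add]
  exact ((derivative (derivative P)).continuous.comp continuous_snd).add pl_der2_cont

lemma fst_c : Continuous (fun p : Cf d × ℂ => ((p.1.1, p.2) : (Fin (d + 1) → ℂ) × ℂ)) := by
  fun_prop

lemma snd_c : Continuous (fun p : Cf d × ℂ => ((p.1.2, p.2) : (Fin (d + 1) → ℂ) × ℂ)) := by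
  fun_prop

lemma W_cont (P Q : ℂ[X]) :
    Continuous (fun p : Cf d × ℂ => (wr (P + pl p.1.1) (Q + pl p.1.2)).eval p.2) := by
  have a0 : Continuous (fun p : Cf d × ℂ => (P + pl p.1.1).eval p.2) := (ev0 P).comp fst_c
  have a1 : Continuous (fun p : Cf d × ℂ => (derivative (P + pl p.1.1)).eval p.2) :=
    (ev1 P).comp fst_c
  have b0 : Continuous (fun p : Cf d × ℂ => (Q + pl p.1.2).eval p.2) := (ev0 Q).comp snd_c
  have b1 : Continuous (fun p : Cf d × ℂ => (derivative (Q + pl p.1.2)).eval p.2) :=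
    (ev1 Q).comp snd_c
  unfold wr
  simp only [eval_sub, eval_mul]
  exact (a1.mul b0).sub (a0.mul b1)

lemma W'_cont (P Q : ℂ[X]) : Continuous
    (fun p : Cf d × ℂ => (derivative (wr (P + pl p.1.1) (Q + pl p.1.2))).eval p.2) := by
  have a0 : Continuous (fun p : Cf d × ℂ => (P + pl p.1.1).eval p.2) := (ev0 P).comp fst_c
  have a1 : Continuous (fun p : Cf d × ℂ => (derivative (P + pl p.1.1)).eval p.2) :=
    (ev1 P).comp fst_c
  have a2 : Continuous (fun p : Cf d × ℂ => (derivative (derivative (P + pl p.1.1))).eval p.2) :=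
    (ev2 P).comp fst_c
  have b0 : Continuous (fun p : Cf d × ℂ => (Q + pl p.1.2).eval p.2) := (ev0 Q).comp snd_c
  have b1 : Continuous (fun p : Cf d × ℂ => (derivative (Q + pl p.1.2)).eval p.2) :=
    (ev1 Q).comp snd_c
  have b2 : Continuous (fun p : Cf d × ℂ => (derivative (derivative (Q + pl p.1.2))).eval p.2) :=
    (ev2 Q).comp snd_c
  have e : ∀ A B : ℂ[X], derivative (wr A B) =
      derivative (derivative A) * B - A * derivative (derivative B) := by
    intro A B
    unfold wr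
    rw [derivative_sub, derivative_mul, derivative_mul]
    ring
  simp only [e, eval_sub, eval_mul]
  exact (a2.mul b0).sub (a0.mul b2)

/-- **The number of free critical points is upper semicontinuous.** -/
theorem nice_usc (hd : 2 ≤ d) (h : Nice d P Q) :
    ∀ᶠ b : Cf d in 𝓝 0, Nice d (P + pl b.1) (Q + pl b.2) ∧
      (Fr d (P + pl b.1) (Q + pl b.2)).ncard ≤ (Fr d P Q).ncard := by
  classical
  have hd0 : 0 < d := by omega
  obtain ⟨U, U₁, O⟩ := exists_many hd h
  have hFf : (Fr d P Q).Finite := Fr_fin (h.N0 hd0)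
  have hUc : IsCompact (closure U) := O.trap.bdd.isCompact_closure
  -- uniqueness near the free critical points
  have hloc : ∀ c ∈ Fr d P Q, ∃ ρ : ℝ, 0 < ρ ∧ ∀ b : Cf d, ‖b‖ < ρ → ∀ z ∈ ball c ρ,
      ‖(derivative (wr (P + pl b.1) (Q + pl b.2))).eval z - (derivative (wr P Q)).eval c‖ <
        ‖(derivative (wr P Q)).eval c‖ / 2 := by
    intro c hc
    have hL : 0 < ‖(derivative (wr P Q)).eval c‖ := norm_pos_iff.2 (h.sim c hc)
    have h1 : Continuous (fun p : Cf d × ℂ =>
        ‖(derivative (wr (P + pl p.1.1) (Q + pl p.1.2))).eval p.2 -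
          (derivative (wr P Q)).eval c‖) := ((W'_cont P Q).sub continuous_const).norm
    have h2 : ∀ᶠ p : Cf d × ℂ in 𝓝 (0, c),
        ‖(derivative (wr (P + pl p.1.1) (Q + pl p.1.2))).eval p.2 -
          (derivative (wr P Q)).eval c‖ < ‖(derivative (wr P Q)).eval c‖ / 2 := by
      apply h1.continuousAt.eventually_lt_const
      simp only [Prod.fst_zero, Prod.snd_zero, pl_zero, add_zero, sub_self, norm_zero]
      linarith
    obtain ⟨ρ, hρ, h3⟩ := Metric.eventually_nhds_iff.1 h2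
    refine ⟨ρ, hρ, fun b hb z hz => h3 (y := (b, z)) ?_⟩
    rw [Prod.dist_eq, max_lt_iff]
    exact ⟨by rwa [dist_zero_right], hz⟩
  choose! ρ hρ hloc' using hloc
  have huniq : ∀ c ∈ Fr d P Q, ∀ b : Cf d, ‖b‖ < ρ c → ∀ z ∈ ball c (ρ c), ∀ z' ∈ ball c (ρ c),
      (wr (P + pl b.1) (Q + pl b.2)).eval z = 0 → (wr (P + pl b.1) (Q + pl b.2)).eval z' = 0 →
      z = z' := by
    intro c hc b hb z hz z' hz' h1 h2
    obtain ⟨L, hLe⟩ : ∃ L, L = (derivative (wr P Q)).eval c := ⟨_, rfl⟩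
    have hL : 0 < ‖L‖ := by rw [hLe]; exact norm_pos_iff.2 (h.sim c hc)
    obtain ⟨Gp, hG⟩ : ∃ Gp, Gp = wr (P + pl b.1) (Q + pl b.2) := ⟨_, rfl⟩
    rw [← hG] at h1 h2
    have h3 := (convex_ball c (ρ c)).norm_image_sub_le_of_norm_hasDerivWithin_le
      (f := fun w => Gp.eval w - L * w) (f' := fun w => (derivative Gp).eval w - L)
      (C := ‖L‖ / 2) (fun w hw => by
        have h4 := (Gp.hasDerivAt w).sub ((hasDerivAt_id w).const_mul L)
        rw [mul_one] at h4
        exact h4.hasDerivWithinAt) (fun w hw => by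
        have h4 := hloc' c hc b hb w hw
        rw [← hG, ← hLe] at h4
        exact h4.le) hz hz'
    have h5 : Gp.eval z' - L * z' - (Gp.eval z - L * z) = - (L * (z' - z)) := by
      rw [h1, h2]
      ring
    change ‖Gp.eval z' - L * z' - (Gp.eval z - L * z)‖ ≤ _ at h3
    rw [h5, norm_neg, norm_mul] at h3
    by_contra hne
    have h6 : 0 < ‖z' - z‖ := norm_pos_iff.2 (sub_ne_zero.2 (Ne.symm hne))
    have h7 : 0 < ‖L‖ * ‖z' - z‖ := mul_pos hL h6
    have h8 : ‖L‖ / 2 * ‖z' - z‖ = ‖L‖ * ‖z' - z‖ / 2 := by ring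
    rw [h8] at h3
    linarith
  -- the critical points in the closure of `U`
  have e1 : ∀ᶠ b : Cf d in 𝓝 0, ∀ z ∈ closure U,
      (wr (P + pl b.1) (Q + pl b.2)).eval z = 0 → ∃ c ∈ Fr d P Q, z ∈ ball c (ρ c) := by
    refine hUc.eventually_forall_of_forall_eventually fun z hz => ?_
    by_cases h0 : (wr P Q).eval z = 0
    · have hzc := O.w z hz h0
      have h1 : ∀ᶠ p : Cf d × ℂ in 𝓝 (0, z), p.2 ∈ ball z (ρ z) :=
        continuous_snd.continuousAt.eventually_mem (isOpen_ball.mem_nhds (mem_ball_self (hρ z hzc)))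
      filter_upwards [h1] with p hp _ using ⟨z, hzc, hp⟩
    · have h1 : ∀ᶠ p : Cf d × ℂ in 𝓝 (0, z),
          (wr (P + pl p.1.1) (Q + pl p.1.2)).eval p.2 ≠ 0 := by
        apply (W_cont P Q).continuousAt.eventually_ne
        simp only [Prod.fst_zero, Prod.snd_zero, pl_zero, add_zero]
        exact h0
      filter_upwards [h1] with p hp h2 using absurd h2 hp
  have e2 : ∀ᶠ b : Cf d in 𝓝 0, ∀ c ∈ Fr d P Q, ‖b‖ < ρ c := by
    rw [eventually_all_finite hFf]
    intro c hc
    have h1 : Continuous (fun b : Cf d => ‖b‖) := continuous_norm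
    have h2 : ‖(0 : Cf d)‖ < ρ c := by rw [norm_zero]; exact hρ c hc
    exact (h1.tendsto 0).eventually (Iio_mem_nhds h2)
  have e3 : ∀ᶠ b : Cf d in 𝓝 0, ∀ x ∈ ((fun y : ℂ => (y : OnePoint ℂ)) '' U₁)ᶜ,
      Att d (P + pl b.1) (Q + pl b.2) x := by
    have h1 : IsCompact (((fun y : ℂ => (y : OnePoint ℂ)) '' U₁)ᶜ) :=
      ((OnePoint.isOpenEmbedding_coe (X := ℂ)).isOpenMap _ O.o).isClosed_compl.isCompact
    refine h1.eventually_forall_of_forall_eventually fun x hx =>
      stable (fun n x => joint hd0 h.cop h.Pd h.Qd n x) ?_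
    induction x using OnePoint.rec with
    | infty => exact h.inf
    | coe z =>
      by_contra h2
      exact hx ⟨z, O.n z h2, rfl⟩
  filter_upwards [e1, e2, e3, coprime_ev hd0 h.cop h.Pd h.Qd] with b h1 h2 h3 h4
  have hin : ∀ z : ℂ, ¬ Att d (P + pl b.1) (Q + pl b.2) (z : OnePoint ℂ) → z ∈ closure U := by
    intro z hz
    by_contra hzU
    apply hz
    apply h3
    rintro ⟨y, hy, hyz⟩
    have h5 : y = z := by simpa using hyz
    rw [h5] at hy
    exact hzU (subset_closure (O.s (subset_closure hy)))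
  have hnear : ∀ z ∈ Fr d (P + pl b.1) (Q + pl b.2), ∃ c ∈ Fr d P Q, z ∈ ball c (ρ c) :=
    fun z hz => h1 z (hin z hz.2) hz.1
  refine ⟨⟨h4.1, h4.2.1, h4.2.2, ?_, fun z hz => ?_⟩, ?_⟩
  · apply h3
    rintro ⟨y, hy, hyz⟩
    exact OnePoint.coe_ne_infty y hyz
  · obtain ⟨c, hc, hzc⟩ := hnear z hz
    have h5 := hloc' c hc b (h2 c hc) z hzc
    intro h6
    rw [h6, zero_sub, norm_neg] at h5
    have h7 := norm_nonneg ((derivative (wr P Q)).eval c)
    linarith
  · choose! g hg1 hg2 using hnear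
    apply Set.ncard_le_ncard_of_injOn g hg1 _ hFf
    intro z hz z' hz' hzz
    have h5 := hg2 z hz
    have h6 := hg2 z' hz'
    rw [← hzz] at h6
    exact huniq (g z) (hg1 z hz) b (h2 _ (hg1 z hz)) z h5 z' h6 hz.1 hz'.1

end Pool.Agent.Zk29.Mu
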