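import Pool.Agent.Zk29.Mu.G2
import Pool.Agent.Zk29.Mu.F5
import Pool.Agent.H790R3.RB.TGEN
import Pool.Agent.H790R3.RB.TPOLY
import Pool.Agent.H790R3.RB.TWR

/-!
# An open and dense set of normalised maps
-/

set_option autoImplicit false

open Filter Topology Metric Set Polynomial
open scoped OnePoint

namespace Pool.Agent.Zk29.Mu

open Pool.Agent.H792R2.CE Pool.Agent.H792R2.CE.C2x Pool.Agent.Zk29.Rat
open Pool.Agent.Helper114.Herman

variable {d : ℕ} {P Q : ℂ[X]}

lemma pl_add (a b : Fin (d + 1) → ℂ) : pl (a + b) = pl a + pl b := by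
  unfold pl
  rw [← Finset.sum_add_distrib]
  refine Finset.sum_congr rfl fun i _ => ?_
  rw [Pi.add_apply, C_add, add_mul]

lemma pl_of {P : ℂ[X]} (h : P.natDegree ≤ d) : pl (fun i : Fin (d + 1) => P.coeff i) = P := by
  ext k
  rw [pl_coeff]
  split_ifs with h1
  · rfl
  · exact (coeff_eq_zero_of_natDegree_lt (by omega)).symm

/-- The Jacobian of the homogeneous map. -/
lemma jac (x : Pool.Agent.H790R3.RB.CV d) (ζ : ℂ) :
    Pool.Agent.H790R3.RB.wr x (ζ, 1) =
      d * (wr (pl fun j => x (0, j)) (pl fun j => x (1, j))).eval ζ := by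
  have h1 : ∀ i : Fin 2, (∑ j : Fin (d + 1), x (i, j) * (((j : ℕ) : ℂ) * ζ ^ ((j : ℕ) - 1) *
      1 ^ (d - (j : ℕ)))) = (derivative (pl fun j => x (i, j))).eval ζ := by
    intro i
    rw [pl_der_eval]
    refine Finset.sum_congr rfl fun j _ => ?_
    rw [one_pow, mul_one]
  have h2 : ∀ i : Fin 2, (∑ j : Fin (d + 1), x (i, j) * (((d - (j : ℕ) : ℕ) : ℂ) *
      ζ ^ (j : ℕ) * 1 ^ (d - (j : ℕ) - 1))) = d * (pl fun j => x (i, j)).eval ζ -
        ζ * (derivative (pl fun j => x (i, j))).eval ζ := by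
    intro i
    rw [pl_der_eval, pl_eval, Finset.mul_sum, Finset.mul_sum, ← Finset.sum_sub_distrib]
    refine Finset.sum_congr rfl fun j _ => ?_
    have h3 : (j : ℕ) ≤ d := by have := j.2; omega
    rw [Nat.cast_sub h3, one_pow, mul_one]
    rcases Nat.eq_zero_or_pos (j : ℕ) with h4 | h4
    · rw [h4]
      simp
      ring
    · have h5 : ζ * ζ ^ ((j : ℕ) - 1) = ζ ^ (j : ℕ) := by
        rw [← pow_succ']
        congr 1
        omega
      have h6 : ζ * (x (i, j) * (((j : ℕ) : ℂ) * ζ ^ ((j : ℕ) - 1))) =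
          x (i, j) * (((j : ℕ) : ℂ) * (ζ * ζ ^ ((j : ℕ) - 1))) := by ring
      rw [h6, h5]
      ring
  unfold Pool.Agent.H790R3.RB.wr
  simp only []
  rw [h1 0, h1 1, h2 0, h2 1]
  unfold wr
  rw [eval_sub, eval_mul, eval_mul]
  ring

/-- Maps with simple critical points are dense. -/
theorem exists_nice (hd : 2 ≤ d) (h : Nrm d P Q) {ε : ℝ} (hε : 0 < ε) :
    ∃ b : Cf d, ‖b‖ < ε ∧ Nice d (P + pl b.1) (Q + pl b.2) := by
  have hd0 : 0 < d := by omega
  obtain ⟨δ, hδ, hball⟩ := Metric.eventually_nhds_iff.1 (nrm_open hd0 h)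
  obtain ⟨x₀, hx₀⟩ : ∃ x₀ : Pool.Agent.H790R3.RB.CV d, x₀ = fun p =>
    if p.1 = 0 then P.coeff p.2 else Q.coeff p.2 := ⟨_, rfl⟩
  obtain ⟨x, hx1, hx2, ⟨c, hc1, hc2⟩, -⟩ := (Pool.Agent.H790R3.RB.GEN Pool.Agent.H790R3.RB.POLY Pool.Agent.H790R3.RB.WR) d 1 x₀ hd le_rfl
    (min ε δ) (lt_min hε hδ)
  have hb1 : P + pl (fun j : Fin (d + 1) => (x - x₀) (0, j)) = pl (fun j => x (0, j)) := by
    have h1 : pl (fun j : Fin (d + 1) => (x - x₀) (0, j)) = pl (fun j => x (0, j)) - P := by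
      rw [eq_sub_iff_add_eq]
      calc pl (fun j : Fin (d + 1) => (x - x₀) (0, j)) + P =
          pl (fun j : Fin (d + 1) => (x - x₀) (0, j)) + pl (fun j : Fin (d + 1) => P.coeff j) := by
            rw [pl_of h.Pd]
        _ = pl ((fun j : Fin (d + 1) => (x - x₀) (0, j)) + fun j : Fin (d + 1) => P.coeff j) :=
            (pl_add _ _).symm
        _ = pl (fun j => x (0, j)) := by
            congr 1
            funext j
            rw [hx₀]
            simp
    rw [h1]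
    ring
  have hb2 : Q + pl (fun j : Fin (d + 1) => (x - x₀) (1, j)) = pl (fun j => x (1, j)) := by
    have h1 : pl (fun j : Fin (d + 1) => (x - x₀) (1, j)) = pl (fun j => x (1, j)) - Q := by
      rw [eq_sub_iff_add_eq]
      calc pl (fun j : Fin (d + 1) => (x - x₀) (1, j)) + Q =
          pl (fun j : Fin (d + 1) => (x - x₀) (1, j)) + pl (fun j : Fin (d + 1) => Q.coeff j) := by
            rw [pl_of h.Qd.le]
        _ = pl ((fun j : Fin (d + 1) => (x - x₀) (1, j)) + fun j : Fin (d + 1) => Q.coeff j) :=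
            (pl_add _ _).symm
        _ = pl (fun j => x (1, j)) := by
            congr 1
            funext j
            rw [hx₀]
            simp
    rw [h1]
    ring
  obtain ⟨b, hb⟩ : ∃ b : Cf d, b = (fun j => (x - x₀) (0, j), fun j => (x - x₀) (1, j)) :=
    ⟨_, rfl⟩
  have hbn : ‖b‖ ≤ ‖x - x₀‖ := by
    rw [hb, Prod.norm_def, max_le_iff]
    constructor
    · rw [pi_norm_le_iff_of_nonneg (norm_nonneg _)]
      exact fun j => norm_le_pi_norm (x - x₀) (0, j)
    · rw [pi_norm_le_iff_of_nonneg (norm_nonneg _)]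
      exact fun j => norm_le_pi_norm (x - x₀) (1, j)
  have hbε : ‖b‖ < ε := hbn.trans_lt (hx1.trans_le (min_le_left _ _))
  have hbδ : ‖b‖ < δ := hbn.trans_lt (hx1.trans_le (min_le_right _ _))
  have hn : Nrm d (P + pl b.1) (Q + pl b.2) := hball (by rwa [dist_zero_right])
  refine ⟨b, hbε, hn.cop, hn.Pd, hn.Qd, hn.inf, fun z hz => ?_⟩
  have hz1 : (wr (pl fun j => x (0, j)) (pl fun j => x (1, j))).eval z = 0 := by
    have := hz.1
    rw [hb] at this
    simp only at this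
    rwa [hb1, hb2] at this
  rw [hb]
  simp only
  rw [hb1, hb2]
  obtain ⟨W, hW⟩ : ∃ W, W = wr (pl fun j => x (0, j)) (pl fun j => x (1, j)) := ⟨_, rfl⟩
  rw [← hW] at hz1 ⊢
  obtain ⟨k, hk⟩ : ∃ k, k = Pool.Agent.H790R3.RB.wr x (1, 0) := ⟨_, rfl⟩
  rw [← hk] at hx2 hc2
  have hpoly : C (d : ℂ) * W = C k * ∏ i, (X - C (c i)) := by
    apply Polynomial.funext
    intro ζ
    have h1 := hc2 ζ
    rw [jac, ← hW] at h1
    rw [eval_mul, eval_C, eval_mul, eval_C, eval_prod, h1]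
    simp
  have hsep : (∏ i, (X - C (c i))).Separable := separable_prod_X_sub_C_iff.2 hc1
  have hd' : (d : ℂ) ≠ 0 := by exact_mod_cast hd0.ne'
  have h2 : (∏ i, (X - C (c i))).eval z = 0 := by
    have h3 := congrArg (eval z) hpoly
    rw [eval_mul, eval_mul, hz1, mul_zero, eval_C] at h3
    rcases mul_eq_zero.1 h3.symm with h4 | h4
    · exact absurd h4 hx2
    · exact h4
  have h3 : (derivative (∏ i, (X - C (c i)))).eval z ≠ 0 := by
    have h4 := hsep.eval₂_derivative_ne_zero (RingHom.id ℂ) (x := z) (by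
      rw [eval₂_id]
      exact h2)
    rwa [eval₂_id] at h4
  intro h4
  have h5 := congrArg (fun p => (derivative p).eval z) hpoly
  simp only [derivative_C_mul, eval_C_mul, h4, mul_zero] at h5
  rcases mul_eq_zero.1 h5.symm with h6 | h6
  · exact hx2 h6
  · exact h3 h6

/-- Every free critical point is simple and its value has slow growth of the derivatives. -/
def Slow (d : ℕ) (P Q : ℂ[X]) : Prop :=
  ∀ c ∈ Fr d P Q, (derivative (wr P Q)).eval c ≠ 0 ∧
    ∃ K : ℝ, ∀ N : ℕ, 2 ≤ N → ‖deriv ((rf P Q)^[N]) (rf P Q c)‖ ≤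
      Real.exp (K * Real.log N ^ 2)

/-- **The interior of the set of maps with slow free critical points is dense.** -/
theorem dense_open (hd : 2 ≤ d) (h : Nrm d P Q) {ε : ℝ} (hε : 0 < ε) :
    ∃ b₀ : Cf d, ‖b₀‖ < ε ∧ ∀ᶠ b : Cf d in 𝓝 b₀, Nrm d (P + pl b.1) (Q + pl b.2) ∧
      Slow d (P + pl b.1) (Q + pl b.2) := by
  classical
  have hd0 : 0 < d := by omega
  have hex : ∃ n : ℕ, ∃ b : Cf d, ‖b‖ < ε ∧ Nice d (P + pl b.1) (Q + pl b.2) ∧
      (Fr d (P + pl b.1) (Q + pl b.2)).ncard = n := by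
    obtain ⟨b, hb1, hb2⟩ := exists_nice hd h hε
    exact ⟨_, b, hb1, hb2, rfl⟩
  obtain ⟨b₀, hb₀, hnice, hcard⟩ := Nat.find_spec hex
  obtain ⟨n₀, hn₀⟩ : ∃ n₀, n₀ = Nat.find hex := ⟨_, rfl⟩
  rw [← hn₀] at hcard
  have hmin : ∀ b : Cf d, ‖b‖ < ε → Nice d (P + pl b.1) (Q + pl b.2) →
      n₀ ≤ (Fr d (P + pl b.1) (Q + pl b.2)).ncard := by
    intro b h1 h2
    rw [hn₀]
    exact Nat.find_min' hex ⟨b, h1, h2, rfl⟩
  refine ⟨b₀, hb₀, ?_⟩
  have h1 := nice_usc hd hnice
  have h2 : Tendsto (fun b : Cf d => b - b₀) (𝓝 b₀) (𝓝 0) := by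
    have h3 : Continuous (fun b : Cf d => b - b₀) := continuous_id.sub continuous_const
    have h4 := h3.tendsto b₀
    simpa using h4
  have h5 : ∀ᶠ b : Cf d in 𝓝 b₀, ‖b‖ < ε :=
    (continuous_norm.tendsto b₀).eventually (Iio_mem_nhds hb₀)
  filter_upwards [h2.eventually h1, h5] with b h6 h7
  have e1 : P + pl b₀.1 + pl (b - b₀).1 = P + pl b.1 := by
    rw [add_assoc, ← pl_add, ← Prod.fst_add, add_sub_cancel]
  have e2 : Q + pl b₀.2 + pl (b - b₀).2 = Q + pl b.2 := by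
    rw [add_assoc, ← pl_add, ← Prod.snd_add, add_sub_cancel]
  rw [e1, e2, hcard] at h6
  obtain ⟨hnb, hcb⟩ := h6
  have hnf : ¬ Fewer d (P + pl b.1) (Q + pl b.2) := by
    intro hfew
    obtain ⟨P', Q', hn', hclose, hlt⟩ := hfew (ε - ‖b‖) (by linarith)
    obtain ⟨b', hb'⟩ : ∃ b' : Cf d, b' = b +
      (fun i : Fin (d + 1) => P'.coeff i - (P + pl b.1).coeff i,
        fun i : Fin (d + 1) => Q'.coeff i - (Q + pl b.2).coeff i) := ⟨_, rfl⟩
    have hb'n : ‖b'‖ < ε := by
      rw [hb']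
      refine lt_of_le_of_lt (norm_add_le _ _) ?_
      have h8 : ‖((fun i : Fin (d + 1) => P'.coeff i - (P + pl b.1).coeff i,
          fun i : Fin (d + 1) => Q'.coeff i - (Q + pl b.2).coeff i) : Cf d)‖ < ε - ‖b‖ := by
        rw [Prod.norm_def, max_lt_iff]
        constructor
        · rw [pi_norm_lt_iff (by linarith)]
          exact fun j => (hclose j).1
        · rw [pi_norm_lt_iff (by linarith)]
          exact fun j => (hclose j).2
      linarith
    have e3 : P + pl b'.1 = P' := by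
      rw [hb', Prod.fst_add, pl_add, ← add_assoc]
      ext k
      rw [coeff_add, pl_coeff]
      split_ifs with h8
      · simp
      · rw [add_zero, coeff_eq_zero_of_natDegree_lt (p := P') (by have := hn'.Pd; omega),
          coeff_eq_zero_of_natDegree_lt (by have := deg_add h.Pd b.1; omega)]
    have e4 : Q + pl b'.2 = Q' := by
      rw [hb', Prod.snd_add, pl_add, ← add_assoc]
      ext k
      rw [coeff_add, pl_coeff]
      split_ifs with h8
      · simp
      · rw [add_zero, coeff_eq_zero_of_natDegree_lt (p := Q') (by have := hn'.Qd; omega),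
          coeff_eq_zero_of_natDegree_lt (by have := deg_add h.Qd.le b.2; omega)]
    have h9 := hmin b' hb'n (by rw [e3, e4]; exact hn')
    rw [e3, e4] at h9
    omega
  refine ⟨hnb.nrm, fun c hc => ⟨hnb.sim c hc, ?_⟩⟩
  obtain ⟨U, U₁, O⟩ := exists_many hd hnb
  exact growth O hnf hc

end Pool.Agent.Zk29.Mu
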