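import Pool.Agent.Zk29.Ab.B2

/-!
# Near returns of one of several critical orbits
-/

set_option autoImplicit false
open Set Filter Topology Metric Finset

namespace Pool.Agent.Zk29.Mu

open Pool.Agent.Zk29.Ab (DD DD_zero DD_succ Deep)

/-- The orbit of `v`; the passages near critical points lead near to points of `V`. -/
structure Sysm (f : ℂ → ℂ) (v : ℂ) (V : Set ℂ) (E θ : ℕ → ℝ) (κ : ℝ) : Prop where
  hκ : 1 ≤ κ
  E0 : ∀ j, 0 < E j
  th : ∀ j, 0 < θ j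
  mem : v ∈ V
  val : ∀ j, ∃ u ∈ V, ‖f^[j + 1] v - u‖ ≤ κ * (E j * θ j)
  lin : ∀ j w, κ * ‖w - f^[j] v‖ ≤ θ j →
    ‖f w - f^[j + 1] v‖ ≤ E j * ‖w - f^[j] v‖ * (1 + κ * ‖w - f^[j] v‖ / θ j)

variable {f : ℂ → ℂ} {v : ℂ} {V : Set ℂ} {E θ : ℕ → ℝ} {κ : ℝ}

lemma Sysm.DD_pos (S : Sysm f v V E θ κ) (j : ℕ) : 0 < DD E j := by
  unfold DD
  exact Finset.prod_pos fun i _ => S.E0 i

/-- **Distortion.** Points near `v` shadow the orbit of `v`. -/
lemma Sysm.shadow (S : Sysm f v V E θ κ) {N m : ℕ} (hN : 1 ≤ N) (hm : m ≤ N) {a : ℝ} (_ha : 0 ≤ a)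
    (hsm : ∀ j < m, DD E j * a * (8 * κ * N) ≤ θ j) {x : ℂ} (hx : ‖x - v‖ ≤ a) :
    ∀ j ≤ m, ‖f^[j] x - f^[j] v‖ ≤ 2 * (DD E j * ‖x - v‖) := by
  have hκ := S.hκ
  have hN0 : (0 : ℝ) < N := by exact_mod_cast (by omega : 0 < N)
  have hN1 : (1 : ℝ) ≤ N := by exact_mod_cast hN
  obtain ⟨β, hβ⟩ : ∃ β : ℝ, β = 1 / (4 * N) := ⟨_, rfl⟩
  have hβ0 : 0 < β := by rw [hβ]; positivity
  have hβ1 : β ≤ 1 := by
    rw [hβ, div_le_one (by positivity)]
    linarith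
  have key : ∀ k : ℕ, k ≤ N → (1 + β) ^ k ≤ 2 := by
    intro k hk
    have h1 : (1 + β) ≤ Real.exp β := by
      have := Real.add_one_le_exp β
      linarith
    have h2 : (1 + β) ^ k ≤ (Real.exp β) ^ N :=
      (pow_le_pow_left₀ (by linarith) h1 k).trans
        (pow_le_pow_right₀ (Real.one_le_exp hβ0.le) hk)
    rw [← Real.exp_nat_mul] at h2
    have h3 : (N : ℝ) * β = 1 / 4 := by
      rw [hβ]; field_simp
    rw [h3] at h2
    have h4 : Real.exp (1 / 4) ≤ 2 := by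
      have h5 : Real.exp (1 / 4) ≤ Real.exp (Real.log 2) := by
        apply Real.exp_le_exp.mpr
        have := Real.log_two_gt_d9
        linarith
      rwa [Real.exp_log (by norm_num)] at h5
    linarith
  have main : ∀ j ≤ m, ‖f^[j] x - f^[j] v‖ ≤ (1 + β) ^ j * (DD E j * ‖x - v‖) := by
    intro j
    induction j with
    | zero => intro _; rw [DD_zero]; simp
    | succ j ih =>
      intro hj
      have ih' := ih (by omega)
      have h1 := key j (by omega)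
      have hD := S.DD_pos j
      have hθ := S.th j
      have hE := S.E0 j
      obtain ⟨s, hs⟩ : ∃ s, s = ‖f^[j] x - f^[j] v‖ := ⟨_, rfl⟩
      have hs0 : 0 ≤ s := by rw [hs]; exact norm_nonneg _
      rw [← hs] at ih'
      have h2 : s ≤ 2 * (DD E j * a) := by
        refine ih'.trans ?_
        gcongr
      have h3 : κ * s ≤ β * θ j := by
        have h4 := hsm j (by omega)
        have h5 : κ * (2 * (DD E j * a)) = β * (DD E j * a * (8 * κ * N)) := by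
          rw [hβ]; field_simp; ring
        calc κ * s ≤ κ * (2 * (DD E j * a)) := by gcongr
          _ = β * (DD E j * a * (8 * κ * N)) := h5
          _ ≤ β * θ j := by gcongr
      have h6 : κ * s ≤ θ j := h3.trans (by nlinarith)
      have h7 := S.lin j (f^[j] x) (by rw [← hs]; exact h6)
      rw [← hs] at h7
      rw [Function.iterate_succ_apply' f j x]
      refine h7.trans ?_
      have h8 : κ * s / θ j ≤ β := by rw [div_le_iff₀ hθ]; exact h3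
      rw [DD_succ]
      calc E j * s * (1 + κ * s / θ j)
          ≤ E j * ((1 + β) ^ j * (DD E j * ‖x - v‖)) * (1 + β) := by gcongr
        _ = _ := by rw [pow_succ]; ring
  intro j hj
  refine (main j hj).trans ?_
  have := (S.DD_pos j).le
  gcongr
  exact key j (by omega)

/-- The closing inequalities at the times up to `N` and the scales in `[η, 1]`. -/
structure Sum (f : ℂ → ℂ) (v : ℂ) (V : Set ℂ) (E : ℕ → ℝ) (κ : ℝ) (N : ℕ) (Q η X : ℝ) : Prop where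
  hN : 1 ≤ N
  hQ : 1 ≤ Q
  hη : 0 < η
  hη1 : η ≤ 1
  hX : 500 ≤ X
  hX1 : 16 * N * Q ≤ X ^ 2
  hcl1 : ∀ (j : ℕ) (δ : ℝ), 1 ≤ j → j ≤ N → η ≤ δ → δ ≤ 1 →
    (∀ i, 1 ≤ i → i < j → δ ≤ ‖f^[i] v - v‖) → κ ^ 2 * (DD E j * δ) ≤ Q
  hcl2 : ∀ u ∈ V, ∀ (j : ℕ) (δ : ℝ), 1 ≤ j → j ≤ N → η ≤ δ → δ ≤ 1 →
    (∀ i, 1 ≤ i → i < j → δ ≤ ‖f^[i] v - v‖) → κ ^ 2 * (DD E j * δ) ≤ Q * ‖f^[j] v - u‖

variable {N : ℕ} {Q η X : ℝ}

/-- The size of the derivative against the distance of the orbit to the critical points. -/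
lemma Sum.ratio (s : Sum f v V E κ N Q η X) (S : Sysm f v V E θ κ) {J j : ℕ} {δ : ℝ} (hJN : J ≤ N)
    (hj : j + 1 ≤ J) (hηδ : η ≤ δ) (hδ1 : δ ≤ 1)
    (hap : ∀ i, 1 ≤ i → i < J → δ ≤ ‖f^[i] v - v‖) :
    κ * (DD E j * δ) ≤ Q * θ j := by
  obtain ⟨u, hu, h3⟩ := S.val j
  have h2 := s.hcl2 u hu (j + 1) δ (by omega) (by omega) hηδ hδ1
    (fun i h1 h2 => hap i h1 (by omega))
  have hQ : 0 < Q := by linarith [s.hQ]
  have hκ : 0 < κ := by linarith [S.hκ]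
  have hE := S.E0 j
  rw [DD_succ] at h2
  have h4 : (κ * (DD E j * δ)) * (κ * E j) ≤ (Q * θ j) * (κ * E j) := by
    calc (κ * (DD E j * δ)) * (κ * E j) = κ ^ 2 * (DD E j * E j * δ) := by ring
      _ ≤ Q * ‖f^[j + 1] v - u‖ := h2
      _ ≤ Q * (κ * (E j * θ j)) := by gcongr
      _ = _ := by ring
  exact le_of_mul_le_mul_right h4 (by positivity)

/-- **A deep first return.** -/
theorem Sum.att (s : Sum f v V E κ N Q η X) (S : Sysm f v V E θ κ) {J : ℕ} {δ : ℝ} (hJ1 : 1 ≤ J)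
    (hJN : J ≤ N) (hηδ : η ≤ δ) (hδ1 : δ ≤ 1)
    (hap : ∀ i, 1 ≤ i → i < J → δ ≤ ‖f^[i] v - v‖)
    (hR0 : 0 < ‖f^[J] v - v‖) (hR : ‖f^[J] v - v‖ * X ^ 2 ≤ δ) : Deep f v θ κ J := by
  obtain ⟨ρ, hρ⟩ : ∃ ρ, ρ = ‖f^[J] v - v‖ := ⟨_, rfl⟩
  rw [← hρ] at hR0 hR
  have hX := s.hX
  have hX1 := s.hX1
  have hQ : 0 < Q := by linarith [s.hQ]
  have hN0 : (1 : ℝ) ≤ N := by exact_mod_cast s.hN
  have hδ0 : 0 < δ := s.hη.trans_le hηδ
  have hX2 : 0 < X ^ 2 := by positivity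
  have hκ := S.hκ
  have hratio : ∀ j < J, DD E j * (2 * ρ) * (8 * κ * N) ≤ θ j := by
    intro j hj
    have h1 := s.ratio S hJN (j := j) (by omega) hηδ hδ1 hap
    have hθ := S.th j
    have h4 : (DD E j * (2 * ρ) * (8 * κ * N)) * δ ≤ θ j * δ := by
      calc (DD E j * (2 * ρ) * (8 * κ * N)) * δ
          = 16 * N * ρ * (κ * (DD E j * δ)) := by ring
        _ ≤ 16 * N * ρ * (Q * θ j) := by gcongr
        _ = θ j * (ρ * (16 * N * Q)) := by ring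
        _ ≤ θ j * (ρ * X ^ 2) := by gcongr
        _ ≤ θ j * δ := by gcongr
    exact le_of_mul_le_mul_right h4 hδ0
  have hDJ : DD E J ≤ 1 / 16 := by
    have h1 := s.hcl2 v S.mem J δ hJ1 hJN hηδ hδ1 hap
    rw [← hρ] at h1
    have hD := (S.DD_pos J).le
    have hκ2 : 1 ≤ κ ^ 2 := one_le_pow₀ hκ
    have h2 : DD E J * δ ≤ Q * ρ := by
      refine le_trans ?_ h1
      exact le_mul_of_one_le_left (by positivity) hκ2
    have h3 : DD E J * (δ * 16) ≤ 1 / 16 * (δ * 16) := by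
      calc DD E J * (δ * 16) = 16 * (DD E J * δ) := by ring
        _ ≤ 16 * (Q * ρ) := by gcongr
        _ = ρ * (16 * 1 * Q) := by ring
        _ ≤ ρ * (16 * N * Q) := by gcongr
        _ ≤ ρ * X ^ 2 := by gcongr
        _ ≤ δ := hR
        _ = _ := by ring
    exact le_of_mul_le_mul_right h3 (by positivity)
  refine ⟨ρ, hR0, by rw [hρ], ?_⟩
  intro x hx
  have hsh := S.shadow s.hN hJN (by positivity) hratio hx
  refine ⟨?_, ?_⟩
  · intro j hj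
    have h1 := hsh j hj.le
    have h2 := hratio j hj
    have hD := (S.DD_pos j).le
    have h3 : 2 * (DD E j * ‖x - v‖) ≤ 2 * (DD E j * (2 * ρ)) := by gcongr
    calc κ * ‖f^[j] x - f^[j] v‖ ≤ κ * (2 * (DD E j * (2 * ρ))) := by
          gcongr
          exact h1.trans h3
      _ = DD E j * (2 * ρ) * (2 * κ * 1) := by ring
      _ ≤ DD E j * (2 * ρ) * (8 * κ * N) := by
          gcongr
          norm_num
      _ ≤ θ j := h2
  · calc _ ≤ 2 * (DD E J * ‖x - v‖) := hsh J le_rfl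
      _ ≤ 2 * (1 / 16 * (2 * ρ)) := by gcongr
      _ = ρ / 4 := by ring

/-- **Two near returns give a near return at a time which is at most their difference.** -/
theorem Sum.gap (s : Sum f v V E κ N Q η X) (S : Sysm f v V E θ κ) {p q : ℕ} {a : ℝ}
    (hq : 1 ≤ q) (hqp : q < p)
    (hpN : p ≤ N) (ha : 0 < a) (h1 : ‖f^[q] v - v‖ ≤ a) (h2 : ‖f^[p] v - v‖ ≤ a)
    (ha1 : η ≤ a * X ^ 2) (ha2 : a * X ^ 2 ≤ 1) :
    ∃ j, 1 ≤ j ∧ j ≤ p - q ∧ ‖f^[j] v - v‖ ≤ a * X ^ 2 := by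
  by_contra hcon
  push Not at hcon
  have hX := s.hX
  have hX1 := s.hX1
  have hQ : 0 < Q := by linarith [s.hQ]
  have hκ := S.hκ
  have hN0 : (1 : ℝ) ≤ N := by exact_mod_cast s.hN
  have hX2 : 0 < X ^ 2 := by positivity
  obtain ⟨m, hm⟩ : ∃ m, m = p - q := ⟨_, rfl⟩
  rw [← hm] at hcon
  obtain ⟨δ, hδ⟩ : ∃ δ, δ = a * X ^ 2 := ⟨_, rfl⟩
  rw [← hδ] at ha1 ha2 hcon
  have hδ0 : 0 < δ := by rw [hδ]; positivity
  have hm1 : 1 ≤ m := by omega
  have hmN : m ≤ N := by omega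
  have hap : ∀ i, 1 ≤ i → i < m → δ ≤ ‖f^[i] v - v‖ := fun i h3 h4 => (hcon i h3 h4.le).le
  have hratio : ∀ j < m, DD E j * a * (8 * κ * N) ≤ θ j := by
    intro j hj
    have h3 := s.ratio S hmN (j := j) (by omega) ha1 ha2 hap
    have hθ := S.th j
    have h5 : (DD E j * a * (8 * κ * N)) * X ^ 2 ≤ θ j * X ^ 2 := by
      calc (DD E j * a * (8 * κ * N)) * X ^ 2 = 8 * N * (κ * (DD E j * δ)) := by
            rw [hδ]; ring
        _ ≤ 8 * N * (Q * θ j) := by gcongr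
        _ = θ j * (8 * N * Q) := by ring
        _ ≤ θ j * (16 * N * Q) := by
            have : 8 * N * Q ≤ 16 * N * Q := by
              have : 0 ≤ N * Q := by positivity
              nlinarith
            gcongr
        _ ≤ _ := by gcongr
    exact le_of_mul_le_mul_right h5 hX2
  have h3 := S.shadow s.hN hmN ha.le hratio h1 m le_rfl
  rw [← Function.iterate_add_apply, show m + q = p by omega] at h3
  have h4 : 2 * (DD E m * ‖f^[q] v - v‖) ≤ ‖f^[m] v - v‖ / 4 := by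
    have h5 := s.hcl2 v S.mem m δ hm1 hmN ha1 ha2 hap
    have hD := (S.DD_pos m).le
    have hκ2 : 1 ≤ κ ^ 2 := one_le_pow₀ hκ
    have h6 : DD E m * δ ≤ Q * ‖f^[m] v - v‖ :=
      le_trans (le_mul_of_one_le_left (by positivity) hκ2) h5
    have h7 : (2 * (DD E m * ‖f^[q] v - v‖)) * X ^ 2 ≤ ‖f^[m] v - v‖ / 4 * X ^ 2 := by
      calc (2 * (DD E m * ‖f^[q] v - v‖)) * X ^ 2 ≤ (2 * (DD E m * a)) * X ^ 2 := by
            gcongr
        _ = 2 * (DD E m * δ) := by rw [hδ]; ring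
        _ ≤ 2 * (Q * ‖f^[m] v - v‖) := by gcongr
        _ = ‖f^[m] v - v‖ / 4 * (8 * 1 * Q) := by ring
        _ ≤ ‖f^[m] v - v‖ / 4 * (16 * N * Q) := by gcongr; norm_num
        _ ≤ _ := by gcongr
    exact le_of_mul_le_mul_right h7 hX2
  have h5 : ‖f^[m] v - v‖ ≤ ‖f^[p] v - f^[m] v‖ + ‖f^[p] v - v‖ := by
    calc ‖f^[m] v - v‖ = ‖(f^[p] v - v) - (f^[p] v - f^[m] v)‖ := by
          congr 1; ring
      _ ≤ ‖f^[p] v - v‖ + ‖f^[p] v - f^[m] v‖ := norm_sub_le _ _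
      _ = _ := add_comm _ _
  have h6 := hcon m hm1 le_rfl
  have h7 : 4 * a ≤ δ := by
    have h8 : (4 : ℝ) ≤ X ^ 2 := by nlinarith
    rw [hδ]
    calc 4 * a = a * 4 := mul_comm _ _
      _ ≤ a * X ^ 2 := by gcongr
  linarith

/-- **Halving.** -/
theorem Sum.halve (s : Sum f v V E κ N Q η X) (S : Sysm f v V E θ κ)
    (hno : ∀ m, 1 ≤ m → m ≤ N → ¬ Deep f v θ κ m)
    (hne : ∀ m, 1 ≤ m → m ≤ N → f^[m] v ≠ v) {N' p : ℕ} {a : ℝ}
    (hN' : N' ≤ N) (hp1 : 1 ≤ p) (hpN : p ≤ N') (ha : 0 < a) (hηa : η ≤ a)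
    (ha1 : a * X ^ 4 ≤ 1) (hp : ‖f^[p] v - v‖ ≤ a) :
    ∃ q, 1 ≤ q ∧ 2 * q ≤ N' ∧ ‖f^[q] v - v‖ ≤ a * X ^ 4 := by
  classical
  have hX := s.hX
  have hX2 : 1 ≤ X ^ 2 := by nlinarith
  have hX4 : X ^ 4 = X ^ 2 * X ^ 2 := by ring
  have hex : ∃ p, 1 ≤ p ∧ ‖f^[p] v - v‖ ≤ a := ⟨p, hp1, hp⟩
  obtain ⟨k, hk⟩ : ∃ k, k = Nat.find hex := ⟨_, rfl⟩
  have hk1 : 1 ≤ k := by rw [hk]; exact (Nat.find_spec hex).1
  have hka : ‖f^[k] v - v‖ ≤ a := by rw [hk]; exact (Nat.find_spec hex).2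
  have hkp : k ≤ p := by rw [hk]; exact Nat.find_le ⟨hp1, hp⟩
  have hkN : k ≤ N := by omega
  have haX : a ≤ a * X ^ 2 := le_mul_of_one_le_right ha.le hX2
  have haX4 : a * X ^ 2 ≤ a * X ^ 4 := by
    rw [hX4, ← mul_assoc]
    exact le_mul_of_one_le_right (by positivity) hX2
  have hq : ∃ q, 1 ≤ q ∧ q < k ∧ ‖f^[q] v - v‖ ≤ a * X ^ 2 := by
    by_contra hcon
    push Not at hcon
    have h0 : 0 < ‖f^[k] v - v‖ := by
      rw [norm_pos_iff, sub_ne_zero]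
      exact hne k hk1 hkN
    exact hno k hk1 hkN (s.att S hk1 hkN (hηa.trans haX) (haX4.trans ha1)
      (fun i h1 h2 => (hcon i h1 h2).le) h0
      (mul_le_mul_of_nonneg_right hka (by positivity)))
  obtain ⟨q, hq1, hqk, hqa⟩ := hq
  obtain ⟨j, hj1, hjk, hja⟩ := s.gap S hq1 hqk hkN (by positivity) hqa (hka.trans haX)
    (by
      rw [mul_assoc, ← hX4]
      exact hηa.trans (haX.trans haX4))
    (by rw [mul_assoc, ← hX4]; exact ha1)
  rw [mul_assoc, ← hX4] at hja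
  rcases Nat.le_total q j with h | h
  · exact ⟨q, hq1, by omega, hqa.trans haX4⟩
  · exact ⟨j, hj1, by omega, hja⟩

/-- **No near returns below a quasi-polynomial scale.** -/
theorem Sum.no_return (s : Sum f v V E κ N Q η X) (S : Sysm f v V E θ κ)
    (hno : ∀ m, 1 ≤ m → m ≤ N → ¬ Deep f v θ κ m)
    (hne : ∀ m, 1 ≤ m → m ≤ N → f^[m] v ≠ v) {k p : ℕ} {a : ℝ} (hk : N < 2 ^ k)
    (hp1 : 1 ≤ p) (hpN : p ≤ N) (ha : 0 < a) (hηa : η ≤ a)
    (hp : ‖f^[p] v - v‖ ≤ a) : 1 < a * (X ^ 4) ^ k := by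
  by_contra hcon
  push Not at hcon
  have hX := s.hX
  have hX4 : 1 ≤ X ^ 4 := one_le_pow₀ (by linarith)
  have main : ∀ i ≤ k, ∃ q, 1 ≤ q ∧ 2 ^ i * q ≤ N ∧ ‖f^[q] v - v‖ ≤ a * (X ^ 4) ^ i := by
    intro i
    induction i with
    | zero => intro _; exact ⟨p, hp1, by simpa using hpN, by simpa using hp⟩
    | succ i ih =>
      intro hi
      obtain ⟨q, hq1, hqN, hqa⟩ := ih (by omega)
      have h2i : 0 < 2 ^ i := by positivity
      have hqN' : q ≤ N / 2 ^ i := by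
        rw [Nat.le_div_iff_mul_le h2i, mul_comm]; exact hqN
      have hai : a ≤ a * (X ^ 4) ^ i := le_mul_of_one_le_right ha.le (one_le_pow₀ hX4)
      obtain ⟨q', h1, h2, h3⟩ := s.halve S hno hne (N' := N / 2 ^ i) (Nat.div_le_self _ _) hq1 hqN'
        (a := a * (X ^ 4) ^ i) (by positivity) (hηa.trans hai) (by
          rw [mul_assoc, ← pow_succ]
          refine le_trans ?_ hcon
          gcongr) hqa
      refine ⟨q', h1, ?_, ?_⟩
      · rw [Nat.le_div_iff_mul_le h2i] at h2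
        calc 2 ^ (i + 1) * q' = 2 * q' * 2 ^ i := by ring
          _ ≤ N := h2
      · rw [mul_assoc, ← pow_succ] at h3
        exact h3
  obtain ⟨q, h1, h2, -⟩ := main k le_rfl
  have h3 : 2 ^ k * 1 ≤ 2 ^ k * q := Nat.mul_le_mul_left _ h1
  omega

/-- **The derivative.** -/
theorem Sum.deriv_lt (s : Sum f v V E κ N Q η X) (S : Sysm f v V E θ κ)
    (hno : ∀ m, 1 ≤ m → m ≤ N → ¬ Deep f v θ κ m)
    (hne : ∀ m, 1 ≤ m → m ≤ N → f^[m] v ≠ v) {k : ℕ} (hk : N < 2 ^ k)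
    (hηD : η * DD E N ≤ 4 * Q) :
    DD E N ≤ 4 * Q * (X ^ 4) ^ k := by
  by_contra hcon
  push Not at hcon
  have hX := s.hX
  have hκ := S.hκ
  have hQ : 0 < Q := by linarith [s.hQ]
  have hX4 : 1 ≤ X ^ 4 := one_le_pow₀ (by linarith)
  have hXk : 1 ≤ (X ^ 4) ^ k := one_le_pow₀ hX4
  have hD0 : 0 < DD E N := S.DD_pos N
  obtain ⟨a, ha⟩ : ∃ a, a = 4 * Q / DD E N := ⟨_, rfl⟩
  have ha0 : 0 < a := by rw [ha]; positivity
  have hηa : η ≤ a := by rw [ha, le_div_iff₀ hD0]; exact hηD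
  have ha1 : a * (X ^ 4) ^ k ≤ 1 := by
    rw [ha, div_mul_eq_mul_div, div_le_one hD0]
    exact hcon.le
  have ha1' : a ≤ 1 := le_trans (le_mul_of_one_le_right ha0.le hXk) ha1
  have hex : ∃ p, 1 ≤ p ∧ p < N ∧ ‖f^[p] v - v‖ ≤ a := by
    by_contra hc
    push Not at hc
    have h1 := s.hcl1 N a s.hN le_rfl hηa ha1' (fun i h1 h2 => (hc i h1 h2).le)
    have h2 : DD E N * a = 4 * Q := by rw [ha]; field_simp
    rw [h2] at h1
    have hκ2 : 1 ≤ κ ^ 2 := one_le_pow₀ hκ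
    nlinarith
  obtain ⟨p, hp1, hpN, hp⟩ := hex
  have := s.no_return S hno hne hk hp1 hpN.le ha0 hηa hp
  linarith

end Pool.Agent.Zk29.Mu
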