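import Pool.Agent.Zk29.Mu.F5

/-!
# Recurrence of several free critical points
-/

set_option autoImplicit false
open Set Filter Topology Metric Polynomial
open scoped OnePoint

namespace Pool.Agent.Zk29.Mu

open Pool.Agent.H792R2.CE Pool.Agent.H792R2.CE.C2x Pool.Agent.Zk29.Rat
open Pool.Agent.Zk29.Hy (EE Zq Zq_fin)
open Pool.Agent.Helper114.Herman Pool.Agent.Zk29.Ab

variable {d : ℕ} {P Q : ℂ[X]} {c c' : ℂ} {U U₁ : Set ℂ}

/-- A disc which is mapped into a much smaller disc lies in the basin of an attracting cycle. -/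
theorem att_of_disc {v : ℂ} (hqv : ∀ j : ℕ, Q.eval ((rf P Q)^[j] v) ≠ 0) {m : ℕ} (hm : 1 ≤ m)
    {ρ : ℝ} (hρ : 0 < ρ)
    (hpole : ∀ x, ‖x - v‖ ≤ 2 * ρ → ∀ j < m, Q.eval ((rf P Q)^[j] x) ≠ 0)
    (hx : ∀ x, ‖x - v‖ ≤ 2 * ρ → ‖(rf P Q)^[m] x - (rf P Q)^[m] v‖ ≤ ρ / 4)
    (hv : ‖(rf P Q)^[m] v - v‖ ≤ ρ) : Att d P Q (v : OnePoint ℂ) := by
  obtain ⟨g, hg⟩ : ∃ g, g = (rf P Q)^[m] := ⟨_, rfl⟩
  have hdiff : ∀ x, ‖x - v‖ ≤ 2 * ρ → DifferentiableAt ℂ g x := fun x hx' => by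
    rw [hg]
    exact rf_iter_diff m (hpole x hx')
  have hx2 : ∀ x, ‖x - v‖ ≤ 2 * ρ → ‖g x - g v‖ ≤ ρ / 4 := fun x hx' => by
    rw [hg]
    exact hx x hx'
  have hgv : ‖g v - v‖ ≤ ρ := by rw [hg]; exact hv
  have hder : ∀ x, ‖x - v‖ ≤ 3 / 2 * ρ → ‖deriv g x‖ ≤ 1 / 2 := by
    intro x hx'
    have h1 : ∀ y ∈ closedBall x (ρ / 2), ‖y - v‖ ≤ 2 * ρ := by
      intro y hy
      rw [mem_closedBall, dist_eq_norm] at hy
      have := norm_add_le (y - x) (x - v)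
      rw [sub_add_sub_cancel] at this
      linarith
    have h2 : ‖deriv (fun y => g y - g v) x‖ ≤ (ρ / 4) / (ρ / 2) := by
      apply Complex.norm_deriv_le_of_forall_mem_sphere_norm_le (by positivity)
      · apply DifferentiableOn.diffContOnCl
        rw [closure_ball _ (by positivity)]
        intro y hy
        exact ((hdiff y (h1 y hy)).sub_const _).differentiableWithinAt
      · intro y hy
        exact hx2 y (h1 y (sphere_subset_closedBall hy))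
    rw [deriv_sub_const] at h2
    refine h2.trans (le_of_eq ?_)
    field_simp
    norm_num
  have hlip : ∀ x y, ‖x - v‖ ≤ 3 / 2 * ρ → ‖y - v‖ ≤ 3 / 2 * ρ →
      ‖g y - g x‖ ≤ 1 / 2 * ‖y - x‖ := by
    intro x y hx' hy'
    refine (convex_closedBall v (3 / 2 * ρ)).norm_image_sub_le_of_norm_deriv_le (f := g)
      (fun u hu => ?_) (fun u hu => ?_) ?_ ?_
    · rw [mem_closedBall, dist_eq_norm] at hu
      exact hdiff u (by linarith)
    · rw [mem_closedBall, dist_eq_norm] at hu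
      exact hder u hu
    · rwa [mem_closedBall, dist_eq_norm]
    · rwa [mem_closedBall, dist_eq_norm]
  have hself : ∀ x, ‖x - v‖ ≤ 3 / 2 * ρ → ‖g x - v‖ ≤ 3 / 2 * ρ := by
    intro x hx'
    have h1 := hx2 x (by linarith)
    have h2 := norm_add_le (g x - g v) (g v - v)
    rw [sub_add_sub_cancel] at h2
    linarith
  have hs1 : ∀ k, ‖g^[k] v - v‖ ≤ 3 / 2 * ρ := by
    intro k
    induction k with
    | zero =>
      rw [Function.iterate_zero_apply, sub_self, norm_zero]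
      positivity
    | succ k ih =>
      rw [Function.iterate_succ_apply']
      exact hself _ ih
  have hs2 : ∀ k, ‖g^[k + 1] v - g^[k] v‖ ≤ ρ * (1 / 2) ^ k := by
    intro k
    induction k with
    | zero =>
      rw [pow_zero, mul_one, zero_add, Function.iterate_one, Function.iterate_zero_apply]
      exact hgv
    | succ k ih =>
      have h1 := hlip _ _ (hs1 k) (hs1 (k + 1))
      rw [← Function.iterate_succ_apply' g, ← Function.iterate_succ_apply' g] at h1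
      refine h1.trans ?_
      rw [pow_succ]
      linarith
  have hcau : CauchySeq (fun k => g^[k] v) :=
    cauchySeq_of_le_geometric (1 / 2) ρ (by norm_num) fun k => by
      rw [dist_eq_norm, norm_sub_rev]
      exact hs2 k
  obtain ⟨p, hp⟩ := cauchySeq_tendsto_of_complete hcau
  have hpv : ‖p - v‖ ≤ 3 / 2 * ρ := le_of_tendsto (hp.sub_const v).norm
    (Eventually.of_forall fun k => hs1 k)
  have hgp : g p = p := by
    have h1 : Tendsto (fun k => g^[k + 1] v) atTop (𝓝 (g p)) := by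
      simp_rw [Function.iterate_succ_apply']
      exact (hdiff p (by linarith)).continuousAt.tendsto.comp hp
    exact tendsto_nhds_unique h1 (hp.comp (tendsto_add_atTop_nat 1))
  have hgp' : (rf P Q)^[m] p = p := by rw [← hg]; exact hgp
  have hQp : ∀ i, Q.eval ((rf P Q)^[i] p) ≠ 0 := by
    intro i
    have h1 : (rf P Q)^[i % m] p = (rf P Q)^[i] p :=
      Function.IsPeriodicPt.iterate_mod_apply hgp' i
    rw [← h1]
    exact hpole p (by linarith) _ (Nat.mod_lt _ (by omega))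
  refine ⟨m, by omega, p, fun i => ?_, ?_, ?_, ?_⟩
  · rw [iter_coe i fun j _ => hQp j]
    exact OnePoint.coe_ne_infty _
  · rw [iter_coe m fun j _ => hQp j, hgp']
  · rw [← hg]
    have := hder p hpv
    linarith
  · have h2 := ((OnePoint.continuous_coe (X := ℂ)).tendsto p).comp hp
    refine h2.congr fun k => ?_
    rw [iter_coe _ fun j _ => hqv j, Function.iterate_mul, ← hg]
    rfl

/-- The quadratic contraction near the free critical points. -/
lemma Many.quad (O : Many d P Q U U₁) : ∃ κ η : ℝ, 1 ≤ κ ∧ 0 < η ∧ ∀ c ∈ Fr d P Q, ∀ w : ℂ,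
    ‖w - c‖ ≤ η → ‖rf P Q w - rf P Q c‖ ≤ κ * ‖w - c‖ ^ 2 := by
  have hF : (Fr d P Q).Finite := Fr_fin (O.nice.N0 (by have := O.d2; omega))
  have key : ∀ c ∈ Fr d P Q, ∃ C : ℝ, ∀ᶠ w in 𝓝 c, ‖rf P Q w - rf P Q c‖ ≤ C * ‖w - c‖ ^ 2 := by
    intro c hc
    obtain ⟨g, h, -, -, hh⟩ := O.near hc
    have hQc : Q.eval c ≠ 0 := O.qorb hc 0
    have hcont : ContinuousAt (fun z => ‖h.eval z / Q.eval z‖) c :=
      (h.continuous.continuousAt.div Q.continuous.continuousAt hQc).norm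
    have hev : ∀ᶠ z in 𝓝 c, ‖h.eval z / Q.eval z‖ < ‖h.eval c / Q.eval c‖ + 1 :=
      hcont.eventually_lt_const (by linarith)
    have hq : ∀ᶠ z in 𝓝 c, Q.eval z ≠ 0 := Q.continuous.continuousAt.eventually_ne hQc
    refine ⟨‖h.eval c / Q.eval c‖ + 1, ?_⟩
    filter_upwards [hev, hq] with z h1 h2
    have e2 : P.eval z - rf P Q c * Q.eval z = (z - c) ^ 2 * h.eval z := by
      have := congrArg (fun p => p.eval z) hh
      simpa using this
    have e3 : rf P Q z - rf P Q c = (z - c) ^ 2 * (h.eval z / Q.eval z) := by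
      rw [← mul_div_assoc, ← e2]
      unfold rf
      field_simp
    rw [e3, norm_mul, norm_pow, mul_comm]
    gcongr
  choose! C hC using key
  obtain ⟨M, hM⟩ := (hF.image C).bddAbove
  have hall : ∀ c ∈ Fr d P Q, ∃ η : ℝ, 0 < η ∧ ∀ w : ℂ, ‖w - c‖ < η →
      ‖rf P Q w - rf P Q c‖ ≤ C c * ‖w - c‖ ^ 2 := by
    intro c hc
    obtain ⟨η, hη, h1⟩ := Metric.eventually_nhds_iff.1 (hC c hc)
    exact ⟨η, hη, fun w hw => h1 (by rw [dist_eq_norm]; exact hw)⟩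
  choose! η hη0 hη using hall
  obtain ⟨η₀, hη₀, hle⟩ : ∃ η₀ : ℝ, 0 < η₀ ∧ ∀ c ∈ Fr d P Q, η₀ ≤ η c := by
    rcases (Fr d P Q).eq_empty_or_nonempty with he | hne
    · exact ⟨1, one_pos, fun c hc => by rw [he] at hc; exact absurd hc (Set.notMem_empty c)⟩
    · obtain ⟨c₀, hc₀, hmin⟩ := Set.exists_min_image (Fr d P Q) η hF hne
      exact ⟨η c₀, hη0 c₀ hc₀, hmin⟩
  refine ⟨max 1 M, η₀ / 2, le_max_left _ _, by positivity, fun c hc w hw => ?_⟩
  have h1 : C c ≤ max 1 M := (hM ⟨c, hc, rfl⟩).trans (le_max_right _ _)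
  refine (hη c hc w (by have := hle c hc; linarith)).trans ?_
  gcongr

/-- The other zeros and the poles are far from the points which are not attracted. -/
lemma Many.sep (O : Many d P Q U U₁) : ∃ δ : ℝ, 0 < δ ∧ ∀ z : ℂ, ¬ Att d P Q (z : OnePoint ℂ) →
    ∀ q ∈ Zq P Q, q ∉ Fr d P Q → δ ≤ ‖z - q‖ := by
  have hd0 : 0 < d := by have := O.d2; omega
  have hcont : Continuous (sph d P Q) := B1_continuous O.nice.cop O.nice.Pd O.nice.Qd
  have hK : IsCompact {z : ℂ | ¬ Att d P Q (z : OnePoint ℂ)} :=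
    natt_compact hd0 O.nice.cop O.nice.Pd O.nice.Qd O.nice.inf
  have hB : IsClosed (Zq P Q \ Fr d P Q) :=
    ((Zq_fin (O.nice.N0 hd0) O.Q0).subset sdiff_subset).isClosed
  have hdis : Disjoint {z : ℂ | ¬ Att d P Q (z : OnePoint ℂ)} (Zq P Q \ Fr d P Q) := by
    rw [Set.disjoint_left]
    rintro z hz ⟨h1 | h1, h2⟩
    · exact h2 ⟨h1, hz⟩
    · exact (natt_step hcont O.nice.inf hz).1 h1
  obtain ⟨δ, hδ, h⟩ := hdis.exists_thickenings hK hB
  refine ⟨δ, hδ, fun z hz q hq hqF => ?_⟩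
  by_contra hcon
  push Not at hcon
  have h1 : z ∈ thickening δ {z : ℂ | ¬ Att d P Q (z : OnePoint ℂ)} :=
    self_subset_thickening hδ _ hz
  have h2 : z ∈ thickening δ (Zq P Q \ Fr d P Q) := by
    rw [mem_thickening_iff]
    exact ⟨q, ⟨hq, hqF⟩, by rw [dist_eq_norm]; exact hcon⟩
  exact Set.disjoint_left.1 h h1 h2

/-- The orbits near a free critical value are controlled until the first close passage. -/
lemma track (O : Many d P Q U U₁) (hc : c ∈ Fr d P Q) {κ : ℝ}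
    (hκ : 2 ^ ((wr P Q).natDegree + 4 * Q.natDegree) ≤ κ) (hκ2 : 2 ≤ κ) {N : ℕ} (hN : 1 ≤ N)
    {G : ℝ} (hG : ∀ n ≤ N, ‖deriv ((rf P Q)^[n]) (rf P Q c)‖ ≤ G) {s : ℝ} (hs : 0 < s)
    {w : ℂ} (hw : ‖w - rf P Q c‖ ≤ s) (hG1 : 1 ≤ G) {l : ℕ} (hl : l ≤ N)
    (hθ : ∀ i < l, κ * N * (3 * G * s) ≤ infDist ((rf P Q)^[i] (rf P Q c)) (Zq P Q)) :
    ‖(rf P Q)^[l] w - (rf P Q)^[l] (rf P Q c)‖ ≤
      ‖deriv ((rf P Q)^[l]) (rf P Q c)‖ * s * (1 + 1 / N) ^ l ∧
    ‖(rf P Q)^[l] w - (rf P Q)^[l] (rf P Q c)‖ ≤ 3 * G * s := by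
  have hN0 : (0 : ℝ) < N := by exact_mod_cast hN
  have hN1 : (1 : ℝ) ≤ N := by exact_mod_cast hN
  have hexp : ∀ l ≤ N, (1 + 1 / (N : ℝ)) ^ l ≤ 3 := by
    intro l hl
    have h1 : (1 + 1 / (N : ℝ)) ≤ Real.exp (1 / N) := by
      have := Real.add_one_le_exp (1 / (N : ℝ))
      linarith
    calc (1 + 1 / (N : ℝ)) ^ l ≤ Real.exp (1 / N) ^ l := by gcongr
      _ = Real.exp (l * (1 / N)) := by rw [← Real.exp_nat_mul]
      _ ≤ Real.exp 1 := by
          apply Real.exp_le_exp.2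
          have h2 : (l : ℝ) ≤ N := by exact_mod_cast hl
          rw [mul_one_div, div_le_one hN0]
          exact h2
      _ ≤ 3 := by
          have := Real.exp_one_lt_d9
          linarith
  have hfin : ∀ l ≤ N, ‖deriv ((rf P Q)^[l]) (rf P Q c)‖ * s * (1 + 1 / (N : ℝ)) ^ l ≤
      3 * G * s := by
    intro l hl
    have h1 := hG l hl
    have h2 := hexp l hl
    calc ‖deriv ((rf P Q)^[l]) (rf P Q c)‖ * s * (1 + 1 / (N : ℝ)) ^ l ≤ G * s * 3 := by gcongr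
      _ = 3 * G * s := by ring
  suffices h : ‖(rf P Q)^[l] w - (rf P Q)^[l] (rf P Q c)‖ ≤
      ‖deriv ((rf P Q)^[l]) (rf P Q c)‖ * s * (1 + 1 / N) ^ l from ⟨h, h.trans (hfin l hl)⟩
  induction l with
  | zero =>
    rw [Function.iterate_zero, deriv_id, norm_one, pow_zero, one_mul, mul_one]
    exact hw
  | succ l ih =>
    have ih' := ih (by omega) fun i hi => hθ i (by omega)
    have hth := hθ l (by omega)
    have ha : 0 < 3 * G * s := by positivity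
    have h3 : ‖(rf P Q)^[l] w - (rf P Q)^[l] (rf P Q c)‖ ≤ 3 * G * s :=
      ih'.trans (hfin l (by omega))
    have hth0 : 0 < infDist ((rf P Q)^[l] (rf P Q c)) (Zq P Q) := by
      refine lt_of_lt_of_le ?_ hth
      positivity
    have hz : (rf P Q)^[l] (rf P Q c) ∉ Zq P Q := by
      intro h
      rw [infDist_zero_of_mem h] at hth0
      exact lt_irrefl _ hth0
    have h4 : κ * ‖(rf P Q)^[l] w - (rf P Q)^[l] (rf P Q c)‖ ≤
        infDist ((rf P Q)^[l] (rf P Q c)) (Zq P Q) := by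
      refine le_trans ?_ hth
      calc κ * ‖(rf P Q)^[l] w - (rf P Q)^[l] (rf P Q c)‖ ≤ κ * (3 * G * s) := by gcongr
        _ = κ * 1 * (3 * G * s) := by ring
        _ ≤ κ * N * (3 * G * s) := by gcongr
    have h5 := lin_mu O hc hz hκ hκ2 h4
    have h6 : κ * ‖(rf P Q)^[l] w - (rf P Q)^[l] (rf P Q c)‖ /
        infDist ((rf P Q)^[l] (rf P Q c)) (Zq P Q) ≤ 1 / N := by
      rw [div_le_div_iff₀ hth0 hN0, one_mul]
      refine le_trans ?_ hth
      calc κ * ‖(rf P Q)^[l] w - (rf P Q)^[l] (rf P Q c)‖ * N ≤ κ * (3 * G * s) * N := by gcongr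
        _ = κ * N * (3 * G * s) := by ring
    rw [Function.iterate_succ_apply', Function.iterate_succ_apply',
      rf_iter_deriv_succ l fun i _ => O.qv hc i, norm_mul]
    refine h5.trans ?_
    calc ‖(wr P Q).eval ((rf P Q)^[l] (rf P Q c)) / Q.eval ((rf P Q)^[l] (rf P Q c)) ^ 2‖ *
          ‖(rf P Q)^[l] w - (rf P Q)^[l] (rf P Q c)‖ *
          (1 + κ * ‖(rf P Q)^[l] w - (rf P Q)^[l] (rf P Q c)‖ /
            infDist ((rf P Q)^[l] (rf P Q c)) (Zq P Q))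
        ≤ ‖(wr P Q).eval ((rf P Q)^[l] (rf P Q c)) / Q.eval ((rf P Q)^[l] (rf P Q c)) ^ 2‖ *
          (‖deriv ((rf P Q)^[l]) (rf P Q c)‖ * s * (1 + 1 / N) ^ l) * (1 + 1 / N) := by
          gcongr
      _ = _ := by ring

/-- **Shadowing through close passages.** Small discs around the free critical values stay small,
as long as the derivatives at the free critical values are bounded. -/
theorem small (O : Many d P Q U U₁) {κ η δ : ℝ}
    (hκ : 2 ^ ((wr P Q).natDegree + 4 * Q.natDegree) ≤ κ) (hκ2 : 2 ≤ κ)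
    (hquad : ∀ c ∈ Fr d P Q, ∀ w : ℂ, ‖w - c‖ ≤ η → ‖rf P Q w - rf P Q c‖ ≤ κ * ‖w - c‖ ^ 2)
    (hsep : ∀ z : ℂ, ¬ Att d P Q (z : OnePoint ℂ) → ∀ q ∈ Zq P Q, q ∉ Fr d P Q → δ ≤ ‖z - q‖)
    {N : ℕ} (hN : 1 ≤ N) {G : ℝ} (hG1 : 1 ≤ G)
    (hG : ∀ c ∈ Fr d P Q, ∀ n ≤ N, ‖deriv ((rf P Q)^[n]) (rf P Q c)‖ ≤ G) {s₀ : ℝ}
    (h1 : 2 * (κ * N * (3 * G * s₀)) ≤ η) (h2 : κ * N * (3 * G * s₀) < δ)
    (h3 : 36 * κ ^ 3 * N ^ 2 * G ^ 2 * s₀ ≤ 1) (m : ℕ) (hm : m ≤ N) :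
    ∀ c ∈ Fr d P Q, ∀ s : ℝ, 0 < s → s ≤ s₀ → ∀ w : ℂ, ‖w - rf P Q c‖ ≤ s →
      (∀ j ≤ m, Q.eval ((rf P Q)^[j] w) ≠ 0) ∧
      ∀ w' : ℂ, ‖w' - rf P Q c‖ ≤ s → ‖(rf P Q)^[m] w - (rf P Q)^[m] w'‖ ≤ 6 * G * s := by
  have hN0 : (0 : ℝ) < N := by exact_mod_cast hN
  have hN1 : (1 : ℝ) ≤ N := by exact_mod_cast hN
  have hd0 : 0 < d := by have := O.d2; omega
  have hZf : (Zq P Q).Finite := Zq_fin (O.nice.N0 hd0) O.Q0
  induction m using Nat.strong_induction_on with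
  | _ m ih =>
  intro c hc s hs hs0 w hw
  have ha : 0 < 3 * G * s := by positivity
  have hA : 0 < κ * N * (3 * G * s) := by positivity
  have haA : 3 * G * s ≤ κ * N * (3 * G * s) := by
    have h4 : 1 ≤ κ * N := one_le_mul_of_one_le_of_one_le (by linarith) hN1
    exact le_mul_of_one_le_left ha.le h4
  have hA2 : κ * N * (3 * G * s) ≤ κ * N * (3 * G * s₀) := by gcongr
  -- poles are avoided close to the orbit
  have hQn : ∀ (j : ℕ) (u : ℂ), ‖u - (rf P Q)^[j] (rf P Q c)‖ ≤ 3 * G * s → Q.eval u ≠ 0 := by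
    intro j u hu h0
    have h4 : u ∉ Fr d P Q := by
      intro h5
      have h6 := O.qorb h5 0
      exact h6 h0
    have h5 := hsep _ (O.nv hc j) u (Or.inr h0) h4
    rw [norm_sub_rev] at h5
    linarith
  by_cases hex : ∃ i, i < m ∧ infDist ((rf P Q)^[i] (rf P Q c)) (Zq P Q) < κ * N * (3 * G * s)
  · classical
    obtain ⟨him, hi⟩ := Nat.find_spec hex
    obtain ⟨i, hie⟩ : ∃ i, i = Nat.find hex := ⟨_, rfl⟩
    rw [← hie] at him hi
    have hmin : ∀ l < i, κ * N * (3 * G * s) ≤ infDist ((rf P Q)^[l] (rf P Q c)) (Zq P Q) := by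
      intro l hl
      by_contra hcon
      push Not at hcon
      exact Nat.find_min hex (by rw [← hie]; exact hl) ⟨by omega, hcon⟩
    have htr : ∀ u : ℂ, ‖u - rf P Q c‖ ≤ s → ∀ l ≤ i,
        ‖(rf P Q)^[l] u - (rf P Q)^[l] (rf P Q c)‖ ≤ 3 * G * s := fun u hu l hl =>
      (track O hc hκ hκ2 hN (fun n hn => hG c hc n hn) hs hu hG1 (by omega)
        fun j hj => hmin j (by omega)).2
    -- the nearest point is a free critical point
    obtain ⟨q, hq, hqd⟩ : ∃ q ∈ Zq P Q, infDist ((rf P Q)^[i] (rf P Q c)) (Zq P Q) =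
        dist ((rf P Q)^[i] (rf P Q c)) q :=
      hZf.isCompact.exists_infDist_eq_dist ⟨c, Or.inl hc.1⟩ _
    rw [hqd, dist_eq_norm] at hi
    have hqF : q ∈ Fr d P Q := by
      by_contra hcon
      have := hsep _ (O.nv hc i) q hq hcon
      linarith
    have hstep : ∀ u : ℂ, ‖u - rf P Q c‖ ≤ s →
        ‖(rf P Q)^[i + 1] u - rf P Q q‖ ≤ 4 * κ * (κ * N * (3 * G * s)) ^ 2 := by
      intro u hu
      have h4 := htr u hu i le_rfl
      have h5 : ‖(rf P Q)^[i] u - q‖ ≤ 2 * (κ * N * (3 * G * s)) := by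
        have := norm_add_le ((rf P Q)^[i] u - (rf P Q)^[i] (rf P Q c))
          ((rf P Q)^[i] (rf P Q c) - q)
        rw [sub_add_sub_cancel] at this
        linarith
      rw [Function.iterate_succ_apply']
      refine (hquad q hqF _ (by linarith)).trans ?_
      calc κ * ‖(rf P Q)^[i] u - q‖ ^ 2 ≤ κ * (2 * (κ * N * (3 * G * s))) ^ 2 := by gcongr
        _ = _ := by ring
    have hs' : 4 * κ * (κ * N * (3 * G * s)) ^ 2 ≤ s := by
      calc 4 * κ * (κ * N * (3 * G * s)) ^ 2 = (36 * κ ^ 3 * N ^ 2 * G ^ 2 * s) * s := by ring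
        _ ≤ (36 * κ ^ 3 * N ^ 2 * G ^ 2 * s₀) * s := by gcongr
        _ ≤ 1 * s := by gcongr
        _ = s := one_mul s
    have hs'0 : 0 < 4 * κ * (κ * N * (3 * G * s)) ^ 2 := by positivity
    have hrec := ih (m - (i + 1)) (by omega) (by omega) q hqF _ hs'0 (hs'.trans hs0)
    obtain ⟨hr1, hr2⟩ := hrec _ (hstep w hw)
    refine ⟨fun j hj => ?_, fun w' hw' => ?_⟩
    · rcases Nat.lt_or_ge j (i + 1) with h | h
      · exact hQn j _ (htr w hw j (by omega))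
      · have h4 := hr1 (j - (i + 1)) (by omega)
        rwa [← Function.iterate_add_apply, Nat.sub_add_cancel h] at h4
    · have h4 := hr2 _ (hstep w' hw')
      rw [← Function.iterate_add_apply, ← Function.iterate_add_apply,
        Nat.sub_add_cancel (by omega : i + 1 ≤ m)] at h4
      refine h4.trans ?_
      gcongr
  · push Not at hex
    have htr : ∀ u : ℂ, ‖u - rf P Q c‖ ≤ s → ∀ l ≤ m,
        ‖(rf P Q)^[l] u - (rf P Q)^[l] (rf P Q c)‖ ≤ 3 * G * s := fun u hu l hl =>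
      (track O hc hκ hκ2 hN (fun n hn => hG c hc n hn) hs hu hG1 (by omega)
        fun j hj => hex j (by omega)).2
    refine ⟨fun j hj => hQn j _ (htr w hw j hj), fun w' hw' => ?_⟩
    have h4 := htr w hw m le_rfl
    have h5 := htr w' hw' m le_rfl
    rw [norm_sub_rev] at h5
    have := norm_add_le ((rf P Q)^[m] w - (rf P Q)^[m] (rf P Q c))
      ((rf P Q)^[m] (rf P Q c) - (rf P Q)^[m] w')
    rw [sub_add_sub_cancel] at this
    linarith

/-- **The recurrence bound.** -/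
theorem recur_N (O : Many d P Q U U₁) : ∃ C : ℝ, 1 ≤ C ∧ ∀ N : ℕ, 1 ≤ N → ∀ G : ℝ, 1 ≤ G →
    (∀ c ∈ Fr d P Q, ∀ n ≤ N, ‖deriv ((rf P Q)^[n]) (rf P Q c)‖ ≤ G) →
    ∀ c ∈ Fr d P Q, 1 ≤ C * N * G * ‖(rf P Q)^[N] (rf P Q c) - c‖ := by
  obtain ⟨κ₀, η, hκ₀, hη, hquad⟩ := O.quad
  obtain ⟨δ, hδ, hsep⟩ := O.sep
  obtain ⟨κ, hκe⟩ : ∃ κ, κ = max (2 ^ ((wr P Q).natDegree + 4 * Q.natDegree)) (max 2 κ₀) :=
    ⟨_, rfl⟩
  have hκ : 2 ^ ((wr P Q).natDegree + 4 * Q.natDegree) ≤ κ := by rw [hκe]; exact le_max_left _ _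
  have hκ2 : 2 ≤ κ := by rw [hκe]; exact (le_max_left _ _).trans (le_max_right _ _)
  have hκ3 : κ₀ ≤ κ := by rw [hκe]; exact (le_max_right _ _).trans (le_max_right _ _)
  have hquad' : ∀ c ∈ Fr d P Q, ∀ w : ℂ, ‖w - c‖ ≤ η →
      ‖rf P Q w - rf P Q c‖ ≤ κ * ‖w - c‖ ^ 2 := fun c hc w hw =>
    (hquad c hc w hw).trans (by gcongr)
  obtain ⟨C, hCe⟩ : ∃ C, C = 3000 * κ ^ 2 + 3000 * κ ^ 2 / η + 3000 * κ ^ 2 / δ := ⟨_, rfl⟩
  have hC1 : 3000 * κ ^ 2 ≤ C := by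
    rw [hCe]
    have : 0 ≤ 3000 * κ ^ 2 / η := by positivity
    have : 0 ≤ 3000 * κ ^ 2 / δ := by positivity
    linarith
  have hC2 : 3000 * κ ^ 2 / η ≤ C := by
    rw [hCe]
    have : 0 ≤ 3000 * κ ^ 2 := by positivity
    have : 0 ≤ 3000 * κ ^ 2 / δ := by positivity
    linarith
  have hC3 : 3000 * κ ^ 2 / δ ≤ C := by
    rw [hCe]
    have : 0 ≤ 3000 * κ ^ 2 / η := by positivity
    have : 0 ≤ 3000 * κ ^ 2 := by positivity
    linarith
  have hκsq : 4 ≤ κ ^ 2 := by nlinarith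
  refine ⟨C, by linarith, fun N hN G hG1 hG c hc => ?_⟩
  by_contra hcon
  push Not at hcon
  have hN1 : (1 : ℝ) ≤ N := by exact_mod_cast hN
  have hC0 : 0 < C := by linarith
  -- a positive radius
  obtain ⟨ρ, hρe⟩ : ∃ ρ, ρ = 1 / (C * N * G) := ⟨_, rfl⟩
  have hρ : 0 < ρ := by rw [hρe]; positivity
  have hρC : C * N * G * ρ = 1 := by rw [hρe]; field_simp
  have hdist : ‖(rf P Q)^[N] (rf P Q c) - c‖ ≤ ρ := by
    rw [hρe, le_div_iff₀ (by positivity)]
    linarith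
  have hNG : 1 ≤ (N : ℝ) * G := one_le_mul_of_one_le_of_one_le hN1 hG1
  have e1 : 3000 * κ ^ 2 * (N * G * ρ) ≤ 1 := by
    calc 3000 * κ ^ 2 * (N * G * ρ) ≤ C * (N * G * ρ) := by gcongr
      _ = 1 := by rw [← hρC]; ring
  have e2 : 3000 * κ ^ 2 * (N * G * ρ) ≤ η := by
    calc 3000 * κ ^ 2 * (N * G * ρ) = (3000 * κ ^ 2 / η) * (N * G * ρ) * η := by field_simp
      _ ≤ C * (N * G * ρ) * η := by gcongr
      _ = (C * N * G * ρ) * η := by ring
      _ = η := by rw [hρC, one_mul]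
  have e3 : 3000 * κ ^ 2 * (N * G * ρ) ≤ δ := by
    calc 3000 * κ ^ 2 * (N * G * ρ) = (3000 * κ ^ 2 / δ) * (N * G * ρ) * δ := by field_simp
      _ ≤ C * (N * G * ρ) * δ := by gcongr
      _ = (C * N * G * ρ) * δ := by ring
      _ = δ := by rw [hρC, one_mul]
  obtain ⟨x, hx⟩ : ∃ x, x = N * G * ρ := ⟨_, rfl⟩
  rw [← hx] at e1 e2 e3
  have hx0 : 0 < x := by rw [hx]; positivity
  have hρx : ρ ≤ x := by
    rw [hx]
    exact le_mul_of_one_le_left hρ.le hNG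
  have hGx : G * ρ ≤ x := by
    rw [hx]
    have : 0 ≤ G * ρ := by positivity
    calc G * ρ ≤ N * (G * ρ) := le_mul_of_one_le_left this hN1
      _ = _ := by ring
  -- the disc
  obtain ⟨r, hr⟩ : ∃ r, r = 32 * κ * ρ ^ 2 := ⟨_, rfl⟩
  have hr0 : 0 < r := by rw [hr]; positivity
  have hκx : κ * x ≤ κ ^ 2 * x := by
    have : κ ≤ κ ^ 2 := by nlinarith
    gcongr
  have hAle : κ * N * (3 * G * (2 * r)) ≤ 3000 * κ ^ 2 * x / 10 := by
    have h5 : κ * N * (3 * G * (2 * r)) = 192 * κ ^ 2 * (x * ρ) := by rw [hr, hx]; ring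
    have h6 : ρ ≤ 1 := by nlinarith
    rw [h5]
    have h7 : x * ρ ≤ x := mul_le_of_le_one_right hx0.le h6
    have h8 : 192 * κ ^ 2 * (x * ρ) ≤ 192 * κ ^ 2 * x := by gcongr
    have h9 : 0 ≤ κ ^ 2 * x := by positivity
    linarith
  have hS := small O hκ hκ2 hquad' hsep hN hG1 hG (s₀ := 2 * r)
    (by
      have h9 : 0 ≤ κ ^ 2 * x := by positivity
      linarith)
    (by
      have h9 : 0 < κ ^ 2 * x := by positivity
      linarith)
    (by
      have h5 : 36 * κ ^ 3 * N ^ 2 * G ^ 2 * (2 * r) = 2304 * (κ ^ 2 * x) ^ 2 := by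
        rw [hr, hx]; ring
      rw [h5]
      have h6 : κ ^ 2 * x ≤ 1 / 3000 := by linarith
      have h9 : 0 ≤ κ ^ 2 * x := by positivity
      nlinarith) N le_rfl c hc (2 * r) (by positivity) le_rfl
  have hvv : ‖rf P Q c - rf P Q c‖ ≤ 2 * r := by rw [sub_self, norm_zero]; positivity
  have hmap : ∀ w : ℂ, ‖w - rf P Q c‖ ≤ 2 * r →
      ‖(rf P Q)^[N + 1] w - rf P Q c‖ ≤ r / 8 := by
    intro w hw
    have h5 := (hS w hw).2 _ hvv
    have h6 : ‖(rf P Q)^[N] w - c‖ ≤ 2 * ρ := by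
      have h7 := norm_add_le ((rf P Q)^[N] w - (rf P Q)^[N] (rf P Q c))
        ((rf P Q)^[N] (rf P Q c) - c)
      rw [sub_add_sub_cancel] at h7
      have h8 : 6 * G * (2 * r) = 384 * κ * (G * ρ) * ρ := by rw [hr]; ring
      have h9 : 384 * κ * (G * ρ) ≤ 1 := by
        have : 384 * κ * (G * ρ) ≤ 384 * κ * x := by gcongr
        have : 0 ≤ κ ^ 2 * x := by positivity
        linarith
      have h10 : 384 * κ * (G * ρ) * ρ ≤ 1 * ρ := by gcongr
      linarith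
    rw [Function.iterate_succ_apply']
    refine (hquad' c hc _ ?_).trans ?_
    · have : 0 ≤ κ ^ 2 * x := by positivity
      have h11 : x ≤ κ ^ 2 * x := by nlinarith
      linarith
    · calc κ * ‖(rf P Q)^[N] w - c‖ ^ 2 ≤ κ * (2 * ρ) ^ 2 := by gcongr
        _ = r / 8 := by rw [hr]; ring
  have hb := hmap _ hvv
  apply O.nv hc 0
  rw [Function.iterate_zero_apply]
  refine att_of_disc (O.qv hc) (m := N + 1) (by omega) hr0 (fun w hw j hj => ?_)
    (fun w hw => ?_) (by linarith)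
  · exact (hS w hw).1 j (by omega)
  · have h5 := hmap w hw
    have h6 := norm_sub_le ((rf P Q)^[N + 1] w - rf P Q c)
      ((rf P Q)^[N + 1] (rf P Q c) - rf P Q c)
    rw [sub_sub_sub_cancel_right] at h6
    linarith

/-- **The bounds for the derivatives and for the recurrence.** -/
theorem growth_recur (O : Many d P Q U U₁) (hna : ¬ Fewer d P Q) :
    ∃ K : ℝ, ∀ c ∈ Fr d P Q, ∀ N : ℕ, 2 ≤ N →
      ‖deriv ((rf P Q)^[N]) (rf P Q c)‖ ≤ Real.exp (K * Real.log N ^ 2) ∧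
      Real.exp (-(K * Real.log N ^ 2)) ≤ ‖(rf P Q)^[N] (rf P Q c) - c‖ := by
  have hF : (Fr d P Q).Finite := Fr_fin (O.nice.N0 (by have := O.d2; omega))
  have hgr : ∀ c ∈ Fr d P Q, ∃ K : ℝ, ∀ N : ℕ, 2 ≤ N →
      ‖deriv ((rf P Q)^[N]) (rf P Q c)‖ ≤ Real.exp (K * Real.log N ^ 2) :=
    fun c hc => growth O hna hc
  choose! Kc hKc using hgr
  obtain ⟨M, hM⟩ := (hF.image Kc).bddAbove
  obtain ⟨K₀, hK₀⟩ : ∃ K₀, K₀ = max 0 M := ⟨_, rfl⟩
  have hK00 : 0 ≤ K₀ := by rw [hK₀]; exact le_max_left _ _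
  have hgr : ∀ c ∈ Fr d P Q, ∀ N : ℕ, 2 ≤ N →
      ‖deriv ((rf P Q)^[N]) (rf P Q c)‖ ≤ Real.exp (K₀ * Real.log N ^ 2) := by
    intro c hc N hN
    refine (hKc c hc N hN).trans (Real.exp_le_exp.2 ?_)
    have : Kc c ≤ K₀ := by
      rw [hK₀]
      exact (hM ⟨c, hc, rfl⟩).trans (le_max_right _ _)
    gcongr
  obtain ⟨B, hB⟩ := (hF.image fun c => ‖deriv ((rf P Q)^[1]) (rf P Q c)‖).bddAbove
  obtain ⟨C, hC1, hC⟩ := recur_N O
  obtain ⟨B', hB'⟩ : ∃ B', B' = max 1 B := ⟨_, rfl⟩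
  have hB1 : 1 ≤ B' := by rw [hB']; exact le_max_left _ _
  have hl2 : 0 < Real.log 2 := Real.log_pos (by norm_num)
  obtain ⟨K₁, hK₁⟩ : ∃ K₁, K₁ = K₀ + Real.log (C * B') / Real.log 2 ^ 2 + 1 / Real.log 2 :=
    ⟨_, rfl⟩
  have hCB : 1 ≤ C * B' := one_le_mul_of_one_le_of_one_le hC1 hB1
  have hK₁0 : K₀ ≤ K₁ := by
    rw [hK₁]
    have h1 : 0 ≤ Real.log (C * B') / Real.log 2 ^ 2 := by
      have := Real.log_nonneg hCB
      positivity
    have h2 : 0 ≤ 1 / Real.log 2 := by positivity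
    linarith
  refine ⟨K₁, fun c hc N hN => ⟨(hgr c hc N hN).trans (Real.exp_le_exp.2 (by gcongr)), ?_⟩⟩
  have hN2 : (2 : ℝ) ≤ N := by exact_mod_cast hN
  have hlN : Real.log 2 ≤ Real.log N := Real.log_le_log (by norm_num) hN2
  have hG : ∀ c ∈ Fr d P Q, ∀ n ≤ N, ‖deriv ((rf P Q)^[n]) (rf P Q c)‖ ≤
      B' * Real.exp (K₀ * Real.log N ^ 2) := by
    intro c hc n hn
    have hexp1 : 1 ≤ Real.exp (K₀ * Real.log N ^ 2) := Real.one_le_exp (by positivity)
    rcases Nat.lt_or_ge n 2 with h | h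
    · refine le_trans ?_ (le_mul_of_one_le_right (by linarith) hexp1)
      interval_cases n
      · rw [Function.iterate_zero, deriv_id, norm_one]
        exact hB1
      · rw [hB']
        exact (hB ⟨c, hc, rfl⟩).trans (le_max_right _ _)
    · have h1 : Real.log n ≤ Real.log N :=
        Real.log_le_log (by positivity) (by exact_mod_cast hn)
      have h2 : 0 ≤ Real.log n := Real.log_natCast_nonneg n
      calc _ ≤ Real.exp (K₀ * Real.log n ^ 2) := hgr c hc n h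
        _ ≤ Real.exp (K₀ * Real.log N ^ 2) := Real.exp_le_exp.2 (by gcongr)
        _ ≤ _ := le_mul_of_one_le_left (Real.exp_pos _).le hB1
  have h1 := hC N (by omega) _ (one_le_mul_of_one_le_of_one_le hB1
    (Real.one_le_exp (by positivity))) hG c hc
  have h2 : C * N * (B' * Real.exp (K₀ * Real.log N ^ 2)) ≤
      Real.exp (K₁ * Real.log N ^ 2) := by
    have h3 : Real.log (C * B') ≤ Real.log (C * B') / Real.log 2 ^ 2 * Real.log N ^ 2 := by
      have h4 := Real.log_nonneg hCB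
      rw [div_mul_eq_mul_div, le_div_iff₀ (by positivity)]
      gcongr
    have h5 : Real.log N ≤ 1 / Real.log 2 * Real.log N ^ 2 := by
      rw [div_mul_eq_mul_div, le_div_iff₀ hl2, one_mul]
      nlinarith
    calc C * N * (B' * Real.exp (K₀ * Real.log N ^ 2))
        = (C * B') * N * Real.exp (K₀ * Real.log N ^ 2) := by ring
      _ = Real.exp (Real.log (C * B')) * Real.exp (Real.log N) *
          Real.exp (K₀ * Real.log N ^ 2) := by
          rw [Real.exp_log (by linarith), Real.exp_log (by linarith)]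
      _ = Real.exp (Real.log (C * B') + Real.log N + K₀ * Real.log N ^ 2) := by
          rw [Real.exp_add, Real.exp_add]
      _ ≤ _ := by
          apply Real.exp_le_exp.2
          rw [hK₁]
          linarith
  rw [Real.exp_neg, inv_le_iff_one_le_mul₀ (Real.exp_pos _)]
  calc 1 ≤ _ := h1
    _ ≤ Real.exp (K₁ * Real.log N ^ 2) * ‖(rf P Q)^[N] (rf P Q c) - c‖ := by gcongr
    _ = _ := by ring

end Pool.Agent.Zk29.Mu
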