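import Pool.Agent.Zk9.ChordA

/-!
# Joint continuity of the chordal distance
-/

set_option autoImplicit false
open Filter Topology
open scoped OnePoint

namespace Pool.Agent.Zk29.Mu

open Pool.Agent.Helper114.Herman

/-- Homogeneous coordinates which are continuous at a given point. -/
lemma lift_at (a : OnePoint ℂ) : ∃ l : OnePoint ℂ → ℂ × ℂ, ContinuousAt l a ∧
    ∀ᶠ x in 𝓝 a, ¬ ((l x).1 = 0 ∧ (l x).2 = 0) ∧ pr (l x).1 (l x).2 = x := by
  induction a using OnePoint.rec with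
  | infty =>
    obtain ⟨l, hl⟩ : ∃ l : OnePoint ℂ → ℂ × ℂ, l = fun x => (1, x.elim 0 (fun z => z⁻¹)) :=
      ⟨_, rfl⟩
    refine ⟨l, ?_, ?_⟩
    · rw [OnePoint.continuousAt_infty', coclosedCompact_eq_cocompact,
        ← Metric.cobounded_eq_cocompact, hl]
      have h1 : Tendsto (fun z : ℂ => ((1 : ℂ), z⁻¹)) (Bornology.cobounded ℂ) (𝓝 (1, 0)) :=
        tendsto_const_nhds.prodMk_nhds tendsto_inv₀_cobounded
      exact h1
    · have h1 : ∀ᶠ x : OnePoint ℂ in 𝓝 ∞, x ≠ ((0 : ℂ) : OnePoint ℂ) :=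
        isOpen_compl_singleton.mem_nhds (OnePoint.infty_ne_coe 0)
      filter_upwards [h1] with x hx
      rw [hl]
      refine ⟨fun h => one_ne_zero h.1, ?_⟩
      induction x using OnePoint.rec with
      | infty => exact pr_zero 1
      | coe z =>
        have hz : z ≠ 0 := fun h => hx (by rw [h])
        change pr 1 z⁻¹ = (z : OnePoint ℂ)
        rw [pr_ne (inv_ne_zero hz), one_div, inv_inv]
  | coe z₀ =>
    refine ⟨hco, ?_, Eventually.of_forall fun x => ?_⟩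
    · rw [OnePoint.continuousAt_coe]
      have h1 : Continuous (fun z : ℂ => (z, (1 : ℂ))) := by fun_prop
      exact h1.continuousAt
    · induction x using OnePoint.rec with
      | infty =>
        refine ⟨fun h => one_ne_zero (α := ℂ) h.1, ?_⟩
        exact pr_zero 1
      | coe z =>
        refine ⟨fun h => one_ne_zero (α := ℂ) h.2, ?_⟩
        exact pr_one z

theorem chord_cont2 : Continuous (fun p : OnePoint ℂ × OnePoint ℂ => chord p.1 p.2) := by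
  rw [continuous_iff_continuousAt]
  rintro ⟨a, b⟩
  obtain ⟨l, hl, hl'⟩ := lift_at a
  obtain ⟨k, hk, hk'⟩ := lift_at b
  have e1 : ContinuousAt (fun p : OnePoint ℂ × OnePoint ℂ => l p.1) (a, b) :=
    ContinuousAt.comp (f := fun p : OnePoint ℂ × OnePoint ℂ => p.1) (x := (a, b)) hl
      continuousAt_fst
  have e2 : ContinuousAt (fun p : OnePoint ℂ × OnePoint ℂ => k p.2) (a, b) :=
    ContinuousAt.comp (f := fun p : OnePoint ℂ × OnePoint ℂ => p.2) (x := (a, b)) hk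
      continuousAt_snd
  have hnm : Continuous (fun q : ℂ × ℂ => nm q.1 q.2) := by
    unfold nm
    fun_prop
  have h1 : ContinuousAt (fun p : OnePoint ℂ × OnePoint ℂ =>
      ‖(l p.1).1 * (k p.2).2 - (k p.2).1 * (l p.1).2‖ /
        (nm (l p.1).1 (l p.1).2 * nm (k p.2).1 (k p.2).2)) (a, b) := by
    refine ContinuousAt.div ?_ ?_ ?_
    · exact ((e1.fst.mul e2.snd).sub (e2.fst.mul e1.snd)).norm
    · exact (ContinuousAt.comp (g := fun q : ℂ × ℂ => nm q.1 q.2) (x := (a, b))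
        hnm.continuousAt e1).mul
        (ContinuousAt.comp (g := fun q : ℂ × ℂ => nm q.1 q.2) (x := (a, b)) hnm.continuousAt e2)
    · exact (mul_pos (nm_pos hl'.self_of_nhds.1) (nm_pos hk'.self_of_nhds.1)).ne'
  refine h1.congr ?_
  have g1 : ∀ᶠ p : OnePoint ℂ × OnePoint ℂ in 𝓝 (a, b),
      ¬ ((l p.1).1 = 0 ∧ (l p.1).2 = 0) ∧ pr (l p.1).1 (l p.1).2 = p.1 :=
    (continuous_fst.tendsto (a, b)).eventually hl'
  have g2 : ∀ᶠ p : OnePoint ℂ × OnePoint ℂ in 𝓝 (a, b),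
      ¬ ((k p.2).1 = 0 ∧ (k p.2).2 = 0) ∧ pr (k p.2).1 (k p.2).2 = p.2 :=
    (continuous_snd.tendsto (a, b)).eventually hk'
  filter_upwards [g1, g2] with p h2 h3
  have h4 := chord_pr h2.1 h3.1
  rw [h2.2, h3.2] at h4
  exact h4.symm

theorem near_of_chord {R : ℝ} (hR : 0 ≤ R) {v : ℂ} (hv : ‖v‖ ≤ R) {y : OnePoint ℂ}
    (hy : chord y (v : OnePoint ℂ) < 1 / (1 + (R + 1) ^ 2)) :
    ∃ w : ℂ, y = (w : OnePoint ℂ) ∧ ‖w‖ ≤ R + 1 ∧
      ‖w - v‖ ≤ (1 + (R + 1) ^ 2) * chord y (v : OnePoint ℂ) := by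
  have hA0 : 0 < 1 + (R + 1) ^ 2 := by positivity
  have hv0 : 0 < √(‖v‖ ^ 2 + 1) := Real.sqrt_pos.2 (by positivity)
  have hvR : √(‖v‖ ^ 2 + 1) ≤ √(1 + (R + 1) ^ 2) := by
    apply Real.sqrt_le_sqrt
    have : ‖v‖ ^ 2 ≤ (R + 1) ^ 2 := pow_le_pow_left₀ (norm_nonneg _) (by linarith) 2
    linarith
  have hAs : √(1 + (R + 1) ^ 2) * √(1 + (R + 1) ^ 2) = 1 + (R + 1) ^ 2 :=
    Real.mul_self_sqrt hA0.le
  have hA1 : 1 ≤ √(1 + (R + 1) ^ 2) := by
    rw [Real.one_le_sqrt]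
    have : 0 ≤ (R + 1) ^ 2 := sq_nonneg _
    linarith
  induction y using OnePoint.rec with
  | infty =>
    exfalso
    have h1 : chord ∞ (v : OnePoint ℂ) = 1 / √(‖v‖ ^ 2 + 1) := by
      have h2 : hco (∞ : OnePoint ℂ) = (1, 0) := rfl
      have h3 : hco (v : OnePoint ℂ) = (v, 1) := rfl
      unfold chord
      rw [h2, h3]
      simp
    rw [h1, div_lt_div_iff₀ hv0 hA0, one_mul, one_mul, ← hAs] at hy
    nlinarith
  | coe w =>
    have hw : ‖w‖ ≤ R + 1 := by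
      by_contra hcon
      push Not at hcon
      rw [chord_coe] at hy
      have hw0 : 0 < √(‖w‖ ^ 2 + 1) := Real.sqrt_pos.2 (by positivity)
      rw [div_lt_div_iff₀ (mul_pos hw0 hv0) hA0, one_mul] at hy
      have h1 : ‖w‖ - R ≤ ‖w - v‖ := by
        have := norm_sub_norm_le w v
        linarith
      have h2 : √(‖w‖ ^ 2 + 1) ≤ (‖w‖ - R) * √(1 + (R + 1) ^ 2) := by
        rw [← Real.sqrt_sq (by linarith : 0 ≤ ‖w‖ - R), ← Real.sqrt_mul (sq_nonneg _)]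
        apply Real.sqrt_le_sqrt
        obtain ⟨u, hu⟩ : ∃ u, u = ‖w‖ - (R + 1) := ⟨_, rfl⟩
        have hw' : ‖w‖ = R + 1 + u := by rw [hu]; ring
        have hu0 : 0 ≤ u := by rw [hu]; linarith
        rw [hw']
        have h3 : (R + 1 + u - R) ^ 2 * (1 + (R + 1) ^ 2) - ((R + 1 + u) ^ 2 + 1) =
          2 * u * ((R + 1) ^ 2 - (R + 1) + 1) + u ^ 2 * (R + 1) ^ 2 := by ring
        have h4 : 0 ≤ (R + 1) ^ 2 - (R + 1) + 1 := by nlinarith
        have h5 : 0 ≤ 2 * u * ((R + 1) ^ 2 - (R + 1) + 1) + u ^ 2 * (R + 1) ^ 2 := by positivity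
        linarith
      have hwR : 0 ≤ ‖w‖ - R := by linarith
      have h6 : √(‖w‖ ^ 2 + 1) * √(‖v‖ ^ 2 + 1) ≤
          ((‖w‖ - R) * √(1 + (R + 1) ^ 2)) * √(1 + (R + 1) ^ 2) := by gcongr
      rw [mul_assoc, hAs] at h6
      have h7 : (‖w‖ - R) * (1 + (R + 1) ^ 2) ≤ ‖w - v‖ * (1 + (R + 1) ^ 2) := by gcongr
      linarith
    exact ⟨w, rfl, hw, dist_le_chord hw (by linarith)⟩

end Pool.Agent.Zk29.Mu
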