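import Pool.Agent.Zk29.Mu.S1
import Pool.Agent.Zk29.Mu.A1
import Pool.Agent.Zk29.Mu.S0

/-!
# The bounds in the chordal metric
-/

set_option autoImplicit false
open Set Filter Topology Metric Polynomial
open scoped OnePoint

namespace Pool.Agent.Zk29.Mu

open Pool.Agent.H792R2.CE Pool.Agent.H792R2.CE.C2x
open Pool.Agent.Helper114.Herman

variable {d : ℕ} {P Q : ℂ[X]} {b : ℂ} {h : OnePoint ℂ ≃ₜ OnePoint ℂ} {L K K' : ℝ}
  {f : OnePoint ℂ → OnePoint ℂ} {S : Set (OnePoint ℂ)}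

/-- A Lipschitz bound near the values of the points of `S`, and no cycles of close passages. -/
def Slo (K : ℝ) (f : OnePoint ℂ → OnePoint ℂ) (S : Set (OnePoint ℂ)) : Prop :=
  ∀ n : ℕ, 2 ≤ n →
    (∀ c ∈ S, ∀ x y : OnePoint ℂ, chord x (f c) < Real.exp (-(K * Real.log n ^ 2)) →
      chord y (f c) < Real.exp (-(K * Real.log n ^ 2)) →
      chord (f^[n] x) (f^[n] y) ≤ Real.exp (K * Real.log n ^ 2) * chord x y) ∧
    ∀ (m : ℕ) (c : ℕ → OnePoint ℂ), 0 < m → c m = c 0 → ¬ ∀ i < m, c i ∈ S ∧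
      ∃ j ≤ n, chord (f^[j] (f (c i))) (c (i + 1)) < Real.exp (-(K * Real.log n ^ 2))

lemma Slo.mono (h : Slo K f S) (hK : K ≤ K') : Slo K' f S := by
  intro n hn
  obtain ⟨h1, h2⟩ := h n hn
  have e1 : Real.exp (-(K' * Real.log n ^ 2)) ≤ Real.exp (-(K * Real.log n ^ 2)) :=
    Real.exp_le_exp.2 (neg_le_neg (by gcongr))
  have e2 : Real.exp (K * Real.log n ^ 2) ≤ Real.exp (K' * Real.log n ^ 2) :=
    Real.exp_le_exp.2 (by gcongr)
  refine ⟨fun c hc x y hx hy => ?_, fun m c hm hcc hall => h2 m c hm hcc fun i hi => ?_⟩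
  · exact (h1 c hc x y (hx.trans_le e1) (hy.trans_le e1)).trans
      (mul_le_mul_of_nonneg_right e2 (chord_nonneg _ _))
  · obtain ⟨g1, j, g2, g3⟩ := hall i hi
    exact ⟨g1, j, g2, g3.trans_le e1⟩

/-- The constant of the conjugate map. -/
noncomputable def kA (A K : ℝ) : ℝ := K + Real.log A / Real.log 2 ^ 2

lemma kA_le {A : ℝ} (hA : 1 ≤ A) {n : ℕ} (hn : 2 ≤ n) :
    A * Real.exp (K * Real.log n ^ 2) ≤ Real.exp (kA A K * Real.log n ^ 2) := by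
  have hl2 : 0 < Real.log 2 := Real.log_pos (by norm_num)
  have hn2 : (2 : ℝ) ≤ n := by exact_mod_cast hn
  have hln : Real.log 2 ≤ Real.log n := Real.log_le_log (by norm_num) hn2
  have h4 := Real.log_nonneg hA
  have h3 : Real.log A ≤ Real.log A / Real.log 2 ^ 2 * Real.log n ^ 2 := by
    rw [div_mul_eq_mul_div, le_div_iff₀ (by positivity)]
    gcongr
  calc A * Real.exp (K * Real.log n ^ 2) = Real.exp (Real.log A + K * Real.log n ^ 2) := by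
        rw [Real.exp_add, Real.exp_log (by linarith)]
    _ ≤ _ := by
        apply Real.exp_le_exp.2
        unfold kA
        linarith

lemma kA_le' {A : ℝ} (hA : 1 ≤ A) {n : ℕ} (hn : 2 ≤ n) :
    A * Real.exp (-(kA A K * Real.log n ^ 2)) ≤ Real.exp (-(K * Real.log n ^ 2)) := by
  have h1 := kA_le (K := K) hA hn
  rw [Real.exp_neg, Real.exp_neg, ← div_eq_mul_inv, div_le_iff₀ (Real.exp_pos _)]
  have h2 := Real.exp_pos (K * Real.log n ^ 2)
  calc A = (Real.exp (K * Real.log n ^ 2))⁻¹ * (A * Real.exp (K * Real.log n ^ 2)) := by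
        field_simp
    _ ≤ _ := by gcongr

/-- The bounds for a normalised map in the chordal metric. -/
theorem slo_plane (hN : Nrm d P Q) {R : ℝ} (hR0 : 0 ≤ R)
    (hR : ∀ z : ℂ, ¬ Att d P Q (z : OnePoint ℂ) → ‖z‖ ≤ R) (hK0 : 0 ≤ K) (hK : TameL K d P Q) :
    Slo (kA (1 + (R + 1) ^ 2) K) (sph d P Q) ((fun z : ℂ => (z : OnePoint ℂ)) '' Fr d P Q) := by
  obtain ⟨A, hA⟩ : ∃ A, A = 1 + (R + 1) ^ 2 := ⟨_, rfl⟩
  have hA1 : 1 ≤ A := by
    rw [hA]
    have : (0 : ℝ) ≤ (R + 1) ^ 2 := sq_nonneg _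
    linarith
  rw [← hA]
  have hq : ∀ z ∈ Fr d P Q, ∀ i : ℕ, Q.eval ((rf P Q)^[i] z) ≠ 0 := fun z hz => natt_q hN hz.2
  have hqv : ∀ z ∈ Fr d P Q, ∀ i : ℕ, Q.eval ((rf P Q)^[i] (rf P Q z)) ≠ 0 := by
    intro z hz i
    have := hq z hz (i + 1)
    rwa [Function.iterate_succ_apply] at this
  have hna : ∀ z ∈ Fr d P Q, ∀ i : ℕ, ‖(rf P Q)^[i] z‖ ≤ R := fun z hz i =>
    hR _ (natt_iter (B1_continuous hN.cop hN.Pd hN.Qd) hN.inf hz.2 i).1
  have hcv : ∀ z ∈ Fr d P Q, sph d P Q (z : OnePoint ℂ) = ((rf P Q z : ℂ) : OnePoint ℂ) :=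
    fun z hz => sph_coe_of_ne (hq z hz 0)
  intro n hn
  obtain ⟨h1, h2⟩ := hK n hn
  have g1 := kA_le (K := K) hA1 hn
  have g2 := kA_le' (K := K) hA1 hn
  obtain ⟨M', hM'⟩ : ∃ M', M' = Real.exp (kA A K * Real.log n ^ 2) := ⟨_, rfl⟩
  obtain ⟨M, hM⟩ : ∃ M, M = Real.exp (K * Real.log n ^ 2) := ⟨_, rfl⟩
  obtain ⟨σ', hσ'⟩ : ∃ σ', σ' = Real.exp (-(kA A K * Real.log n ^ 2)) := ⟨_, rfl⟩
  obtain ⟨σ, hσ⟩ : ∃ σ, σ = Real.exp (-(K * Real.log n ^ 2)) := ⟨_, rfl⟩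
  have hM0 : 0 < M := by rw [hM]; exact Real.exp_pos _
  have hσ1 : σ ≤ 1 := by
    rw [hσ, Real.exp_le_one_iff]
    have : 0 ≤ K * Real.log n ^ 2 := by positivity
    linarith
  rw [← hM, ← hM'] at g1
  rw [← hσ, ← hσ'] at g2
  rw [← hσ, ← hM] at h1
  rw [← hσ] at h2
  rw [← hM', ← hσ']
  have hA0 : 0 < A := by linarith
  have hσA : σ' ≤ 1 / A := by
    rw [le_div_iff₀ hA0]
    linarith
  constructor
  · rintro _ ⟨z, hz, rfl⟩ x y hx hy
    have hv : ‖rf P Q z‖ ≤ R := hna z hz 1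
    have hnear : ∀ x : OnePoint ℂ, chord x (sph d P Q (z : OnePoint ℂ)) < σ' →
        ∃ u : ℂ, x = (u : OnePoint ℂ) ∧ ‖u‖ ≤ R + 1 ∧ ‖u - rf P Q z‖ ≤ σ := by
      intro x hx
      rw [hcv z hz] at hx
      obtain ⟨u, hu1, hu2, hu3⟩ := near_of_chord hR0 hv (by rw [← hA]; exact hx.trans_le hσA)
      refine ⟨u, hu1, hu2, hu3.trans ?_⟩
      rw [← hA]
      refine le_trans ?_ g2
      gcongr
    obtain ⟨u, rfl, hu2, hu3⟩ := hnear x hx
    obtain ⟨u', rfl, hu2', hu3'⟩ := hnear y hy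
    obtain ⟨k1, k2⟩ := h1 z hz u hu3
    obtain ⟨k1', -⟩ := h1 z hz u' hu3'
    have k3 := k2 u' hu3'
    rw [iter_coe n fun j hj => k1 j hj.le, iter_coe n fun j hj => k1' j hj.le]
    calc chord (((rf P Q)^[n] u : ℂ) : OnePoint ℂ) (((rf P Q)^[n] u' : ℂ) : OnePoint ℂ)
        ≤ ‖(rf P Q)^[n] u - (rf P Q)^[n] u'‖ := chord_le_dist _ _
      _ ≤ M * ‖u - u'‖ := k3
      _ ≤ M * ((1 + (R + 1) ^ 2) * chord (u : OnePoint ℂ) (u' : OnePoint ℂ)) := by
          gcongr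
          exact dist_le_chord hu2 hu2'
      _ = A * M * chord (u : OnePoint ℂ) (u' : OnePoint ℂ) := by rw [hA]; ring
      _ ≤ M' * chord (u : OnePoint ℂ) (u' : OnePoint ℂ) :=
          mul_le_mul_of_nonneg_right g1 (chord_nonneg _ _)
  · intro m c hm hcc hall
    have hex : ∀ i, ∃ z : ℂ, i ≤ m → z ∈ Fr d P Q ∧ (z : OnePoint ℂ) = c i := by
      intro i
      by_cases hi : i ≤ m
      · rcases Nat.lt_or_ge i m with h3 | h3
        · obtain ⟨⟨z, hz, hz'⟩, -⟩ := hall i h3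
          exact ⟨z, fun _ => ⟨hz, hz'⟩⟩
        · have h4 : i = m := by omega
          obtain ⟨⟨z, hz, hz'⟩, -⟩ := hall 0 hm
          exact ⟨z, fun _ => ⟨hz, by rw [h4, hcc]; exact hz'⟩⟩
      · exact ⟨0, fun h3 => absurd h3 hi⟩
    choose z hz using hex
    refine h2 m z hm ?_ fun i hi => ?_
    · apply OnePoint.coe_injective
      rw [(hz m le_rfl).2, (hz 0 (by omega)).2, hcc]
    · obtain ⟨hzi, hzi'⟩ := hz i hi.le
      obtain ⟨hzj, hzj'⟩ := hz (i + 1) hi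
      obtain ⟨-, j, hj, hj'⟩ := hall i hi
      refine ⟨hzi, j, hj, ?_⟩
      rw [← hzi', ← hzj', hcv _ hzi, iter_coe j fun k _ => hqv _ hzi k] at hj'
      have hb1 : ‖(rf P Q)^[j] (rf P Q (z i))‖ ≤ R := by
        have := hna _ hzi (j + 1)
        rwa [Function.iterate_succ_apply] at this
      have hb2 := dist_le_chord (hb1.trans (by linarith : R ≤ R + 1))
        ((hna _ hzj 0).trans (by linarith : R ≤ R + 1))
      rw [Function.iterate_zero_apply] at hb2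
      refine hb2.trans (le_trans ?_ g2)
      rw [← hA]
      gcongr

/-- The bounds for a conjugate map. -/
theorem Cj.slo (J : Cj d P Q b h L)
    (hK : Slo K (sph d (tP d b P Q) (tQ d b P Q))
      ((fun z : ℂ => (z : OnePoint ℂ)) '' Fr d (tP d b P Q) (tQ d b P Q))) :
    Slo (kA (L ^ 2) K) (sph d P Q) (FrG d P Q) := by
  have hit := J.conj_iter
  have hlip := J.lip
  have hL1 := J.L1
  have hco := J.conj
  have hfr := J.frg
  obtain ⟨g, hg⟩ : ∃ g, g = sph d (tP d b P Q) (tQ d b P Q) := ⟨_, rfl⟩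
  obtain ⟨F, hF⟩ : ∃ F, F = Fr d (tP d b P Q) (tQ d b P Q) := ⟨_, rfl⟩
  rw [← hg, ← hF] at hK
  rw [← hg] at hco hit
  rw [← hF] at hfr
  have hL2 : 1 ≤ L ^ 2 := one_le_pow₀ hL1
  have hL0 : 0 < L := by linarith
  have hLL : L ≤ L ^ 2 := by nlinarith
  intro n hn
  obtain ⟨h1, h2⟩ := hK n hn
  have g1 := kA_le (K := K) hL2 hn
  have g2 := kA_le' (K := K) hL2 hn
  obtain ⟨M', hM'⟩ : ∃ M', M' = Real.exp (kA (L ^ 2) K * Real.log n ^ 2) := ⟨_, rfl⟩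
  obtain ⟨M, hM⟩ : ∃ M, M = Real.exp (K * Real.log n ^ 2) := ⟨_, rfl⟩
  obtain ⟨σ', hσ'⟩ : ∃ σ', σ' = Real.exp (-(kA (L ^ 2) K * Real.log n ^ 2)) := ⟨_, rfl⟩
  obtain ⟨σ, hσ⟩ : ∃ σ, σ = Real.exp (-(K * Real.log n ^ 2)) := ⟨_, rfl⟩
  have hM0 : 0 < M := by rw [hM]; exact Real.exp_pos _
  have hσ0 : 0 < σ' := by rw [hσ']; exact Real.exp_pos _
  rw [← hM, ← hM'] at g1
  rw [← hσ, ← hσ'] at g2
  rw [← hσ, ← hM] at h1
  rw [← hσ] at h2
  rw [← hM', ← hσ']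
  have hchn : ∀ x y, 0 ≤ chord x y := chord_nonneg
  have key : ∀ x y : OnePoint ℂ, chord (h x) (h y) < σ' → chord x y < σ := by
    intro x y hxy
    calc chord x y ≤ L * chord (h x) (h y) := (hlip x y).2
      _ < L * σ' := by gcongr
      _ ≤ L ^ 2 * σ' := by gcongr
      _ ≤ σ := g2
  constructor
  · intro c hc x y hx hy
    rw [hfr] at hc
    obtain ⟨w, hw, rfl⟩ := hc
    obtain ⟨x, rfl⟩ := h.surjective x
    obtain ⟨y, rfl⟩ := h.surjective y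
    simp only at hx hy
    rw [hco] at hx hy
    rw [hit, hit]
    calc chord (h (g^[n] x)) (h (g^[n] y)) ≤ L * chord (g^[n] x) (g^[n] y) := (hlip _ _).1
      _ ≤ L * (M * chord x y) := by
          gcongr
          exact h1 _ ⟨w, hw, rfl⟩ x y (key _ _ hx) (key _ _ hy)
      _ ≤ L * (M * (L * chord (h x) (h y))) := by
          gcongr
          exact (hlip _ _).2
      _ = L ^ 2 * M * chord (h x) (h y) := by ring
      _ ≤ M' * chord (h x) (h y) := mul_le_mul_of_nonneg_right g1 (hchn _ _)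
  · intro m c hm hcc hall
    refine h2 m (fun i => h.symm (c i)) hm (by simp only [hcc]) fun i hi => ?_
    obtain ⟨k1, j, k2, k3⟩ := hall i hi
    constructor
    · rw [hfr] at k1
      obtain ⟨w, hw, hw'⟩ := k1
      refine ⟨w, hw, ?_⟩
      simp only at hw' ⊢
      rw [← hw', h.symm_apply_apply]
    · refine ⟨j, k2, key _ _ ?_⟩
      rw [← hit, ← hco, h.apply_symm_apply, h.apply_symm_apply]
      exact k3

end Pool.Agent.Zk29.Mu
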