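import Pool.Agent.Zk29.Mu.S2
import Pool.Agent.Zk29.Mu.R2

/-!
# Density with locally uniform bounds in the chordal metric
-/

set_option autoImplicit false

open Filter Topology Metric Set Polynomial
open scoped OnePoint

namespace Pool.Agent.Zk29.Mu

open Pool.Agent.H792R2.CE Pool.Agent.H792R2.CE.C2x Pool.Agent.Zk29.Rat
open Pool.Agent.Helper114.Herman

variable {d : ℕ} {P Q : ℂ[X]}

/-- The free critical points in the plane, as points of the sphere. -/
def FrC (d : ℕ) (P Q : ℂ[X]) : Set (OnePoint ℂ) := (fun z : ℂ => (z : OnePoint ℂ)) '' Fr d P Q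

/-- The open set of maps which are not approximated by maps with fewer free critical points. -/
theorem dense_nf (hd : 2 ≤ d) (h : Nrm d P Q) {ε : ℝ} (hε : 0 < ε) :
    ∃ (b₀ : Cf d) (n₀ : ℕ), ‖b₀‖ < ε ∧ ∀ᶠ b : Cf d in 𝓝 b₀,
      Nice d (P + pl b.1) (Q + pl b.2) ∧ (Fr d (P + pl b.1) (Q + pl b.2)).ncard = n₀ ∧ ‖b‖ < ε ∧
      ¬ Fewer d (P + pl b.1) (Q + pl b.2) := by
  classical
  have hd0 : 0 < d := by omega
  have hex : ∃ n : ℕ, ∃ b : Cf d, ‖b‖ < ε ∧ Nice d (P + pl b.1) (Q + pl b.2) ∧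
      (Fr d (P + pl b.1) (Q + pl b.2)).ncard = n := by
    obtain ⟨b, hb1, hb2⟩ := exists_nice hd h hε
    exact ⟨_, b, hb1, hb2, rfl⟩
  obtain ⟨b₀, hb₀, hnice, hcard⟩ := Nat.find_spec hex
  obtain ⟨n₀, hn₀⟩ : ∃ n₀, n₀ = Nat.find hex := ⟨_, rfl⟩
  rw [← hn₀] at hcard
  have hmin : ∀ b : Cf d, ‖b‖ < ε → Nice d (P + pl b.1) (Q + pl b.2) →
      n₀ ≤ (Fr d (P + pl b.1) (Q + pl b.2)).ncard := by
    intro b h1 h2
    rw [hn₀]
    exact Nat.find_min' hex ⟨b, h1, h2, rfl⟩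
  refine ⟨b₀, n₀, hb₀, ?_⟩
  have h1 := nice_usc hd hnice
  have h2 : Tendsto (fun b : Cf d => b - b₀) (𝓝 b₀) (𝓝 0) := by
    have h3 : Continuous (fun b : Cf d => b - b₀) := continuous_id.sub continuous_const
    have h4 := h3.tendsto b₀
    simpa using h4
  have h5 : ∀ᶠ b : Cf d in 𝓝 b₀, ‖b‖ < ε :=
    (continuous_norm.tendsto b₀).eventually (Iio_mem_nhds hb₀)
  filter_upwards [h2.eventually h1, h5] with b h6 h7
  have e1 : P + pl b₀.1 + pl (b - b₀).1 = P + pl b.1 := by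
    rw [add_assoc, ← pl_add, ← Prod.fst_add, add_sub_cancel]
  have e2 : Q + pl b₀.2 + pl (b - b₀).2 = Q + pl b.2 := by
    rw [add_assoc, ← pl_add, ← Prod.snd_add, add_sub_cancel]
  rw [e1, e2, hcard] at h6
  obtain ⟨hnb, hcb⟩ := h6
  refine ⟨hnb, le_antisymm hcb (hmin b h7 hnb), h7, ?_⟩
  intro hfew
  obtain ⟨P', Q', hn', hclose, hlt⟩ := hfew (ε - ‖b‖) (by linarith)
  obtain ⟨b', hb'⟩ : ∃ b' : Cf d, b' = b +
    (fun i : Fin (d + 1) => P'.coeff i - (P + pl b.1).coeff i,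
      fun i : Fin (d + 1) => Q'.coeff i - (Q + pl b.2).coeff i) := ⟨_, rfl⟩
  have hb'n : ‖b'‖ < ε := by
    rw [hb']
    refine lt_of_le_of_lt (norm_add_le _ _) ?_
    have h8 : ‖((fun i : Fin (d + 1) => P'.coeff i - (P + pl b.1).coeff i,
        fun i : Fin (d + 1) => Q'.coeff i - (Q + pl b.2).coeff i) : Cf d)‖ < ε - ‖b‖ := by
      rw [Prod.norm_def, max_lt_iff]
      constructor
      · rw [pi_norm_lt_iff (by linarith)]
        exact fun j => (hclose j).1
      · rw [pi_norm_lt_iff (by linarith)]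
        exact fun j => (hclose j).2
    linarith
  have e3 : P + pl b'.1 = P' := by
    rw [hb', Prod.fst_add, pl_add, ← add_assoc]
    ext k
    rw [coeff_add, pl_coeff]
    split_ifs with h8
    · simp
    · rw [add_zero, coeff_eq_zero_of_natDegree_lt (p := P') (by have := hn'.Pd; omega),
        coeff_eq_zero_of_natDegree_lt (by have := deg_add h.Pd b.1; omega)]
  have e4 : Q + pl b'.2 = Q' := by
    rw [hb', Prod.snd_add, pl_add, ← add_assoc]
    ext k
    rw [coeff_add, pl_coeff]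
    split_ifs with h8
    · simp
    · rw [add_zero, coeff_eq_zero_of_natDegree_lt (p := Q') (by have := hn'.Qd; omega),
        coeff_eq_zero_of_natDegree_lt (by have := deg_add h.Qd.le b.2; omega)]
  have h9 := hmin b' hb'n (by rw [e3, e4]; exact hn')
  rw [e3, e4] at h9
  omega

/-- Maps which are not approximated by maps with fewer free critical points are slow. -/
theorem slo_of_not (hd : 2 ≤ d) (h : Nice d P Q) (hna : ¬ Fewer d P Q) :
    ∃ K : ℝ, Slo K (sph d P Q) (FrC d P Q) := by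
  have hd0 : 0 < d := by omega
  obtain ⟨U, U₁, O⟩ := exists_many hd h
  obtain ⟨K, hK0, hK⟩ := tameL O hna
  obtain ⟨R, hR⟩ := natt_bdd hd0 h.nrm
  have hR' : ∀ z : ℂ, ¬ Att d P Q (z : OnePoint ℂ) → ‖z‖ ≤ max 0 R := by
    intro z hz
    have h1 := hR.self_of_nhds z
    simp only [Prod.fst_zero, Prod.snd_zero, pl_zero, add_zero] at h1
    exact (h1 hz).trans (le_max_right _ _)
  exact ⟨_, slo_plane h.nrm (le_max_left _ _) hR' hK0 hK⟩

/-- The iterates depend continuously on the parameters and on the point. -/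
lemma joint_coe (hd0 : 0 < d) (h : Nrm d P Q) (n : ℕ) (z : ℂ) :
    ContinuousAt (fun p : Cf d × ℂ =>
      (sph d (P + pl p.1.1) (Q + pl p.1.2))^[n] (p.2 : OnePoint ℂ)) (0, z) := by
  have h1 := joint hd0 h.cop h.Pd h.Qd n (z : OnePoint ℂ)
  have h2 : Continuous (fun p : Cf d × ℂ => (p.1, (p.2 : OnePoint ℂ))) :=
    continuous_fst.prodMk (OnePoint.continuous_coe.comp continuous_snd)
  exact ContinuousAt.comp (f := fun p : Cf d × ℂ => (p.1, (p.2 : OnePoint ℂ)))
    (x := ((0 : Cf d), z)) h1 h2.continuousAt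

/-- The bijection between the free critical points of nearby maps. -/
lemma bij_near (hd : 2 ≤ d) (h : Nice d P Q) {ρ : ℝ} (hρ : 0 < ρ) :
    ∀ᶠ b : Cf d in 𝓝 0, (Fr d (P + pl b.1) (Q + pl b.2)).ncard = (Fr d P Q).ncard →
      ∃ φ : ℂ → ℂ, ∀ z ∈ Fr d P Q, φ z ∈ Fr d (P + pl b.1) (Q + pl b.2) ∧ ‖φ z - z‖ < ρ := by
  have hd0 : 0 < d := by omega
  filter_upwards [nice_near hd h hρ] with b h6 hcb
  obtain ⟨hnb', g, hg1, hg2⟩ := h6
  have hfin : (Fr d P Q).Finite := Fr_fin (h.N0 hd0)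
  have himg : g '' Fr d (P + pl b.1) (Q + pl b.2) = Fr d P Q := by
    apply Set.eq_of_subset_of_ncard_le
    · rintro _ ⟨z, hz, rfl⟩
      exact (hg1 z hz).1
    · rw [hg2.ncard_image, hcb]
    · exact hfin
  have hex : ∀ z ∈ Fr d P Q, ∃ u, u ∈ Fr d (P + pl b.1) (Q + pl b.2) ∧ g u = z := by
    intro z hz
    rw [← himg] at hz
    obtain ⟨u, hu, hu'⟩ := hz
    exact ⟨u, hu, hu'⟩
  choose! φ hφ using hex
  refine ⟨φ, fun z hz => ⟨(hφ z hz).1, ?_⟩⟩
  have h1 := (hg1 _ (hφ z hz).1).2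
  rwa [(hφ z hz).2] at h1

/-- The set of maps which are not slow is open where the number of free critical points is
constant. -/
theorem not_slo_open (hd : 2 ≤ d) (h : Nice d P Q) {K : ℝ}
    (hns : ¬ Slo K (sph d P Q) (FrC d P Q)) :
    ∀ᶠ b : Cf d in 𝓝 0, (Fr d (P + pl b.1) (Q + pl b.2)).ncard = (Fr d P Q).ncard →
      ¬ Slo K (sph d (P + pl b.1) (Q + pl b.2)) (FrC d (P + pl b.1) (Q + pl b.2)) := by
  have hd0 : 0 < d := by omega
  have hz0 : ∀ (P' Q' : ℂ[X]), P' + pl (0 : Cf d).1 = P' ∧ Q' + pl (0 : Cf d).2 = Q' := by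
    intro P' Q'
    simp only [Prod.fst_zero, Prod.snd_zero, pl_zero, add_zero, and_self]
  obtain ⟨e1, e2⟩ := hz0 P Q
  unfold Slo at hns
  push Not at hns
  obtain ⟨n, hn, hns⟩ := hns
  by_cases hA : ∀ c ∈ FrC d P Q, ∀ x y : OnePoint ℂ,
      chord x (sph d P Q c) < Real.exp (-(K * Real.log n ^ 2)) →
      chord y (sph d P Q c) < Real.exp (-(K * Real.log n ^ 2)) →
      chord ((sph d P Q)^[n] x) ((sph d P Q)^[n] y) ≤ Real.exp (K * Real.log n ^ 2) * chord x y
  swap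
  · push Not at hA
    obtain ⟨c, ⟨w, hw, rfl⟩, x, y, hx, hy, hxy⟩ := hA
    simp only at hx hy
    -- the open conditions
    have hjx : ∀ x : OnePoint ℂ, ContinuousAt (fun b : Cf d =>
        (sph d (P + pl b.1) (Q + pl b.2))^[n] x) 0 := by
      intro x
      have h1 := joint hd0 h.cop h.Pd h.Qd n x
      have h2 : Continuous (fun b : Cf d => (b, x)) := continuous_id.prodMk continuous_const
      exact ContinuousAt.comp (f := fun b : Cf d => (b, x)) (x := (0 : Cf d)) h1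
        h2.continuousAt
    have c1 : ContinuousAt (fun b : Cf d => chord ((sph d (P + pl b.1) (Q + pl b.2))^[n] x)
        ((sph d (P + pl b.1) (Q + pl b.2))^[n] y)) 0 :=
      ContinuousAt.comp (g := fun p : OnePoint ℂ × OnePoint ℂ => chord p.1 p.2)
        (f := fun b : Cf d => ((sph d (P + pl b.1) (Q + pl b.2))^[n] x,
          (sph d (P + pl b.1) (Q + pl b.2))^[n] y)) (x := (0 : Cf d))
        chord_cont2.continuousAt ((hjx x).prodMk (hjx y))
    have hev1 : ∀ᶠ b : Cf d in 𝓝 0, Real.exp (K * Real.log n ^ 2) * chord x y <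
        chord ((sph d (P + pl b.1) (Q + pl b.2))^[n] x)
          ((sph d (P + pl b.1) (Q + pl b.2))^[n] y) := by
      apply c1.eventually_const_lt
      simp only [e1, e2]
      exact hxy
    have hj1 : ∀ x : OnePoint ℂ, ContinuousAt (fun p : Cf d × ℂ =>
        chord x (sph d (P + pl p.1.1) (Q + pl p.1.2) (p.2 : OnePoint ℂ))) (0, w) := by
      intro x
      have h1 := joint_coe hd0 h.nrm 1 w
      simp only [Function.iterate_one] at h1
      exact ContinuousAt.comp (g := fun p : OnePoint ℂ × OnePoint ℂ => chord p.1 p.2)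
        (f := fun p : Cf d × ℂ => (x, sph d (P + pl p.1.1) (Q + pl p.1.2) (p.2 : OnePoint ℂ)))
        (x := ((0 : Cf d), w)) chord_cont2.continuousAt (continuousAt_const.prodMk h1)
    have hev2 : ∀ x : OnePoint ℂ, chord x (sph d P Q (w : OnePoint ℂ)) <
        Real.exp (-(K * Real.log n ^ 2)) → ∀ᶠ p : Cf d × ℂ in 𝓝 (0, w),
        chord x (sph d (P + pl p.1.1) (Q + pl p.1.2) (p.2 : OnePoint ℂ)) <
          Real.exp (-(K * Real.log n ^ 2)) := by
      intro x hx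
      apply (hj1 x).eventually_lt_const
      simp only [e1, e2]
      exact hx
    obtain ⟨ρ, hρ, h2⟩ := Metric.eventually_nhds_iff.1 ((hev2 x hx).and (hev2 y hy))
    have h5 : ∀ᶠ e : Cf d in 𝓝 0, ‖e‖ < ρ := by
      have h6 : ‖(0 : Cf d)‖ < ρ := by rw [norm_zero]; exact hρ
      exact (continuous_norm.tendsto (0 : Cf d)).eventually (Iio_mem_nhds h6)
    filter_upwards [bij_near hd h hρ, hev1, h5] with b k1 k2 k3 hcb
    obtain ⟨φ, hφ⟩ := k1 hcb
    obtain ⟨k4, k5⟩ := hφ w hw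
    obtain ⟨k6, k7⟩ := h2 (y := (b, φ w)) (by
      rw [Prod.dist_eq, max_lt_iff]
      exact ⟨by rwa [dist_zero_right], by rwa [dist_eq_norm]⟩)
    intro hS
    have := (hS n hn).1 _ ⟨φ w, k4, rfl⟩ x y k6 k7
    linarith
  · obtain ⟨m, c, hm, hcc, hall⟩ := hns hA
    have hex : ∀ i, ∃ z : ℂ, i ≤ m → z ∈ Fr d P Q ∧ (z : OnePoint ℂ) = c i := by
      intro i
      by_cases hi : i ≤ m
      · rcases Nat.lt_or_ge i m with h3 | h3
        · obtain ⟨⟨z, hz, hz'⟩, -⟩ := hall i h3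
          exact ⟨z, fun _ => ⟨hz, hz'⟩⟩
        · have h4 : i = m := by omega
          obtain ⟨⟨z, hz, hz'⟩, -⟩ := hall 0 hm
          exact ⟨z, fun _ => ⟨hz, by rw [h4, hcc]; exact hz'⟩⟩
      · exact ⟨0, fun h3 => absurd h3 hi⟩
    choose z hz using hex
    have hzm : z m = z 0 := by
      apply OnePoint.coe_injective
      rw [(hz m le_rfl).2, (hz 0 (by omega)).2, hcc]
    -- the open conditions
    have hev : ∀ i ∈ Finset.range m, ∀ᶠ ρ : ℝ in 𝓝[>] 0, ∀ (b : Cf d) (u u' : ℂ), ‖b‖ < ρ →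
        ‖u - z i‖ < ρ → ‖u' - z (i + 1)‖ < ρ → ∃ j ≤ n,
        chord ((sph d (P + pl b.1) (Q + pl b.2))^[j]
          (sph d (P + pl b.1) (Q + pl b.2) (u : OnePoint ℂ))) (u' : OnePoint ℂ) <
          Real.exp (-(K * Real.log n ^ 2)) := by
      intro i hi
      have hi' : i < m := Finset.mem_range.1 hi
      obtain ⟨-, j, hj, hj'⟩ := hall i hi'
      rw [← (hz i hi'.le).2, ← (hz (i + 1) hi').2] at hj'
      have h1 : ContinuousAt (fun p : (Cf d × ℂ) × ℂ =>
          (sph d (P + pl p.1.1.1) (Q + pl p.1.1.2))^[j + 1] (p.1.2 : OnePoint ℂ))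
          (((0 : Cf d), z i), z (i + 1)) :=
        ContinuousAt.comp (g := fun p : Cf d × ℂ =>
          (sph d (P + pl p.1.1) (Q + pl p.1.2))^[j + 1] (p.2 : OnePoint ℂ))
          (f := fun p : (Cf d × ℂ) × ℂ => p.1) (x := (((0 : Cf d), z i), z (i + 1)))
          (joint_coe hd0 h.nrm (j + 1) (z i)) continuousAt_fst
      have h2 : ContinuousAt (fun p : (Cf d × ℂ) × ℂ => (p.2 : OnePoint ℂ))
          (((0 : Cf d), z i), z (i + 1)) :=
        (OnePoint.continuous_coe.comp continuous_snd).continuousAt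
      have h3 : ContinuousAt (fun p : (Cf d × ℂ) × ℂ => chord
          ((sph d (P + pl p.1.1.1) (Q + pl p.1.1.2))^[j + 1] (p.1.2 : OnePoint ℂ))
          (p.2 : OnePoint ℂ)) (((0 : Cf d), z i), z (i + 1)) :=
        ContinuousAt.comp (g := fun p : OnePoint ℂ × OnePoint ℂ => chord p.1 p.2)
          (f := fun p : (Cf d × ℂ) × ℂ =>
            ((sph d (P + pl p.1.1.1) (Q + pl p.1.1.2))^[j + 1] (p.1.2 : OnePoint ℂ),
              (p.2 : OnePoint ℂ))) (x := (((0 : Cf d), z i), z (i + 1)))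
          chord_cont2.continuousAt (h1.prodMk h2)
      have h4 : ∀ᶠ p : (Cf d × ℂ) × ℂ in 𝓝 (((0 : Cf d), z i), z (i + 1)), chord
          ((sph d (P + pl p.1.1.1) (Q + pl p.1.1.2))^[j + 1] (p.1.2 : OnePoint ℂ))
          (p.2 : OnePoint ℂ) < Real.exp (-(K * Real.log n ^ 2)) := by
        apply h3.eventually_lt_const
        simp only [e1, e2]
        rw [Function.iterate_succ_apply]
        exact hj'
      obtain ⟨ρ₀, hρ₀, h5⟩ := Metric.eventually_nhds_iff.1 h4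
      have h6 : ∀ᶠ ρ : ℝ in 𝓝[>] 0, ρ < ρ₀ :=
        mem_nhdsWithin_of_mem_nhds (Iio_mem_nhds hρ₀)
      filter_upwards [h6] with ρ hρ b u u' k1 k2 k3
      refine ⟨j, hj, ?_⟩
      have h7 := h5 (y := ((b, u), u')) (by
        rw [Prod.dist_eq, Prod.dist_eq, max_lt_iff, max_lt_iff]
        refine ⟨⟨?_, ?_⟩, ?_⟩
        · rw [dist_zero_right]
          exact k1.trans hρ
        · rw [dist_eq_norm]
          exact k2.trans hρ
        · rw [dist_eq_norm]
          exact k3.trans hρ)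
      rw [Function.iterate_succ_apply] at h7
      exact h7
    obtain ⟨ρ, hρev, hρ0⟩ := (((Filter.eventually_all_finset (Finset.range m)).2 hev).and
      self_mem_nhdsWithin).exists
    have hρ : 0 < ρ := hρ0
    have h5 : ∀ᶠ e : Cf d in 𝓝 0, ‖e‖ < ρ := by
      have h6 : ‖(0 : Cf d)‖ < ρ := by rw [norm_zero]; exact hρ
      exact (continuous_norm.tendsto (0 : Cf d)).eventually (Iio_mem_nhds h6)
    filter_upwards [bij_near hd h hρ, h5] with b k1 k3 hcb
    obtain ⟨φ, hφ⟩ := k1 hcb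
    intro hS
    refine (hS n hn).2 m (fun i => (φ (z i) : OnePoint ℂ)) hm (by simp only [hzm])
      fun i hi => ⟨?_, ?_⟩
    · exact ⟨φ (z i), (hφ _ (hz i hi.le).1).1, rfl⟩
    · exact hρev i (Finset.mem_range.2 hi) b _ _ k3 (hφ _ (hz i hi.le).1).2
        (hφ _ (hz (i + 1) hi).1).2

/-- **The interior of the set of slow maps is dense; locally uniform version.** -/
theorem dense_unif3 (hd : 2 ≤ d) (h : Nrm d P Q) {ε : ℝ} (hε : 0 < ε) :
    ∃ (b₁ : Cf d) (K : ℝ), ‖b₁‖ < ε ∧ ∀ᶠ b : Cf d in 𝓝 b₁, Nice d (P + pl b.1) (Q + pl b.2) ∧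
      Slo K (sph d (P + pl b.1) (Q + pl b.2)) (FrC d (P + pl b.1) (Q + pl b.2)) := by
  classical
  have hd0 : 0 < d := by omega
  obtain ⟨b₀, n₀, hb₀, hev⟩ := dense_nf hd h hε
  obtain ⟨r, hr, hball⟩ := Metric.eventually_nhds_iff_ball.1 hev
  obtain ⟨F, hF⟩ : ∃ F : ℕ → Set (Cf d), F = fun K : ℕ => {b | b ∈ ball b₀ r →
    Slo (K : ℝ) (sph d (P + pl b.1) (Q + pl b.2)) (FrC d (P + pl b.1) (Q + pl b.2))} := ⟨_, rfl⟩
  have hFc : ∀ K, IsClosed (F K) := by
    intro K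
    rw [← isOpen_compl_iff, isOpen_iff_mem_nhds]
    intro b hb
    rw [hF, mem_compl_iff, mem_ofPred_eq] at hb
    push Not at hb
    obtain ⟨hbB, hns⟩ := hb
    obtain ⟨hnb, hcb, -, -⟩ := hball b hbB
    have h4 : Tendsto (fun b' : Cf d => b' - b) (𝓝 b) (𝓝 0) := by
      have h5 : Continuous (fun b' : Cf d => b' - b) := continuous_id.sub continuous_const
      have h6 := h5.tendsto b
      simpa using h6
    filter_upwards [h4.eventually (not_slo_open hd hnb hns), isOpen_ball.mem_nhds hbB] with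
      b' h6 h8
    have e1 : P + pl b.1 + pl (b' - b).1 = P + pl b'.1 := by
      rw [add_assoc, ← pl_add, ← Prod.fst_add, add_sub_cancel]
    have e2 : Q + pl b.2 + pl (b' - b).2 = Q + pl b'.2 := by
      rw [add_assoc, ← pl_add, ← Prod.snd_add, add_sub_cancel]
    rw [e1, e2] at h6
    obtain ⟨-, hcb', -, -⟩ := hball b' h8
    rw [hF, mem_compl_iff, mem_ofPred_eq]
    intro h11
    exact h6 (by rw [hcb, hcb']) (h11 h8)
  have hFu : ⋃ K, F K = univ := by
    rw [eq_univ_iff_forall]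
    intro b
    rw [mem_iUnion]
    by_cases hbB : b ∈ ball b₀ r
    swap
    · exact ⟨0, by rw [hF, mem_ofPred_eq]; exact fun h => absurd h hbB⟩
    obtain ⟨hnb, -, -, hnf⟩ := hball b hbB
    obtain ⟨K', hK'⟩ := slo_of_not hd hnb hnf
    obtain ⟨K, hK⟩ := exists_nat_ge K'
    refine ⟨K, ?_⟩
    rw [hF, mem_ofPred_eq]
    intro _
    exact hK'.mono hK
  have hdense := dense_iUnion_interior_of_closed hFc hFu
  obtain ⟨b₁, hb₁, hb₁'⟩ := hdense.inter_open_nonempty (ball b₀ r) isOpen_ball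
    ⟨b₀, mem_ball_self hr⟩
  rw [mem_iUnion] at hb₁'
  obtain ⟨K, hK⟩ := hb₁'
  refine ⟨b₁, K, (hball b₁ hb₁).2.2.1, ?_⟩
  filter_upwards [isOpen_interior.mem_nhds hK, isOpen_ball.mem_nhds hb₁] with b h1 h2
  obtain ⟨hnb, -, -, -⟩ := hball b h2
  have h3 := interior_subset h1
  rw [hF, mem_ofPred_eq] at h3
  exact ⟨hnb, h3 h2⟩

end Pool.Agent.Zk29.Mu
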