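import Pool.Agent.Zk29.Mu.S3
import Pool.Agent.Zk29.Mu.A2

/-!
# The theorem for all rational maps with attracting cycles, uniform form
-/

set_option autoImplicit false

open Filter Topology Metric Set Polynomial
open scoped OnePoint

namespace Pool.Agent.Zk29.Mu

open Pool.Agent.H792R2.CE Pool.Agent.H792R2.CE.C2x
open Pool.Agent.Helper114.Herman

variable {d : ℕ} {P Q : ℂ[X]} {b : ℂ} {h : OnePoint ℂ ≃ₜ OnePoint ℂ} {L : ℝ}

/-- The first part. -/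
theorem part1S (hd : 2 ≤ d) (h0 : RD d P Q) (hs : HasSink (sph d P Q))
    (hsim : ∀ c ∈ FrG d P Q, mult d P Q c = 1)
    (hc : ∀ K : ℝ, ¬ Slo K (sph d P Q) (FrG d P Q)) {ε : ℝ} (hε : 0 < ε) :
    ∃ P' Q' : ℂ[X], RD d P' Q' ∧ Cl ε P Q P' Q' ∧ HasSink (sph d P' Q') ∧
      (∀ c ∈ FrG d P' Q', mult d P' Q' c = 1) ∧ (FrG d P' Q').Finite ∧
      (FrG d P' Q').ncard < (FrG d P Q).ncard ∧ (FrG d P' Q' = ∅ → Hyp P' Q') := by
  obtain ⟨b, h, L, J⟩ := exists_cj (by omega) h0 hs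
  have hnice := J.nice.1 hsim
  have hfew : Fewer d (tP d b P Q) (tQ d b P Q) := by
    by_contra hna
    obtain ⟨K, hK⟩ := slo_of_not hd hnice hna
    exact hc _ (J.slo hK)
  obtain ⟨L', hL', hback⟩ := back_close d b
  obtain ⟨S, T, hn, hcl, hlt⟩ := hfew (ε / L') (by positivity)
  have J' := J.back hn.nrm
  have hS : tP d b (iP d b S T) (iQ d b S T) = S := tP_i hn.Pd
  have hT : tQ d b (iP d b S T) (iQ d b S T) = T := tQ_i hn.Pd hn.Qd.le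
  refine ⟨iP d b S T, iQ d b S T, J'.rd, ?_, J'.has, ?_, J'.fin, ?_, J'.hyp⟩
  · intro i
    have h1 := hback _ _ _ _ (ε / L') (by positivity) hcl i
    rw [iP_t (rd_deg h0).1, iQ_t (rd_deg h0).2] at h1
    have e : L' * (ε / L') = ε := by field_simp
    rwa [e] at h1
  · rw [J'.nice, hS, hT]
    exact hn
  · rw [J'.card, J.card, hS, hT]
    exact hlt

/-- The second part, near a map with an attracting cycle. -/
theorem part2S (hd : 2 ≤ d) (h0 : RD d P Q) (hs : HasSink (sph d P Q)) {ε : ℝ} (hε : 0 < ε) :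
    ∃ P₁ Q₁ : ℂ[X], RD d P₁ Q₁ ∧ Cl ε P Q P₁ Q₁ ∧ (∃ η K : ℝ, 0 < η ∧
      ∀ P' Q' : ℂ[X], P'.natDegree ≤ d → Q'.natDegree ≤ d → Cl η P₁ Q₁ P' Q' →
        RD d P' Q' ∧ HasSink (sph d P' Q') ∧ (∀ c ∈ FrG d P' Q', mult d P' Q' c = 1) ∧
          Slo K (sph d P' Q') (FrG d P' Q')) ∧
      HasSink (sph d P₁ Q₁) ∧ (FrG d P₁ Q₁).Finite ∧ (FrG d P₁ Q₁ = ∅ → Hyp P₁ Q₁) ∧
      ((∀ c ∈ FrG d P Q, mult d P Q c = 1) → (FrG d P₁ Q₁).ncard ≤ (FrG d P Q).ncard) := by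
  obtain ⟨b, h, L, J⟩ := exists_cj (by omega) h0 hs
  obtain ⟨L₁, hL₁, hback⟩ := back_close d b
  obtain ⟨L₂, hL₂, hforth⟩ := forth_close d b
  obtain ⟨ρ₀, hρ₀, husc⟩ : ∃ ρ₀ : ℝ, 0 < ρ₀ ∧ ((∀ c ∈ FrG d P Q, mult d P Q c = 1) →
      ∀ e : Cf d, ‖e‖ < ρ₀ → (Fr d (tP d b P Q + pl e.1) (tQ d b P Q + pl e.2)).ncard ≤
        (Fr d (tP d b P Q) (tQ d b P Q)).ncard) := by
    by_cases hsim : ∀ c ∈ FrG d P Q, mult d P Q c = 1
    · obtain ⟨ρ₀, hρ₀, h1⟩ := Metric.eventually_nhds_iff.1 (nice_usc hd (J.nice.1 hsim))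
      exact ⟨ρ₀, hρ₀, fun _ e he => (h1 (by rwa [dist_zero_right])).2⟩
    · exact ⟨1, one_pos, fun h => absurd h hsim⟩
  obtain ⟨b₁, K, hb₁', hev⟩ := dense_unif3 hd J.nrm (ε := min (ε / L₁) ρ₀) (by positivity)
  have hb₁ : ‖b₁‖ < ε / L₁ := hb₁'.trans_le (min_le_left _ _)
  have hb₁'' : ‖b₁‖ < ρ₀ := hb₁'.trans_le (min_le_right _ _)
  obtain ⟨S, hS⟩ : ∃ S, S = tP d b P Q + pl b₁.1 := ⟨_, rfl⟩
  obtain ⟨T, hT⟩ : ∃ T, T = tQ d b P Q + pl b₁.2 := ⟨_, rfl⟩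
  have hnrm : Nrm d S T := by
    rw [hS, hT]
    exact hev.self_of_nhds.1.nrm
  have hsub : Tendsto (fun b' : Cf d => b' + b₁) (𝓝 0) (𝓝 b₁) := by
    have h3 : Continuous (fun b' : Cf d => b' + b₁) := continuous_id.add continuous_const
    have h4 := h3.tendsto 0
    simpa using h4
  obtain ⟨ρ, hρ, hball⟩ := Metric.eventually_nhds_iff.1 (hsub.eventually hev)
  have J₁ := J.back hnrm
  have hS₁ : tP d b (iP d b S T) (iQ d b S T) = S := tP_i hnrm.Pd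
  have hT₁ : tQ d b (iP d b S T) (iQ d b S T) = T := tQ_i hnrm.Pd hnrm.Qd.le
  refine ⟨iP d b S T, iQ d b S T, J₁.rd, ?_, ⟨ρ / L₂, kA (L ^ 2) K, by positivity, ?_⟩,
    J₁.has, J₁.fin, J₁.hyp, fun hsim => ?_⟩
  · intro i
    have hle : ∀ {A : ℂ[X]} {a : Fin (d + 1) → ℂ}, (∀ j, ‖a j‖ < ε / L₁) → ∀ i,
        ‖(A + pl a).coeff i - A.coeff i‖ < ε / L₁ := by
      intro A a ha i
      rw [coeff_add, add_sub_cancel_left, pl_coeff]
      split_ifs with h1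
      · exact ha _
      · rw [norm_zero]
        positivity
    have hb1 : ∀ j, ‖b₁.1 j‖ < ε / L₁ := fun j =>
      (norm_le_pi_norm b₁.1 j).trans_lt ((norm_fst_le b₁).trans_lt hb₁)
    have hb2 : ∀ j, ‖b₁.2 j‖ < ε / L₁ := fun j =>
      (norm_le_pi_norm b₁.2 j).trans_lt ((norm_snd_le b₁).trans_lt hb₁)
    have h1 := hback (tP d b P Q) (tQ d b P Q) S T (ε / L₁) (by positivity) (fun k => by
      rw [hS, hT]
      exact ⟨hle hb1 k, hle hb2 k⟩) i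
    rw [iP_t (rd_deg h0).1, iQ_t (rd_deg h0).2] at h1
    have e : L₁ * (ε / L₁) = ε := by field_simp
    rwa [e] at h1
  · intro P' Q' hP' hQ' hcl
    have h1 : ∀ i, ‖(tP d b P' Q').coeff i - S.coeff i‖ < ρ ∧
        ‖(tQ d b P' Q').coeff i - T.coeff i‖ < ρ := by
      intro i
      have h2 := hforth (iP d b S T) (iQ d b S T) P' Q' (ρ / L₂) (by positivity) hcl i
      rw [hS₁, hT₁] at h2
      have e : L₂ * (ρ / L₂) = ρ := by field_simp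
      rwa [e] at h2
    obtain ⟨a, ha⟩ : ∃ a : Cf d, a =
      (fun i : Fin (d + 1) => (tP d b P' Q').coeff i - S.coeff i,
        fun i : Fin (d + 1) => (tQ d b P' Q').coeff i - T.coeff i) := ⟨_, rfl⟩
    have han : dist a 0 < ρ := by
      rw [dist_zero_right, ha, Prod.norm_def, max_lt_iff]
      constructor
      · rw [pi_norm_lt_iff hρ]
        exact fun j => (h1 j).1
      · rw [pi_norm_lt_iff hρ]
        exact fun j => (h1 j).2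
    have e3 : S + pl a.1 = tP d b P' Q' := by
      rw [ha]
      ext k
      rw [coeff_add, pl_coeff]
      split_ifs with h8
      · simp
      · rw [add_zero, coeff_eq_zero_of_natDegree_lt (p := tP d b P' Q')
          (by have : (tP d b P' Q').natDegree ≤ d := tP_deg
              omega),
          coeff_eq_zero_of_natDegree_lt (by have := hnrm.Pd; omega)]
    have e4 : T + pl a.2 = tQ d b P' Q' := by
      rw [ha]
      ext k
      rw [coeff_add, pl_coeff]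
      split_ifs with h8
      · simp
      · rw [add_zero, coeff_eq_zero_of_natDegree_lt (p := tQ d b P' Q')
          (by have : (tQ d b P' Q').natDegree ≤ d := tQ_deg
              omega),
          coeff_eq_zero_of_natDegree_lt (by have := hnrm.Qd; omega)]
    obtain ⟨h6, h7⟩ := hball han
    have e5 : tP d b P Q + pl (a + b₁).1 = tP d b P' Q' := by
      rw [← e3, hS, Prod.fst_add, pl_add]
      ring
    have e6 : tQ d b P Q + pl (a + b₁).2 = tQ d b P' Q' := by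
      rw [← e4, hT, Prod.snd_add, pl_add]
      ring
    rw [e5, e6] at h6 h7
    have J' := J.other hP' hQ' h6.nrm
    exact ⟨J'.rd, J'.has, J'.nice.2 h6, J'.slo h7⟩
  · rw [J₁.card, J.card, hS₁, hT₁, hS, hT]
    exact husc hsim b₁ hb₁''

/-- **The theorem.** -/
theorem mainS (hd : 2 ≤ d) (h0 : RD d P Q) {ε : ℝ} (hε : 0 < ε) :
    ∃ P₁ Q₁ : ℂ[X], RD d P₁ Q₁ ∧ Cl ε P Q P₁ Q₁ ∧
      (∃ η K : ℝ, 0 < η ∧
        ∀ P' Q' : ℂ[X], P'.natDegree ≤ d → Q'.natDegree ≤ d → Cl η P₁ Q₁ P' Q' →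
          RD d P' Q' ∧ (HasSink (sph d P' Q') →
            (∀ c ∈ FrG d P' Q', mult d P' Q' c = 1) ∧ Slo K (sph d P' Q') (FrG d P' Q'))) ∧
      (HasSink (sph d P Q) → (∀ c ∈ FrG d P Q, mult d P Q c = 1) →
        (∀ K : ℝ, ¬ Slo K (sph d P Q) (FrG d P Q)) →
        HasSink (sph d P₁ Q₁) ∧ (FrG d P₁ Q₁).Finite ∧
          (FrG d P₁ Q₁).ncard < (FrG d P Q).ncard ∧ (FrG d P₁ Q₁ = ∅ → Hyp P₁ Q₁)) := by
  by_cases hall : HasSink (sph d P Q) ∧ (∀ c ∈ FrG d P Q, mult d P Q c = 1) ∧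
      (∀ K : ℝ, ¬ Slo K (sph d P Q) (FrG d P Q))
  · obtain ⟨hs, hsim, hbad⟩ := hall
    obtain ⟨P₀, Q₀, h1, h2, h3, h4, -, h5, -⟩ := part1S hd h0 hs hsim hbad (ε := ε / 2)
      (by positivity)
    obtain ⟨P₁, Q₁, g1, g2, ⟨η, K, hη, g3⟩, g4, g5, g6, g7⟩ := part2S hd h1 h3 (ε := ε / 2)
      (by positivity)
    refine ⟨P₁, Q₁, g1, ?_, ⟨η, K, hη, fun P' Q' hP' hQ' hcl =>
      ⟨(g3 P' Q' hP' hQ' hcl).1, fun _ => (g3 P' Q' hP' hQ' hcl).2.2⟩⟩,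
      fun _ _ _ => ⟨g4, g5, (g7 h4).trans_lt h5, g6⟩⟩
    have := h2.trans g2
    rwa [add_halves] at this
  by_cases H : ∃ P₀ Q₀ : ℂ[X], RD d P₀ Q₀ ∧ Cl (ε / 2) P Q P₀ Q₀ ∧ HasSink (sph d P₀ Q₀)
  · obtain ⟨P₀, Q₀, h1, h2, h3⟩ := H
    obtain ⟨P₁, Q₁, h4, h5, ⟨η, K, hη, h6⟩, -⟩ := part2S hd h1 h3 (ε := ε / 2) (by positivity)
    refine ⟨P₁, Q₁, h4, ?_, ⟨η, K, hη, fun P' Q' hP' hQ' hcl =>
      ⟨(h6 P' Q' hP' hQ' hcl).1, fun _ => (h6 P' Q' hP' hQ' hcl).2.2⟩⟩,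
      fun a1 a2 a3 => absurd ⟨a1, a2, a3⟩ hall⟩
    have := h2.trans h5
    rwa [add_halves] at this
  · obtain ⟨η, hη, hop⟩ := rd_open (by omega : 0 < d) h0
    refine ⟨P, Q, h0, fun i => by simp [hε], ⟨min η (ε / 2), 0, by positivity,
      fun P' Q' hP' hQ' hcl => ?_⟩, fun a1 a2 a3 => absurd ⟨a1, a2, a3⟩ hall⟩
    have h1 : RD d P' Q' := hop P' Q' hP' hQ' fun i =>
      ⟨(hcl i).1.trans_le (min_le_left _ _), (hcl i).2.trans_le (min_le_left _ _)⟩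
    refine ⟨h1, fun hs => absurd ⟨P', Q', h1, fun i => ?_, hs⟩ H⟩
    exact ⟨(hcl i).1.trans_le (min_le_right _ _), (hcl i).2.trans_le (min_le_right _ _)⟩

end Pool.Agent.Zk29.Mu
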