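import Pool.Agent.H792R2.CE.Core
import Pool.Agent.H792R2.CE.D7

/-!
# Conjugation by `w ↦ b + 1 / w`
-/

set_option autoImplicit false

open Filter Topology Metric Set Polynomial
open scoped OnePoint

namespace Pool.Agent.Zk29.Mu

open Pool.Agent.H792R2.CE
open Pool.Agent.Helper114.Herman

/-- The polynomial `w ^ N P(b + 1 / w)`. -/
noncomputable def tr (N : ℕ) (b : ℂ) (P : ℂ[X]) : ℂ[X] :=
  ∑ k ∈ Finset.range (N + 1), C (P.coeff k) * ((C b * X + 1) ^ k * X ^ (N - k))

/-- The polynomial `(z - b) ^ N R(1 / (z - b))`. -/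
noncomputable def ti (N : ℕ) (b : ℂ) (R : ℂ[X]) : ℂ[X] :=
  ∑ k ∈ Finset.range (N + 1), C (R.coeff k) * (X - C b) ^ (N - k)

variable {N : ℕ} {b : ℂ} {P Q R S : ℂ[X]}

lemma tr_deg : (tr N b P).natDegree ≤ N := by
  unfold tr
  refine natDegree_sum_le_of_forall_le _ _ fun k hk => ?_
  rw [Finset.mem_range] at hk
  refine (natDegree_C_mul_le _ _).trans ?_
  refine natDegree_mul_le.trans ?_
  have h1 : ((C b * X + 1 : ℂ[X]) ^ k).natDegree ≤ k := by
    refine natDegree_pow_le.trans ?_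
    have h2 : (C b * X + 1 : ℂ[X]).natDegree ≤ 1 := by
      refine (natDegree_add_le _ _).trans (max_le ?_ ?_)
      · exact (natDegree_C_mul_le _ _).trans natDegree_X_le
      · simp
    calc k * (C b * X + 1 : ℂ[X]).natDegree ≤ k * 1 := Nat.mul_le_mul_left _ h2
      _ = k := mul_one k
  rw [natDegree_X_pow]
  omega

lemma ti_deg : (ti N b P).natDegree ≤ N := by
  unfold ti
  refine natDegree_sum_le_of_forall_le _ _ fun k hk => ?_
  refine (natDegree_C_mul_le _ _).trans ?_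
  refine natDegree_pow_le.trans ?_
  rw [natDegree_X_sub_C]
  omega

lemma tr_eval (w : ℂ) : (tr N b P).eval w = hom P N (b * w + 1) w := by
  unfold tr hom
  rw [eval_finsetSum]
  refine Finset.sum_congr rfl fun k _ => ?_
  simp only [eval_mul, eval_C, eval_pow, eval_add, eval_X, eval_one]
  ring

lemma ti_eval (z : ℂ) : (ti N b P).eval z = hom P N 1 (z - b) := by
  unfold ti hom
  rw [eval_finsetSum]
  refine Finset.sum_congr rfl fun k _ => ?_
  simp only [eval_mul, eval_C, eval_pow, eval_sub, eval_X, one_pow, mul_one]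

lemma hom_smul (P : ℂ[X]) (N : ℕ) (t u v : ℂ) :
    hom P N (t * u) (t * v) = t ^ N * hom P N u v := by
  unfold hom
  rw [Finset.mul_sum]
  refine Finset.sum_congr rfl fun k hk => ?_
  rw [Finset.mem_range] at hk
  have h1 : t ^ N = t ^ k * t ^ (N - k) := by
    rw [← pow_add]
    congr 1
    omega
  rw [h1, mul_pow, mul_pow]
  ring

lemma hom_c (P : ℂ[X]) (N : ℕ) {f g : ℂ → ℂ} (hf : Continuous f) (hg : Continuous g) :
    Continuous fun v => hom P N (f v) (g v) :=
  (continuous_hom P N).comp (hf.prodMk hg)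

lemma hom_tr (u v : ℂ) : hom (tr N b P) N u v = hom P N (b * u + v) u := by
  have h1 : (fun v => hom (tr N b P) N u v) = fun v => hom P N (b * u + v) u := by
    apply Continuous.ext_on (dense_compl_singleton (0 : ℂ))
      (hom_c _ _ continuous_const continuous_id) (hom_c _ _ (by fun_prop) continuous_const)
    intro v hv
    have hv' : v ≠ 0 := hv
    change hom (tr N b P) N u v = hom P N (b * u + v) u
    rw [hom_ne tr_deg hv', tr_eval, ← hom_smul]
    congr 1
    · field_simp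
    · field_simp
  exact congrFun h1 v

lemma hom_ti (u v : ℂ) : hom (ti N b P) N u v = hom P N v (u - b * v) := by
  have h1 : (fun v => hom (ti N b P) N u v) = fun v => hom P N v (u - b * v) := by
    apply Continuous.ext_on (dense_compl_singleton (0 : ℂ))
      (hom_c _ _ continuous_const continuous_id) (hom_c _ _ continuous_id (by fun_prop))
    intro v hv
    have hv' : v ≠ 0 := hv
    change hom (ti N b P) N u v = hom P N v (u - b * v)
    rw [hom_ne ti_deg hv', ti_eval, ← hom_smul]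
    congr 1
    · field_simp
    · field_simp
  exact congrFun h1 v

lemma ti_tr (hP : P.natDegree ≤ N) : ti N b (tr N b P) = P := by
  apply Polynomial.funext
  intro z
  rw [ti_eval, hom_tr]
  have h1 : b * 1 + (z - b) = z := by ring
  rw [h1, hom_ne hP one_ne_zero, one_pow, one_mul, div_one]

lemma tr_ti (hP : P.natDegree ≤ N) : tr N b (ti N b P) = P := by
  apply Polynomial.funext
  intro z
  rw [tr_eval, hom_ti]
  have h1 : b * z + 1 - b * z = 1 := by ring
  rw [h1, hom_ne hP one_ne_zero, one_pow, one_mul, div_one]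

/-- Continuity of the linear maps in the coefficients. -/
lemma lin_close {A : ℕ → ℂ[X]} {T : ℂ[X] → ℂ[X]}
    (hT : ∀ P, T P = ∑ k ∈ Finset.range (N + 1), C (P.coeff k) * A k)
    (hA : ∀ k ∈ Finset.range (N + 1), (A k).natDegree ≤ N) :
    ∃ L : ℝ, 0 < L ∧ ∀ (P P' : ℂ[X]) (δ : ℝ), 0 < δ → (∀ k, ‖P'.coeff k - P.coeff k‖ < δ) →
      ∀ i, ‖(T P').coeff i - (T P).coeff i‖ < L * δ := by
  obtain ⟨L, hL⟩ : ∃ L : ℝ, L = ∑ k ∈ Finset.range (N + 1), ∑ i ∈ Finset.range (N + 1),
      ‖(A k).coeff i‖ := ⟨_, rfl⟩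
  have hL0 : 0 ≤ L := by
    rw [hL]
    exact Finset.sum_nonneg fun _ _ => Finset.sum_nonneg fun _ _ => norm_nonneg _
  refine ⟨L + 1, by linarith, fun P P' δ hδ h i => ?_⟩
  have h1 : (T P').coeff i - (T P).coeff i = ∑ k ∈ Finset.range (N + 1),
      (P'.coeff k - P.coeff k) * (A k).coeff i := by
    rw [hT, hT, finsetSum_coeff, finsetSum_coeff, ← Finset.sum_sub_distrib]
    refine Finset.sum_congr rfl fun k _ => ?_
    rw [coeff_C_mul, coeff_C_mul]
    ring
  rw [h1]
  have h2 : ∀ k ∈ Finset.range (N + 1), ‖(P'.coeff k - P.coeff k) * (A k).coeff i‖ ≤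
      δ * ∑ i ∈ Finset.range (N + 1), ‖(A k).coeff i‖ := by
    intro k hk
    rw [norm_mul]
    have h3 : ‖(A k).coeff i‖ ≤ ∑ i ∈ Finset.range (N + 1), ‖(A k).coeff i‖ := by
      by_cases hi : i ∈ Finset.range (N + 1)
      · exact Finset.single_le_sum (f := fun i => ‖(A k).coeff i‖) (fun _ _ => norm_nonneg _) hi
      · rw [Finset.mem_range] at hi
        rw [coeff_eq_zero_of_natDegree_lt (by have := hA k hk; omega), norm_zero]
        exact Finset.sum_nonneg fun _ _ => norm_nonneg _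
    exact mul_le_mul (h k).le h3 (norm_nonneg _) hδ.le
  calc ‖∑ k ∈ Finset.range (N + 1), (P'.coeff k - P.coeff k) * (A k).coeff i‖
      ≤ ∑ k ∈ Finset.range (N + 1), ‖(P'.coeff k - P.coeff k) * (A k).coeff i‖ :=
        norm_sum_le _ _
    _ ≤ ∑ k ∈ Finset.range (N + 1), δ * ∑ i ∈ Finset.range (N + 1), ‖(A k).coeff i‖ :=
        Finset.sum_le_sum h2
    _ = L * δ := by rw [← Finset.mul_sum, ← hL, mul_comm]
    _ < (L + 1) * δ := by linarith

lemma tr_close (N : ℕ) (b : ℂ) : ∃ L : ℝ, 0 < L ∧ ∀ (P P' : ℂ[X]) (δ : ℝ), 0 < δ →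
    (∀ k, ‖P'.coeff k - P.coeff k‖ < δ) →
      ∀ i, ‖(tr N b P').coeff i - (tr N b P).coeff i‖ < L * δ := by
  refine lin_close (A := fun k => (C b * X + 1) ^ k * X ^ (N - k)) (fun P => rfl) fun k hk => ?_
  rw [Finset.mem_range] at hk
  refine natDegree_mul_le.trans ?_
  have h1 : ((C b * X + 1 : ℂ[X]) ^ k).natDegree ≤ k := by
    refine natDegree_pow_le.trans ?_
    have h2 : (C b * X + 1 : ℂ[X]).natDegree ≤ 1 := by
      refine (natDegree_add_le _ _).trans (max_le ?_ ?_)
      · exact (natDegree_C_mul_le _ _).trans natDegree_X_le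
      · simp
    calc k * (C b * X + 1 : ℂ[X]).natDegree ≤ k * 1 := Nat.mul_le_mul_left _ h2
      _ = k := mul_one k
  rw [natDegree_X_pow]
  omega

lemma ti_close (N : ℕ) (b : ℂ) : ∃ L : ℝ, 0 < L ∧ ∀ (P P' : ℂ[X]) (δ : ℝ), 0 < δ →
    (∀ k, ‖P'.coeff k - P.coeff k‖ < δ) →
      ∀ i, ‖(ti N b P').coeff i - (ti N b P).coeff i‖ < L * δ := by
  refine lin_close (A := fun k => (X - C b) ^ (N - k)) (fun P => rfl) fun k hk => ?_
  refine natDegree_pow_le.trans ?_
  rw [natDegree_X_sub_C]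
  omega

/-- The numerator of the conjugate map. -/
noncomputable def tP (d : ℕ) (b : ℂ) (_P Q : ℂ[X]) : ℂ[X] := tr d b Q

/-- The denominator of the conjugate map. -/
noncomputable def tQ (d : ℕ) (b : ℂ) (P Q : ℂ[X]) : ℂ[X] := tr d b P - C b * tr d b Q

/-- The numerator of the map with given conjugate. -/
noncomputable def iP (d : ℕ) (b : ℂ) (R S : ℂ[X]) : ℂ[X] := ti d b (S + C b * R)

/-- The denominator of the map with given conjugate. -/
noncomputable def iQ (d : ℕ) (b : ℂ) (R _S : ℂ[X]) : ℂ[X] := ti d b R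

variable {d : ℕ}

lemma tP_deg : (tP d b P Q).natDegree ≤ d := tr_deg

lemma tQ_deg : (tQ d b P Q).natDegree ≤ d :=
  (natDegree_sub_le _ _).trans (max_le tr_deg ((natDegree_C_mul_le _ _).trans tr_deg))

lemma iP_deg : (iP d b P Q).natDegree ≤ d := ti_deg

lemma iQ_deg : (iQ d b P Q).natDegree ≤ d := ti_deg

lemma iP_t (hP : P.natDegree ≤ d) : iP d b (tP d b P Q) (tQ d b P Q) = P := by
  unfold iP tP tQ
  rw [sub_add_cancel, ti_tr hP]

lemma iQ_t (hQ : Q.natDegree ≤ d) : iQ d b (tP d b P Q) (tQ d b P Q) = Q := by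
  unfold iQ tP
  rw [ti_tr hQ]

lemma tP_i (hR : R.natDegree ≤ d) : tP d b (iP d b R S) (iQ d b R S) = R := by
  unfold tP iQ
  rw [tr_ti hR]

lemma tQ_i (hR : R.natDegree ≤ d) (hS : S.natDegree ≤ d) :
    tQ d b (iP d b R S) (iQ d b R S) = S := by
  unfold tQ iP iQ
  rw [tr_ti hR, tr_ti ((natDegree_add_le _ _).trans (max_le hS
    ((natDegree_C_mul_le _ _).trans hR))), add_sub_cancel_right]

lemma hom_C_mul (a : ℂ) (P : ℂ[X]) (u v : ℂ) : hom (C a * P) d u v = a * hom P d u v := by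
  simp only [hom, coeff_C_mul, Finset.mul_sum]
  refine Finset.sum_congr rfl fun k _ => ?_
  ring

lemma hom_sub (P H : ℂ[X]) (u v : ℂ) : hom (P - H) d u v = hom P d u v - hom H d u v := by
  simp only [hom, coeff_sub, ← Finset.sum_sub_distrib]
  refine Finset.sum_congr rfl fun k _ => ?_
  ring

lemma hom_tP (u v : ℂ) : hom (tP d b P Q) d u v = hom Q d (b * u + v) u := hom_tr u v

lemma hom_tQ (u v : ℂ) : hom (tQ d b P Q) d u v =
    hom P d (b * u + v) u - b * hom Q d (b * u + v) u := by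
  unfold tQ
  rw [hom_sub, hom_C_mul, hom_tr, hom_tr]

/-- The pair defines a rational map of degree `d`. -/
def RD (d : ℕ) (P Q : ℂ[X]) : Prop := IsCoprime P Q ∧ max P.natDegree Q.natDegree = d

lemma rd_iff (hd : 0 < d) (hP : P.natDegree ≤ d) (hQ : Q.natDegree ≤ d) :
    RD d P Q ↔ ∀ u v : ℂ, (u ≠ 0 ∨ v ≠ 0) → hom P d u v ≠ 0 ∨ hom Q d u v ≠ 0 := by
  constructor
  · rintro ⟨h1, h2⟩ u v huv
    exact hom_not_both h1 h2.symm huv hd
  · intro h
    constructor
    · rw [Polynomial.isCoprime_iff_aeval_ne_zero_of_isAlgClosed ℂ ℂ]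
      intro a
      simp only [coe_aeval_eq_eval]
      have h1 := h a 1 (Or.inr one_ne_zero)
      rw [hom_ne hP one_ne_zero, hom_ne hQ one_ne_zero] at h1
      simpa using h1
    · have h1 := h 1 0 (Or.inl one_ne_zero)
      rw [hom_zero, hom_zero, one_pow, mul_one, mul_one] at h1
      apply le_antisymm (max_le hP hQ)
      rcases h1 with h1 | h1
      · exact (le_natDegree_of_ne_zero h1).trans (le_max_left _ _)
      · exact (le_natDegree_of_ne_zero h1).trans (le_max_right _ _)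

lemma rd_t (hd : 0 < d) (hP : P.natDegree ≤ d) (hQ : Q.natDegree ≤ d) :
    RD d (tP d b P Q) (tQ d b P Q) ↔ RD d P Q := by
  rw [rd_iff hd tP_deg tQ_deg, rd_iff hd hP hQ]
  constructor
  · intro h u v huv
    have h1 := h v (u - b * v) (by
      by_contra h2
      push Not at h2
      obtain ⟨h3, h4⟩ := h2
      rw [h3, mul_zero, sub_zero] at h4
      rcases huv with h5 | h5
      · exact h5 h4
      · exact h5 h3)
    rw [hom_tP, hom_tQ] at h1
    have h2 : b * v + (u - b * v) = u := by ring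
    rw [h2] at h1
    by_contra h3
    push Not at h3
    rw [h3.1, h3.2] at h1
    simp at h1
  · intro h u v huv
    have h1 := h (b * u + v) u (by
      by_contra h2
      push Not at h2
      obtain ⟨h3, h4⟩ := h2
      rw [h4, mul_zero, zero_add] at h3
      rcases huv with h5 | h5
      · exact h5 h4
      · exact h5 h3)
    rw [hom_tP, hom_tQ]
    by_contra h3
    push Not at h3
    obtain ⟨h4, h5⟩ := h3
    rw [h4, mul_zero, sub_zero] at h5
    rcases h1 with h6 | h6
    · exact h6 h5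
    · exact h6 h4

/-! ### The critical points -/

lemma tr_eval_ne (hP : P.natDegree ≤ N) {w : ℂ} (hw : w ≠ 0) :
    (tr N b P).eval w = w ^ N * P.eval (b + w⁻¹) := by
  rw [tr_eval, hom_ne hP hw]
  congr 2
  field_simp

lemma tr_der_ne (hP : P.natDegree ≤ N) {w : ℂ} (hw : w ≠ 0) :
    (derivative (tr N b P)).eval w = N * w ^ (N - 1) * P.eval (b + w⁻¹) -
      w ^ N * ((derivative P).eval (b + w⁻¹) * (w ^ 2)⁻¹) := by
  have h1 : HasDerivAt (fun w : ℂ => w ^ N * P.eval (b + w⁻¹))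
      (N * w ^ (N - 1) * P.eval (b + w⁻¹) +
        w ^ N * ((derivative P).eval (b + w⁻¹) * (-(w ^ 2)⁻¹))) w := by
    apply HasDerivAt.mul (hasDerivAt_pow N w)
    exact (P.hasDerivAt (b + w⁻¹)).comp w ((hasDerivAt_inv hw).const_add b)
  have h2 : HasDerivAt (fun w : ℂ => (tr N b P).eval w) ((derivative (tr N b P)).eval w) w :=
    (tr N b P).hasDerivAt w
  have h3 : (fun w : ℂ => (tr N b P).eval w) =ᶠ[𝓝 w] fun w : ℂ => w ^ N * P.eval (b + w⁻¹) := by
    filter_upwards [isOpen_compl_singleton.mem_nhds (show w ∈ ({0} : Set ℂ)ᶜ from hw)] with y hy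
    exact tr_eval_ne hP hy
  have h4 := (h1.congr_of_eventuallyEq h3).unique h2
  rw [← h4]
  ring

lemma ext_ne {A B : ℂ[X]} (h : ∀ w : ℂ, w ≠ 0 → A.eval w = B.eval w) : A = B := by
  refine eq_of_infinite_eval_eq _ _ ?_
  refine (Set.Finite.infinite_compl (Set.finite_singleton (0 : ℂ))).mono ?_
  intro w hw
  exact h w hw

/-- The Wronskian of the conjugate map. -/
lemma wr_t (hd : 0 < d) (hP : P.natDegree ≤ d) (hQ : Q.natDegree ≤ d) :
    X ^ 2 * wr (tP d b P Q) (tQ d b P Q) = tr (2 * d) b (wr P Q) := by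
  have hW : (wr P Q).natDegree ≤ 2 * d := by
    unfold wr
    refine (natDegree_sub_le _ _).trans (max_le ?_ ?_)
    · refine natDegree_mul_le.trans ?_
      have := natDegree_derivative_le P
      omega
    · refine natDegree_mul_le.trans ?_
      have := natDegree_derivative_le Q
      omega
  apply ext_ne
  intro w hw
  rw [tr_eval_ne hW hw]
  unfold wr tP tQ
  simp only [eval_mul, eval_sub, derivative_sub, derivative_C_mul, eval_C, eval_pow, eval_X,
    tr_eval_ne hP hw, tr_eval_ne hQ hw, tr_der_ne hP hw, tr_der_ne hQ hw]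
  have h1 : w ^ (2 * d) = w ^ d * w ^ d := by rw [← pow_add]; congr 1; ring
  rw [h1]
  field_simp
  ring

lemma tr_mul_lin {m : ℕ} {c : ℂ} {V : ℂ[X]} (hV : V.natDegree ≤ N) :
    tr (m + N) b ((X - C c) ^ m * V) = (C (b - c) * X + 1) ^ m * tr N b V := by
  have hm : ((X - C c) ^ m * V).natDegree ≤ m + N := by
    refine natDegree_mul_le.trans (add_le_add ?_ hV)
    refine natDegree_pow_le.trans ?_
    rw [natDegree_X_sub_C, mul_one]
  apply ext_ne
  intro w hw
  rw [tr_eval_ne hm hw, eval_mul, eval_mul, tr_eval_ne hV hw]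
  simp only [eval_pow, eval_sub, eval_X, eval_C, eval_add, eval_mul, eval_one]
  have h1 : (b - c) * w + 1 = w * (b + w⁻¹ - c) := by field_simp; ring
  rw [h1, mul_pow, pow_add]
  ring

/-- Multiplicities of the finite zeros. -/
lemma mult_ne {W : ℂ[X]} (hW : W ≠ 0) (hN : W.natDegree ≤ N) {w : ℂ} (hw : w ≠ 0) :
    (tr N b W).rootMultiplicity w = W.rootMultiplicity (b + w⁻¹) := by
  obtain ⟨c, hc⟩ : ∃ c, c = b + w⁻¹ := ⟨_, rfl⟩
  obtain ⟨V, hV1, hV2⟩ := exists_eq_pow_rootMultiplicity_mul_and_not_dvd _ hW c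
  obtain ⟨m, hm⟩ : ∃ m, m = W.rootMultiplicity c := ⟨_, rfl⟩
  rw [← hm] at hV1
  have hV0 : V ≠ 0 := by
    rintro rfl
    simp at hV2
  have hdeg : W.natDegree = m + V.natDegree := by
    conv_lhs => rw [hV1]
    rw [natDegree_mul (pow_ne_zero _ (X_sub_C_ne_zero c)) hV0, natDegree_pow, natDegree_X_sub_C,
      mul_one]
  have hVc : V.eval c ≠ 0 := fun h => hV2 (dvd_iff_isRoot.2 h)
  have hVN : V.natDegree ≤ N - m := by omega
  have h1 : tr N b W = (C (b - c) * X + 1) ^ m * tr (N - m) b V := by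
    have h2 := tr_mul_lin (b := b) (m := m) (c := c) hVN
    rw [← hV1, show m + (N - m) = N by omega] at h2
    exact h2
  have h3 : (C (b - c) * X + 1 : ℂ[X]) = C (b - c) * (X - C w) := by
    rw [mul_sub, ← C_mul, hc]
    have : (b - (b + w⁻¹)) * w = -1 := by field_simp; ring
    rw [this, C_neg, C_1, sub_neg_eq_add]
  have hbc : b - c ≠ 0 := by
    rw [hc]
    simpa using hw
  have h4 : (tr (N - m) b V).eval w ≠ 0 := by
    rw [tr_eval_ne hVN hw, ← hc]
    exact mul_ne_zero (pow_ne_zero _ hw) hVc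
  have h4' : tr (N - m) b V ≠ 0 := by
    intro h
    rw [h, eval_zero] at h4
    exact h4 rfl
  rw [← hc, ← hm, h1, h3, mul_pow, ← C_pow]
  have h5 : C ((b - c) ^ m) ≠ 0 := by
    rw [Ne, C_eq_zero]
    exact pow_ne_zero _ hbc
  have h6 : ((X - C w) ^ m : ℂ[X]) ≠ 0 := pow_ne_zero _ (X_sub_C_ne_zero w)
  rw [rootMultiplicity_mul (mul_ne_zero (mul_ne_zero h5 h6) h4'),
    rootMultiplicity_mul (mul_ne_zero h5 h6), rootMultiplicity_C, rootMultiplicity_X_sub_C_pow,
    rootMultiplicity_eq_zero (p := tr (N - m) b V) (x := w) h4]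
  omega

/-- The multiplicity at infinity. -/
lemma mult_zero {W : ℂ[X]} (hW : W ≠ 0) (hN : W.natDegree ≤ N) :
    (tr N b W).rootMultiplicity 0 = N - W.natDegree := by
  obtain ⟨n, hn⟩ : ∃ n, n = W.natDegree := ⟨_, rfl⟩
  rw [← hn] at hN ⊢
  have h1 : tr N b W = X ^ (N - n) * tr n b W := by
    apply ext_ne
    intro w hw
    rw [tr_eval_ne (by omega) hw, eval_mul, eval_pow, eval_X, tr_eval_ne (by omega) hw]
    rw [← mul_assoc, ← pow_add]
    congr 2
    omega
  have h2 : (tr n b W).eval 0 ≠ 0 := by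
    rw [tr_eval, mul_zero, zero_add, hom_zero, one_pow, mul_one, hn]
    exact leadingCoeff_ne_zero.2 hW
  have h3 : tr n b W ≠ 0 := by
    intro h
    rw [h, eval_zero] at h2
    exact h2 rfl
  have h4 : (X ^ (N - n) : ℂ[X]) = (X - C 0) ^ (N - n) := by rw [C_0, sub_zero]
  have h5 : ((X - C 0) ^ (N - n) : ℂ[X]) ≠ 0 := pow_ne_zero _ (X_sub_C_ne_zero 0)
  rw [h1, h4, rootMultiplicity_mul (mul_ne_zero h5 h3), rootMultiplicity_X_sub_C_pow,
    rootMultiplicity_eq_zero (p := tr n b W) (x := 0) h2, add_zero]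

/-- The multiplicity of a critical point. -/
noncomputable def mult (d : ℕ) (P Q : ℂ[X]) (x : OnePoint ℂ) : ℕ :=
  x.elim (2 * d - 2 - (wr P Q).natDegree) (fun z => (wr P Q).rootMultiplicity z)

lemma mult_t (hd : 0 < d) (hP : P.natDegree ≤ d) (hQ : Q.natDegree ≤ d)
    (hW : wr P Q ≠ 0) (w : ℂ) :
    (wr (tP d b P Q) (tQ d b P Q)).rootMultiplicity w =
      if w = 0 then 2 * d - 2 - (wr P Q).natDegree
      else (wr P Q).rootMultiplicity (b + w⁻¹) := by
  have hWd : (wr P Q).natDegree ≤ 2 * d := by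
    unfold wr
    refine (natDegree_sub_le _ _).trans (max_le ?_ ?_)
    · refine natDegree_mul_le.trans ?_
      have := natDegree_derivative_le P
      omega
    · refine natDegree_mul_le.trans ?_
      have := natDegree_derivative_le Q
      omega
  have h1 := wr_t (b := b) hd hP hQ
  obtain ⟨G, hG⟩ : ∃ G, G = wr (tP d b P Q) (tQ d b P Q) := ⟨_, rfl⟩
  rw [← hG] at h1 ⊢
  have h2 : (X ^ 2 : ℂ[X]) = (X - C 0) ^ 2 := by rw [C_0, sub_zero]
  have htr : tr (2 * d) b (wr P Q) ≠ 0 := by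
    intro h0
    have h3 : ti (2 * d) b (tr (2 * d) b (wr P Q)) = wr P Q := ti_tr hWd
    rw [h0] at h3
    apply hW
    rw [← h3]
    unfold ti
    simp
  have hG0 : G ≠ 0 := by
    rintro rfl
    rw [mul_zero] at h1
    exact htr h1.symm
  have h3 : ((X - C 0) ^ 2 : ℂ[X]) ≠ 0 := pow_ne_zero _ (X_sub_C_ne_zero 0)
  have h4 : ∀ x, (tr (2 * d) b (wr P Q)).rootMultiplicity x =
      ((X - C 0) ^ 2 : ℂ[X]).rootMultiplicity x + G.rootMultiplicity x := by
    intro x
    rw [← h1, h2, rootMultiplicity_mul (mul_ne_zero h3 hG0)]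
  split_ifs with hw
  · have h5 := h4 w
    rw [hw] at h5 ⊢
    rw [mult_zero hW hWd, rootMultiplicity_X_sub_C_pow] at h5
    omega
  · have h5 := h4 w
    rw [mult_ne hW hWd hw, rootMultiplicity_eq_zero (p := ((X - C 0) ^ 2 : ℂ[X])) (x := w) (by
      rw [IsRoot.def, eval_pow, eval_sub, eval_X, eval_C, sub_zero]
      exact pow_ne_zero 2 hw), zero_add] at h5
    exact h5.symm

end Pool.Agent.Zk29.Mu
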